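import Pool.Agent.SPN.Fin

/-! # SPN CEN: legs whose fat hooks do not start at the branch point

`FarL R γ`: the pairs `(s,u)`, `0 ≤ s ≤ u ≤ 1`, of one leg at distance `≥ R`; its edge is `s = 0`.
`Tame R γ`: two pairs `(s,u)`, `(s',u)` with the same upper point, both joined inside `FarL R γ` to the edge,
are joined to each other inside `FarL R γ`.
* `cross0`: the crossing lemma of `Cross` without the hypothesis on the retraction: there are `z, z' ∈ K` with
  `rr z = rr z'.swap`.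
* `bump`, `toEdge`: a point of a connected far set `K` in the fin of leg `i` is joined in this fin to the edge.
* `meet`: from `rr z = rr z'.swap` and tame legs, `z` and `z'.swap` are joined in the far set.
* `main_tame`.  `tame_of_noHook`, `tame_of_oneFar`. -/

set_option autoImplicit false

open Set

noncomputable section

namespace Pool.Agent.SPN

/-- far pairs of one leg -/
def FarL (R : ℝ) (γ : ℝ → ℂ) : Set (ℝ × ℝ) :=
  {p | 0 ≤ p.1 ∧ p.1 ≤ p.2 ∧ p.2 ≤ 1 ∧ R ≤ dist (γ p.1) (γ p.2)}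

/-- tame leg at the scale `R` -/
def Tame (R : ℝ) (γ : ℝ → ℂ) : Prop :=
  ∀ s s' u b b' : ℝ, ((0 : ℝ), b) ∈ connectedComponentIn (FarL R γ) (s, u) →
    ((0 : ℝ), b') ∈ connectedComponentIn (FarL R γ) (s', u) →
    (s', u) ∈ connectedComponentIn (FarL R γ) (s, u)

/-- the points of the leg at distance `≥ R` from the branch point form an interval -/
def OneFar (R : ℝ) (γ : ℝ → ℂ) : Prop :=
  ∀ s t u : ℝ, 0 ≤ s → s ≤ t → t ≤ u → u ≤ 1 → R ≤ dist (γ 0) (γ s) → R ≤ dist (γ 0) (γ u) →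
    R ≤ dist (γ 0) (γ t)

variable {X : Set ℂ} {γ : Fin 3 → ℝ → ℂ}

private theorem hh_self {p q : ℝ} (hp : 0 ≤ p) (hq : 0 ≤ q) (h : p * q = 0) : hh p q = p := by
  unfold hh
  rcases mul_eq_zero.1 h with h1 | h1
  · rw [h1, if_neg (not_lt.2 hq)]
  · rw [h1]
    split_ifs with h2
    · rfl
    · linarith

private theorem cont_single (i : Fin 3) : Continuous (fun t : ℝ => (Pi.single i t : W)) := by
  refine continuous_pi fun j => ?_
  by_cases hj : j = i
  · subst hj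
    simpa using continuous_id'
  · have h1 : (fun t : ℝ => (Pi.single i t : W) j) = fun _ => (0 : ℝ) := by
      funext t
      rw [Pi.single_eq_of_ne hj]
    rw [h1]
    exact continuous_const

theorem tame_of_noHook {R : ℝ} {g : ℝ → ℂ} (h : NoHook R g) : Tame R g := by
  have key : ∀ s u : ℝ, (s, u) ∈ FarL R g → ((0 : ℝ), u) ∈ connectedComponentIn (FarL R g) (s, u) := by
    intro s u hsu
    obtain ⟨h0, h1, h2, h3⟩ := hsu
    simp only at h0 h1 h2 h3
    have hC : IsPreconnected ((fun t : ℝ => (t, u)) '' Icc 0 s) :=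
      isPreconnected_Icc.image _ (Continuous.prodMk continuous_id continuous_const).continuousOn
    have hCF : (fun t : ℝ => (t, u)) '' Icc 0 s ⊆ FarL R g := by
      rintro _ ⟨t, ht, rfl⟩
      refine ⟨ht.1, ht.2.trans h1, h2, ?_⟩
      by_contra hlt
      push Not at hlt
      have := h t s u ht.1 ht.2 h1 h2 hlt
      linarith
    exact hC.subset_connectedComponentIn ⟨s, ⟨h0, le_rfl⟩, rfl⟩ hCF ⟨0, ⟨le_rfl, h0⟩, rfl⟩
  intro s s' u b b' hb hb'
  have m1 : (s, u) ∈ FarL R g := by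
    by_contra hn
    rw [connectedComponentIn_eq_empty hn] at hb
    exact hb
  have m2 : (s', u) ∈ FarL R g := by
    by_contra hn
    rw [connectedComponentIn_eq_empty hn] at hb'
    exact hb'
  have k1 := key s u m1
  have k2 := key s' u m2
  rw [connectedComponentIn_eq k1, ← connectedComponentIn_eq k2]
  exact mem_connectedComponentIn m2

theorem tame_of_oneFar {R : ℝ} {g : ℝ → ℂ} (h : OneFar R g) : Tame R g := by
  intro s s' u b b' hb hb'
  have m1 : ((0 : ℝ), b) ∈ FarL R g := connectedComponentIn_subset _ _ hb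
  have m2 : ((0 : ℝ), b') ∈ FarL R g := connectedComponentIn_subset _ _ hb'
  have m3 : (s', u) ∈ FarL R g := by
    by_contra hn
    rw [connectedComponentIn_eq_empty hn] at hb'
    exact hb'
  have hC : IsPreconnected ((fun t : ℝ => ((0 : ℝ), t)) '' uIcc b b') :=
    isPreconnected_uIcc.image _ (Continuous.prodMk continuous_const continuous_id).continuousOn
  have hCF : (fun t : ℝ => ((0 : ℝ), t)) '' uIcc b b' ⊆ FarL R g := by
    rintro _ ⟨t, ht, rfl⟩
    obtain ⟨-, a1, a2, a3⟩ := m1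
    obtain ⟨-, c1, c2, c3⟩ := m2
    simp only at a1 a2 a3 c1 c2 c3
    rcases le_total b b' with hbb | hbb
    · rw [uIcc_of_le hbb] at ht
      exact ⟨le_rfl, a1.trans ht.1, ht.2.trans c2, h b t b' a1 ht.1 ht.2 c2 a3 c3⟩
    · rw [uIcc_of_ge hbb] at ht
      exact ⟨le_rfl, c1.trans ht.1, ht.2.trans a2, h b' t b c1 ht.1 ht.2 a2 c3 a3⟩
  have k : ((0 : ℝ), b') ∈ connectedComponentIn (FarL R g) ((0 : ℝ), b) :=
    hC.subset_connectedComponentIn ⟨b, left_mem_uIcc, rfl⟩ hCF ⟨b', right_mem_uIcc, rfl⟩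
  rw [connectedComponentIn_eq hb, connectedComponentIn_eq k, ← connectedComponentIn_eq hb']
  exact mem_connectedComponentIn m3

/-- crossing lemma, general form -/
theorem cross0 {a : W} (ha : ∀ i, 0 < a i) {K : Set (W × W)} (hKc : IsCompact K)
    (hK : IsConnected K) (hS : ∀ z ∈ K, z.1 ∈ Sub a ∧ z.2 ∈ Sub a) (hne : ∀ z ∈ K, z.1 ≠ z.2)
    (h11 : ∃ z ∈ K, z.1 1 = a 1) (h12 : ∃ z ∈ K, z.2 1 = a 1)
    (h21 : ∃ z ∈ K, z.1 2 = a 2) (h22 : ∃ z ∈ K, z.2 2 = a 2) :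
    ∃ z ∈ K, ∃ z' ∈ K, rr z = rr z'.swap := by
  have hT : ∀ z ∈ K, z.1 ∈ T ∧ z.2 ∈ T ∧ z.1 ≠ z.2 := fun z hz =>
    ⟨(hS z hz).1.1, (hS z hz).2.1, hne z hz⟩
  have hc := chi_cont ha hT
  have hsw : ∀ z : W × W, chi a (rr z.swap) = -chi a (rr z) := fun z => by
    rw [rr_swap, chi_swap]
  have hsq : ∀ z ∈ K, |(chi a (rr z)).re| ≤ 1 ∧ |(chi a (rr z)).im| ≤ 1 := fun z hz =>
    chi_sq ha (hS z hz).1 (hS z hz).2
  have hne' : ∀ z ∈ K, z.swap.1 ≠ z.swap.2 := fun z hz h => hne z hz h.symm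
  obtain ⟨w, ⟨z, hz, hzw⟩, ⟨z', hz', hzw'⟩⟩ := sq_cross
    (A := (fun z => chi a (rr z)) '' K) (B := (fun z => -chi a (rr z)) '' K)
    (hKc.image_of_continuousOn hc) (hK.image _ hc)
    (hKc.image_of_continuousOn hc.neg) (hK.image _ hc.neg)
    (by
      rintro w ⟨z, hz, rfl⟩
      exact hsq z hz)
    (by
      rintro w ⟨z, hz, rfl⟩
      simp only [Complex.neg_re, Complex.neg_im, abs_neg]
      exact hsq z hz)
    (by
      obtain ⟨z, hz, h⟩ := h11
      refine ⟨_, ⟨z, hz, rfl⟩, ?_⟩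
      have h1 := chi_right ha (z := z.swap) (hS z hz).2 (hS z hz).1 (hne' z hz) h
      rw [hsw, Complex.neg_re] at h1
      show (chi a (rr z)).re = -1
      linarith)
    (by
      obtain ⟨z, hz, h⟩ := h12
      exact ⟨_, ⟨z, hz, rfl⟩, chi_right ha (hS z hz).1 (hS z hz).2 (hne z hz) h⟩)
    (by
      obtain ⟨z, hz, h⟩ := h22
      refine ⟨_, ⟨z, hz, rfl⟩, ?_⟩
      have h1 := chi_top ha (hS z hz).1 (hS z hz).2 (hne z hz) h
      show (-chi a (rr z)).im = -1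
      rw [Complex.neg_im, h1])
    (by
      obtain ⟨z, hz, h⟩ := h21
      refine ⟨_, ⟨z, hz, rfl⟩, ?_⟩
      have h1 := chi_top ha (z := z.swap) (hS z hz).2 (hS z hz).1 (hne' z hz) h
      rw [hsw] at h1
      exact h1)
  have h1 : chi a (rr z) = chi a (rr z'.swap) := by
    rw [hsw]
    exact hzw.trans hzw'.symm
  exact ⟨z, hz, z', hz', chi_inj ha (hS z hz).1 (hS z hz).2 (hS z' hz').2 (hS z' hz').1 h1⟩

/-- the fin of leg `i` with its edge: both points on leg `i`, the first one nearer to the branch point -/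
def Fin1 (i : Fin 3) : Set (W × W) := {z | z.1 i ≤ z.2 i ∧ ∀ j, j ≠ i → z.1 j = 0 ∧ z.2 j = 0}

theorem fin1_closed (i : Fin 3) : IsClosed (Fin1 i) := by
  have e : Fin1 i = {z : W × W | z.1 i ≤ z.2 i} ∩
      ⋂ j : Fin 3, ⋂ _ : j ≠ i, ({z : W × W | z.1 j = 0} ∩ {z : W × W | z.2 j = 0}) := by
    ext z
    simp [Fin1]
  rw [e]
  refine IsClosed.inter ?_ (isClosed_iInter fun j => isClosed_iInter fun _ => IsClosed.inter ?_ ?_)
  · exact isClosed_le ((continuous_apply i).comp continuous_fst)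
      ((continuous_apply i).comp continuous_snd)
  · exact isClosed_eq ((continuous_apply j).comp continuous_fst) continuous_const
  · exact isClosed_eq ((continuous_apply j).comp continuous_snd) continuous_const

/-- boundary bumping for the fin -/
theorem bump {K : Set (W × W)} (hKc : IsCompact K) (hK : IsPreconnected K)
    (hT : ∀ z ∈ K, z.1 ∈ T ∧ z.2 ∈ T) (hne : ∀ z ∈ K, z.1 ≠ z.2) {i : Fin 3}
    (hout : ∃ y ∈ K, y ∉ Fin1 i) {z : W × W} (hz : z ∈ K) (hzF : z ∈ Fin1 i) :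
    ∃ e ∈ connectedComponentIn (K ∩ Fin1 i) z, e.1 i = 0 := by
  by_contra hcon
  push Not at hcon
  have hcomp : IsCompact (K ∩ Fin1 i) := hKc.inter_right (fin1_closed i)
  have hE : IsClosed {w : W × W | w.1 i = 0} :=
    isClosed_eq ((continuous_apply i).comp continuous_fst) continuous_const
  obtain ⟨P, Q, hP, hQ, hPQ, hU, hzP, hEQ⟩ := split hcomp (z := z) ⟨hz, hzF⟩
    (F := (K ∩ Fin1 i) ∩ {w : W × W | w.1 i = 0}) (hcomp.isClosed.inter hE)
    inter_subset_left (fun w hw hw' => hcon w hw' hw.2)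
  have hzP' : z ∈ P := hzP (mem_connectedComponentIn ⟨hz, hzF⟩)
  -- the open set of the fin
  have hO : IsOpen {w : W × W | 0 < w.1 i ∧ w.1 i < w.2 i} :=
    (isOpen_lt continuous_const ((continuous_apply i).comp continuous_fst)).inter
      (isOpen_lt ((continuous_apply i).comp continuous_fst)
        ((continuous_apply i).comp continuous_snd))
  have hPO : P ⊆ {w : W × W | 0 < w.1 i ∧ w.1 i < w.2 i} := by
    intro w hw
    have hwU : w ∈ K ∩ Fin1 i := hU ▸ Or.inl hw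
    have hw0 : w.1 i ≠ 0 := fun h0 => (disjoint_left.1 hPQ) hw (hEQ ⟨hwU, h0⟩)
    have hpos : 0 < w.1 i := lt_of_le_of_ne ((hT w hwU.1).1.1 i).1 (Ne.symm hw0)
    refine ⟨hpos, lt_of_le_of_ne hwU.2.1 fun h => ?_⟩
    exact hne w hwU.1 (eq_of_coord (hT w hwU.1).1 (hT w hwU.1).2 h hpos)
  have hOF : ∀ w ∈ K, (0 < w.1 i ∧ w.1 i < w.2 i) → w ∈ Fin1 i := by
    intro w hw h
    refine ⟨h.2.le, fun j hj => ⟨?_, ?_⟩⟩
    · exact (mul_eq_zero.1 ((hT w hw).1.2 j i hj)).resolve_right h.1.ne'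
    · exact (mul_eq_zero.1 ((hT w hw).2.2 j i hj)).resolve_right (h.1.trans h.2).ne'
  -- `K` is covered by the open sets `O \ Q` and `Pᶜ`
  have hcov : K ⊆ ({w : W × W | 0 < w.1 i ∧ w.1 i < w.2 i} ∩ Qᶜ) ∪ Pᶜ := by
    intro w hw
    by_cases hwP : w ∈ P
    · exact Or.inl ⟨hPO hwP, disjoint_left.1 hPQ hwP⟩
    · exact Or.inr hwP
  obtain ⟨y, hy, hyF⟩ := hout
  have hyP : y ∉ P := fun h => hyF (hU ▸ (Or.inl h : y ∈ P ∪ Q) : y ∈ K ∩ Fin1 i).2
  obtain ⟨w, hw, ⟨⟨hw1, hw2⟩, hw3⟩⟩ := hK _ _ (hO.inter hQ.isClosed.isOpen_compl)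
    hP.isClosed.isOpen_compl hcov ⟨z, hz, hPO hzP', disjoint_left.1 hPQ hzP'⟩ ⟨y, hy, hyP⟩
  have hwF : w ∈ K ∩ Fin1 i := ⟨hw, hOF w hw hw1⟩
  rw [← hU] at hwF
  rcases hwF with h | h
  · exact hw3 h
  · exact hw2 h

/-- points of a connected far set in a fin are joined to the edge -/
theorem toEdge (h : Triod X γ) {R : ℝ} {K : Set (W × W)} (hKc : IsCompact K)
    (hK : IsPreconnected K) (hT : ∀ z ∈ K, z.1 ∈ T ∧ z.2 ∈ T) (hne : ∀ z ∈ K, z.1 ≠ z.2)
    (hd : ∀ z ∈ K, R ≤ ‖Gam γ z.1 - Gam γ z.2‖) {i : Fin 3}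
    (hout : ∃ y ∈ K, y ∉ Fin1 i) {z : W × W} (hz : z ∈ K) (hzF : z ∈ Fin1 i) :
    ∃ b : ℝ, ((0 : ℝ), b) ∈ connectedComponentIn (FarL R (γ i)) (z.1 i, z.2 i) := by
  obtain ⟨e, he, he0⟩ := bump hKc hK hT hne hout hz hzF
  have hcont : Continuous (fun w : W × W => (w.1 i, w.2 i)) :=
    ((continuous_apply i).comp continuous_fst).prodMk ((continuous_apply i).comp continuous_snd)
  have hpre : IsPreconnected ((fun w : W × W => (w.1 i, w.2 i)) ''
      connectedComponentIn (K ∩ Fin1 i) z) :=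
    isPreconnected_connectedComponentIn.image _ hcont.continuousOn
  have hsing : ∀ v : W, (∀ j, j ≠ i → v j = 0) → v = Pi.single i (v i) := by
    intro v hv
    funext j
    by_cases hj : j = i
    · subst hj
      rw [Pi.single_eq_same]
    · rw [Pi.single_eq_of_ne hj]
      exact hv j hj
  have hsub : (fun w : W × W => (w.1 i, w.2 i)) '' connectedComponentIn (K ∩ Fin1 i) z ⊆
      FarL R (γ i) := by
    rintro _ ⟨w, hw, rfl⟩
    have hw' : w ∈ K ∩ Fin1 i := connectedComponentIn_subset _ _ hw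
    refine ⟨((hT w hw'.1).1.1 i).1, hw'.2.1, ((hT w hw'.1).2.1 i).2, ?_⟩
    have h1 := hsing w.1 fun j hj => (hw'.2.2 j hj).1
    have h2 := hsing w.2 fun j hj => (hw'.2.2 j hj).2
    have h3 := hd w hw'.1
    rw [h1, h2, gam_single h, gam_single h, ← dist_eq_norm] at h3
    exact h3
  refine ⟨e.2 i, ?_⟩
  have := hpre.subset_connectedComponentIn (x := (z.1 i, z.2 i))
    ⟨z, mem_connectedComponentIn ⟨hz, hzF⟩, rfl⟩ hsub ⟨e, he, rfl⟩
  simp only [he0] at this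
  exact this

/-- for a pair in the fin the retraction is the pair on the edge -/
private theorem rr_fin {z : W × W} (hT : z.1 ∈ T ∧ z.2 ∈ T) (hne : z.1 ≠ z.2) {i : Fin 3}
    (hz : z ∈ Fin1 i) : 0 < z.2 i ∧ z.1 i < z.2 i ∧ (rr z).1 = 0 ∧ (rr z).2 = z.2 := by
  have hlt : z.1 i < z.2 i := by
    refine lt_of_le_of_ne hz.1 fun h => ?_
    rcases (hT.1.1 i).1.eq_or_lt with h0 | h0
    · apply hne
      funext j
      by_cases hj : j = i
      · subst hj
        exact h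
      · rw [(hz.2 j hj).1, (hz.2 j hj).2]
    · exact hne (eq_of_coord hT.1 hT.2 h h0)
  have hpos : 0 < z.2 i := lt_of_le_of_lt (hT.1.1 i).1 hlt
  refine ⟨hpos, hlt, ?_, ?_⟩
  · funext j
    by_cases hj : j = i
    · subst hj
      simp [rr, hh, not_lt.2 hlt.le]
    · simp [rr, hh, (hz.2 j hj).1, (hz.2 j hj).2]
  · funext j
    by_cases hj : j = i
    · subst hj
      simp [rr, hh, hlt]
    · simp [rr, hh, (hz.2 j hj).1, (hz.2 j hj).2]

/-- a pair whose retraction is on the edge of the fin lies in the fin -/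
private theorem fin_of_rr {w : W × W} (hT : w.1 ∈ T ∧ w.2 ∈ T) {i : Fin 3} (h1 : (rr w).1 = 0)
    (h2 : 0 < (rr w).2 i) : w ∈ Fin1 i ∧ w.2 i = (rr w).2 i := by
  have e2 : (rr w).2 i = hh (w.2 i) (w.1 i) := rfl
  have e1 : ∀ j, hh (w.1 j) (w.2 j) = 0 := fun j => congrFun h1 j
  rw [e2] at h2
  have hlt : w.1 i < w.2 i := by
    by_contra hn
    unfold hh at h2
    rw [if_neg hn] at h2
    exact lt_irrefl _ h2
  have hpos : 0 < w.2 i := lt_of_le_of_lt (hT.1.1 i).1 hlt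
  have h20 : ∀ j, j ≠ i → w.2 j = 0 := fun j hj =>
    (mul_eq_zero.1 (hT.2.2 j i hj)).resolve_right hpos.ne'
  refine ⟨⟨hlt.le, fun j hj => ⟨?_, h20 j hj⟩⟩, ?_⟩
  · have := e1 j
    rw [h20 j hj] at this
    unfold hh at this
    by_contra hne
    rw [if_pos (lt_of_le_of_ne (hT.1.1 j).1 (Ne.symm hne))] at this
    exact hne this
  · rw [e2]
    unfold hh
    rw [if_pos hlt]

/-- outside the fins the retraction is the identity -/
private theorem rr_self {z : W × W} (hT : z.1 ∈ T ∧ z.2 ∈ T) (h1 : ∀ i, z ∉ Fin1 i)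
    (h2 : ∀ i, z.swap ∉ Fin1 i) : rr z = z := by
  have h0 : ∀ i, z.1 i = 0 ∨ z.2 i = 0 := by
    intro i
    by_contra hn
    push Not at hn
    have p1 : 0 < z.1 i := lt_of_le_of_ne (hT.1.1 i).1 (Ne.symm hn.1)
    have p2 : 0 < z.2 i := lt_of_le_of_ne (hT.2.1 i).1 (Ne.symm hn.2)
    have q1 : ∀ j, j ≠ i → z.1 j = 0 := fun j hj =>
      (mul_eq_zero.1 (hT.1.2 j i hj)).resolve_right p1.ne'
    have q2 : ∀ j, j ≠ i → z.2 j = 0 := fun j hj =>
      (mul_eq_zero.1 (hT.2.2 j i hj)).resolve_right p2.ne'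
    rcases le_total (z.1 i) (z.2 i) with h | h
    · exact h1 i ⟨h, fun j hj => ⟨q1 j hj, q2 j hj⟩⟩
    · exact h2 i ⟨h, fun j hj => ⟨q2 j hj, q1 j hj⟩⟩
  unfold rr
  refine Prod.ext ?_ ?_
  · funext i
    exact hh_self (hT.1.1 i).1 (hT.2.1 i).1 (by
      rcases h0 i with h | h <;> rw [h] <;> ring)
  · funext i
    exact hh_self (hT.2.1 i).1 (hT.1.1 i).1 (by
      rcases h0 i with h | h <;> rw [h] <;> ring)

/-- two far pairs in the same fin with the same upper point, both joined to the edge, are joined -/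
private theorem join_fin (h : Triod X γ) {R : ℝ} {i : Fin 3} (hTm : Tame R (γ i)) {z w : W × W}
    (hz : z ∈ Fin1 i) (hw : w ∈ Fin1 i) (hu : w.2 i = z.2 i) {b b' : ℝ}
    (hb : ((0 : ℝ), b) ∈ connectedComponentIn (FarL R (γ i)) (z.1 i, z.2 i))
    (hb' : ((0 : ℝ), b') ∈ connectedComponentIn (FarL R (γ i)) (w.1 i, w.2 i)) :
    w ∈ connectedComponentIn (NN (Gam γ) R) z := by
  rw [hu] at hb'
  have hj := hTm _ _ _ _ _ hb hb'
  have hm : (z.1 i, z.2 i) ∈ FarL R (γ i) := by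
    by_contra hn
    rw [connectedComponentIn_eq_empty hn] at hb
    exact hb
  have hcont : Continuous (fun p : ℝ × ℝ => ((Pi.single i p.1 : W), (Pi.single i p.2 : W))) :=
    ((cont_single i).comp continuous_fst).prodMk ((cont_single i).comp continuous_snd)
  have hpre : IsPreconnected ((fun p : ℝ × ℝ => ((Pi.single i p.1 : W), (Pi.single i p.2 : W))) ''
      connectedComponentIn (FarL R (γ i)) (z.1 i, z.2 i)) :=
    isPreconnected_connectedComponentIn.image _ hcont.continuousOn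
  have hsub : (fun p : ℝ × ℝ => ((Pi.single i p.1 : W), (Pi.single i p.2 : W))) ''
      connectedComponentIn (FarL R (γ i)) (z.1 i, z.2 i) ⊆ NN (Gam γ) R := by
    rintro _ ⟨p, hp, rfl⟩
    obtain ⟨a1, a2, a3, a4⟩ := connectedComponentIn_subset _ _ hp
    refine ⟨single_mem_T ⟨a1, a2.trans a3⟩ i, single_mem_T ⟨a1.trans a2, a3⟩ i, ?_⟩
    show R ≤ ‖Gam γ (Pi.single i p.1) - Gam γ (Pi.single i p.2)‖
    rw [gam_single h, gam_single h, ← dist_eq_norm]
    exact a4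
  have hsing : ∀ v : W, (∀ j, j ≠ i → v j = 0) → Pi.single i (v i) = v := by
    intro v hv
    funext j
    by_cases hj : j = i
    · subst hj
      rw [Pi.single_eq_same]
    · rw [Pi.single_eq_of_ne hj]
      exact (hv j hj).symm
  have e1 : ((Pi.single i (z.1 i) : W), (Pi.single i (z.2 i) : W)) = z :=
    Prod.ext (hsing _ fun j hj => (hz.2 j hj).1) (hsing _ fun j hj => (hz.2 j hj).2)
  have e2 : ((Pi.single i (w.1 i) : W), (Pi.single i (z.2 i) : W)) = w := by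
    rw [← hu]
    exact Prod.ext (hsing _ fun j hj => (hw.2 j hj).1) (hsing _ fun j hj => (hw.2 j hj).2)
  exact hpre.subset_connectedComponentIn ⟨_, mem_connectedComponentIn hm, e1⟩ hsub ⟨_, hj, e2⟩

theorem meet (h : Triod X γ) {R : ℝ} (hTm : ∀ i, Tame R (γ i)) {K : Set (W × W)}
    (hKc : IsCompact K) (hK : IsPreconnected K) (hT : ∀ z ∈ K, z.1 ∈ T ∧ z.2 ∈ T)
    (hne : ∀ z ∈ K, z.1 ≠ z.2) (hd : ∀ z ∈ K, R ≤ ‖Gam γ z.1 - Gam γ z.2‖)
    (hout : ∀ i, ∃ y ∈ K, y ∉ Fin1 i) (hout' : ∀ i, ∃ y ∈ K, y.swap ∉ Fin1 i)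
    {z z' : W × W} (hz : z ∈ K) (hz' : z' ∈ K) (hrr : rr z = rr z'.swap) :
    z'.swap ∈ connectedComponentIn (NN (Gam γ) R) z := by
  -- the swapped set
  have hKN : K ⊆ NN (Gam γ) R := fun w hw => ⟨(hT w hw).1, (hT w hw).2, hd w hw⟩
  have sKc : IsCompact (Prod.swap '' K) := hKc.image continuous_swap
  have sK : IsPreconnected (Prod.swap '' K) := hK.image _ continuous_swap.continuousOn
  have sT : ∀ z ∈ Prod.swap '' K, z.1 ∈ T ∧ z.2 ∈ T := by
    rintro _ ⟨w, hw, rfl⟩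
    exact ⟨(hT w hw).2, (hT w hw).1⟩
  have sne : ∀ z ∈ Prod.swap '' K, z.1 ≠ z.2 := by
    rintro _ ⟨w, hw, rfl⟩
    exact fun h => hne w hw h.symm
  have sd : ∀ z ∈ Prod.swap '' K, R ≤ ‖Gam γ z.1 - Gam γ z.2‖ := by
    rintro _ ⟨w, hw, rfl⟩
    have := hd w hw
    rw [norm_sub_rev] at this
    exact this
  have sout : ∀ i, ∃ y ∈ Prod.swap '' K, y ∉ Fin1 i := by
    intro i
    obtain ⟨y, hy, hyF⟩ := hout' i
    exact ⟨y.swap, ⟨y, hy, rfl⟩, hyF⟩
  -- both in the same fin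
  have case1 : ∀ i, z ∈ Fin1 i → z'.swap ∈ connectedComponentIn (NN (Gam γ) R) z := by
    intro i hi
    obtain ⟨p1, p2, p3, p4⟩ := rr_fin (hT z hz) (hne z hz) hi
    have hw1 : (rr z'.swap).1 = 0 := by rw [← hrr, p3]
    have hw2 : (rr z'.swap).2 = z.2 := by rw [← hrr, p4]
    obtain ⟨hwF, hwu⟩ := fin_of_rr (w := z'.swap) (sT _ ⟨z', hz', rfl⟩) hw1
      (by rw [hw2]; exact p1)
    rw [hw2] at hwu
    obtain ⟨b, hb⟩ := toEdge h hKc hK hT hne hd (hout i) hz hi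
    obtain ⟨b', hb'⟩ := toEdge h sKc sK sT sne sd (sout i) ⟨z', hz', rfl⟩ hwF
    exact join_fin h (hTm i) hi hwF hwu hb hb'
  have case2 : ∀ i, z'.swap ∈ Fin1 i → z'.swap ∈ connectedComponentIn (NN (Gam γ) R) z := by
    intro i hi
    obtain ⟨p1, p2, p3, p4⟩ := rr_fin (sT _ ⟨z', hz', rfl⟩) (sne _ ⟨z', hz', rfl⟩) hi
    have hw1 : (rr z).1 = 0 := by rw [hrr, p3]
    have hw2 : (rr z).2 = z'.swap.2 := by rw [hrr, p4]
    obtain ⟨hwF, -⟩ := fin_of_rr (w := z) (hT z hz) hw1 (by rw [hw2]; exact p1)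
    exact case1 i hwF
  -- the mirror cases
  have hrr' : rr z' = rr z.swap := by
    rw [rr_swap, hrr, rr_swap]
    rfl
  have swapN : ∀ w : W × W, w ∈ NN (Gam γ) R → w.swap ∈ NN (Gam γ) R := by
    rintro w ⟨h1, h2, h3⟩
    exact ⟨h2, h1, by rw [norm_sub_rev]; exact h3⟩
  have flip : ∀ u v : W × W, u.swap ∈ connectedComponentIn (NN (Gam γ) R) v →
      v.swap ∈ connectedComponentIn (NN (Gam γ) R) u := by
    intro u v huv
    have hv : v ∈ NN (Gam γ) R := by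
      by_contra hn
      rw [connectedComponentIn_eq_empty hn] at huv
      exact huv
    have hpre : IsPreconnected (Prod.swap '' connectedComponentIn (NN (Gam γ) R) v) :=
      isPreconnected_connectedComponentIn.image _ continuous_swap.continuousOn
    have hsub : Prod.swap '' connectedComponentIn (NN (Gam γ) R) v ⊆ NN (Gam γ) R := by
      rintro _ ⟨w, hw, rfl⟩
      exact swapN w (connectedComponentIn_subset _ _ hw)
    exact hpre.subset_connectedComponentIn (x := u) ⟨u.swap, huv, Prod.swap_swap u⟩ hsub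
      ⟨v, mem_connectedComponentIn hv, rfl⟩
  have case3 : ∀ i, z' ∈ Fin1 i → z'.swap ∈ connectedComponentIn (NN (Gam γ) R) z := by
    intro i hi
    obtain ⟨p1, p2, p3, p4⟩ := rr_fin (hT z' hz') (hne z' hz') hi
    have hw1 : (rr z.swap).1 = 0 := by rw [← hrr', p3]
    have hw2 : (rr z.swap).2 = z'.2 := by rw [← hrr', p4]
    obtain ⟨hwF, hwu⟩ := fin_of_rr (w := z.swap) (sT _ ⟨z, hz, rfl⟩) hw1
      (by rw [hw2]; exact p1)
    rw [hw2] at hwu
    obtain ⟨b, hb⟩ := toEdge h hKc hK hT hne hd (hout i) hz' hi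
    obtain ⟨b', hb'⟩ := toEdge h sKc sK sT sne sd (sout i) ⟨z, hz, rfl⟩ hwF
    exact flip _ _ (join_fin h (hTm i) hi hwF hwu hb hb')
  have case4 : ∀ i, z.swap ∈ Fin1 i → z'.swap ∈ connectedComponentIn (NN (Gam γ) R) z := by
    intro i hi
    obtain ⟨p1, p2, p3, p4⟩ := rr_fin (sT _ ⟨z, hz, rfl⟩) (sne _ ⟨z, hz, rfl⟩) hi
    have hw1 : (rr z').1 = 0 := by rw [hrr', p3]
    have hw2 : (rr z').2 = z.swap.2 := by rw [hrr', p4]
    obtain ⟨hwF, -⟩ := fin_of_rr (w := z') (hT z' hz') hw1 (by rw [hw2]; exact p1)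
    exact case3 i hwF
  by_cases c1 : ∃ i, z ∈ Fin1 i
  · obtain ⟨i, hi⟩ := c1
    exact case1 i hi
  by_cases c2 : ∃ i, z'.swap ∈ Fin1 i
  · obtain ⟨i, hi⟩ := c2
    exact case2 i hi
  by_cases c3 : ∃ i, z' ∈ Fin1 i
  · obtain ⟨i, hi⟩ := c3
    exact case3 i hi
  by_cases c4 : ∃ i, z.swap ∈ Fin1 i
  · obtain ⟨i, hi⟩ := c4
    exact case4 i hi
  push Not at c1 c2 c3 c4
  have e1 : rr z = z := rr_self (hT z hz) c1 c4
  have e2 : rr z'.swap = z'.swap := rr_self (sT _ ⟨z', hz', rfl⟩) c2 (by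
    intro i
    rw [Prod.swap_swap]
    exact c3 i)
  rw [e1, e2] at hrr
  rw [← hrr]
  exact mem_connectedComponentIn (hKN hz)

theorem main_tame (h : Triod X γ) {R : ℝ} (hR : R < spn X) (hTm : ∀ i, Tame R (γ i)) :
    R ≤ sspn X := by
  by_cases hR0 : R ≤ 0
  · exact hR0.trans (le_csSup (spn_facts h).2.1 (spn_facts h).2.2.2.1)
  · push Not at hR0
    have hne : (spanVals X).Nonempty := ⟨0, (spn_facts h).2.2.2.2.1 (spn_facts h).2.2.2.1⟩
    obtain ⟨r, ⟨Z, hZc, hZ, hZX, hp, hr⟩, hRr⟩ := exists_lt_of_lt_csSup hne hR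
    obtain ⟨Z', hZ'c, hZ', hZ'T, hG, hp', -⟩ := pull h hZc hZ hZX
    have hdist : ∀ z ∈ Z', R ≤ ‖Gam γ z.1 - Gam γ z.2‖ := by
      intro z hz
      have h1 : sInf ((fun z : ℂ × ℂ => dist z.1 z.2) '' Z) ≤ ‖Gam γ z.1 - Gam γ z.2‖ := by
        refine csInf_le ⟨0, ?_⟩ ⟨(Gam γ z.1, Gam γ z.2), ?_, ?_⟩
        · rintro _ ⟨w, -, rfl⟩
          exact dist_nonneg
        · rw [← hG]
          exact ⟨z, hz, rfl⟩
        · exact dist_eq_norm _ _
      rw [← hr] at h1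
      linarith
    have hnd : ∀ z : W × W, R ≤ ‖Gam γ z.1 - Gam γ z.2‖ → z.1 ≠ z.2 := by
      intro z hz heq
      rw [heq, sub_self, norm_zero] at hz
      linarith
    obtain ⟨a, ha, haS, ha1, ha2⟩ := tips hZ'c hZ' hZ'T (fun z hz => hnd z (hdist z hz)) (hp' hp)
    obtain ⟨z, hz, z', hz', hrr⟩ := cross0 ha hZ'c hZ' haS (fun z hz => hnd z (hdist z hz))
      (ha1 1) (ha2 1) (ha1 2) (ha2 2)
    have hfin : ∀ i : Fin 3, ∃ j : Fin 3, j ≠ i := by decide
    have hout : ∀ i, ∃ y ∈ Z', y ∉ Fin1 i := by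
      intro i
      obtain ⟨j, hj⟩ := hfin i
      obtain ⟨y, hy, hyj⟩ := ha1 j
      exact ⟨y, hy, fun hF => (ha j).ne' (hyj ▸ (hF.2 j hj).1)⟩
    have hout' : ∀ i, ∃ y ∈ Z', y.swap ∉ Fin1 i := by
      intro i
      obtain ⟨j, hj⟩ := hfin i
      obtain ⟨y, hy, hyj⟩ := ha1 j
      exact ⟨y, hy, fun hF => (ha j).ne' (hyj ▸ (hF.2 j hj).2)⟩
    have hm := meet h hTm hZ'c hZ'.isPreconnected hZ'T (fun z hz => hnd z (hdist z hz)) hdist
      hout hout' hz hz' hrr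
    have hZN : Z' ⊆ NN (Gam γ) R := fun z hz => ⟨(hZ'T z hz).1, (hZ'T z hz).2, hdist z hz⟩
    have hz'c : z' ∈ connectedComponentIn (NN (Gam γ) R) z :=
      hZ'.isPreconnected.subset_connectedComponentIn hz hZN hz'
    exact surj h hR0 (hZN hz) ⟨z', hz'c, hm⟩

end Pool.Agent.SPN
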