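import Mathlib

/-! # SPN MODEL: the standard triod, the retraction of the fins and the chart (MP_613dde_gt)

`W = Fin 3 → ℝ`; `T` = vectors with coordinates in `[0,1]`, at most one of them nonzero (three legs, branch
point `0`).  `hh p q = p` if `q < p`, `0` otherwise.  `rr (x,y) = (x',y')`: if `x, y` lie on the same open leg
the point nearer to `0` is moved to `0`, otherwise nothing changes.  `a : W` positive = tips of a subtriod
`Sub a = {x ∈ T | x i ≤ a i}`.
Chart: with `X i = x i / a i`, `Y i = y i / a i`: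
`ff i = Y i + (1 - Y i) X 0 / 2 - (X i + (1 - X i) Y 0 / 2)`, `i = 1, 2`; `chi = ff 1 + i ff 2`.
* the function `(x,y) ↦ rr (x,y)` is continuous on pairs `x ≠ y` of `T`: coordinatewise `hh (x i) (y i)` can
  jump only where `x i = y i > 0`, and this means `x = y` in `T`.
* `rr z` is never a pair on one open leg: `(rr z).1 i * (rr z).2 i = 0`.
* injectivity: for pairs `(x,y)` of `Sub a` with `x i y i = 0` for all `i` (normalised `a = 1`): if `x 0 = s > 0`
  then `y 0 = 0`, `x 1 = x 2 = 0`, `ff 1, ff 2 > 0`, `min = s/2`, `max = t + (1-t) s/2` where `t` is the other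
  coordinate (leg 1 or 2); if `y 0 > 0` the same with signs reversed; if `x 0 = y 0 = 0` then
  `ff 1 = y 1 - x 1`, `ff 2 = y 2 - x 2` and `ff 1 * ff 2 ≤ 0`, and `x, y` are the negative and positive
  parts. -/

set_option autoImplicit false

open Set

noncomputable section

namespace Pool.Agent.SPN

abbrev W := Fin 3 → ℝ

/-- the standard triod -/
def T : Set W := {v | (∀ i, 0 ≤ v i ∧ v i ≤ 1) ∧ ∀ i j, i ≠ j → v i * v j = 0}

/-- subtriod with tips `a` -/
def Sub (a : W) : Set W := {v | v ∈ T ∧ ∀ i, v i ≤ a i}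

theorem T_compact : IsCompact T := by
  have h1 : IsCompact (Set.pi univ fun _ : Fin 3 => Icc (0 : ℝ) 1) :=
    isCompact_univ_pi fun _ => isCompact_Icc
  refine h1.of_isClosed_subset ?_ fun v hv i _ => hv.1 i
  have e : T = (⋂ i : Fin 3, {v : W | 0 ≤ v i} ∩ {v : W | v i ≤ 1}) ∩
      ⋂ i : Fin 3, ⋂ j : Fin 3, ⋂ _ : i ≠ j, {v : W | v i * v j = 0} := by
    ext v
    simp [T]
  rw [e]
  refine IsClosed.inter (isClosed_iInter fun i => IsClosed.inter ?_ ?_)
    (isClosed_iInter fun i => isClosed_iInter fun j => isClosed_iInter fun _ => ?_)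
  · exact isClosed_le continuous_const (continuous_apply i)
  · exact isClosed_le (continuous_apply i) continuous_const
  · exact isClosed_eq ((continuous_apply i).mul (continuous_apply j)) continuous_const

theorem Sub_compact (a : W) : IsCompact (Sub a) := by
  have e : Sub a = T ∩ ⋂ i : Fin 3, {v : W | v i ≤ a i} := by
    ext v
    simp [Sub]
  rw [e]
  exact T_compact.inter_right (isClosed_iInter fun i =>
    isClosed_le (continuous_apply i) continuous_const)

theorem zero_mem_T : (0 : W) ∈ T := by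
  refine ⟨fun i => ?_, fun i j _ => ?_⟩ <;> simp

theorem smul_mem_T {t : ℝ} (ht : t ∈ Icc (0 : ℝ) 1) {v : W} (hv : v ∈ T) : t • v ∈ T := by
  refine ⟨fun i => ⟨?_, ?_⟩, fun i j hij => ?_⟩
  · rw [Pi.smul_apply, smul_eq_mul]
    exact mul_nonneg ht.1 (hv.1 i).1
  · rw [Pi.smul_apply, smul_eq_mul]
    have := mul_le_mul ht.2 (hv.1 i).2 (hv.1 i).1 zero_le_one
    linarith
  · rw [Pi.smul_apply, Pi.smul_apply, smul_eq_mul, smul_eq_mul]
    have := hv.2 i j hij
    calc t * v i * (t * v j) = t * t * (v i * v j) := by ring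
      _ = 0 := by rw [this, mul_zero]

theorem single_mem_T {t : ℝ} (ht : t ∈ Icc (0 : ℝ) 1) (i : Fin 3) :
    (Pi.single i t : W) ∈ T := by
  refine ⟨fun j => ?_, fun j k hjk => ?_⟩
  · by_cases h : j = i
    · subst h; rw [Pi.single_eq_same]; exact ht
    · rw [Pi.single_eq_of_ne h]; exact ⟨le_rfl, zero_le_one⟩
  · by_cases h : j = i
    · have h2 : k ≠ i := fun h3 => hjk (h.trans h3.symm)
      rw [Pi.single_eq_of_ne h2, mul_zero]
    · rw [Pi.single_eq_of_ne h, zero_mul]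

/-- every point of `T` lies on a leg -/
theorem exists_single {v : W} (hv : v ∈ T) : ∃ i, v = Pi.single i (v i) := by
  by_cases h : ∃ i, v i ≠ 0
  · obtain ⟨i, hi⟩ := h
    refine ⟨i, ?_⟩
    funext j
    by_cases hj : j = i
    · subst hj; rw [Pi.single_eq_same]
    · rw [Pi.single_eq_of_ne hj]
      rcases mul_eq_zero.1 (hv.2 j i hj) with h | h
      · exact h
      · exact absurd h hi
  · push Not at h
    refine ⟨0, ?_⟩
    funext j
    rw [h 0, h j, Pi.single_zero]
    rfl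

/-- two points of `T` with a common positive coordinate are equal -/
theorem eq_of_coord {v w : W} (hv : v ∈ T) (hw : w ∈ T) {i : Fin 3} (h : v i = w i)
    (h0 : 0 < v i) : v = w := by
  have h0' : 0 < w i := h ▸ h0
  funext j
  by_cases hj : j = i
  · subst hj; exact h
  · have h1 : v j = 0 := (mul_eq_zero.1 (hv.2 j i hj)).resolve_right h0.ne'
    have h2 : w j = 0 := (mul_eq_zero.1 (hw.2 j i hj)).resolve_right h0'.ne'
    rw [h1, h2]

def hh (p q : ℝ) : ℝ := if q < p then p else 0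

private lemma hh_nonneg {p q : ℝ} (hp : 0 ≤ p) : 0 ≤ hh p q := by
  unfold hh; split_ifs <;> simp [hp]

private lemma hh_le {p q : ℝ} (hp : 0 ≤ p) : hh p q ≤ p := by
  unfold hh; split_ifs <;> simp [hp]

private lemma hh_zero (q : ℝ) : hh 0 q = 0 := by
  unfold hh; split_ifs <;> rfl

private lemma hh_mul (p q : ℝ) : hh p q * hh q p = 0 := by
  unfold hh
  split_ifs with h1 h2
  · exact absurd h1 (not_lt.2 h2.le)
  · ring
  · ring
  · ring

private lemma hh_mem {a v w : W} (ha : ∀ i, 0 ≤ a i) (hv : v ∈ Sub a) :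
    (fun i => hh (v i) (w i)) ∈ Sub a := by
  refine ⟨⟨fun i => ⟨hh_nonneg (hv.1.1 i).1, (hh_le (hv.1.1 i).1).trans (hv.1.1 i).2⟩,
    fun i j hij => ?_⟩, fun i => (hh_le (hv.1.1 i).1).trans (hv.2 i)⟩
  rcases mul_eq_zero.1 (hv.1.2 i j hij) with h | h
  · simp only [h, hh_zero, zero_mul]
  · simp only [h, hh_zero, mul_zero]

/-- retraction of the fins -/
def rr (z : W × W) : W × W := (fun i => hh (z.1 i) (z.2 i), fun i => hh (z.2 i) (z.1 i))

theorem rr_swap (z : W × W) : rr z.swap = (rr z).swap := rfl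

theorem rr_mem {a : W} (ha : ∀ i, 0 ≤ a i) {z : W × W} (h1 : z.1 ∈ Sub a) (h2 : z.2 ∈ Sub a) :
    (rr z).1 ∈ Sub a ∧ (rr z).2 ∈ Sub a ∧ ∀ i, (rr z).1 i * (rr z).2 i = 0 :=
  ⟨hh_mem ha h1, hh_mem ha h2, fun _ => hh_mul _ _⟩

def ff (i : Fin 3) (X Y : W) : ℝ :=
  Y i + (1 - Y i) * X 0 / 2 - (X i + (1 - X i) * Y 0 / 2)

/-- the chart -/
def chi (a : W) (z : W × W) : ℂ :=
  ⟨ff 1 (fun i => z.1 i / a i) (fun i => z.2 i / a i),
    ff 2 (fun i => z.1 i / a i) (fun i => z.2 i / a i)⟩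

private lemma hh_cont {p q : ℝ} (h : p ≠ q ∨ p = 0) :
    ContinuousAt (fun x : ℝ × ℝ => hh x.1 x.2) (p, q) := by
  by_cases hpq : p = q
  · have hp : p = 0 := by
      rcases h with h | h
      · exact absurd hpq h
      · exact h
    subst hpq
    subst hp
    have h1 : hh (0 : ℝ) 0 = 0 := hh_zero 0
    unfold ContinuousAt
    simp only [h1]
    rw [tendsto_zero_iff_norm_tendsto_zero]
    have h2 : Filter.Tendsto (fun x : ℝ × ℝ => ‖x.1‖) (nhds (0, 0)) (nhds 0) := by
      have : Continuous (fun x : ℝ × ℝ => ‖x.1‖) := continuous_fst.norm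
      have h3 := this.tendsto (0, 0)
      simpa using h3
    refine squeeze_zero (fun x => norm_nonneg _) (fun x => ?_) h2
    unfold hh
    split_ifs
    · exact le_rfl
    · simp
  · rcases lt_or_gt_of_ne hpq with hlt | hlt
    · have ho : IsOpen {x : ℝ × ℝ | x.1 < x.2} := isOpen_lt continuous_fst continuous_snd
      have he : (fun x : ℝ × ℝ => hh x.1 x.2) =ᶠ[nhds (p, q)] fun _ => 0 := by
        filter_upwards [ho.mem_nhds (show (p, q) ∈ {x : ℝ × ℝ | x.1 < x.2} from hlt)] with x hx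
        have hx' : x.1 < x.2 := hx
        unfold hh
        rw [if_neg (not_lt.2 hx'.le)]
      exact continuousAt_const.congr he.symm
    · have ho : IsOpen {x : ℝ × ℝ | x.2 < x.1} := isOpen_lt continuous_snd continuous_fst
      have he : (fun x : ℝ × ℝ => hh x.1 x.2) =ᶠ[nhds (p, q)] fun x => x.1 := by
        filter_upwards [ho.mem_nhds (show (p, q) ∈ {x : ℝ × ℝ | x.2 < x.1} from hlt)] with x hx
        have hx' : x.2 < x.1 := hx
        unfold hh
        rw [if_pos hx']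
      exact continuousAt_fst.congr he.symm

private lemma rr_cont {z : W × W} (h1 : z.1 ∈ T) (h2 : z.2 ∈ T) (hne : z.1 ≠ z.2) :
    ContinuousAt rr z := by
  have hc : ∀ i, z.1 i ≠ z.2 i ∨ z.1 i = 0 := by
    intro i
    by_contra hcon
    push Not at hcon
    exact hne (eq_of_coord h1 h2 hcon.1 (lt_of_le_of_ne (h1.1 i).1 (Ne.symm hcon.2)))
  have hc' : ∀ i, z.2 i ≠ z.1 i ∨ z.2 i = 0 := by
    intro i
    by_cases h : z.2 i = z.1 i
    · right
      rcases hc i with h3 | h3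
      · exact absurd h.symm h3
      · rw [h, h3]
    · left; exact h
  have a1 : ∀ i, ContinuousAt (fun z : W × W => hh (z.1 i) (z.2 i)) z := by
    intro i
    have hg : ContinuousAt (fun z : W × W => (z.1 i, z.2 i)) z :=
      (((continuous_apply i).comp continuous_fst).prodMk
        ((continuous_apply i).comp continuous_snd)).continuousAt
    exact ContinuousAt.comp (f := fun z : W × W => (z.1 i, z.2 i)) (hh_cont (hc i)) hg
  have a2 : ∀ i, ContinuousAt (fun z : W × W => hh (z.2 i) (z.1 i)) z := by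
    intro i
    have hg : ContinuousAt (fun z : W × W => (z.2 i, z.1 i)) z :=
      (((continuous_apply i).comp continuous_snd).prodMk
        ((continuous_apply i).comp continuous_fst)).continuousAt
    exact ContinuousAt.comp (f := fun z : W × W => (z.2 i, z.1 i)) (hh_cont (hc' i)) hg
  exact (continuousAt_pi.2 a1).prodMk (continuousAt_pi.2 a2)

private lemma chi_continuous (a : W) : Continuous (chi a) := by
  have e : chi a = fun z : W × W =>
      ((ff 1 (fun i => z.1 i / a i) (fun i => z.2 i / a i) : ℝ) : ℂ) +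
      ((ff 2 (fun i => z.1 i / a i) (fun i => z.2 i / a i) : ℝ) : ℂ) * Complex.I := by
    funext z
    exact Complex.mk_eq_add_mul_I _ _
  have h1 : ∀ j, Continuous fun z : W × W => z.1 j / a j := fun j =>
    ((continuous_apply j).comp continuous_fst).div_const _
  have h2 : ∀ j, Continuous fun z : W × W => z.2 j / a j := fun j =>
    ((continuous_apply j).comp continuous_snd).div_const _
  have h3 : ∀ j, Continuous fun z : W × W =>
      ff j (fun i => z.1 i / a i) (fun i => z.2 i / a i) := by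
    intro j
    unfold ff
    exact ((h2 j).add (((continuous_const.sub (h2 j)).mul (h1 0)).div_const 2)).sub
      ((h1 j).add (((continuous_const.sub (h1 j)).mul (h2 0)).div_const 2))
  rw [e]
  exact (Complex.continuous_ofReal.comp (h3 1)).add
    ((Complex.continuous_ofReal.comp (h3 2)).mul continuous_const)

/-- normalised disjoint pairs -/
private structure Good (X Y : W) : Prop where
  x0 : ∀ i, 0 ≤ X i
  x1 : ∀ i, X i ≤ 1
  y0 : ∀ i, 0 ≤ Y i
  y1 : ∀ i, Y i ≤ 1
  xx : ∀ i j, i ≠ j → X i * X j = 0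
  yy : ∀ i j, i ≠ j → Y i * Y j = 0
  xy : ∀ i, X i * Y i = 0

private lemma good_of {a : W} (ha : ∀ i, 0 < a i) {z : W × W} (h1 : z.1 ∈ Sub a)
    (h2 : z.2 ∈ Sub a) : Good (fun i => (rr z).1 i / a i) (fun i => (rr z).2 i / a i) := by
  obtain ⟨m1, m2, m3⟩ := rr_mem (fun i => (ha i).le) h1 h2
  refine ⟨fun i => div_nonneg (m1.1.1 i).1 (ha i).le, fun i => ?_,
    fun i => div_nonneg (m2.1.1 i).1 (ha i).le, fun i => ?_, fun i j hij => ?_,
    fun i j hij => ?_, fun i => ?_⟩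
  · rw [div_le_one (ha i)]; exact m1.2 i
  · rw [div_le_one (ha i)]; exact m2.2 i
  · rw [div_mul_div_comm, m1.1.2 i j hij, zero_div]
  · rw [div_mul_div_comm, m2.1.2 i j hij, zero_div]
  · rw [div_mul_div_comm, m3 i, zero_div]

private lemma Good.swap {X Y : W} (h : Good X Y) : Good Y X :=
  ⟨h.y0, h.y1, h.x0, h.x1, h.yy, h.xx, fun i => by rw [mul_comm]; exact h.xy i⟩

private lemma ff_swap (i : Fin 3) (X Y : W) : ff i Y X = -ff i X Y := by
  unfold ff; ring

private lemma ff_le {X Y : W} (h : Good X Y) (i : Fin 3) : ff i X Y ≤ 1 := by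
  have p1 : Y i + (1 - Y i) * X 0 / 2 ≤ 1 := by
    have := mul_nonneg (sub_nonneg.2 (h.y1 i)) (sub_nonneg.2 (h.x1 0))
    have := h.y1 i
    nlinarith
  have p2 : 0 ≤ X i + (1 - X i) * Y 0 / 2 := by
    have := mul_nonneg (sub_nonneg.2 (h.x1 i)) (h.y0 0)
    have := h.x0 i
    linarith
  unfold ff
  linarith

private lemma ff_abs {X Y : W} (h : Good X Y) (i : Fin 3) : |ff i X Y| ≤ 1 := by
  rw [abs_le]
  have h1 := ff_le h i
  have h2 := ff_le h.swap i
  rw [ff_swap] at h2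
  constructor <;> linarith

/-- case X 0 > 0 -/
private lemma ff_caseA {X Y : W} (h : Good X Y) (h0 : 0 < X 0) :
    Y 0 = 0 ∧ X 1 = 0 ∧ X 2 = 0 ∧ (∀ i, i = 1 ∨ i = 2 → ff i X Y = Y i + (1 - Y i) * X 0 / 2) ∧
      0 < ff 1 X Y ∧ 0 < ff 2 X Y := by
  have e0 : Y 0 = 0 := (mul_eq_zero.1 (h.xy 0)).resolve_left h0.ne'
  have e1 : X 1 = 0 := (mul_eq_zero.1 (h.xx 1 0 (by decide))).resolve_right h0.ne'
  have e2 : X 2 = 0 := (mul_eq_zero.1 (h.xx 2 0 (by decide))).resolve_right h0.ne'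
  have e3 : ∀ i, i = 1 ∨ i = 2 → ff i X Y = Y i + (1 - Y i) * X 0 / 2 := by
    rintro i (rfl | rfl)
    · unfold ff; rw [e0, e1]; ring
    · unfold ff; rw [e0, e2]; ring
  have pos : ∀ i, i = 1 ∨ i = 2 → 0 < ff i X Y := by
    intro i hi
    rw [e3 i hi]
    have h1 := h.y0 i
    have h2 := h.y1 i
    have h3 := h.x1 0
    nlinarith
  exact ⟨e0, e1, e2, e3, pos 1 (Or.inl rfl), pos 2 (Or.inr rfl)⟩

/-- case X 0 = Y 0 = 0 -/
private lemma ff_caseC {X Y : W} (h : Good X Y) (h0 : X 0 = 0) (h0' : Y 0 = 0) :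
    (∀ i, ff i X Y = Y i - X i) ∧ ff 1 X Y * ff 2 X Y ≤ 0 := by
  have e : ∀ i, ff i X Y = Y i - X i := by
    intro i
    unfold ff
    rw [h0, h0']
    ring
  refine ⟨e, ?_⟩
  rw [e, e]
  have a1 := h.xx 1 2 (by decide)
  have a2 := h.yy 1 2 (by decide)
  have b1 := mul_nonneg (h.y0 1) (h.x0 2)
  have b2 := mul_nonneg (h.x0 1) (h.y0 2)
  nlinarith

private lemma inj_AA {X Y X' Y' : W} (h : Good X Y) (h' : Good X' Y') (h0 : 0 < X 0)
    (h0' : 0 < X' 0) (e1 : ff 1 X Y = ff 1 X' Y') (e2 : ff 2 X Y = ff 2 X' Y') :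
    X = X' ∧ Y = Y' := by
  obtain ⟨a0, a1, a2, a3, -, -⟩ := ff_caseA h h0
  obtain ⟨b0, b1, b2, b3, -, -⟩ := ff_caseA h' h0'
  have f1 := a3 1 (Or.inl rfl)
  have f2 := a3 2 (Or.inr rfl)
  have g1 := b3 1 (Or.inl rfl)
  have g2 := b3 2 (Or.inr rfl)
  have x1 := h.x1 0
  have x1' := h'.x1 0
  have p1 : 0 ≤ Y 1 * (1 - X 0 / 2) := mul_nonneg (h.y0 1) (by linarith)
  have p2 : 0 ≤ Y 2 * (1 - X 0 / 2) := mul_nonneg (h.y0 2) (by linarith)
  have q1 : 0 ≤ Y' 1 * (1 - X' 0 / 2) := mul_nonneg (h'.y0 1) (by linarith)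
  have q2 : 0 ≤ Y' 2 * (1 - X' 0 / 2) := mul_nonneg (h'.y0 2) (by linarith)
  have hx : X 0 = X' 0 := by
    have c1 : X 0 / 2 ≤ ff 1 X Y := by rw [f1]; nlinarith
    have c2 : X 0 / 2 ≤ ff 2 X Y := by rw [f2]; nlinarith
    have c1' : X' 0 / 2 ≤ ff 1 X Y := by rw [e1, g1]; nlinarith
    have c2' : X' 0 / 2 ≤ ff 2 X Y := by rw [e2, g2]; nlinarith
    have c3 : ff 1 X Y = X 0 / 2 ∨ ff 2 X Y = X 0 / 2 := by
      rcases mul_eq_zero.1 (h.yy 1 2 (by decide)) with hy | hy
      · left; rw [f1, hy]; ring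
      · right; rw [f2, hy]; ring
    have c4 : ff 1 X Y = X' 0 / 2 ∨ ff 2 X Y = X' 0 / 2 := by
      rcases mul_eq_zero.1 (h'.yy 1 2 (by decide)) with hy | hy
      · left; rw [e1, g1, hy]; ring
      · right; rw [e2, g2, hy]; ring
    apply le_antisymm
    · rcases c4 with c | c <;> linarith
    · rcases c3 with c | c <;> linarith
  have k : 0 < 1 - X 0 / 2 := by linarith
  have y1 : Y 1 = Y' 1 := by
    have : Y 1 * (1 - X 0 / 2) = Y' 1 * (1 - X 0 / 2) := by rw [← hx] at g1; nlinarith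
    exact mul_right_cancel₀ k.ne' this
  have y2 : Y 2 = Y' 2 := by
    have : Y 2 * (1 - X 0 / 2) = Y' 2 * (1 - X 0 / 2) := by rw [← hx] at g2; nlinarith
    exact mul_right_cancel₀ k.ne' this
  constructor
  · funext i
    fin_cases i
    · exact hx
    · exact a1.trans b1.symm
    · exact a2.trans b2.symm
  · funext i
    fin_cases i
    · exact a0.trans b0.symm
    · exact y1
    · exact y2

private lemma inj_CC {X Y X' Y' : W} (h : Good X Y) (h' : Good X' Y') (h0 : X 0 = 0)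
    (k0 : Y 0 = 0) (h0' : X' 0 = 0) (k0' : Y' 0 = 0) (e1 : ff 1 X Y = ff 1 X' Y')
    (e2 : ff 2 X Y = ff 2 X' Y') : X = X' ∧ Y = Y' := by
  obtain ⟨a, -⟩ := ff_caseC h h0 k0
  obtain ⟨b, -⟩ := ff_caseC h' h0' k0'
  have key : ∀ i, Y i - X i = Y' i - X' i → X i = X' i ∧ Y i = Y' i := by
    intro i hi
    have u := h.x0 i
    have v := h.y0 i
    have u' := h'.x0 i
    have v' := h'.y0 i
    rcases mul_eq_zero.1 (h.xy i) with hx | hx <;>
      rcases mul_eq_zero.1 (h'.xy i) with hx' | hx' <;> rw [hx] at hi ⊢ <;>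
      rw [hx'] at hi ⊢ <;> constructor <;> linarith
  have k1 := key 1 (by rw [← a 1, ← b 1]; exact e1)
  have k2 := key 2 (by rw [← a 2, ← b 2]; exact e2)
  constructor
  · funext i
    fin_cases i
    · exact h0.trans h0'.symm
    · exact k1.1
    · exact k2.1
  · funext i
    fin_cases i
    · exact k0.trans k0'.symm
    · exact k1.2
    · exact k2.2

private lemma inj_good {X Y X' Y' : W} (h : Good X Y) (h' : Good X' Y')
    (e1 : ff 1 X Y = ff 1 X' Y') (e2 : ff 2 X Y = ff 2 X' Y') : X = X' ∧ Y = Y' := by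
  have s1 : ff 1 Y X = ff 1 Y' X' := by rw [ff_swap, ff_swap 1 X' Y', e1]
  have s2 : ff 2 Y X = ff 2 Y' X' := by rw [ff_swap, ff_swap 2 X' Y', e2]
  rcases (h.x0 0).eq_or_lt with hx | hx
  · rcases (h.y0 0).eq_or_lt with hy | hy
    · rcases (h'.x0 0).eq_or_lt with hx' | hx'
      · rcases (h'.y0 0).eq_or_lt with hy' | hy'
        · exact inj_CC h h' hx.symm hy.symm hx'.symm hy'.symm e1 e2
        · exfalso
          obtain ⟨-, -, -, -, c1, c2⟩ := ff_caseA h'.swap hy'
          have d := (ff_caseC h hx.symm hy.symm).2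
          rw [← s1] at c1
          rw [← s2] at c2
          rw [ff_swap] at c1 c2
          nlinarith
      · exfalso
        obtain ⟨-, -, -, -, c1, c2⟩ := ff_caseA h' hx'
        have d := (ff_caseC h hx.symm hy.symm).2
        rw [← e1] at c1
        rw [← e2] at c2
        nlinarith
    · obtain ⟨-, -, -, -, c1, c2⟩ := ff_caseA h.swap hy
      rcases (h'.y0 0).eq_or_lt with hy' | hy'
      · exfalso
        rcases (h'.x0 0).eq_or_lt with hx' | hx'
        · have d := (ff_caseC h' hx'.symm hy'.symm).2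
          rw [← e1, ← e2] at d
          rw [ff_swap] at c1 c2
          nlinarith
        · obtain ⟨-, -, -, -, d1, d2⟩ := ff_caseA h' hx'
          rw [← e1] at d1
          rw [ff_swap] at c1
          linarith
      · have := inj_AA h.swap h'.swap hy hy' s1 s2
        exact ⟨this.2, this.1⟩
  · obtain ⟨-, -, -, -, c1, c2⟩ := ff_caseA h hx
    rcases (h'.x0 0).eq_or_lt with hx' | hx'
    · exfalso
      rcases (h'.y0 0).eq_or_lt with hy' | hy'
      · have d := (ff_caseC h' hx'.symm hy'.symm).2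
        rw [← e1, ← e2] at d
        nlinarith
      · obtain ⟨-, -, -, -, d1, d2⟩ := ff_caseA h'.swap hy'
        rw [← s1, ff_swap] at d1
        linarith
    · exact inj_AA h h' hx hx' e1 e2

private lemma ff_tip {a : W} (ha : ∀ i, 0 < a i) {z : W × W} (h1 : z.1 ∈ Sub a)
    (h2 : z.2 ∈ Sub a) (hne : z.1 ≠ z.2) {i : Fin 3} (hi : i ≠ 0) (h : z.2 i = a i) :
    ff i (fun j => (rr z).1 j / a j) (fun j => (rr z).2 j / a j) = 1 := by
  have hpos : 0 < z.2 i := by rw [h]; exact ha i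
  have hlt : z.1 i < z.2 i := by
    rcases (h1.2 i).lt_or_eq with h3 | h3
    · rw [h]; exact h3
    · exact absurd (eq_of_coord h2.1 h1.1 (h.trans h3.symm) hpos).symm hne
  have y0 : z.2 0 = 0 := (mul_eq_zero.1 (h2.1.2 0 i (Ne.symm hi))).resolve_right hpos.ne'
  have r1 : (rr z).2 i = a i := by
    show hh (z.2 i) (z.1 i) = a i
    unfold hh
    rw [if_pos hlt, h]
  have r2 : (rr z).1 i = 0 := by
    show hh (z.1 i) (z.2 i) = 0
    unfold hh
    rw [if_neg (not_lt.2 hlt.le)]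
  have r3 : (rr z).2 0 = 0 := by
    show hh (z.2 0) (z.1 0) = 0
    rw [y0, hh_zero]
  unfold ff
  simp only [r1, r2, r3, div_self (ha i).ne', zero_div]
  ring

theorem chi_swap (a : W) (z : W × W) : chi a z.swap = -chi a z := by
  apply Complex.ext
  · rw [Complex.neg_re]
    exact ff_swap 1 (fun i => z.1 i / a i) (fun i => z.2 i / a i)
  · rw [Complex.neg_im]
    exact ff_swap 2 (fun i => z.1 i / a i) (fun i => z.2 i / a i)

theorem chi_cont {a : W} (ha : ∀ i, 0 < a i) {K : Set (W × W)}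
    (hK : ∀ z ∈ K, z.1 ∈ T ∧ z.2 ∈ T ∧ z.1 ≠ z.2) :
    ContinuousOn (fun z => chi a (rr z)) K := by
  intro z hz
  obtain ⟨h1, h2, h3⟩ := hK z hz
  exact (ContinuousAt.comp (f := rr) (chi_continuous a).continuousAt
    (rr_cont h1 h2 h3)).continuousWithinAt

theorem chi_sq {a : W} (ha : ∀ i, 0 < a i) {z : W × W} (h1 : z.1 ∈ Sub a) (h2 : z.2 ∈ Sub a) :
    |(chi a (rr z)).re| ≤ 1 ∧ |(chi a (rr z)).im| ≤ 1 :=
  ⟨ff_abs (good_of ha h1 h2) 1, ff_abs (good_of ha h1 h2) 2⟩

theorem chi_right {a : W} (ha : ∀ i, 0 < a i) {z : W × W} (h1 : z.1 ∈ Sub a)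
    (h2 : z.2 ∈ Sub a) (hne : z.1 ≠ z.2) (h : z.2 1 = a 1) : (chi a (rr z)).re = 1 :=
  ff_tip ha h1 h2 hne (by decide) h

theorem chi_top {a : W} (ha : ∀ i, 0 < a i) {z : W × W} (h1 : z.1 ∈ Sub a)
    (h2 : z.2 ∈ Sub a) (hne : z.1 ≠ z.2) (h : z.2 2 = a 2) : (chi a (rr z)).im = 1 :=
  ff_tip ha h1 h2 hne (by decide) h

theorem chi_inj {a : W} (ha : ∀ i, 0 < a i) {z z' : W × W} (h1 : z.1 ∈ Sub a)
    (h2 : z.2 ∈ Sub a) (h1' : z'.1 ∈ Sub a) (h2' : z'.2 ∈ Sub a)
    (h : chi a (rr z) = chi a (rr z')) : rr z = rr z' := by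
  have e1 := congrArg Complex.re h
  have e2 := congrArg Complex.im h
  obtain ⟨k1, k2⟩ := inj_good (good_of ha h1 h2) (good_of ha h1' h2') e1 e2
  apply Prod.ext
  · funext i
    have h3 := congrFun k1 i
    exact (div_left_inj' (ha i).ne').1 h3
  · funext i
    have h3 := congrFun k2 i
    exact (div_left_inj' (ha i).ne').1 h3

end Pool.Agent.SPN
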