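import Pool.Agent.SPN.Square
import Pool.Agent.SPN.Model

/-! # SPN CROSS: a continuum of the deleted product that reaches the tips meets its swap

`cross`: `K ⊆ Sub a × Sub a` compact connected, without diagonal points, stable under the retraction `rr`
of the fins, containing pairs with `x = tip 1`, `y = tip 1`, `x = tip 2`, `y = tip 2`.  Then some
`z ∈ K` has `z.swap ∈ K`.
Proof: `A = (chi a ∘ rr) '' K` is compact and connected in the square (`chi_cont`, `chi_sq`); `B = -A` is the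
image of the swapped set (`chi_swap`, `rr_swap`).  `A` touches all four sides (`chi_right` for `z` and, by
`chi_swap`, for `z.swap`; the same for `chi_top`).  `sq_cross`: `chi (rr z) = - chi (rr z')
= chi (rr z'.swap)`, so `rr z = (rr z').swap` by `chi_inj`; take the point `rr z' ∈ K`. -/

set_option autoImplicit false

open Set

noncomputable section

namespace Pool.Agent.SPN

theorem cross {a : W} (ha : ∀ i, 0 < a i) {K : Set (W × W)} (hKc : IsCompact K)
    (hK : IsConnected K) (hS : ∀ z ∈ K, z.1 ∈ Sub a ∧ z.2 ∈ Sub a) (hne : ∀ z ∈ K, z.1 ≠ z.2)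
    (hrr : ∀ z ∈ K, rr z ∈ K) (h11 : ∃ z ∈ K, z.1 1 = a 1) (h12 : ∃ z ∈ K, z.2 1 = a 1)
    (h21 : ∃ z ∈ K, z.1 2 = a 2) (h22 : ∃ z ∈ K, z.2 2 = a 2) : ∃ z ∈ K, z.swap ∈ K := by
  have hT : ∀ z ∈ K, z.1 ∈ T ∧ z.2 ∈ T ∧ z.1 ≠ z.2 := fun z hz =>
    ⟨(hS z hz).1.1, (hS z hz).2.1, hne z hz⟩
  have hc := chi_cont ha hT
  have hsw : ∀ z : W × W, chi a (rr z.swap) = -chi a (rr z) := fun z => by
    rw [rr_swap, chi_swap]
  have hsq : ∀ z ∈ K, |(chi a (rr z)).re| ≤ 1 ∧ |(chi a (rr z)).im| ≤ 1 := fun z hz =>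
    chi_sq ha (hS z hz).1 (hS z hz).2
  have hne' : ∀ z ∈ K, z.swap.1 ≠ z.swap.2 := fun z hz h => hne z hz h.symm
  obtain ⟨w, ⟨z, hz, hzw⟩, ⟨z', hz', hzw'⟩⟩ := sq_cross
    (A := (fun z => chi a (rr z)) '' K) (B := (fun z => -chi a (rr z)) '' K)
    (hKc.image_of_continuousOn hc) (hK.image _ hc)
    (hKc.image_of_continuousOn hc.neg) (hK.image _ hc.neg)
    (by
      rintro w ⟨z, hz, rfl⟩
      exact hsq z hz)
    (by
      rintro w ⟨z, hz, rfl⟩
      simp only [Complex.neg_re, Complex.neg_im, abs_neg]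
      exact hsq z hz)
    (by
      obtain ⟨z, hz, h⟩ := h11
      refine ⟨_, ⟨z, hz, rfl⟩, ?_⟩
      have h1 := chi_right ha (z := z.swap) (hS z hz).2 (hS z hz).1 (hne' z hz) h
      rw [hsw, Complex.neg_re] at h1
      show (chi a (rr z)).re = -1
      linarith)
    (by
      obtain ⟨z, hz, h⟩ := h12
      exact ⟨_, ⟨z, hz, rfl⟩, chi_right ha (hS z hz).1 (hS z hz).2 (hne z hz) h⟩)
    (by
      obtain ⟨z, hz, h⟩ := h22
      refine ⟨_, ⟨z, hz, rfl⟩, ?_⟩
      have h1 := chi_top ha (hS z hz).1 (hS z hz).2 (hne z hz) h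
      show (-chi a (rr z)).im = -1
      rw [Complex.neg_im, h1])
    (by
      obtain ⟨z, hz, h⟩ := h21
      refine ⟨_, ⟨z, hz, rfl⟩, ?_⟩
      have h1 := chi_top ha (z := z.swap) (hS z hz).2 (hS z hz).1 (hne' z hz) h
      rw [hsw] at h1
      exact h1)
  have h1 : chi a (rr z) = chi a (rr z'.swap) := by
    rw [hsw]
    exact hzw.trans hzw'.symm
  have h2 := chi_inj ha (hS z hz).1 (hS z hz).2 (hS z' hz').2 (hS z' hz').1 h1
  refine ⟨rr z', hrr z' hz', ?_⟩
  rw [← rr_swap, ← h2]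
  exact hrr z hz

end Pool.Agent.SPN
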