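import Mathlib

/-! # SPN DEFS: span, surjective span, simple triods in the plane (MP_613dde_gt) -/

set_option autoImplicit false

open Set

noncomputable section

namespace Pool.Agent.SPN

/-- the numbers `inf_{(x,y) ∈ Z} |x - y|`, `Z ⊆ X × X` a continuum with equal projections -/
def spanVals (X : Set ℂ) : Set ℝ :=
  {r | ∃ Z : Set (ℂ × ℂ), IsCompact Z ∧ IsConnected Z ∧ Z ⊆ X ×ˢ X ∧
    Prod.fst '' Z = Prod.snd '' Z ∧ r = sInf ((fun z : ℂ × ℂ => dist z.1 z.2) '' Z)}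

/-- the same with `Z` projecting onto `X` -/
def sspanVals (X : Set ℂ) : Set ℝ :=
  {r | ∃ Z : Set (ℂ × ℂ), IsCompact Z ∧ IsConnected Z ∧ Z ⊆ X ×ˢ X ∧
    Prod.fst '' Z = X ∧ Prod.snd '' Z = X ∧
    r = sInf ((fun z : ℂ × ℂ => dist z.1 z.2) '' Z)}

/-- the same for continua with `Z = Z⁻¹` -/
def symVals (X : Set ℂ) : Set ℝ :=
  {r | ∃ Z : Set (ℂ × ℂ), IsCompact Z ∧ IsConnected Z ∧ Z ⊆ X ×ˢ X ∧
    Prod.swap '' Z = Z ∧ r = sInf ((fun z : ℂ × ℂ => dist z.1 z.2) '' Z)}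

/-- span -/
def spn (X : Set ℂ) : ℝ := sSup (spanVals X)

/-- surjective span -/
def sspn (X : Set ℂ) : ℝ := sSup (sspanVals X)

/-- symmetric span -/
def symspn (X : Set ℂ) : ℝ := sSup (symVals X)

/-- `X` is a simple triod with legs `γ 0, γ 1, γ 2`, parametrised from the common endpoint -/
structure Triod (X : Set ℂ) (γ : Fin 3 → ℝ → ℂ) : Prop where
  cont : ∀ i, ContinuousOn (γ i) (Icc 0 1)
  base : ∀ i j, γ i 0 = γ j 0
  inj : ∀ i j, ∀ s ∈ Icc (0 : ℝ) 1, ∀ t ∈ Icc (0 : ℝ) 1, γ i s = γ j t →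
    (i = j ∧ s = t) ∨ (s = 0 ∧ t = 0)
  img : X = ⋃ i, γ i '' Icc 0 1

/-- the arc `γ` (from the branch point) has no hook at the scale `R`: if it comes back to distance less
than `R` from an earlier point, it has stayed at distance less than `R` from the end of this piece -/
def NoHook (R : ℝ) (γ : ℝ → ℂ) : Prop :=
  ∀ s t u : ℝ, 0 ≤ s → s ≤ t → t ≤ u → u ≤ 1 → dist (γ s) (γ u) < R → dist (γ t) (γ u) < R

/-- self-approaching arc: `|γ t - γ u| ≤ |γ s - γ u|` for `s ≤ t ≤ u` -/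
def SelfApp (γ : ℝ → ℂ) : Prop :=
  ∀ s t u : ℝ, 0 ≤ s → s ≤ t → t ≤ u → u ≤ 1 → dist (γ t) (γ u) ≤ dist (γ s) (γ u)

end Pool.Agent.SPN
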