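import Pool.Agent.SPN.LogH
import Pool.Agent.SPN.Model

/-! # SPN PLANAR: a symmetric component of `{|Γ x - Γ y| ≥ ε}` reaches every tip

`Γ : W → ℂ` continuous and injective on `T`, `ε > 0`, `N = {(x,y) ∈ T × T | ε ≤ |Γ x - Γ y|}` (compact),
`z0 ∈ N`, `K = connectedComponentIn N z0`, and `z0.swap ∈ K`.  Then for every `i` there is `z ∈ K` with
`z.1 = Pi.single i 1` (the tip).
* `comp_symm`: `K` is compact, connected, `K.swap = K` (the swap is a homeomorphism of `N`; `K` and its swap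
  are components with a common point).
* `split`: if `K` does not meet the closed set `F ⊆ N` then `N = P ∪ Q`, `P, Q` disjoint compact, `K ⊆ P`,
  `F ⊆ Q` (component = intersection of the clopen sets, compactness).
* Main: let `p0 = Pi.single i 1` and suppose `K` has no point with `z.1 = p0`; by symmetry none with
  `z.2 = p0`.  Apply `split` with `F = {z ∈ N | z.1 = p0}`; let `μ : W × W → ℝ` be continuous, values in
  `[0,1]`, `μ = 0` on `P`, `μ = 1` on `Q` (Urysohn for disjoint closed sets).  For `p ∈ T`, `z = (x,y) ∈ K`: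
  `H p z = (Γ y - Γ x) + μ (p,x) (Γ x - Γ p)`.  It does not vanish: if `|Γ p - Γ x| < ε` then
  `|μ (Γ x - Γ p)| < ε ≤ |Γ y - Γ x|`; if `(p,x) ∈ P`: `μ = 0`; if `(p,x) ∈ Q`: `H = Γ y - Γ p`, and `p = y`
  would give `(y,x) ∈ Q`, but `(y,x) = z.swap ∈ K ⊆ P`.
  Homotopies on `K` (`hasLog_homotopy`, all nonvanishing):
  `h1 t = H ((1-t) • y) z` from `H y z = Γ y - Γ x` (`μ (y,x) = 0`) to `H 0 z`;
  `h2 t = H (t • p0) z` from `H 0 z` to `H p0 z`;
  `h3 t = (Γ y - Γ x) + ((1-t) μ (p0,x) + t) (Γ x - Γ p0)` from `H p0 z` to `Γ y - Γ p0` (if `|Γ p0 - Γ x| ≥ ε`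
  then `(p0,x) ∈ F ⊆ Q`, `μ = 1`, value `Γ y - Γ p0 ≠ 0`; otherwise the second term is smaller than `ε`);
  `h4 t = Γ ((1-t) • y) - Γ p0` from `Γ y - Γ p0` to the constant `Γ 0 - Γ p0 ≠ 0` (`(1-t) • y ≠ p0` because
  `y ≠ p0`, and all coordinates of `(1-t) y` are at most `1 - t`).
  So `z ↦ Γ z.2 - Γ z.1` has a continuous logarithm on `K`: contradiction to `no_odd_log` with `τ = swap`. -/

set_option autoImplicit false

open Set

noncomputable section

namespace Pool.Agent.SPN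

/-- pairs at distance at least `ε` -/
def NN (Γ : W → ℂ) (ε : ℝ) : Set (W × W) :=
  {z | z.1 ∈ T ∧ z.2 ∈ T ∧ ε ≤ ‖Γ z.1 - Γ z.2‖}

theorem NN_compact {Γ : W → ℂ} (hc : ContinuousOn Γ T) (ε : ℝ) : IsCompact (NN Γ ε) := by
  have h1 : IsCompact (T ×ˢ T) := T_compact.prod T_compact
  have h2 : ContinuousOn (fun z : W × W => ‖Γ z.1 - Γ z.2‖) (T ×ˢ T) := by
    refine ContinuousOn.norm (ContinuousOn.sub ?_ ?_)
    · exact hc.comp continuous_fst.continuousOn fun z hz => hz.1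
    · exact hc.comp continuous_snd.continuousOn fun z hz => hz.2
  have h3 : IsClosed ((T ×ˢ T) ∩ (fun z : W × W => ‖Γ z.1 - Γ z.2‖) ⁻¹' Ici ε) :=
    h2.preimage_isClosed_of_isClosed h1.isClosed isClosed_Ici
  have h4 : NN Γ ε = (T ×ˢ T) ∩ (fun z : W × W => ‖Γ z.1 - Γ z.2‖) ⁻¹' Ici ε := by
    ext z
    constructor
    · rintro ⟨ha, hb, hd⟩
      exact ⟨⟨ha, hb⟩, hd⟩
    · rintro ⟨⟨ha, hb⟩, hd⟩
      exact ⟨ha, hb, hd⟩
  rw [h4]
  exact h1.of_isClosed_subset h3 inter_subset_left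

theorem comp_compact {E : Type} [TopologicalSpace E] [T2Space E] {N : Set E}
    (hN : IsCompact N) {z : E} (hz : z ∈ N) : IsCompact (connectedComponentIn N z) := by
  haveI : CompactSpace N := isCompact_iff_compactSpace.1 hN
  rw [connectedComponentIn_eq_image hz]
  exact isClosed_connectedComponent.isCompact.image continuous_subtype_val

theorem comp_symm {Γ : W → ℂ} {ε : ℝ} {z0 : W × W} (hz0 : z0 ∈ NN Γ ε)
    (hs : ∃ z ∈ connectedComponentIn (NN Γ ε) z0,
      z.swap ∈ connectedComponentIn (NN Γ ε) z0) :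
    ∀ z ∈ connectedComponentIn (NN Γ ε) z0, z.swap ∈ connectedComponentIn (NN Γ ε) z0 := by
  obtain ⟨z, hz, hz'⟩ := hs
  have hzN : z ∈ NN Γ ε := connectedComponentIn_subset _ _ hz
  have e1 : Prod.swap '' (NN Γ ε) = NN Γ ε := by
    ext w
    constructor
    · rintro ⟨v, ⟨h1, h2, h3⟩, rfl⟩
      exact ⟨h2, h1, by rw [norm_sub_rev]; exact h3⟩
    · rintro ⟨h1, h2, h3⟩
      exact ⟨w.swap, ⟨h2, h1, by rw [norm_sub_rev]; exact h3⟩, Prod.swap_swap w⟩
  have h1 := ContinuousOn.image_connectedComponentIn_subset (f := Prod.swap) (s := NN Γ ε)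
    continuous_swap.continuousOn hzN
  rw [e1, ← connectedComponentIn_eq hz, ← connectedComponentIn_eq hz'] at h1
  exact fun w hw => h1 ⟨w, hw, rfl⟩

theorem split {E : Type} [TopologicalSpace E] [T2Space E] {N : Set E} (hN : IsCompact N)
    {z : E} (hz : z ∈ N) {F : Set E} (hF : IsClosed F) (hFN : F ⊆ N)
    (hd : ∀ w ∈ F, w ∉ connectedComponentIn N z) :
    ∃ P Q : Set E, IsCompact P ∧ IsCompact Q ∧ Disjoint P Q ∧ P ∪ Q = N ∧
      connectedComponentIn N z ⊆ P ∧ F ⊆ Q := by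
  haveI : CompactSpace N := isCompact_iff_compactSpace.1 hN
  have hF' : IsClosed ((↑) ⁻¹' F : Set N) := hF.preimage continuous_subtype_val
  have hempty : ((↑) ⁻¹' F : Set N) ∩
      (⋂ s : {s : Set N // IsClopen s ∧ (⟨z, hz⟩ : N) ∈ s}, (s : Set N)) = ∅ := by
    rw [← connectedComponent_eq_iInter_isClopen, eq_empty_iff_forall_notMem]
    rintro w ⟨hw1, hw2⟩
    apply hd w hw1
    rw [connectedComponentIn_eq_image hz]
    exact ⟨w, hw2, rfl⟩
  obtain ⟨u, hu⟩ := hF'.isCompact.elim_finite_subfamily_closed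
    (fun s : {s : Set N // IsClopen s ∧ (⟨z, hz⟩ : N) ∈ s} => (s : Set N))
    (fun s => s.2.1.isClosed) hempty
  have hcl : IsClopen (⋂ s ∈ u, (s : Set N)) :=
    isClopen_biInter_finset fun s _ => s.2.1
  have hmem : (⟨z, hz⟩ : N) ∈ ⋂ s ∈ u, (s : Set N) := by
    simp only [mem_iInter]
    exact fun s _ => s.2.2
  obtain ⟨S, hS⟩ : ∃ S, S = ⋂ s ∈ u, (s : Set N) := ⟨_, rfl⟩
  rw [← hS] at hcl hmem hu
  refine ⟨(↑) '' S, (↑) '' Sᶜ, hcl.isClosed.isCompact.image continuous_subtype_val,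
    hcl.compl.isClosed.isCompact.image continuous_subtype_val, ?_, ?_, ?_, ?_⟩
  · rw [disjoint_image_iff Subtype.val_injective]
    exact disjoint_compl_right
  · rw [← image_union, union_compl_self, image_univ, Subtype.range_coe]
  · rw [connectedComponentIn_eq_image hz]
    exact image_mono (hcl.connectedComponent_subset hmem)
  · intro w hw
    refine ⟨⟨w, hFN hw⟩, fun h => ?_, rfl⟩
    have h1 : (⟨w, hFN hw⟩ : N) ∈ ((↑) ⁻¹' F : Set N) ∩ S := ⟨hw, h⟩
    rw [hu] at h1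
    exact h1

theorem planar {Γ : W → ℂ} (hc : ContinuousOn Γ T) (hi : InjOn Γ T) {ε : ℝ} (hε : 0 < ε)
    {z0 : W × W} (hz0 : z0 ∈ NN Γ ε)
    (hs : ∃ z ∈ connectedComponentIn (NN Γ ε) z0,
      z.swap ∈ connectedComponentIn (NN Γ ε) z0) (i : Fin 3) :
    ∃ z ∈ connectedComponentIn (NN Γ ε) z0, z.1 = Pi.single i 1 := by
  by_contra hcon
  push Not at hcon
  have hN : IsCompact (NN Γ ε) := NN_compact hc ε
  have hKc : IsCompact (connectedComponentIn (NN Γ ε) z0) := comp_compact hN hz0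
  have hKsym := comp_symm hz0 hs
  have hKN : ∀ z ∈ connectedComponentIn (NN Γ ε) z0, z ∈ NN Γ ε := fun z hz =>
    connectedComponentIn_subset _ _ hz
  have hKcon : IsConnected (connectedComponentIn (NN Γ ε) z0) :=
    isConnected_connectedComponentIn_iff.2 hz0
  obtain ⟨p0, hp0⟩ : ∃ p0 : W, p0 = Pi.single i 1 := ⟨_, rfl⟩
  have hp0T : p0 ∈ T := by
    rw [hp0]
    exact single_mem_T ⟨zero_le_one, le_refl 1⟩ i
  have hFcl : IsClosed (NN Γ ε ∩ {z : W × W | z.1 = p0}) :=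
    hN.isClosed.inter (isClosed_eq continuous_fst continuous_const)
  obtain ⟨P, Q, hP, hQ, hPQ, hPQN, hKP, hFQ⟩ := split hN hz0 hFcl inter_subset_left
    (fun w hw hwK => hcon w hwK (by rw [← hp0]; exact hw.2))
  obtain ⟨μ, hμP, hμQ, hμI⟩ := exists_continuous_zero_one_of_isClosed hP.isClosed
    hQ.isClosed hPQ
  generalize connectedComponentIn (NN Γ ε) z0 = K at *
  -- basic facts
  have hpos : ∀ z ∈ K, ε ≤ ‖Γ z.2 - Γ z.1‖ := fun z hz => by
    rw [norm_sub_rev]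
    exact (hKN z hz).2.2
  have hsmall : ∀ (c : ℝ) (p x y : W), 0 ≤ c → c ≤ 1 → ‖Γ p - Γ x‖ < ε →
      ε ≤ ‖Γ y - Γ x‖ → (Γ y - Γ x) + (c : ℂ) * (Γ x - Γ p) ≠ 0 := by
    intro c p x y hc0 hc1 h1 h2 h3
    have h4 : Γ y - Γ x = (c : ℂ) * (Γ p - Γ x) := by linear_combination h3
    have h5 : ‖Γ y - Γ x‖ ≤ ‖Γ p - Γ x‖ := by
      rw [h4, norm_mul, Complex.norm_real, Real.norm_of_nonneg hc0]
      exact mul_le_of_le_one_left (norm_nonneg _) hc1
    linarith
  obtain ⟨H, hH⟩ : ∃ H : W → W × W → ℂ, H = fun p z =>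
      (Γ z.2 - Γ z.1) + ((μ (p, z.1) : ℝ) : ℂ) * (Γ z.1 - Γ p) := ⟨_, rfl⟩
  have hHne : ∀ p ∈ T, ∀ z ∈ K, H p z ≠ 0 := by
    intro p hp z hz h0
    rw [hH] at h0
    simp only at h0
    rcases lt_or_ge (‖Γ p - Γ z.1‖) ε with h1 | h1
    · exact hsmall (μ (p, z.1)) p z.1 z.2 (hμI _).1 (hμI _).2 h1 (hpos z hz) h0
    · have h2 : (p, z.1) ∈ NN Γ ε := ⟨hp, (hKN z hz).1, h1⟩
      rw [← hPQN] at h2
      rcases h2 with h2 | h2
      · have h3 : μ (p, z.1) = 0 := hμP h2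
        rw [h3, Complex.ofReal_zero, zero_mul, add_zero] at h0
        have h4 := hpos z hz
        rw [h0, norm_zero] at h4
        linarith
      · have h3 : μ (p, z.1) = 1 := hμQ h2
        rw [h3, Complex.ofReal_one, one_mul, sub_add_sub_cancel, sub_eq_zero] at h0
        have h4 : z.2 = p := hi (hKN z hz).2.1 hp h0
        rw [← h4] at h2
        have h5 : z.swap ∈ P := hKP (hKsym z hz)
        exact Set.disjoint_left.1 hPQ h5 h2
  have cΓ : ∀ g : ℝ × (W × W) → W, Continuous g → (∀ q ∈ Icc (0 : ℝ) 1 ×ˢ K, g q ∈ T) →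
      ContinuousOn (fun q => Γ (g q)) (Icc (0 : ℝ) 1 ×ˢ K) := fun g hg hgT =>
    hc.comp hg.continuousOn hgT
  have c1 : ContinuousOn (fun q : ℝ × (W × W) => Γ q.2.1) (Icc (0 : ℝ) 1 ×ˢ K) :=
    cΓ _ (by fun_prop) fun q hq => (hKN q.2 hq.2).1
  have c2 : ContinuousOn (fun q : ℝ × (W × W) => Γ q.2.2) (Icc (0 : ℝ) 1 ×ˢ K) :=
    cΓ _ (by fun_prop) fun q hq => (hKN q.2 hq.2).2.1
  have cH : ∀ g : ℝ × (W × W) → W, Continuous g → (∀ q ∈ Icc (0 : ℝ) 1 ×ˢ K, g q ∈ T) →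
      ContinuousOn (fun q => H (g q) q.2) (Icc (0 : ℝ) 1 ×ˢ K) := by
    intro g hg hgT
    have h1 : Continuous fun q : ℝ × (W × W) => ((μ (g q, q.2.1) : ℝ) : ℂ) :=
      Complex.continuous_ofReal.comp (μ.continuous.comp (by fun_prop))
    rw [hH]
    exact (c2.sub c1).add (h1.continuousOn.mul (c1.sub (cΓ g hg hgT)))
  have hne2 : ∀ z ∈ K, z.2 ≠ p0 := by
    intro z hz h
    have h1 := hcon z.swap (hKsym z hz)
    rw [← hp0] at h1
    exact h1 h
  have h1t : ∀ t ∈ Icc (0 : ℝ) 1, 1 - t ∈ Icc (0 : ℝ) 1 := fun t ht =>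
    ⟨by linarith [ht.2], by linarith [ht.1]⟩
  -- fourth homotopy
  have L4 : HasLog (fun z : W × W => Γ z.2 - Γ p0) K := by
    have hL := hasLog_homotopy hKc (h := fun t z => Γ ((1 - t) • z.2) - Γ p0)
      ((cΓ (fun q => (1 - q.1) • q.2.2) (by fun_prop) fun q hq =>
        smul_mem_T (h1t _ hq.1) (hKN q.2 hq.2).2.1).sub continuousOn_const)
      (fun t ht z hz h0 => by
        have hz2 := (hKN z hz).2.1
        have h3 : (1 - t) • z.2 = p0 := hi (smul_mem_T (h1t t ht) hz2) hp0T (sub_eq_zero.1 h0)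
        have h4 := congrFun h3 i
        rw [hp0, Pi.single_eq_same, Pi.smul_apply, smul_eq_mul] at h4
        have h5 := hz2.1 i
        have h6 : t = 0 := by nlinarith [ht.1, ht.2, h5.1, h5.2]
        rw [h6, sub_zero, one_smul] at h3
        exact hne2 z hz h3)
      (by
        refine hasLog_congr (G := fun _ => Γ 0 - Γ p0) (fun z _ => ?_) (hasLog_const ?_ K)
        · show Γ ((1 - (1 : ℝ)) • z.2) - Γ p0 = Γ 0 - Γ p0
          rw [sub_self, zero_smul]
        · intro h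
          have h3 : (0 : W) = p0 := hi zero_mem_T hp0T (sub_eq_zero.1 h)
          have h4 := congrFun h3 i
          rw [hp0, Pi.single_eq_same, Pi.zero_apply] at h4
          exact zero_ne_one h4)
    refine hasLog_congr (fun z _ => ?_) hL
    show Γ z.2 - Γ p0 = Γ ((1 - (0 : ℝ)) • z.2) - Γ p0
    rw [sub_zero, one_smul]
  -- third homotopy
  have L3 : HasLog (fun z : W × W => H p0 z) K := by
    have hL := hasLog_homotopy hKc (h := fun t z => (Γ z.2 - Γ z.1) +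
        (((1 - t) * μ (p0, z.1) + t : ℝ) : ℂ) * (Γ z.1 - Γ p0))
      (by
        have h1 : Continuous fun q : ℝ × (W × W) =>
            (((1 - q.1) * μ (p0, q.2.1) + q.1 : ℝ) : ℂ) := by
          refine Complex.continuous_ofReal.comp ?_
          have h2 : Continuous fun q : ℝ × (W × W) => μ (p0, q.2.1) :=
            μ.continuous.comp (by fun_prop)
          fun_prop
        exact (c2.sub c1).add (h1.continuousOn.mul (c1.sub continuousOn_const)))
      (fun t ht z hz h0 => by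
        have hm := hμI (p0, z.1)
        have hc0 : 0 ≤ (1 - t) * μ (p0, z.1) + t := by
          have := mul_nonneg (h1t t ht).1 hm.1
          linarith [ht.1]
        have hc1 : (1 - t) * μ (p0, z.1) + t ≤ 1 := by
          have := mul_le_mul_of_nonneg_left hm.2 (h1t t ht).1
          linarith
        rcases lt_or_ge (‖Γ p0 - Γ z.1‖) ε with h1 | h1
        · exact hsmall _ p0 z.1 z.2 hc0 hc1 h1 (hpos z hz) h0
        · have h2 : (p0, z.1) ∈ Q := hFQ ⟨⟨hp0T, (hKN z hz).1, h1⟩, rfl⟩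
          have h3 : μ (p0, z.1) = 1 := hμQ h2
          rw [h3, mul_one, sub_add_cancel, Complex.ofReal_one, one_mul, sub_add_sub_cancel,
            sub_eq_zero] at h0
          exact hne2 z hz (hi (hKN z hz).2.1 hp0T h0))
      (by
        refine hasLog_congr (fun z _ => ?_) L4
        show (Γ z.2 - Γ z.1) + (((1 - (1 : ℝ)) * μ (p0, z.1) + 1 : ℝ) : ℂ) * (Γ z.1 - Γ p0) =
          Γ z.2 - Γ p0
        rw [sub_self, zero_mul, zero_add, Complex.ofReal_one, one_mul, sub_add_sub_cancel])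
    refine hasLog_congr (fun z _ => ?_) hL
    rw [hH]
    show (Γ z.2 - Γ z.1) + ((μ (p0, z.1) : ℝ) : ℂ) * (Γ z.1 - Γ p0) =
      (Γ z.2 - Γ z.1) + (((1 - (0 : ℝ)) * μ (p0, z.1) + 0 : ℝ) : ℂ) * (Γ z.1 - Γ p0)
    rw [sub_zero, one_mul, add_zero]
  -- second homotopy
  have L2 : HasLog (fun z : W × W => H 0 z) K := by
    have hL := hasLog_homotopy hKc (h := fun t z => H (t • p0) z)
      (cH (fun q => q.1 • p0) (by fun_prop) fun q hq => smul_mem_T hq.1 hp0T)
      (fun t ht z hz => hHne _ (smul_mem_T ht hp0T) z hz)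
      (by
        refine hasLog_congr (fun z _ => ?_) L3
        show H ((1 : ℝ) • p0) z = H p0 z
        rw [one_smul])
    refine hasLog_congr (fun z _ => ?_) hL
    show H 0 z = H ((0 : ℝ) • p0) z
    rw [zero_smul]
  -- first homotopy
  have L1 : HasLog (fun z : W × W => Γ z.2 - Γ z.1) K := by
    have hL := hasLog_homotopy hKc (h := fun t z => H ((1 - t) • z.2) z)
      (cH (fun q => (1 - q.1) • q.2.2) (by fun_prop) fun q hq =>
        smul_mem_T (h1t _ hq.1) (hKN q.2 hq.2).2.1)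
      (fun t ht z hz => hHne _ (smul_mem_T (h1t t ht) (hKN z hz).2.1) z hz)
      (by
        refine hasLog_congr (fun z _ => ?_) L2
        show H ((1 - (1 : ℝ)) • z.2) z = H 0 z
        rw [sub_self, zero_smul])
    refine hasLog_congr (fun z hz => ?_) hL
    show Γ z.2 - Γ z.1 = H ((1 - (0 : ℝ)) • z.2) z
    have h3 : μ (z.2, z.1) = 0 := hμP (hKP (hKsym z hz))
    rw [sub_zero, one_smul, hH]
    show Γ z.2 - Γ z.1 = (Γ z.2 - Γ z.1) + ((μ (z.2, z.1) : ℝ) : ℂ) * (Γ z.1 - Γ z.2)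
    rw [h3, Complex.ofReal_zero, zero_mul, add_zero]
  refine no_odd_log hKcon (τ := Prod.swap) continuous_swap.continuousOn hKsym
    (fun z _ => Prod.swap_swap z) (F := fun z : W × W => Γ z.2 - Γ z.1) (fun z _ => ?_)
    (fun z hz h0 => ?_) L1
  · show Γ z.1 - Γ z.2 = -(Γ z.2 - Γ z.1)
    ring
  · have h4 := hpos z hz
    have h5 : Γ z.2 - Γ z.1 = 0 := h0
    rw [h5, norm_zero] at h4
    linarith

end Pool.Agent.SPN
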