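import Pool.Agent.SPN.Model

/-! # SPN TIPS: the projection of a span continuum is a subtriod

* `arc0`: `Z ⊆ T × T` connected, compact, nonempty, without diagonal points, equal projections; then for
  every `i` some `z ∈ Z` has `0 < z.1 i`: otherwise all points `z.1, z.2` have `i`-th coordinate `0` and lie on
  the two legs `j, k`; `φ x = x j - x k` is injective on them, `φ z.1 - φ z.2 ≠ 0` has constant sign on `Z`,
  contradiction at the maximum (or minimum) of `φ z.1` over `Z` (equal projections).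
* `tips`: `a i = max {z.1 i | z ∈ Z}` (attained, `> 0` by `arc0`); equal projections give the same for `z.2`.
* `conn_T`: a connected subset of `T` containing the three tips is `T`: let `v = Pi.single i t ∈ T` be missing,
  `t < 1`.  If `t > 0`: the coordinate `i` takes the values `1` (tip `i`) and `0` (another tip), so the value
  `t`, and a point of `T` with `i`-th coordinate `t > 0` is `v`.  If `v = 0`: on `T \ {0}` the set
  `{x i > 0}` is open and closed, it contains the tip `i` and not the tip `j`. -/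

set_option autoImplicit false

open Set

noncomputable section

namespace Pool.Agent.SPN

private theorem fin3_cases : ∀ i l : Fin 3, l = i ∨ l = i + 1 ∨ l = i + 2 := by decide

private theorem fin3_ne : ∀ i : Fin 3, i + 1 ≠ i + 2 := by decide

private theorem fin3_ne' : ∀ i : Fin 3, i + 1 ≠ i := by decide

theorem arc0 {Z : Set (W × W)} (hZc : IsCompact Z) (hZ : IsConnected Z)
    (hZT : ∀ z ∈ Z, z.1 ∈ T ∧ z.2 ∈ T) (hne : ∀ z ∈ Z, z.1 ≠ z.2)
    (hp : Prod.fst '' Z = Prod.snd '' Z) (i : Fin 3) : ∃ z ∈ Z, 0 < z.1 i := by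
  by_contra hno
  push Not at hno
  have hsnd : ∀ z ∈ Z, ∃ w ∈ Z, w.1 = z.2 := by
    intro z hz
    have h1 : z.2 ∈ Prod.fst '' Z := by
      rw [hp]
      exact ⟨z, hz, rfl⟩
    exact h1
  have h1 : ∀ z ∈ Z, z.1 i = 0 := fun z hz => le_antisymm (hno z hz) ((hZT z hz).1.1 i).1
  have h2 : ∀ z ∈ Z, z.2 i = 0 := by
    intro z hz
    obtain ⟨w, hw, hwz⟩ := hsnd z hz
    rw [← hwz]
    exact h1 w hw
  have hi : ∀ l : Fin 3, l = i ∨ l = i + 1 ∨ l = i + 2 := fin3_cases i
  have hjk : i + 1 ≠ i + 2 := fin3_ne i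
  obtain ⟨φ, hφ⟩ : ∃ φ : W → ℝ, φ = fun x => x (i + 1) - x (i + 2) := ⟨_, rfl⟩
  have hφc : Continuous φ := by
    rw [hφ]
    fun_prop
  have hinj : ∀ x y : W, x ∈ T → y ∈ T → x i = 0 → y i = 0 → φ x = φ y → x = y := by
    intro x y hx hy hxi hyi he
    rw [hφ] at he
    simp only at he
    have hx1 := hx.2 _ _ hjk
    have hy1 := hy.2 _ _ hjk
    have a1 := (hx.1 (i + 1)).1
    have a2 := (hx.1 (i + 2)).1
    have a3 := (hy.1 (i + 1)).1
    have a4 := (hy.1 (i + 2)).1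
    have e1 : x (i + 1) = y (i + 1) ∧ x (i + 2) = y (i + 2) := by
      rcases mul_eq_zero.1 hx1 with h | h
      · rcases mul_eq_zero.1 hy1 with h' | h'
        · constructor <;> linarith
        · constructor <;> linarith
      · rcases mul_eq_zero.1 hy1 with h' | h'
        · constructor <;> linarith
        · constructor <;> linarith
    funext l
    rcases hi l with h | h | h
    · rw [h, hxi, hyi]
    · rw [h, e1.1]
    · rw [h, e1.2]
  have hne' : ∀ z ∈ Z, φ z.1 - φ z.2 ≠ 0 := by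
    intro z hz h
    exact hne z hz (hinj _ _ (hZT z hz).1 (hZT z hz).2 (h1 z hz) (h2 z hz) (sub_eq_zero.1 h))
  have hcont : ContinuousOn (fun z : W × W => φ z.1 - φ z.2) Z :=
    ((hφc.comp continuous_fst).sub (hφc.comp continuous_snd)).continuousOn
  have hcont1 : ContinuousOn (fun z : W × W => φ z.1) Z := (hφc.comp continuous_fst).continuousOn
  obtain ⟨z₀, hz₀⟩ := hZ.nonempty
  rcases lt_or_gt_of_ne (hne' z₀ hz₀) with hneg | hpos
  · have hall : ∀ z ∈ Z, φ z.1 - φ z.2 < 0 := by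
      intro z hz
      by_contra h
      rw [not_lt] at h
      obtain ⟨w, hw, hw0⟩ := hZ.isPreconnected.intermediate_value hz₀ hz hcont ⟨hneg.le, h⟩
      exact hne' w hw hw0
    obtain ⟨z, hz, hmax⟩ := hZc.exists_isMaxOn hZ.nonempty hcont1
    obtain ⟨w, hw, hwz⟩ := hsnd z hz
    have h3 := hall z hz
    have h4 : φ w.1 ≤ φ z.1 := hmax hw
    rw [hwz] at h4
    linarith
  · have hall : ∀ z ∈ Z, 0 < φ z.1 - φ z.2 := by
      intro z hz
      by_contra h
      rw [not_lt] at h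
      obtain ⟨w, hw, hw0⟩ := hZ.isPreconnected.intermediate_value hz hz₀ hcont
        ⟨h, le_of_lt hpos⟩
      exact hne' w hw hw0
    obtain ⟨z, hz, hmin⟩ := hZc.exists_isMinOn hZ.nonempty hcont1
    obtain ⟨w, hw, hwz⟩ := hsnd z hz
    have h3 := hall z hz
    have h4 : φ z.1 ≤ φ w.1 := hmin hw
    rw [hwz] at h4
    linarith

theorem tips {Z : Set (W × W)} (hZc : IsCompact Z) (hZ : IsConnected Z)
    (hZT : ∀ z ∈ Z, z.1 ∈ T ∧ z.2 ∈ T) (hne : ∀ z ∈ Z, z.1 ≠ z.2)
    (hp : Prod.fst '' Z = Prod.snd '' Z) :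
    ∃ a : W, (∀ i, 0 < a i) ∧ (∀ z ∈ Z, z.1 ∈ Sub a ∧ z.2 ∈ Sub a) ∧
      (∀ i, ∃ z ∈ Z, z.1 i = a i) ∧ (∀ i, ∃ z ∈ Z, z.2 i = a i) := by
  have hmax : ∀ i : Fin 3, ∃ z ∈ Z, ∀ w ∈ Z, w.1 i ≤ z.1 i := by
    intro i
    have hcont : ContinuousOn (fun z : W × W => z.1 i) Z :=
      ((continuous_apply i).comp continuous_fst).continuousOn
    obtain ⟨z, hz, h⟩ := hZc.exists_isMaxOn hZ.nonempty hcont
    exact ⟨z, hz, fun w hw => h hw⟩
  choose zm hzm hzmax using hmax
  have hsnd : ∀ z ∈ Z, ∃ w ∈ Z, w.1 = z.2 := by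
    intro z hz
    have h1 : z.2 ∈ Prod.fst '' Z := by
      rw [hp]
      exact ⟨z, hz, rfl⟩
    exact h1
  refine ⟨fun i => (zm i).1 i, fun i => ?_, fun z hz => ⟨⟨(hZT z hz).1, fun i => hzmax i z hz⟩,
    ⟨(hZT z hz).2, fun i => ?_⟩⟩, fun i => ⟨zm i, hzm i, rfl⟩, fun i => ?_⟩
  · obtain ⟨z, hz, h⟩ := arc0 hZc hZ hZT hne hp i
    exact lt_of_lt_of_le h (hzmax i z hz)
  · obtain ⟨w, hw, hwz⟩ := hsnd z hz
    rw [← hwz]
    exact hzmax i w hw
  · have h1 : (zm i).1 ∈ Prod.snd '' Z := by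
      rw [← hp]
      exact ⟨zm i, hzm i, rfl⟩
    obtain ⟨w, hw, hwz⟩ := h1
    refine ⟨w, hw, ?_⟩
    rw [hwz]

theorem conn_T {S : Set W} (hS : IsPreconnected S) (hST : S ⊆ T)
    (h : ∀ i, (Pi.single i 1 : W) ∈ S) : S = T := by
  refine Subset.antisymm hST fun v hv => ?_
  obtain ⟨i, hi⟩ := exists_single hv
  rcases lt_or_eq_of_le (hv.1 i).1 with h0 | h0
  · obtain ⟨j, hj⟩ : ∃ j : Fin 3, j ≠ i := ⟨i + 1, fin3_ne' i⟩
    have hcont : ContinuousOn (fun x : W => x i) S := (continuous_apply i).continuousOn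
    have e1 : (Pi.single j 1 : W) i = 0 := Pi.single_eq_of_ne hj.symm _
    have e2 : (Pi.single i 1 : W) i = 1 := Pi.single_eq_same _ _
    obtain ⟨w, hw, hwi⟩ := hS.intermediate_value (h j) (h i) hcont
      (show v i ∈ Icc ((Pi.single j 1 : W) i) ((Pi.single i 1 : W) i) by
        rw [e1, e2]
        exact hv.1 i)
    have hwi' : w i = v i := hwi
    have h1 : w = v := eq_of_coord (hST hw) hv hwi' (by rw [hwi']; exact h0)
    rw [← h1]
    exact hw
  · have hv0 : v = 0 := by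
      rw [hi, ← h0, Pi.single_zero]
    have hcont : ContinuousOn (fun x : W => x 0 - x 1 - x 2) S := by
      have : Continuous (fun x : W => x 0 - x 1 - x 2) := by fun_prop
      exact this.continuousOn
    have e1 : (Pi.single (1 : Fin 3) (1 : ℝ) : W) 0 - (Pi.single (1 : Fin 3) (1 : ℝ) : W) 1 -
        (Pi.single (1 : Fin 3) (1 : ℝ) : W) 2 = -1 := by
      simp
    have e2 : (Pi.single (0 : Fin 3) (1 : ℝ) : W) 0 - (Pi.single (0 : Fin 3) (1 : ℝ) : W) 1 -
        (Pi.single (0 : Fin 3) (1 : ℝ) : W) 2 = 1 := by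
      simp
    obtain ⟨w, hw, hw0⟩ := hS.intermediate_value (h 1) (h 0) hcont
      (show (0 : ℝ) ∈ Icc ((Pi.single (1 : Fin 3) (1 : ℝ) : W) 0 -
        (Pi.single (1 : Fin 3) (1 : ℝ) : W) 1 - (Pi.single (1 : Fin 3) (1 : ℝ) : W) 2)
        ((Pi.single (0 : Fin 3) (1 : ℝ) : W) 0 - (Pi.single (0 : Fin 3) (1 : ℝ) : W) 1 -
        (Pi.single (0 : Fin 3) (1 : ℝ) : W) 2) by
        rw [e1, e2]
        constructor <;> norm_num)
    simp only at hw0
    have hwT := hST hw
    have a0 := (hwT.1 0).1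
    have a1 := (hwT.1 1).1
    have a2 := (hwT.1 2).1
    have b1 : w 0 * w 1 = 0 := hwT.2 0 1 (by decide)
    have b2 : w 0 * w 2 = 0 := hwT.2 0 2 (by decide)
    have hz : w 0 = 0 ∧ w 1 = 0 ∧ w 2 = 0 := by
      rcases mul_eq_zero.1 b1 with h1 | h1
      · refine ⟨h1, ?_, ?_⟩ <;> linarith
      · rcases mul_eq_zero.1 b2 with h2 | h2
        · refine ⟨h2, h1, ?_⟩
          linarith
        · refine ⟨?_, h1, h2⟩
          linarith
    have hw1 : w = v := by
      rw [hv0]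
      funext l
      fin_cases l
      · exact hz.1
      · exact hz.2.1
      · exact hz.2.2
    rw [← hw1]
    exact hw

end Pool.Agent.SPN
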