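import Pool.Agent.SPN.Red
import Pool.Agent.SPN.Tips
import Pool.Agent.SPN.Cross
import Pool.Agent.SPN.Planar

/-! # SPN FIN: the theorems

* `shadow`: `z = (x,y) ∈ N` (`x, y ∈ Sub a`, distance `≥ R > 0`).  If `x i y i = 0` for all `i` then
  `rr z = z`.  Otherwise `x = single i s`, `y = single i t`, `s ≠ t`; if `t < s` then `rr z = (x, 0)` and
  `{(x, single i t') | t' ∈ [0,t]} ⊆ N` by `NoHook` (`t' ≤ t ≤ s`: `dist (γ t') (γ s) < R` would give
  `dist (γ t) (γ s) < R`), a connected set containing `z` and `rr z`.  The case `s < t` is symmetric.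
* `surj`: `K = connectedComponentIn (NN Γ R) z0`; `comp_symm`; `planar` gives points with `z.1 = tip i` for
  `i = 0, 1, 2`; `fst '' K = T` by `conn_T`; `snd '' K = T` by symmetry; `push`.
* `sym_le`: `r ∈ symVals X`: if `r ≤ 0` then `r ≤ 0 ≤ sspn X`; otherwise `pull`, `z0 ∈ Z'`,
  `Z' ⊆ connectedComponentIn (NN Γ r) z0`, `z0.swap ∈ Z'`; `surj`.
* `main_hook`: `R ≤ 0`: clear.  `R > 0`: there is `Z` with `inf > R`; `pull`, `tips` give `a`;
  `N = {z | z.1 ∈ Sub a ∧ z.2 ∈ Sub a ∧ R ≤ ‖..‖}` is compact, `z0 ∈ Z'`, `K = connectedComponentIn N z0 ⊇ Z'`;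
  `cross` (with `shadow`) gives `z, z.swap ∈ K ⊆ connectedComponentIn (NN Γ R) z0`; `surj`.
* `main_self`: `SelfApp` implies `NoHook R` for all `R`, so `R ≤ sspn X` for all `R < spn X`; the converse
  inequality from `spn_facts`. -/

set_option autoImplicit false

open Set

noncomputable section

namespace Pool.Agent.SPN

variable {X : Set ℂ} {γ : Fin 3 → ℝ → ℂ}

private theorem hh_self {p q : ℝ} (hp : 0 ≤ p) (hq : 0 ≤ q) (h : p * q = 0) : hh p q = p := by
  unfold hh
  rcases mul_eq_zero.1 h with h1 | h1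
  · rw [h1, if_neg (not_lt.2 hq)]
  · rw [h1]
    split_ifs with h2
    · rfl
    · linarith

private theorem single_of_pos {v : W} (hv : v ∈ T) {i : Fin 3} (hi : 0 < v i) :
    v = Pi.single i (v i) := by
  funext j
  by_cases hj : j = i
  · subst hj
    rw [Pi.single_eq_same]
  · rw [Pi.single_eq_of_ne hj]
    rcases mul_eq_zero.1 (hv.2 j i hj) with h1 | h1
    · exact h1
    · linarith

private theorem cont_single (i : Fin 3) : Continuous (fun t : ℝ => (Pi.single i t : W)) := by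
  refine continuous_pi fun j => ?_
  by_cases hj : j = i
  · subst hj
    simpa using continuous_id'
  · have h1 : (fun t : ℝ => (Pi.single i t : W) j) = fun _ => (0 : ℝ) := by
      funext t
      rw [Pi.single_eq_of_ne hj]
    rw [h1]
    exact continuous_const

/-- the segment moving the lower point to `0` -/
private theorem seg_mem (h : Triod X γ) {R : ℝ} (hH : ∀ i, NoHook R (γ i)) {a : W}
    {x y : W} {i : Fin 3} (hy : y ∈ Sub a) (hx : x ∈ Sub a)
    (hxe : x = Pi.single i (x i)) (hye : y = Pi.single i (y i)) (hyx : y i < x i)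
    (hd : R ≤ ‖Gam γ x - Gam γ y‖) {t : ℝ} (ht : t ∈ Icc 0 (y i)) :
    (Pi.single i t : W) ∈ Sub a ∧ R ≤ ‖Gam γ x - Gam γ (Pi.single i t)‖ := by
  have hx1 := (hx.1.1 i).2
  have hy0 := (hy.1.1 i).1
  constructor
  · refine ⟨single_mem_T ⟨ht.1, by linarith [ht.2]⟩ i, fun j => ?_⟩
    by_cases hj : j = i
    · subst hj
      rw [Pi.single_eq_same]
      exact ht.2.trans (hy.2 j)
    · rw [Pi.single_eq_of_ne hj]
      exact (hy.1.1 j).1.trans (hy.2 j)
  · by_contra hlt
    push Not at hlt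
    rw [hxe, gam_single h, gam_single h, ← dist_eq_norm, dist_comm] at hlt
    have h1 := hH i t (y i) (x i) ht.1 ht.2 hyx.le hx1 hlt
    rw [hxe, hye, gam_single h, gam_single h, ← dist_eq_norm, dist_comm] at hd
    linarith

/-- the retraction of the fins stays in the component when the legs have no hooks -/
theorem shadow (h : Triod X γ) {R : ℝ} (hR : 0 < R) (hH : ∀ i, NoHook R (γ i)) {a : W}
    {N : Set (W × W)} (hN : N = {z | z.1 ∈ Sub a ∧ z.2 ∈ Sub a ∧
      R ≤ ‖Gam γ z.1 - Gam γ z.2‖}) {z0 : W × W} {z : W × W}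
    (hz : z ∈ connectedComponentIn N z0) : rr z ∈ connectedComponentIn N z0 := by
  have hzN : z ∈ N := connectedComponentIn_subset _ _ hz
  have hcomp := connectedComponentIn_eq hz
  rw [hcomp]
  rw [hcomp] at hz
  have hzN' := hzN
  rw [hN] at hzN'
  obtain ⟨hx, hy, hd⟩ := hzN'
  by_cases h0 : ∀ i, z.1 i * z.2 i = 0
  · have h1 : rr z = z := by
      unfold rr
      refine Prod.ext ?_ ?_
      · funext i
        exact hh_self (hx.1.1 i).1 (hy.1.1 i).1 (h0 i)
      · funext i
        exact hh_self (hy.1.1 i).1 (hx.1.1 i).1 (by rw [mul_comm]; exact h0 i)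
    rw [h1]
    exact hz
  · push Not at h0
    obtain ⟨i, hi⟩ := h0
    have hxi : 0 < z.1 i := lt_of_le_of_ne (hx.1.1 i).1 (Ne.symm (left_ne_zero_of_mul hi))
    have hyi : 0 < z.2 i := lt_of_le_of_ne (hy.1.1 i).1 (Ne.symm (right_ne_zero_of_mul hi))
    have hxe := single_of_pos hx.1 hxi
    have hye := single_of_pos hy.1 hyi
    have hoff : ∀ j, j ≠ i → z.1 j = 0 ∧ z.2 j = 0 := by
      intro j hj
      constructor
      · rw [hxe, Pi.single_eq_of_ne hj]
      · rw [hye, Pi.single_eq_of_ne hj]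
    rcases lt_trichotomy (z.2 i) (z.1 i) with hlt | heq | hgt
    · have hrr : rr z = (z.1, Pi.single i 0) := by
        unfold rr
        refine Prod.ext ?_ ?_
        · funext j
          by_cases hj : j = i
          · subst hj
            simp [hh, hlt]
          · simp [hh, (hoff j hj).1, (hoff j hj).2]
        · funext j
          by_cases hj : j = i
          · subst hj
            simp [hh, not_lt.2 hlt.le]
          · simp [hh, (hoff j hj).1, (hoff j hj).2]
      have hC : IsPreconnected ((fun t : ℝ => (z.1, (Pi.single i t : W))) '' Icc 0 (z.2 i)) := by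
        refine isPreconnected_Icc.image _ (Continuous.continuousOn ?_)
        exact continuous_const.prodMk (cont_single i)
      have hzC : z ∈ (fun t : ℝ => (z.1, (Pi.single i t : W))) '' Icc 0 (z.2 i) :=
        ⟨z.2 i, ⟨hyi.le, le_rfl⟩, Prod.ext rfl hye.symm⟩
      have hCN : (fun t : ℝ => (z.1, (Pi.single i t : W))) '' Icc 0 (z.2 i) ⊆ N := by
        rintro _ ⟨t, ht, rfl⟩
        rw [hN]
        have := seg_mem h hH hy hx hxe hye hlt hd ht
        exact ⟨hx, this.1, this.2⟩
      rw [hrr]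
      exact hC.subset_connectedComponentIn hzC hCN ⟨0, ⟨le_rfl, hyi.le⟩, rfl⟩
    · exfalso
      have h2 : z.1 = z.2 := eq_of_coord hx.1 hy.1 heq.symm hxi
      rw [h2, sub_self, norm_zero] at hd
      linarith
    · have hrr : rr z = (Pi.single i 0, z.2) := by
        unfold rr
        refine Prod.ext ?_ ?_
        · funext j
          by_cases hj : j = i
          · subst hj
            simp [hh, not_lt.2 hgt.le]
          · simp [hh, (hoff j hj).1, (hoff j hj).2]
        · funext j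
          by_cases hj : j = i
          · subst hj
            simp [hh, hgt]
          · simp [hh, (hoff j hj).1, (hoff j hj).2]
      have hC : IsPreconnected ((fun t : ℝ => ((Pi.single i t : W), z.2)) '' Icc 0 (z.1 i)) := by
        refine isPreconnected_Icc.image _ (Continuous.continuousOn ?_)
        exact (cont_single i).prodMk continuous_const
      have hzC : z ∈ (fun t : ℝ => ((Pi.single i t : W), z.2)) '' Icc 0 (z.1 i) :=
        ⟨z.1 i, ⟨hxi.le, le_rfl⟩, Prod.ext hxe.symm rfl⟩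
      have hCN : (fun t : ℝ => ((Pi.single i t : W), z.2)) '' Icc 0 (z.1 i) ⊆ N := by
        rintro _ ⟨t, ht, rfl⟩
        rw [hN]
        have hd' : R ≤ ‖Gam γ z.2 - Gam γ z.1‖ := by
          rw [norm_sub_rev]
          exact hd
        have := seg_mem h hH hx hy hye hxe hgt hd' ht
        refine ⟨this.1, hy, ?_⟩
        rw [norm_sub_rev]
        exact this.2
      rw [hrr]
      exact hC.subset_connectedComponentIn hzC hCN ⟨0, ⟨le_rfl, hxi.le⟩, rfl⟩

/-- a component which contains a point and its swap is surjective -/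
theorem surj (h : Triod X γ) {R : ℝ} (hR : 0 < R) {z0 : W × W} (hz0 : z0 ∈ NN (Gam γ) R)
    (hs : ∃ z ∈ connectedComponentIn (NN (Gam γ) R) z0,
      z.swap ∈ connectedComponentIn (NN (Gam γ) R) z0) : R ≤ sspn X := by
  set K := connectedComponentIn (NN (Gam γ) R) z0 with hK
  have hKN : K ⊆ NN (Gam γ) R := connectedComponentIn_subset _ _
  have hKc : IsCompact K := comp_compact (NN_compact (gam_cont h) R) hz0
  have hKconn : IsConnected K := isConnected_connectedComponentIn_iff.2 hz0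
  have hsymm : ∀ z ∈ K, z.swap ∈ K := comp_symm hz0 hs
  have h1 : Prod.fst '' K = T := by
    refine conn_T (hKconn.isPreconnected.image _ continuous_fst.continuousOn) ?_ ?_
    · rintro _ ⟨z, hz, rfl⟩
      exact (hKN hz).1
    · intro i
      obtain ⟨z, hz, hzi⟩ := planar (gam_cont h) (gam_inj h) hR hz0 hs i
      exact ⟨z, hz, hzi⟩
  have h2 : Prod.snd '' K = T := by
    rw [← h1]
    ext v
    constructor
    · rintro ⟨z, hz, rfl⟩
      exact ⟨z.swap, hsymm z hz, rfl⟩
    · rintro ⟨z, hz, rfl⟩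
      exact ⟨z.swap, hsymm z hz, rfl⟩
  exact push h hKc hKconn (fun z hz => ⟨(hKN hz).1, (hKN hz).2.1⟩) (fun z hz => (hKN hz).2.2) h1 h2

private theorem sspn_nonneg (h : Triod X γ) : 0 ≤ sspn X :=
  le_csSup (spn_facts h).2.1 (spn_facts h).2.2.2.1

/-- the distances on the pulled back set -/
private theorem inf_le {Z : Set (ℂ × ℂ)} {Z' : Set (W × W)}
    (hG : (fun z : W × W => (Gam γ z.1, Gam γ z.2)) '' Z' = Z) {z : W × W} (hz : z ∈ Z') :
    sInf ((fun z : ℂ × ℂ => dist z.1 z.2) '' Z) ≤ ‖Gam γ z.1 - Gam γ z.2‖ := by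
  refine csInf_le ⟨0, ?_⟩ ⟨(Gam γ z.1, Gam γ z.2), ?_, ?_⟩
  · rintro _ ⟨w, -, rfl⟩
    exact dist_nonneg
  · rw [← hG]
    exact ⟨z, hz, rfl⟩
  · exact dist_eq_norm _ _

/-- the symmetric span is at most the surjective span -/
theorem sym_le (h : Triod X γ) : symspn X ≤ sspn X := by
  refine csSup_le ⟨0, (spn_facts h).2.2.2.2.2⟩ ?_
  rintro r ⟨Z, hZc, hZ, hZX, hsw, hr⟩
  by_cases hr0 : r ≤ 0
  · exact hr0.trans (sspn_nonneg h)
  · push Not at hr0
    obtain ⟨Z', hZ'c, hZ', hZ'T, hG, -, hsw'⟩ := pull h hZc hZ hZX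
    have hZ'N : Z' ⊆ NN (Gam γ) r := by
      intro z hz
      refine ⟨(hZ'T z hz).1, (hZ'T z hz).2, ?_⟩
      rw [hr]
      exact inf_le hG hz
    obtain ⟨z0, hz0⟩ := hZ'.nonempty
    have hsub := hZ'.isPreconnected.subset_connectedComponentIn hz0 hZ'N
    have hz0s : z0.swap ∈ Z' := by
      rw [← hsw' hsw]
      exact ⟨z0, hz0, rfl⟩
    exact surj h hr0 (hZ'N hz0) ⟨z0, hsub hz0, hsub hz0s⟩

theorem main_hook (h : Triod X γ) {R : ℝ} (hR : R < spn X) (hH : ∀ i, NoHook R (γ i)) :
    R ≤ sspn X := by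
  by_cases hR0 : R ≤ 0
  · exact hR0.trans (sspn_nonneg h)
  · push Not at hR0
    have hne : (spanVals X).Nonempty := ⟨0, (spn_facts h).2.2.2.2.1 (spn_facts h).2.2.2.1⟩
    obtain ⟨r, ⟨Z, hZc, hZ, hZX, hp, hr⟩, hRr⟩ := exists_lt_of_lt_csSup hne hR
    obtain ⟨Z', hZ'c, hZ', hZ'T, hG, hp', -⟩ := pull h hZc hZ hZX
    have hdist : ∀ z ∈ Z', R ≤ ‖Gam γ z.1 - Gam γ z.2‖ := by
      intro z hz
      have := inf_le hG hz
      rw [← hr] at this
      linarith
    have hnd : ∀ z : W × W, R ≤ ‖Gam γ z.1 - Gam γ z.2‖ → z.1 ≠ z.2 := by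
      intro z hz heq
      rw [heq, sub_self, norm_zero] at hz
      linarith
    obtain ⟨a, ha, haS, ha1, ha2⟩ := tips hZ'c hZ' hZ'T (fun z hz => hnd z (hdist z hz)) (hp' hp)
    set N : Set (W × W) := {z | z.1 ∈ Sub a ∧ z.2 ∈ Sub a ∧ R ≤ ‖Gam γ z.1 - Gam γ z.2‖} with hN
    have hNN : N ⊆ NN (Gam γ) R := fun z hz => ⟨hz.1.1, hz.2.1.1, hz.2.2⟩
    have hNc : IsCompact N := by
      have h1 : N = (Sub a ×ˢ Sub a) ∩ NN (Gam γ) R := by
        ext z
        constructor
        · intro hz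
          exact ⟨⟨hz.1, hz.2.1⟩, hNN hz⟩
        · rintro ⟨⟨h1, h2⟩, h3⟩
          exact ⟨h1, h2, h3.2.2⟩
      rw [h1]
      exact ((Sub_compact a).prod (Sub_compact a)).inter (NN_compact (gam_cont h) R)
    have hZ'N : Z' ⊆ N := fun z hz => ⟨(haS z hz).1, (haS z hz).2, hdist z hz⟩
    obtain ⟨z0, hz0⟩ := hZ'.nonempty
    have hz0N := hZ'N hz0
    have hKN : connectedComponentIn N z0 ⊆ N := connectedComponentIn_subset _ _
    have hsub : Z' ⊆ connectedComponentIn N z0 :=
      hZ'.isPreconnected.subset_connectedComponentIn hz0 hZ'N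
    have hex1 : ∀ i, ∃ z ∈ connectedComponentIn N z0, z.1 i = a i := fun i => by
      obtain ⟨z, hz, hzi⟩ := ha1 i
      exact ⟨z, hsub hz, hzi⟩
    have hex2 : ∀ i, ∃ z ∈ connectedComponentIn N z0, z.2 i = a i := fun i => by
      obtain ⟨z, hz, hzi⟩ := ha2 i
      exact ⟨z, hsub hz, hzi⟩
    obtain ⟨z, hz, hzs⟩ := cross ha (comp_compact hNc hz0N)
      (isConnected_connectedComponentIn_iff.2 hz0N)
      (fun z hz => ⟨(hKN hz).1, (hKN hz).2.1⟩) (fun z hz => hnd z (hKN hz).2.2)
      (fun z hz => shadow h hR0 hH hN hz) (hex1 1) (hex2 1) (hex1 2) (hex2 2)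
    have hmono : connectedComponentIn N z0 ⊆ connectedComponentIn (NN (Gam γ) R) z0 :=
      connectedComponentIn_mono z0 hNN
    exact surj h hR0 (hNN hz0N) ⟨z, hmono hz, hmono hzs⟩

theorem main_self (h : Triod X γ) (hS : ∀ i, SelfApp (γ i)) : sspn X = spn X := by
  obtain ⟨hb, -, -, h0, hsub, -⟩ := spn_facts h
  refine le_antisymm (csSup_le_csSup hb ⟨0, h0⟩ hsub) ?_
  refine le_of_forall_lt_imp_le_of_dense fun R hR => ?_
  refine main_hook h hR fun i s t u hs hst htu hu hd => ?_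
  exact lt_of_le_of_lt (hS i s t u hs hst htu hu) hd

end Pool.Agent.SPN
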