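import Pool.Agent.SPN.Defs
import Pool.Agent.SPN.Model

/-! # SPN GAM: the triod as image of the standard triod

`Gam γ v = γ 0 (v 0) + γ 1 (v 1) + γ 2 (v 2) - 2 γ 0 0`: continuous on `T`, `Gam (single i t) = γ i t`, injective
on `T`, image `X`. -/

set_option autoImplicit false

open Set

noncomputable section

namespace Pool.Agent.SPN

def Gam (γ : Fin 3 → ℝ → ℂ) (v : W) : ℂ :=
  γ 0 (v 0) + γ 1 (v 1) + γ 2 (v 2) - 2 * γ 0 0

variable {X : Set ℂ} {γ : Fin 3 → ℝ → ℂ}

theorem gam_single (h : Triod X γ) (i : Fin 3) (t : ℝ) : Gam γ (Pi.single i t) = γ i t := by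
  have h1 := h.base 1 0
  have h2 := h.base 2 0
  unfold Gam
  fin_cases i
  · simp [Pi.single_apply, h1, h2]
    ring
  · simp [Pi.single_apply, h2]
    ring
  · simp [Pi.single_apply, h1]
    ring

theorem gam_cont (h : Triod X γ) : ContinuousOn (Gam γ) T := by
  have h1 : ∀ i : Fin 3, ContinuousOn (fun v : W => γ i (v i)) T := fun i =>
    (h.cont i).comp (continuous_apply i).continuousOn fun v hv => hv.1 i
  unfold Gam
  exact (((h1 0).add (h1 1)).add (h1 2)).sub continuousOn_const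

theorem gam_inj (h : Triod X γ) : InjOn (Gam γ) T := by
  intro v hv w hw hvw
  obtain ⟨i, hi⟩ := exists_single hv
  obtain ⟨j, hj⟩ := exists_single hw
  rw [hi, hj, gam_single h, gam_single h] at hvw
  rcases h.inj i j (v i) (hv.1 i) (w j) (hw.1 j) hvw with ⟨h1, h2⟩ | ⟨h1, h2⟩
  · subst h1
    rw [hi, hj, h2]
  · rw [hi, hj, h1, h2, Pi.single_zero, Pi.single_zero]

theorem gam_img (h : Triod X γ) : Gam γ '' T = X := by
  rw [h.img]
  ext z
  simp only [mem_image, mem_iUnion]
  constructor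
  · rintro ⟨v, hv, rfl⟩
    obtain ⟨i, hi⟩ := exists_single hv
    refine ⟨i, v i, hv.1 i, ?_⟩
    conv_rhs => rw [hi]
    rw [gam_single h]
  · rintro ⟨i, t, ht, rfl⟩
    exact ⟨Pi.single i t, single_mem_T ht i, gam_single h i t⟩

end Pool.Agent.SPN
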