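import Pool.Agent.SPN.Fin

/-! # SPN ITV: the set of ratios `σ*/σ` of planar simple triods is an interval ending at 1

* `lip`: two triods with legs at distance `≤ ε` have spans and surjective spans at distance `≤ 2 ε`.
* `sspn_pos`: the hexagon of pairs (tip, point of the other two legs) shows `0 < sspn X`.
* `trim`: the legs restricted to `[0,s]`; `trim_cont`: continuity in `s`.
* `germ`: a triod with straight germs close to a given one: up to the last exit from a small disc around the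
  branch point the legs are replaced by radii.
* `main_interval`. -/

set_option autoImplicit false

open Set

noncomputable section

namespace Pool.Agent.SPN

variable {X : Set ℂ} {γ : Fin 3 → ℝ → ℂ}

/-- like `push` for the span -/
theorem push_spn (h : Triod X γ) {K : Set (W × W)} (hKc : IsCompact K) (hK : IsConnected K)
    (hKT : ∀ z ∈ K, z.1 ∈ T ∧ z.2 ∈ T) {R : ℝ} (hR : ∀ z ∈ K, R ≤ ‖Gam γ z.1 - Gam γ z.2‖)
    (h12 : Prod.fst '' K = Prod.snd '' K) : R ≤ spn X := by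
  have hcont : ContinuousOn (fun z : W × W => (Gam γ z.1, Gam γ z.2)) K := by
    refine ContinuousOn.prodMk ?_ ?_
    · exact (gam_cont h).comp continuousOn_fst fun z hz => (hKT z hz).1
    · exact (gam_cont h).comp continuousOn_snd fun z hz => (hKT z hz).2
  have hmem : sInf ((fun z : ℂ × ℂ => dist z.1 z.2) ''
      ((fun z : W × W => (Gam γ z.1, Gam γ z.2)) '' K)) ∈ spanVals X := by
    refine ⟨_, hKc.image_of_continuousOn hcont, hK.image _ hcont, ?_, ?_, rfl⟩
    · rintro _ ⟨z, hz, rfl⟩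
      rw [← gam_img h]
      exact ⟨mem_image_of_mem _ (hKT z hz).1, mem_image_of_mem _ (hKT z hz).2⟩
    · have e1 : Prod.fst '' ((fun z : W × W => (Gam γ z.1, Gam γ z.2)) '' K) =
          Gam γ '' (Prod.fst '' K) := by rw [image_image, image_image]
      have e2 : Prod.snd '' ((fun z : W × W => (Gam γ z.1, Gam γ z.2)) '' K) =
          Gam γ '' (Prod.snd '' K) := by rw [image_image, image_image]
      rw [e1, e2, h12]
  refine le_trans ?_ (le_csSup (spn_facts h).1 hmem)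
  refine le_csInf ((hK.nonempty.image _).image _) ?_
  rintro _ ⟨_, ⟨z, hz, rfl⟩, rfl⟩
  have := hR z hz
  rwa [← dist_eq_norm] at this

private theorem inf_le' {Z : Set (ℂ × ℂ)} {Z' : Set (W × W)}
    (hG : (fun z : W × W => (Gam γ z.1, Gam γ z.2)) '' Z' = Z) {z : W × W} (hz : z ∈ Z') :
    sInf ((fun z : ℂ × ℂ => dist z.1 z.2) '' Z) ≤ ‖Gam γ z.1 - Gam γ z.2‖ := by
  refine csInf_le ⟨0, ?_⟩ ⟨(Gam γ z.1, Gam γ z.2), ?_, ?_⟩
  · rintro _ ⟨w, -, rfl⟩
    exact dist_nonneg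
  · rw [← hG]
    exact ⟨z, hz, rfl⟩
  · exact dist_eq_norm _ _

/-- legs at distance `≤ ε`: the maps of the standard triod are at distance `≤ ε` -/
private theorem gam_close {X' : Set ℂ} {γ' : Fin 3 → ℝ → ℂ} (h : Triod X γ) (h' : Triod X' γ')
    {ε : ℝ} (hε : ∀ i, ∀ t ∈ Icc (0 : ℝ) 1, dist (γ i t) (γ' i t) ≤ ε) {v : W} (hv : v ∈ T) :
    ‖Gam γ v - Gam γ' v‖ ≤ ε := by
  obtain ⟨i, hi⟩ := exists_single hv
  rw [hi, gam_single h, gam_single h', ← dist_eq_norm]
  exact hε i (v i) (hv.1 i)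

private theorem move {X' : Set ℂ} {γ' : Fin 3 → ℝ → ℂ} (h : Triod X γ) (h' : Triod X' γ')
    {ε : ℝ} (hε : ∀ i, ∀ t ∈ Icc (0 : ℝ) 1, dist (γ i t) (γ' i t) ≤ ε) {z : W × W}
    (hz : z.1 ∈ T ∧ z.2 ∈ T) {r : ℝ} (hr : r ≤ ‖Gam γ z.1 - Gam γ z.2‖) :
    r - 2 * ε ≤ ‖Gam γ' z.1 - Gam γ' z.2‖ := by
  have h1 := gam_close h h' hε hz.1
  have h2 := gam_close h h' hε hz.2
  have h3 : Gam γ z.1 - Gam γ z.2 = (Gam γ z.1 - Gam γ' z.1) + (Gam γ' z.1 - Gam γ' z.2) -
      (Gam γ z.2 - Gam γ' z.2) := by ring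
  have h4 : ‖Gam γ z.1 - Gam γ z.2‖ ≤ ‖Gam γ z.1 - Gam γ' z.1‖ +
      ‖Gam γ' z.1 - Gam γ' z.2‖ + ‖Gam γ z.2 - Gam γ' z.2‖ := by
    rw [h3]
    exact (norm_sub_le _ _).trans (add_le_add_left (norm_add_le _ _) _)
  linarith

theorem lip {X' : Set ℂ} {γ' : Fin 3 → ℝ → ℂ} (h : Triod X γ) (h' : Triod X' γ')
    {ε : ℝ} (hε : ∀ i, ∀ t ∈ Icc (0 : ℝ) 1, dist (γ i t) (γ' i t) ≤ ε) :
    spn X ≤ spn X' + 2 * ε ∧ sspn X ≤ sspn X' + 2 * ε := by
  constructor
  · refine csSup_le ⟨0, (spn_facts h).2.2.2.2.1 (spn_facts h).2.2.2.1⟩ ?_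
    rintro r ⟨Z, hZc, hZ, hZX, hp, hr⟩
    obtain ⟨Z', hZ'c, hZ', hZ'T, hG, hp', -⟩ := pull h hZc hZ hZX
    have := push_spn h' hZ'c hZ' hZ'T (R := r - 2 * ε) (fun z hz =>
      move h h' hε (hZ'T z hz) (by rw [hr]; exact inf_le' hG hz)) (hp' hp)
    linarith
  · refine csSup_le ⟨0, (spn_facts h).2.2.2.1⟩ ?_
    rintro r ⟨Z, hZc, hZ, hZX, hp1, hp2, hr⟩
    obtain ⟨Z', hZ'c, hZ', hZ'T, hG, -, -⟩ := pull h hZc hZ hZX
    have f1 : Prod.fst '' Z' = T := by
      refine Subset.antisymm ?_ ?_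
      · rintro _ ⟨z, hz, rfl⟩
        exact (hZ'T z hz).1
      · intro v hv
        have hx : Gam γ v ∈ Prod.fst '' Z := by
          rw [hp1, ← gam_img h]
          exact mem_image_of_mem _ hv
        rw [← hG, image_image] at hx
        obtain ⟨z, hz, he⟩ := hx
        exact ⟨z, hz, gam_inj h (hZ'T z hz).1 hv he⟩
    have f2 : Prod.snd '' Z' = T := by
      refine Subset.antisymm ?_ ?_
      · rintro _ ⟨z, hz, rfl⟩
        exact (hZ'T z hz).2
      · intro v hv
        have hx : Gam γ v ∈ Prod.snd '' Z := by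
          rw [hp2, ← gam_img h]
          exact mem_image_of_mem _ hv
        rw [← hG, image_image] at hx
        obtain ⟨z, hz, he⟩ := hx
        exact ⟨z, hz, gam_inj h (hZ'T z hz).2 hv he⟩
    have := push h' hZ'c hZ' hZ'T (R := r - 2 * ε) (fun z hz =>
      move h h' hε (hZ'T z hz) (by rw [hr]; exact inf_le' hG hz)) f1 f2
    linarith

/-- the pairs (tip `i`, point off leg `i`) -/
private def H1 (i : Fin 3) : Set (W × W) :=
  (fun v : W => ((Pi.single i 1 : W), v)) '' {v | v ∈ T ∧ v i = 0}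

private def H2 (i : Fin 3) : Set (W × W) :=
  (fun v : W => (v, (Pi.single i 1 : W))) '' {v | v ∈ T ∧ v i = 0}

private theorem off_conn (i : Fin 3) : IsConnected {v : W | v ∈ T ∧ v i = 0} := by
  refine ⟨⟨0, zero_mem_T, rfl⟩, ?_⟩
  refine isPreconnected_of_forall 0 fun v hv => ?_
  refine ⟨(fun t : ℝ => t • v) '' Icc 0 1, ?_, ⟨0, ⟨le_rfl, zero_le_one⟩, zero_smul _ _⟩,
    ⟨1, ⟨zero_le_one, le_rfl⟩, one_smul _ _⟩, ?_⟩
  · rintro _ ⟨t, ht, rfl⟩
    refine ⟨smul_mem_T ht hv.1, ?_⟩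
    simp [hv.2]
  · exact isPreconnected_Icc.image _ (by fun_prop)

private theorem off_compact (i : Fin 3) : IsCompact {v : W | v ∈ T ∧ v i = 0} :=
  T_compact.inter_right (isClosed_eq (continuous_apply i) continuous_const)

private theorem H1_conn (i : Fin 3) : IsConnected (H1 i) :=
  (off_conn i).image _ (by fun_prop)

private theorem H2_conn (i : Fin 3) : IsConnected (H2 i) :=
  (off_conn i).image _ (by fun_prop)

private theorem H1_compact (i : Fin 3) : IsCompact (H1 i) :=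
  (off_compact i).image (by fun_prop)

private theorem H2_compact (i : Fin 3) : IsCompact (H2 i) :=
  (off_compact i).image (by fun_prop)

private theorem tip_mem (i : Fin 3) : (Pi.single i 1 : W) ∈ T :=
  single_mem_T ⟨zero_le_one, le_rfl⟩ i

private theorem H_meet {i j : Fin 3} (hij : i ≠ j) :
    ((Pi.single i 1 : W), (Pi.single j 1 : W)) ∈ H1 i ∩ H2 j := by
  refine ⟨⟨_, ⟨tip_mem j, ?_⟩, rfl⟩, ⟨_, ⟨tip_mem i, ?_⟩, rfl⟩⟩
  · exact Pi.single_eq_of_ne hij 1
  · exact Pi.single_eq_of_ne hij.symm 1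

theorem sspn_pos (h : Triod X γ) : 0 < sspn X := by
  set K : Set (W × W) := H1 0 ∪ H2 1 ∪ H1 2 ∪ H2 0 ∪ H1 1 ∪ H2 2 with hK
  have hconn : IsConnected K := by
    have c1 := (H1_conn 0).union ⟨_, H_meet (show (0 : Fin 3) ≠ 1 by decide)⟩ (H2_conn 1)
    have c2 := c1.union (t := H1 2) ⟨((Pi.single 2 1 : W), (Pi.single 1 1 : W)),
      Or.inr (H_meet (show (2 : Fin 3) ≠ 1 by decide)).2,
      (H_meet (show (2 : Fin 3) ≠ 1 by decide)).1⟩ (H1_conn 2)
    have c3 := c2.union (t := H2 0) ⟨((Pi.single 2 1 : W), (Pi.single 0 1 : W)),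
      Or.inr (H_meet (show (2 : Fin 3) ≠ 0 by decide)).1,
      (H_meet (show (2 : Fin 3) ≠ 0 by decide)).2⟩ (H2_conn 0)
    have c4 := c3.union (t := H1 1) ⟨((Pi.single 1 1 : W), (Pi.single 0 1 : W)),
      Or.inr (H_meet (show (1 : Fin 3) ≠ 0 by decide)).2,
      (H_meet (show (1 : Fin 3) ≠ 0 by decide)).1⟩ (H1_conn 1)
    exact c4.union (t := H2 2) ⟨((Pi.single 1 1 : W), (Pi.single 2 1 : W)),
      Or.inr (H_meet (show (1 : Fin 3) ≠ 2 by decide)).1,
      (H_meet (show (1 : Fin 3) ≠ 2 by decide)).2⟩ (H2_conn 2)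
  have hcomp : IsCompact K :=
    (((((H1_compact 0).union (H2_compact 1)).union (H1_compact 2)).union (H2_compact 0)).union
      (H1_compact 1)).union (H2_compact 2)
  have hmem : ∀ z ∈ K, ∃ i, z ∈ H1 i ∨ z ∈ H2 i := by
    intro z hz
    rcases hz with ((((h1 | h1) | h1) | h1) | h1) | h1
    · exact ⟨0, Or.inl h1⟩
    · exact ⟨1, Or.inr h1⟩
    · exact ⟨2, Or.inl h1⟩
    · exact ⟨0, Or.inr h1⟩
    · exact ⟨1, Or.inl h1⟩
    · exact ⟨2, Or.inr h1⟩
  have hmem' : ∀ i, H1 i ⊆ K ∧ H2 i ⊆ K := by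
    intro i
    fin_cases i
    · exact ⟨fun z hz => Or.inl (Or.inl (Or.inl (Or.inl (Or.inl hz)))),
        fun z hz => Or.inl (Or.inl (Or.inr hz))⟩
    · exact ⟨fun z hz => Or.inl (Or.inr hz),
        fun z hz => Or.inl (Or.inl (Or.inl (Or.inl (Or.inr hz))))⟩
    · exact ⟨fun z hz => Or.inl (Or.inl (Or.inl (Or.inr hz))), fun z hz => Or.inr hz⟩
  have hT : ∀ z ∈ K, z.1 ∈ T ∧ z.2 ∈ T := by
    intro z hz
    obtain ⟨i, h1 | h1⟩ := hmem z hz
    · obtain ⟨v, hv, rfl⟩ := h1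
      exact ⟨tip_mem i, hv.1⟩
    · obtain ⟨v, hv, rfl⟩ := h1
      exact ⟨hv.1, tip_mem i⟩
  have hne : ∀ z ∈ K, z.1 ≠ z.2 := by
    intro z hz
    obtain ⟨i, h1 | h1⟩ := hmem z hz
    · obtain ⟨v, hv, rfl⟩ := h1
      intro he
      have := congrFun he i
      simp only [Pi.single_eq_same] at this
      rw [hv.2] at this
      exact one_ne_zero this
    · obtain ⟨v, hv, rfl⟩ := h1
      intro he
      have := congrFun he i
      simp only [Pi.single_eq_same] at this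
      rw [hv.2] at this
      exact one_ne_zero this.symm
  have hcont : ContinuousOn (fun z : W × W => ‖Gam γ z.1 - Gam γ z.2‖) K := by
    refine ContinuousOn.norm (ContinuousOn.sub ?_ ?_)
    · exact (gam_cont h).comp continuousOn_fst fun z hz => (hT z hz).1
    · exact (gam_cont h).comp continuousOn_snd fun z hz => (hT z hz).2
  obtain ⟨z0, hz0, hmin⟩ := hcomp.exists_isMinOn hconn.nonempty hcont
  have hpos : 0 < ‖Gam γ z0.1 - Gam γ z0.2‖ := by
    rw [norm_pos_iff, sub_ne_zero]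
    exact fun he => hne z0 hz0 (gam_inj h (hT z0 hz0).1 (hT z0 hz0).2 he)
  refine lt_of_lt_of_le hpos (push h hcomp hconn hT (fun z hz => hmin hz) ?_ ?_)
  · refine Subset.antisymm ?_ ?_
    · rintro _ ⟨z, hz, rfl⟩
      exact (hT z hz).1
    · intro v hv
      obtain ⟨i, hi⟩ := exists_single hv
      have : ∃ j : Fin 3, v j = 0 := by
        by_contra hcon
        push Not at hcon
        have h1 := hv.2 0 1 (by decide)
        exact (mul_ne_zero (hcon 0) (hcon 1)) h1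
      obtain ⟨j, hj⟩ := this
      exact ⟨(v, Pi.single j 1), (hmem' j).2 ⟨v, ⟨hv, hj⟩, rfl⟩, rfl⟩
  · refine Subset.antisymm ?_ ?_
    · rintro _ ⟨z, hz, rfl⟩
      exact (hT z hz).2
    · intro v hv
      have : ∃ j : Fin 3, v j = 0 := by
        by_contra hcon
        push Not at hcon
        have h1 := hv.2 0 1 (by decide)
        exact (mul_ne_zero (hcon 0) (hcon 1)) h1
      obtain ⟨j, hj⟩ := this
      exact ⟨(Pi.single j 1, v), (hmem' j).1 ⟨v, ⟨hv, hj⟩, rfl⟩, rfl⟩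

theorem sspn_le_spn (h : Triod X γ) : sspn X ≤ spn X := by
  obtain ⟨hb, -, -, h0, hsub, -⟩ := spn_facts h
  exact csSup_le_csSup hb ⟨0, h0⟩ hsub

/-- legs restricted to `[0,s]` -/
def trimL (γ : Fin 3 → ℝ → ℂ) (s : ℝ) : Fin 3 → ℝ → ℂ := fun i t => γ i (s * t)

def trimX (γ : Fin 3 → ℝ → ℂ) (s : ℝ) : Set ℂ := ⋃ i, trimL γ s i '' Icc 0 1

theorem trim_triod (h : Triod X γ) {s : ℝ} (hs : s ∈ Ioc (0 : ℝ) 1) :
    Triod (trimX γ s) (trimL γ s) := by
  have hm : ∀ t ∈ Icc (0 : ℝ) 1, s * t ∈ Icc (0 : ℝ) 1 := fun t ht =>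
    ⟨mul_nonneg hs.1.le ht.1, by nlinarith [hs.1, hs.2, ht.1, ht.2]⟩
  refine ⟨fun i => ?_, fun i j => ?_, fun i j a ha b hb hab => ?_, rfl⟩
  · exact (h.cont i).comp (by fun_prop) hm
  · show γ i (s * 0) = γ j (s * 0)
    rw [mul_zero]
    exact h.base i j
  · rcases h.inj i j (s * a) (hm a ha) (s * b) (hm b hb) hab with ⟨h1, h2⟩ | ⟨h1, h2⟩
    · exact Or.inl ⟨h1, mul_left_cancel₀ hs.1.ne' h2⟩
    · refine Or.inr ⟨?_, ?_⟩
      · exact (mul_eq_zero.1 h1).resolve_left hs.1.ne'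
      · exact (mul_eq_zero.1 h2).resolve_left hs.1.ne'

theorem trim_one (h : Triod X γ) : trimX γ 1 = X := by
  rw [h.img]
  unfold trimX trimL
  simp only [one_mul]

/-- uniform continuity of the legs -/
private theorem unif (h : Triod X γ) {ε : ℝ} (hε : 0 < ε) :
    ∃ δ > 0, ∀ i, ∀ a ∈ Icc (0 : ℝ) 1, ∀ b ∈ Icc (0 : ℝ) 1, dist a b < δ →
      dist (γ i a) (γ i b) < ε := by
  have h1 : ∀ i : Fin 3, ∃ δ > 0, ∀ a ∈ Icc (0 : ℝ) 1, ∀ b ∈ Icc (0 : ℝ) 1, dist a b < δ →
      dist (γ i a) (γ i b) < ε := by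
    intro i
    have h2 := isCompact_Icc.uniformContinuousOn_of_continuous (h.cont i)
    obtain ⟨δ, hδ, h3⟩ := Metric.uniformContinuousOn_iff.1 h2 ε hε
    exact ⟨δ, hδ, h3⟩
  choose δ hδ h2 using h1
  refine ⟨min (δ 0) (min (δ 1) (δ 2)), lt_min (hδ 0) (lt_min (hδ 1) (hδ 2)), ?_⟩
  intro i a ha b hb hab
  refine h2 i a ha b hb (lt_of_lt_of_le hab ?_)
  fin_cases i
  · exact min_le_left _ _
  · exact (min_le_right _ _).trans (min_le_left _ _)
  · exact (min_le_right _ _).trans (min_le_right _ _)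

theorem trim_cont (h : Triod X γ) {ε : ℝ} (hε : 0 < ε) :
    ∃ δ > 0, ∀ s ∈ Ioc (0 : ℝ) 1, ∀ s' ∈ Ioc (0 : ℝ) 1, dist s s' < δ →
      |spn (trimX γ s) - spn (trimX γ s')| ≤ ε ∧ |sspn (trimX γ s) - sspn (trimX γ s')| ≤ ε := by
  obtain ⟨δ, hδ, h1⟩ := unif h (half_pos hε)
  refine ⟨δ, hδ, fun s hs s' hs' hd => ?_⟩
  have hm : ∀ s ∈ Ioc (0 : ℝ) 1, ∀ t ∈ Icc (0 : ℝ) 1, s * t ∈ Icc (0 : ℝ) 1 := fun s hs t ht =>
    ⟨mul_nonneg hs.1.le ht.1, by nlinarith [hs.1, hs.2, ht.1, ht.2]⟩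
  have hcl : ∀ i, ∀ t ∈ Icc (0 : ℝ) 1, dist (trimL γ s i t) (trimL γ s' i t) ≤ ε / 2 := by
    intro i t ht
    refine (h1 i _ (hm s hs t ht) _ (hm s' hs' t ht) ?_).le
    rw [Real.dist_eq, ← sub_mul, abs_mul]
    rw [Real.dist_eq] at hd
    have h2 : |t| ≤ 1 := by
      rw [abs_of_nonneg ht.1]
      exact ht.2
    nlinarith [abs_nonneg (s - s'), abs_nonneg t]
  have hcl' : ∀ i, ∀ t ∈ Icc (0 : ℝ) 1, dist (trimL γ s' i t) (trimL γ s i t) ≤ ε / 2 :=
    fun i t ht => by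
      rw [dist_comm]
      exact hcl i t ht
  have a1 := lip (trim_triod h hs) (trim_triod h hs') hcl
  have a2 := lip (trim_triod h hs') (trim_triod h hs) hcl'
  constructor
  · rw [abs_le]
    constructor <;> linarith [a1.1, a2.1]
  · rw [abs_le]
    constructor <;> linarith [a1.2, a2.2]

/-- a triod with straight germs realises all ratios between its own and `1` -/
theorem interval_straight (h : Triod X γ) {s0 : ℝ} (hs0 : s0 ∈ Ioc (0 : ℝ) 1)
    (hst : ∀ i, ∃ p : ℂ, ∀ t ∈ Icc 0 s0, γ i t = γ 0 0 + t * p) {t : ℝ} (ht : t ≤ 1)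
    (hX : sspn X ≤ t * spn X) :
    ∃ s ∈ Icc s0 1, sspn (trimX γ s) = t * spn (trimX γ s) := by
  have hsub : Icc s0 1 ⊆ Ioc (0 : ℝ) 1 := fun s hs => ⟨lt_of_lt_of_le hs0.1 hs.1, hs.2⟩
  have hF : ContinuousOn (fun s => sspn (trimX γ s) - t * spn (trimX γ s)) (Icc s0 1) := by
    rw [Metric.continuousOn_iff]
    intro s hs ε hε
    have hk : 0 < 2 * (1 + |t|) := by positivity
    obtain ⟨δ, hδ, h1⟩ := trim_cont h (div_pos hε hk)
    refine ⟨δ, hδ, fun s' hs' hd => ?_⟩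
    obtain ⟨a1, a2⟩ := h1 s' (hsub hs') s (hsub hs) hd
    rw [Real.dist_eq]
    have e : sspn (trimX γ s') - t * spn (trimX γ s') - (sspn (trimX γ s) - t * spn (trimX γ s)) =
        (sspn (trimX γ s') - sspn (trimX γ s)) - t * (spn (trimX γ s') - spn (trimX γ s)) := by
      ring
    rw [e]
    have b1 : |(sspn (trimX γ s') - sspn (trimX γ s)) -
        t * (spn (trimX γ s') - spn (trimX γ s))| ≤ ε / (2 * (1 + |t|)) +
        |t| * (ε / (2 * (1 + |t|))) := by
      refine (abs_sub _ _).trans (add_le_add a2 ?_)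
      rw [abs_mul]
      exact mul_le_mul_of_nonneg_left a1 (abs_nonneg t)
    have b2 : ε / (2 * (1 + |t|)) + |t| * (ε / (2 * (1 + |t|))) = ε / 2 := by
      have : (1 + |t|) ≠ 0 := by positivity
      field_simp
    rw [b2] at b1
    linarith
  have hstr : sspn (trimX γ s0) = spn (trimX γ s0) := by
    refine main_self (trim_triod h hs0) fun i => ?_
    obtain ⟨p, hp⟩ := hst i
    intro a b c ha hab hbc hc
    have hm : ∀ u : ℝ, 0 ≤ u → u ≤ 1 → s0 * u ∈ Icc 0 s0 := fun u h0 h1 =>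
      ⟨mul_nonneg hs0.1.le h0, by nlinarith [hs0.1]⟩
    have e : ∀ u v : ℝ, 0 ≤ u → u ≤ v → v ≤ 1 →
        dist (trimL γ s0 i u) (trimL γ s0 i v) = s0 * (v - u) * ‖p‖ := by
      intro u v h0 h1 h2
      show dist (γ i (s0 * u)) (γ i (s0 * v)) = _
      rw [hp _ (hm u h0 (h1.trans h2)), hp _ (hm v (h0.trans h1) h2), dist_add_left, dist_comm,
        dist_eq_norm]
      have : ((s0 * v : ℝ) : ℂ) * p - ((s0 * u : ℝ) : ℂ) * p = ((s0 * (v - u) : ℝ) : ℂ) * p := by
        push_cast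
        ring
      rw [this, norm_mul, Complex.norm_real, Real.norm_eq_abs,
        abs_of_nonneg (mul_nonneg hs0.1.le (by linarith))]
    rw [e b c (ha.trans hab) hbc hc, e a c ha (hab.trans hbc) hc]
    have := norm_nonneg p
    have h1 : s0 * (c - b) ≤ s0 * (c - a) := mul_le_mul_of_nonneg_left (by linarith) hs0.1.le
    exact mul_le_mul_of_nonneg_right h1 this
  have h0 : 0 ≤ sspn (trimX γ s0) - t * spn (trimX γ s0) := by
    rw [hstr]
    have := (sspn_pos (trim_triod h hs0)).le.trans (sspn_le_spn (trim_triod h hs0))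
    nlinarith
  have h1 : sspn (trimX γ 1) - t * spn (trimX γ 1) ≤ 0 := by
    rw [trim_one h]
    linarith
  obtain ⟨s, hs, hs'⟩ := intermediate_value_Icc' hs0.2 hF ⟨h1, h0⟩
  exact ⟨s, hs, by linarith⟩

/-- the leg with its initial part up to the parameter `a` replaced by a segment -/
def germL (g : ℝ → ℂ) (a : ℝ) (t : ℝ) : ℂ :=
  if t ≤ a then g 0 + t * ((g a - g 0) / a) else g t

private theorem germ_cont {g : ℝ → ℂ} (hg : ContinuousOn g (Icc 0 1)) {a : ℝ} (ha : 0 < a)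
    (ha1 : a ≤ 1) : ContinuousOn (germL g a) (Icc 0 1) := by
  have e : Icc (0 : ℝ) 1 = Icc 0 a ∪ Icc a 1 := (Icc_union_Icc_eq_Icc ha.le ha1).symm
  rw [e]
  refine ContinuousOn.union_of_isClosed ?_ ?_ isClosed_Icc isClosed_Icc
  · have h1 : ContinuousOn (fun t : ℝ => g 0 + t * ((g a - g 0) / a)) (Icc 0 a) := by fun_prop
    refine h1.congr fun t ht => ?_
    unfold germL
    rw [if_pos ht.2]
  · refine (hg.mono (Icc_subset_Icc ha.le le_rfl)).congr fun t ht => ?_
    unfold germL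
    split_ifs with h1
    · have h2 : t = a := le_antisymm h1 ht.1
      subst h2
      have h3 : (t : ℂ) ≠ 0 := by exact_mod_cast ha.ne'
      field_simp
      ring
    · rfl

/-- last exit from the disc of radius `ρ` -/
private theorem last_exit {g : ℝ → ℂ} (hg : ContinuousOn g (Icc 0 1)) {ρ δ : ℝ} (hρ : 0 < ρ)
    (hδ : δ ∈ Ioo (0 : ℝ) 1) (hfar : ∀ t ∈ Icc δ 1, ρ < dist (g t) (g 0)) :
    ∃ a ∈ Ioo 0 δ, dist (g a) (g 0) = ρ ∧ ∀ t, a < t → t ≤ 1 → ρ < dist (g t) (g 0) := by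
  have hd : ContinuousOn (fun t => dist (g t) (g 0)) (Icc 0 1) :=
    continuous_dist.comp_continuousOn (hg.prodMk continuousOn_const)
  have hS : IsCompact {t | t ∈ Icc (0 : ℝ) 1 ∧ dist (g t) (g 0) ≤ ρ} := by
    have := hd.preimage_isClosed_of_isClosed isClosed_Icc (isClosed_Iic (a := ρ))
    exact isCompact_Icc.of_isClosed_subset this fun t ht => ht.1
  obtain ⟨a, haS, hamax⟩ := hS.exists_isGreatest ⟨0, ⟨le_rfl, zero_le_one⟩, by
    rw [dist_self]
    exact hρ.le⟩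
  have hlast : ∀ t, a < t → t ≤ 1 → ρ < dist (g t) (g 0) := by
    intro t hat ht
    by_contra hn
    push Not at hn
    exact absurd (hamax ⟨⟨haS.1.1.trans hat.le, ht⟩, hn⟩) (not_le.2 hat)
  have haδ : a < δ := by
    by_contra hn
    push Not at hn
    exact absurd haS.2 (not_le.2 (hfar a ⟨hn, haS.1.2⟩))
  have heq : dist (g a) (g 0) = ρ := by
    refine le_antisymm haS.2 ?_
    have h1 : ρ ∈ Icc (dist (g a) (g 0)) (dist (g 1) (g 0)) :=
      ⟨haS.2, (hfar 1 ⟨hδ.2.le, le_rfl⟩).le⟩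
    obtain ⟨b, hb, hb'⟩ := intermediate_value_Icc haS.1.2
      (hd.mono (Icc_subset_Icc haS.1.1 le_rfl)) h1
    have hb2 : b ≤ a := by
      by_contra hn
      push Not at hn
      exact absurd hb'.le (not_le.2 (hlast b hn hb.2))
    have hb3 : b = a := le_antisymm hb2 hb.1
    rw [← hb3]
    exact hb'.ge
  refine ⟨a, ⟨?_, haδ⟩, heq, hlast⟩
  refine lt_of_le_of_ne haS.1.1 fun h0 => ?_
  rw [← h0, dist_self] at heq
  exact hρ.ne heq

theorem germ (h : Triod X γ) {ε : ℝ} (hε : 0 < ε) :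
    ∃ (X' : Set ℂ) (γ' : Fin 3 → ℝ → ℂ), Triod X' γ' ∧
      (∀ i, ∀ t ∈ Icc (0 : ℝ) 1, dist (γ i t) (γ' i t) ≤ ε) ∧
      ∃ s0 ∈ Ioc (0 : ℝ) 1, ∀ i, ∃ p : ℂ, ∀ t ∈ Icc 0 s0, γ' i t = γ' 0 0 + t * p := by
  obtain ⟨δ1, hδ1, hu⟩ := unif h (half_pos hε)
  set δ := min (δ1 / 2) (1 / 2) with hδdef
  have hδ0 : 0 < δ := lt_min (half_pos hδ1) (by norm_num)
  have hδ1' : δ < 1 := lt_of_le_of_lt (min_le_right _ _) (by norm_num)
  have hδ : δ ∈ Ioo (0 : ℝ) 1 := ⟨hδ0, hδ1'⟩
  have hnear : ∀ i, ∀ t ∈ Icc 0 δ, dist (γ i t) (γ i 0) < ε / 2 := by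
    intro i t ht
    refine hu i t ⟨ht.1, ht.2.trans hδ1'.le⟩ 0 ⟨le_rfl, zero_le_one⟩ ?_
    rw [Real.dist_eq, sub_zero, abs_of_nonneg ht.1]
    exact lt_of_le_of_lt ht.2 (lt_of_le_of_lt (min_le_left _ _) (by linarith))
  have hm : ∀ i : Fin 3, ∃ m > 0, ∀ t ∈ Icc δ 1, m ≤ dist (γ i t) (γ i 0) := by
    intro i
    have hc : ContinuousOn (fun t => dist (γ i t) (γ i 0)) (Icc δ 1) :=
      continuous_dist.comp_continuousOn
        (((h.cont i).mono (Icc_subset_Icc hδ0.le le_rfl)).prodMk continuousOn_const)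
    obtain ⟨t0, ht0, hmin⟩ := isCompact_Icc.exists_isMinOn ⟨δ, ⟨le_rfl, hδ1'.le⟩⟩ hc
    refine ⟨dist (γ i t0) (γ i 0), ?_, fun t ht => hmin ht⟩
    refine dist_pos.2 ?_
    intro he
    rcases h.inj i i t0 ⟨hδ0.le.trans ht0.1, ht0.2⟩ 0 ⟨le_rfl, zero_le_one⟩ he with
      ⟨-, h1⟩ | ⟨h1, -⟩ <;> linarith [ht0.1]
  choose m hm0 hm1 using hm
  set ρ := min (ε / 2) (min (m 0) (min (m 1) (m 2)) / 2) with hρdef
  have hmm : 0 < min (m 0) (min (m 1) (m 2)) := lt_min (hm0 0) (lt_min (hm0 1) (hm0 2))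
  have hρ0 : 0 < ρ := lt_min (half_pos hε) (half_pos hmm)
  have hρε : ρ ≤ ε / 2 := min_le_left _ _
  have hρm : ∀ i, ρ < m i := by
    intro i
    have h1 : ρ < min (m 0) (min (m 1) (m 2)) :=
      lt_of_le_of_lt (min_le_right _ _) (half_lt_self hmm)
    refine lt_of_lt_of_le h1 ?_
    fin_cases i
    · exact min_le_left _ _
    · exact (min_le_right _ _).trans (min_le_left _ _)
    · exact (min_le_right _ _).trans (min_le_right _ _)
  have hex : ∀ i : Fin 3, ∃ a ∈ Ioo 0 δ, dist (γ i a) (γ i 0) = ρ ∧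
      ∀ t, a < t → t ≤ 1 → ρ < dist (γ i t) (γ i 0) := fun i =>
    last_exit (h.cont i) hρ0 hδ fun t ht => lt_of_lt_of_le (hρm i) (hm1 i t ht)
  choose a ha ha1 ha2 using hex
  have hb : ∀ i : Fin 3, γ i 0 = γ 0 0 := fun i => h.base i 0
  have hap : ∀ i, 0 < a i := fun i => (ha i).1
  have ha1' : ∀ i, a i ≤ 1 := fun i => ((ha i).2.trans hδ1').le
  -- distances from the branch point on the new legs
  have hin : ∀ i t, 0 ≤ t → t ≤ a i → dist (germL (γ i) (a i) t) (γ 0 0) = t / a i * ρ := by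
    intro i t h0 h1
    unfold germL
    rw [if_pos h1, hb i, dist_eq_norm, add_sub_cancel_left, norm_mul, norm_div,
      Complex.norm_real, Complex.norm_real, Real.norm_eq_abs, Real.norm_eq_abs, abs_of_nonneg h0,
      abs_of_pos (hap i), ← dist_eq_norm, ← hb i, ha1 i]
    ring
  have hout : ∀ i t, a i < t → t ≤ 1 → ρ < dist (germL (γ i) (a i) t) (γ 0 0) := by
    intro i t h0 h1
    unfold germL
    rw [if_neg (not_le.2 h0), ← hb i]
    exact ha2 i t h0 h1
  have hin' : ∀ i t, 0 ≤ t → t ≤ a i → dist (germL (γ i) (a i) t) (γ 0 0) ≤ ρ := by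
    intro i t h0 h1
    rw [hin i t h0 h1]
    have : t / a i ≤ 1 := (div_le_one (hap i)).2 h1
    nlinarith
  refine ⟨⋃ i, germL (γ i) (a i) '' Icc 0 1, fun i => germL (γ i) (a i),
    ⟨fun i => germ_cont (h.cont i) (hap i) (ha1' i), ?_, ?_, rfl⟩, ?_, ?_⟩
  · intro i j
    show germL (γ i) (a i) 0 = germL (γ j) (a j) 0
    unfold germL
    rw [if_pos (hap i).le, if_pos (hap j).le]
    simp only [Complex.ofReal_zero, zero_mul, add_zero]
    exact h.base i j
  · intro i j s hs t ht hst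
    have hst' : germL (γ i) (a i) s = germL (γ j) (a j) t := hst
    by_cases c1 : s ≤ a i
    · by_cases c2 : t ≤ a j
      · have h1 := hin i s hs.1 c1
        have h2 := hin j t ht.1 c2
        rw [hst'] at h1
        have h3 : s / a i = t / a j := mul_right_cancel₀ hρ0.ne' (h1.symm.trans h2)
        by_cases hs0 : s = 0
        · rw [hs0, zero_div] at h3
          have h4 : t = 0 := by
            rcases div_eq_zero_iff.1 h3.symm with h | h
            · exact h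
            · exact absurd h (hap j).ne'
          exact Or.inr ⟨hs0, h4⟩
        · left
          have h5 : (s : ℂ) / a i = t / a j := by exact_mod_cast h3
          have h6 : (s : ℂ) / a i ≠ 0 := by
            have : (s / a i : ℝ) ≠ 0 := div_ne_zero hs0 (hap i).ne'
            exact_mod_cast this
          unfold germL at hst'
          rw [if_pos c1, if_pos c2, hb i, hb j] at hst'
          have h7 : (s : ℂ) / a i * (γ i (a i) - γ 0 0) = t / a j * (γ j (a j) - γ 0 0) := by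
            linear_combination hst'
          rw [← h5] at h7
          have h8 : γ i (a i) = γ j (a j) := by
            have := mul_left_cancel₀ h6 h7
            linear_combination this
          rcases h.inj i j _ ⟨(hap i).le, ha1' i⟩ _ ⟨(hap j).le, ha1' j⟩ h8 with
            ⟨e1, e2⟩ | ⟨e1, -⟩
          · subst e1
            refine ⟨rfl, ?_⟩
            have := (div_left_inj' (hap i).ne').1 h3
            exact this
          · exact absurd e1 (hap i).ne'
      · exfalso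
        push Not at c2
        have h1 := hin' i s hs.1 c1
        have h2 := hout j t c2 ht.2
        rw [hst'] at h1
        linarith
    · push Not at c1
      by_cases c2 : t ≤ a j
      · exfalso
        have h1 := hin' j t ht.1 c2
        have h2 := hout i s c1 hs.2
        rw [hst'] at h2
        linarith
      · push Not at c2
        unfold germL at hst'
        rw [if_neg (not_le.2 c1), if_neg (not_le.2 c2)] at hst'
        exact h.inj i j s hs t ht hst'
  · intro i t ht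
    by_cases c1 : t ≤ a i
    · have h1 := hin' i t ht.1 c1
      have h2 := hnear i t ⟨ht.1, c1.trans (ha i).2.le⟩
      rw [hb i] at h2
      have h3 := dist_triangle_right (γ i t) (germL (γ i) (a i) t) (γ 0 0)
      linarith
    · show dist (γ i t) (germL (γ i) (a i) t) ≤ ε
      unfold germL
      rw [if_neg c1, dist_self]
      exact hε.le
  · refine ⟨min (a 0) (min (a 1) (a 2)), ⟨lt_min (hap 0) (lt_min (hap 1) (hap 2)),
      (min_le_left _ _).trans (ha1' 0)⟩, fun i => ⟨(γ i (a i) - γ i 0) / a i, ?_⟩⟩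
    intro t ht
    have h1 : t ≤ a i := by
      refine ht.2.trans ?_
      fin_cases i
      · exact min_le_left _ _
      · exact (min_le_right _ _).trans (min_le_left _ _)
      · exact (min_le_right _ _).trans (min_le_right _ _)
    show germL (γ i) (a i) t = germL (γ 0) (a 0) 0 + t * ((γ i (a i) - γ i 0) / a i)
    unfold germL
    rw [if_pos h1, if_pos (hap 0).le, Complex.ofReal_zero, zero_mul, add_zero, hb i]

/-- if some planar simple triod has ratio `≤ t ≤ 1`, then some planar simple triod has ratio `t` -/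
theorem main_interval (h : Triod X γ) {t : ℝ} (ht : t ≤ 1) (hX : sspn X ≤ t * spn X) :
    ∃ (Y : Set ℂ) (δ : Fin 3 → ℝ → ℂ), Triod Y δ ∧ 0 < spn Y ∧ sspn Y = t * spn Y := by
  rcases hX.eq_or_lt with heq | hlt
  · exact ⟨X, γ, h, (sspn_pos h).trans_le (sspn_le_spn h), heq⟩
  · have hk : 0 < 2 * (1 + |t|) := by positivity
    obtain ⟨X', γ', h', hcl, s0, hs0, hst⟩ := germ h (ε := (t * spn X - sspn X) /
      (2 * (1 + |t|))) (div_pos (by linarith) hk)
    set ε := (t * spn X - sspn X) / (2 * (1 + |t|)) with hε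
    have hcl' : ∀ i, ∀ u ∈ Icc (0 : ℝ) 1, dist (γ' i u) (γ i u) ≤ ε := fun i u hu => by
      rw [dist_comm]
      exact hcl i u hu
    have a1 := lip h h' hcl
    have a2 := lip h' h hcl'
    have b : t * spn X - sspn X = ε * (2 * (1 + |t|)) := by
      rw [hε, div_mul_cancel₀ _ hk.ne']
    have c : t * spn X ≤ t * spn X' + |t| * (2 * ε) := by
      have h1 : |spn X - spn X'| ≤ 2 * ε := by
        rw [abs_le]
        constructor <;> linarith [a1.1, a2.1]
      have h2 : t * (spn X - spn X') ≤ |t| * (2 * ε) := by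
        refine (le_abs_self _).trans ?_
        rw [abs_mul]
        exact mul_le_mul_of_nonneg_left h1 (abs_nonneg t)
      linarith
    have hX' : sspn X' ≤ t * spn X' := by linarith [a2.2]
    obtain ⟨s, hs, he⟩ := interval_straight h' hs0 hst ht hX'
    have htr := trim_triod h' (s := s) ⟨lt_of_lt_of_le hs0.1 hs.1, hs.2⟩
    exact ⟨_, _, htr, (sspn_pos htr).trans_le (sspn_le_spn htr), he⟩

end Pool.Agent.SPN
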