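import Mathlib

/-! # SPN LOGH: continuous logarithms and homotopies (MP_613dde_gt; Mathlib only)

`hasLog_homotopy`: `K` compact, `h : [0,1] × K → ℂ \ {0}` continuous, `h 1` has a continuous logarithm on `K`;
then `h 0` has one.  Proof: `|h| ≥ m > 0` on the compact set, uniform continuity gives `n` with
`|h (j/n) z - h ((j+1)/n) z| < m` for all `z ∈ K`, so `h (j/n) z / h ((j+1)/n) z` is within `1` of `1`,
hence in the slit plane, and `Complex.log` of it is continuous on `K`; add it to the logarithm of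
`h ((j+1)/n)`.  Induction from `j = n` down to `0`. -/

set_option autoImplicit false

open Set

noncomputable section

namespace Pool.Agent.SPN

/-- `F` has a continuous logarithm on `K` -/
def HasLog {E : Type} [TopologicalSpace E] (F : E → ℂ) (K : Set E) : Prop :=
  ∃ g : E → ℂ, ContinuousOn g K ∧ ∀ z ∈ K, F z = Complex.exp (g z)

theorem hasLog_congr {E : Type} [TopologicalSpace E] {F G : E → ℂ} {K : Set E}
    (h : ∀ z ∈ K, F z = G z) (hG : HasLog G K) : HasLog F K := by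
  obtain ⟨g, hg, hgG⟩ := hG
  exact ⟨g, hg, fun z hz => (h z hz).trans (hgG z hz)⟩

theorem hasLog_const {E : Type} [TopologicalSpace E] {c : ℂ} (hc : c ≠ 0) (K : Set E) :
    HasLog (fun _ => c) K :=
  ⟨fun _ => Complex.log c, continuousOn_const, fun _ _ => (Complex.exp_log hc).symm⟩

/-- one step: a function close to one with a continuous logarithm has one -/
theorem hasLog_step {E : Type} [TopologicalSpace E] {F G : E → ℂ} {K : Set E}
    (hF : ContinuousOn F K) (hGc : ContinuousOn G K) (hG : HasLog G K)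
    (hG0 : ∀ z ∈ K, G z ≠ 0) (hFG : ∀ z ∈ K, ‖F z - G z‖ < ‖G z‖) : HasLog F K := by
  obtain ⟨g, hg, hgG⟩ := hG
  have hq : ∀ z ∈ K, F z / G z ∈ Complex.slitPlane := by
    intro z hz
    have h1 : ‖F z / G z - 1‖ < 1 := by
      have h2 : F z / G z - 1 = (F z - G z) / G z := by
        field_simp [hG0 z hz]
      rw [h2, norm_div, div_lt_one (norm_pos_iff.mpr (hG0 z hz))]
      exact hFG z hz
    left
    have h3 : |(F z / G z - 1).re| < 1 := lt_of_le_of_lt (Complex.abs_re_le_norm _) h1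
    have h4 := (abs_lt.mp h3).1
    simp only [Complex.sub_re, Complex.one_re] at h4
    linarith
  refine ⟨fun z => Complex.log (F z / G z) + g z, ?_, ?_⟩
  · exact (ContinuousOn.clog (hF.div hGc hG0) hq).add hg
  · intro z hz
    have h5 : F z / G z ≠ 0 := Complex.slitPlane_ne_zero (hq z hz)
    simp only [Complex.exp_add, Complex.exp_log h5, ← hgG z hz]
    field_simp [hG0 z hz]

theorem hasLog_homotopy {E : Type} [MetricSpace E] {K : Set E} (hK : IsCompact K)
    {h : ℝ → E → ℂ} (hc : ContinuousOn (fun p : ℝ × E => h p.1 p.2) (Icc (0 : ℝ) 1 ×ˢ K))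
    (h0 : ∀ t ∈ Icc (0 : ℝ) 1, ∀ z ∈ K, h t z ≠ 0) (h1 : HasLog (h 1) K) :
    HasLog (h 0) K := by
  rcases K.eq_empty_or_nonempty with rfl | ⟨z0, hz0⟩
  · exact ⟨fun _ => 0, continuousOn_const, fun z hz => absurd hz (notMem_empty z)⟩
  have hS : IsCompact (Icc (0 : ℝ) 1 ×ˢ K) := isCompact_Icc.prod hK
  have hSne : (Icc (0 : ℝ) 1 ×ˢ K).Nonempty := ⟨(0, z0), ⟨left_mem_Icc.mpr zero_le_one, hz0⟩⟩
  obtain ⟨p0, hp0, hmin⟩ := hS.exists_isMinOn hSne hc.norm
  have hm : 0 < ‖h p0.1 p0.2‖ := norm_pos_iff.mpr (h0 p0.1 hp0.1 p0.2 hp0.2)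
  have huc := hS.uniformContinuousOn_of_continuous hc
  obtain ⟨δ, hδ, hd⟩ := Metric.uniformContinuousOn_iff.mp huc _ hm
  obtain ⟨n, hn⟩ := exists_nat_one_div_lt hδ
  have hN : (0 : ℝ) < (n : ℝ) + 1 := by positivity
  have hcont : ∀ t ∈ Icc (0 : ℝ) 1, ContinuousOn (h t) K := by
    intro t ht
    have h2 : ContinuousOn (fun z : E => ((t, z) : ℝ × E)) K := by fun_prop
    have h3 : MapsTo (fun z : E => ((t, z) : ℝ × E)) K (Icc (0 : ℝ) 1 ×ˢ K) :=
      fun z hz => ⟨ht, hz⟩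
    exact hc.comp h2 h3
  have key : ∀ j : ℕ, j ≤ n + 1 → HasLog (h (1 - (j : ℝ) / (n + 1))) K := by
    intro j
    induction j with
    | zero => intro _; simpa using h1
    | succ j ih =>
      intro hj
      have hj' : (j : ℝ) + 1 ≤ (n : ℝ) + 1 := by exact_mod_cast hj
      have hj0 : (0 : ℝ) ≤ (j : ℝ) := Nat.cast_nonneg j
      have hA : (1 - (j : ℝ) / (n + 1)) ∈ Icc (0 : ℝ) 1 := by
        have h4 : (j : ℝ) / (n + 1) ≤ 1 := by
          rw [div_le_one hN]; linarith
        have h5 : 0 ≤ (j : ℝ) / (n + 1) := by positivity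
        exact ⟨by linarith, by linarith⟩
      have hB : (1 - ((j + 1 : ℕ) : ℝ) / (n + 1)) ∈ Icc (0 : ℝ) 1 := by
        have h4 : ((j + 1 : ℕ) : ℝ) / (n + 1) ≤ 1 := by
          rw [div_le_one hN]; push_cast; linarith
        have h5 : 0 ≤ ((j + 1 : ℕ) : ℝ) / (n + 1) := by positivity
        exact ⟨by linarith, by linarith⟩
      refine hasLog_step (hcont _ hB) (hcont _ hA) (ih (by omega)) (h0 _ hA) ?_
      intro z hz
      have h6 : dist (((1 - ((j + 1 : ℕ) : ℝ) / (n + 1)), z) : ℝ × E)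
          ((1 - (j : ℝ) / (n + 1)), z) < δ := by
        rw [Prod.dist_eq]
        simp only [dist_self]
        have h7 : dist (1 - ((j + 1 : ℕ) : ℝ) / (n + 1)) (1 - (j : ℝ) / (n + 1)) =
            1 / ((n : ℝ) + 1) := by
          rw [Real.dist_eq]
          have h8 : (1 - ((j + 1 : ℕ) : ℝ) / (n + 1)) - (1 - (j : ℝ) / (n + 1)) =
              -(1 / ((n : ℝ) + 1)) := by
            push_cast; field_simp; ring
          rw [h8, abs_neg, abs_of_pos (by positivity)]
        rw [h7]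
        exact max_lt hn hδ
      have h9 := hd _ ⟨hB, hz⟩ _ ⟨hA, hz⟩ h6
      rw [dist_eq_norm] at h9
      refine lt_of_lt_of_le h9 ?_
      have h10 := hmin (show ((1 - (j : ℝ) / (n + 1), z) : ℝ × E) ∈ Icc (0 : ℝ) 1 ×ˢ K from ⟨hA, hz⟩)
      exact h10
  have h11 := key (n + 1) le_rfl
  have h12 : (1 - ((n + 1 : ℕ) : ℝ) / (n + 1)) = 0 := by
    push_cast; field_simp; ring
  rwa [h12] at h11

/-- no continuous logarithm for an odd function on a connected symmetric set -/
theorem no_odd_log {E : Type} [TopologicalSpace E] {K : Set E} (hK : IsConnected K) {τ : E → E}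
    (hτ : ContinuousOn τ K) (hτK : ∀ z ∈ K, τ z ∈ K) (hττ : ∀ z ∈ K, τ (τ z) = z)
    {F : E → ℂ} (hF : ∀ z ∈ K, F (τ z) = -F z) (hF0 : ∀ z ∈ K, F z ≠ 0) : ¬ HasLog F K := by
  rintro ⟨g, hg, hgF⟩
  have hD : ∀ z ∈ K, Complex.exp (g (τ z) - g z) = -1 := by
    intro z hz
    rw [Complex.exp_sub, ← hgF z hz, ← hgF (τ z) (hτK z hz), hF z hz]
    field_simp [hF0 z hz]
  have hcont : ContinuousOn (fun z => (g (τ z) - g z).im) K :=
    Complex.continuous_im.comp_continuousOn ((hg.comp hτ hτK).sub hg)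
  obtain ⟨z0, hz0⟩ := hK.nonempty
  have hz1 : τ z0 ∈ K := hτK z0 hz0
  have hanti : (g (τ (τ z0)) - g (τ z0)).im = -(g (τ z0) - g z0).im := by
    rw [hττ z0 hz0]; simp
  have hzero : ∃ z ∈ K, (g (τ z) - g z).im = 0 := by
    rcases le_total (g (τ z0) - g z0).im 0 with hle | hle
    · have h1 := hK.isPreconnected.intermediate_value hz0 hz1 hcont
      have h2 : (0 : ℝ) ∈ Icc ((g (τ z0) - g z0).im) ((g (τ (τ z0)) - g (τ z0)).im) := by
        rw [hanti]; exact ⟨hle, by linarith⟩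
      obtain ⟨z, hz, hz'⟩ := h1 h2
      exact ⟨z, hz, hz'⟩
    · have h1 := hK.isPreconnected.intermediate_value hz1 hz0 hcont
      have h2 : (0 : ℝ) ∈ Icc ((g (τ (τ z0)) - g (τ z0)).im) ((g (τ z0) - g z0).im) := by
        rw [hanti]; exact ⟨by linarith, hle⟩
      obtain ⟨z, hz, hz'⟩ := h1 h2
      exact ⟨z, hz, hz'⟩
  obtain ⟨z, hz, hz'⟩ := hzero
  have h3 := congrArg Complex.re (hD z hz)
  rw [Complex.exp_re, hz', Real.cos_zero, mul_one] at h3
  have h4 := Real.exp_pos (g (τ z) - g z).re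
  rw [Complex.neg_re, Complex.one_re] at h3
  linarith

end Pool.Agent.SPN
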