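import Pool.Agent.SPN.Gam

/-! # SPN RED: transfer between continua of `X × X` and of `T × T`

`h : Triod X γ`, `Γ = Gam γ`, `G z = (Γ z.1, Γ z.2)`.
* `pull`: `Z ⊆ X × X` compact connected; `Z' = {z | z.1 ∈ T ∧ z.2 ∈ T ∧ G z ∈ Z}` is compact connected,
  `G '' Z' = Z`; if `fst '' Z = snd '' Z` then `fst '' Z' = snd '' Z'` (the map `T → X` is a homeomorphism:
  continuous injective on a compact set; use `IsClosedEmbedding` of the restriction to the subtype `T × T` and
  `IsInducing.isPreconnected_image`).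
* `push`: `K ⊆ T × T` compact connected gives `G '' K ⊆ X × X` compact connected, the infimum of the distances
  on it is `≥ R` if all distances on `K` are, and it projects onto `Γ '' T = X`.
* `spn_facts`: all values are at most the diameter of the compact set `X`; the diagonal of `X` gives `0`
  (`X` is compact and connected); `sspanVals ⊆ spanVals`. -/

set_option autoImplicit false

open Set

noncomputable section

namespace Pool.Agent.SPN

variable {X : Set ℂ} {γ : Fin 3 → ℝ → ℂ}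

/-- continuous inverse on a compact set -/
private theorem red_inv {f : W → ℂ} {S : Set W} (hS : IsCompact S) (hf : ContinuousOn f S)
    (hi : InjOn f S) : ∃ g : ℂ → W, ContinuousOn g (f '' S) ∧ ∀ v ∈ S, g (f v) = v := by
  classical
  rcases S.eq_empty_or_nonempty with rfl | hne
  · exact ⟨fun _ => 0, by simp, by simp⟩
  have : Nonempty W := ⟨0⟩
  refine ⟨Function.invFunOn f S, ?_, fun v hv => hi.leftInvOn_invFunOn hv⟩
  rw [continuousOn_iff_continuous_domRestrict]
  have : CompactSpace S := isCompact_iff_compactSpace.1 hS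
  let e : S ≃ (f '' S) := Equiv.ofBijective (fun v => ⟨f v, mem_image_of_mem f v.2⟩) (by
    constructor
    · intro a b hab
      exact Subtype.ext (hi a.2 b.2 (congrArg Subtype.val hab))
    · rintro ⟨y, v, hv, rfl⟩
      exact ⟨⟨v, hv⟩, rfl⟩)
  have he : Continuous e := by
    refine Continuous.subtype_mk ?_ _
    exact continuousOn_iff_continuous_domRestrict.1 hf
  have h2 : Continuous e.symm := (he.homeoOfEquivCompactToT2).symm.continuous
  have h3 : (f '' S).domRestrict (Function.invFunOn f S) = fun y => ((e.symm y : S) : W) := by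
    funext y
    obtain ⟨v, rfl⟩ := e.surjective y
    rw [Equiv.symm_apply_apply]
    exact hi.leftInvOn_invFunOn v.2
  rw [h3]
  exact continuous_subtype_val.comp h2

private theorem red_T_conn : IsConnected T := by
  refine ⟨⟨0, zero_mem_T⟩, ?_⟩
  refine isPreconnected_of_forall 0 fun v hv => ?_
  refine ⟨(fun t : ℝ => t • v) '' Icc 0 1, ?_, ⟨0, ⟨le_rfl, zero_le_one⟩, zero_smul _ _⟩,
    ⟨1, ⟨zero_le_one, le_rfl⟩, one_smul _ _⟩, ?_⟩
  · rintro _ ⟨t, ht, rfl⟩
    exact smul_mem_T ht hv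
  · exact isPreconnected_Icc.image _ (by fun_prop)

private theorem red_X_compact (h : Triod X γ) : IsCompact X := by
  rw [← gam_img h]
  exact T_compact.image_of_continuousOn (gam_cont h)

private theorem red_X_conn (h : Triod X γ) : IsConnected X := by
  rw [← gam_img h]
  exact red_T_conn.image _ (gam_cont h)

private theorem red_diag (h : Triod X γ) :
    IsCompact ((fun x : ℂ => (x, x)) '' X) ∧ IsConnected ((fun x : ℂ => (x, x)) '' X) ∧
      ((fun x : ℂ => (x, x)) '' X) ⊆ X ×ˢ X ∧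
      Prod.fst '' ((fun x : ℂ => (x, x)) '' X) = X ∧
      Prod.snd '' ((fun x : ℂ => (x, x)) '' X) = X ∧
      Prod.swap '' ((fun x : ℂ => (x, x)) '' X) = (fun x : ℂ => (x, x)) '' X ∧
      (0 : ℝ) = sInf ((fun z : ℂ × ℂ => dist z.1 z.2) '' ((fun x : ℂ => (x, x)) '' X)) := by
  have hc : Continuous (fun x : ℂ => (x, x)) := by fun_prop
  refine ⟨(red_X_compact h).image hc, (red_X_conn h).image _ hc.continuousOn, ?_, ?_, ?_, ?_, ?_⟩
  · rintro _ ⟨x, hx, rfl⟩
    exact ⟨hx, hx⟩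
  · rw [image_image]; simp
  · rw [image_image]; simp
  · rw [image_image]; simp
  · rw [image_image]
    have h1 : (fun x : ℂ => dist x x) '' X = {0} := by
      simp only [dist_self]
      exact (red_X_conn h).nonempty.image_const 0
    simp only [h1, csInf_singleton]

private theorem red_le (h : Triod X γ) {Z : Set (ℂ × ℂ)} (hZ : IsConnected Z)
    (hZX : Z ⊆ X ×ˢ X) : sInf ((fun z : ℂ × ℂ => dist z.1 z.2) '' Z) ≤ Metric.diam X := by
  obtain ⟨z, hz⟩ := hZ.nonempty
  refine (csInf_le ⟨0, ?_⟩ (mem_image_of_mem _ hz)).trans ?_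
  · rintro _ ⟨w, _, rfl⟩
    exact dist_nonneg
  · exact Metric.dist_le_diam_of_mem (red_X_compact h).isBounded (hZX hz).1 (hZX hz).2

private theorem red_facts (h : Triod X γ) :
    BddAbove (spanVals X) ∧ BddAbove (sspanVals X) ∧ BddAbove (symVals X) ∧
      (0 : ℝ) ∈ sspanVals X ∧ sspanVals X ⊆ spanVals X ∧ (0 : ℝ) ∈ symVals X := by
  obtain ⟨h1, h2, h3, h4, h5, h6, h7⟩ := red_diag h
  refine ⟨⟨Metric.diam X, ?_⟩, ⟨Metric.diam X, ?_⟩, ⟨Metric.diam X, ?_⟩,
    ⟨_, h1, h2, h3, h4, h5, h7⟩, ?_, ⟨_, h1, h2, h3, h6, h7⟩⟩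
  · rintro r ⟨Z, _, hZ, hZX, _, rfl⟩
    exact red_le h hZ hZX
  · rintro r ⟨Z, _, hZ, hZX, _, _, rfl⟩
    exact red_le h hZ hZX
  · rintro r ⟨Z, _, hZ, hZX, _, rfl⟩
    exact red_le h hZ hZX
  · rintro r ⟨Z, hc, hZ, hZX, ha, hb, hr⟩
    exact ⟨Z, hc, hZ, hZX, ha.trans hb.symm, hr⟩

theorem pull (h : Triod X γ) {Z : Set (ℂ × ℂ)} (hZc : IsCompact Z) (hZ : IsConnected Z)
    (hZX : Z ⊆ X ×ˢ X) :
    ∃ Z' : Set (W × W), IsCompact Z' ∧ IsConnected Z' ∧ (∀ z ∈ Z', z.1 ∈ T ∧ z.2 ∈ T) ∧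
      (fun z : W × W => (Gam γ z.1, Gam γ z.2)) '' Z' = Z ∧
      (Prod.fst '' Z = Prod.snd '' Z → Prod.fst '' Z' = Prod.snd '' Z') ∧
      (Prod.swap '' Z = Z → Prod.swap '' Z' = Z') := by
  obtain ⟨g, hg, hgl⟩ := red_inv T_compact (gam_cont h) (gam_inj h)
  rw [gam_img h] at hg
  have hgT : ∀ x ∈ X, g x ∈ T ∧ Gam γ (g x) = x := by
    intro x hx
    rw [← gam_img h] at hx
    obtain ⟨v, hv, rfl⟩ := hx
    rw [hgl v hv]
    exact ⟨hv, rfl⟩
  have hcont : ContinuousOn (fun z : ℂ × ℂ => (g z.1, g z.2)) Z := by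
    refine ContinuousOn.prodMk ?_ ?_
    · exact hg.comp continuousOn_fst fun z hz => (hZX hz).1
    · exact hg.comp continuousOn_snd fun z hz => (hZX hz).2
  refine ⟨(fun z : ℂ × ℂ => (g z.1, g z.2)) '' Z, hZc.image_of_continuousOn hcont,
    hZ.image _ hcont, ?_, ?_, ?_, ?_⟩
  · rintro _ ⟨z, hz, rfl⟩
    exact ⟨(hgT _ (hZX hz).1).1, (hgT _ (hZX hz).2).1⟩
  · rw [image_image]
    refine (image_congr (g := id) fun z hz => ?_).trans (image_id Z)
    simp only [(hgT _ (hZX hz).1).2, (hgT _ (hZX hz).2).2, id]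
  · intro he
    have h1 : Prod.fst '' ((fun z : ℂ × ℂ => (g z.1, g z.2)) '' Z) = g '' (Prod.fst '' Z) := by
      rw [image_image, image_image]
    have h2 : Prod.snd '' ((fun z : ℂ × ℂ => (g z.1, g z.2)) '' Z) = g '' (Prod.snd '' Z) := by
      rw [image_image, image_image]
    rw [h1, h2, he]
  · intro he
    have h1 : Prod.swap '' ((fun z : ℂ × ℂ => (g z.1, g z.2)) '' Z) =
        (fun z : ℂ × ℂ => (g z.1, g z.2)) '' (Prod.swap '' Z) := by
      rw [image_image, image_image]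
      rfl
    rw [h1, he]

theorem push (h : Triod X γ) {K : Set (W × W)} (hKc : IsCompact K) (hK : IsConnected K)
    (hKT : ∀ z ∈ K, z.1 ∈ T ∧ z.2 ∈ T) {R : ℝ} (hR : ∀ z ∈ K, R ≤ ‖Gam γ z.1 - Gam γ z.2‖)
    (h1 : Prod.fst '' K = T) (h2 : Prod.snd '' K = T) : R ≤ sspn X := by
  have hcont : ContinuousOn (fun z : W × W => (Gam γ z.1, Gam γ z.2)) K := by
    refine ContinuousOn.prodMk ?_ ?_
    · exact (gam_cont h).comp continuousOn_fst fun z hz => (hKT z hz).1
    · exact (gam_cont h).comp continuousOn_snd fun z hz => (hKT z hz).2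
  have hmem : sInf ((fun z : ℂ × ℂ => dist z.1 z.2) ''
      ((fun z : W × W => (Gam γ z.1, Gam γ z.2)) '' K)) ∈ sspanVals X := by
    refine ⟨_, hKc.image_of_continuousOn hcont, hK.image _ hcont, ?_, ?_, ?_, rfl⟩
    · rintro _ ⟨z, hz, rfl⟩
      rw [← gam_img h]
      exact ⟨mem_image_of_mem _ (hKT z hz).1, mem_image_of_mem _ (hKT z hz).2⟩
    · rw [image_image, ← gam_img h, ← h1, image_image]
    · rw [image_image, ← gam_img h, ← h2, image_image]
  refine le_trans ?_ (le_csSup (red_facts h).2.1 hmem)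
  refine le_csInf ((hK.nonempty.image _).image _) ?_
  rintro _ ⟨_, ⟨z, hz, rfl⟩, rfl⟩
  have := hR z hz
  rwa [← dist_eq_norm] at this

theorem spn_facts (h : Triod X γ) :
    BddAbove (spanVals X) ∧ BddAbove (sspanVals X) ∧ BddAbove (symVals X) ∧
      (0 : ℝ) ∈ sspanVals X ∧ sspanVals X ⊆ spanVals X ∧ (0 : ℝ) ∈ symVals X := by
  exact red_facts h

end Pool.Agent.SPN
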