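import Pool.Agent.SPN.SPReg
import Pool.Agent.SPN.LogH

/-! # SPN SPTRAP: the winding argument for two straight legs (MP_613dde_gt; plane part)

`P` runs on `[-a1, 0]` down the first ray from `c` to `0` and on `[0, bb]` through the sector, `ρ` is the
distance of `P bb` from `c`, reached for the first time.  The rope from `P bb` to `c` closes `P` to a Jordan
curve.  A connected set `Q` of pairs `(p, q)`, `p < q ≤ bb`, on which `Im ((P q - P p) * conj (nn (P q)))` is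
positive cannot join a pair with `p ≤ 0` to a pair `(bx, bb)` with `bx > 0`. -/

set_option autoImplicit false

open Set ComplexConjugate

noncomputable section

namespace Pool.Agent.SPN

/-- a continuous function on a preconnected set which avoids `l` and `r` stays between -/
theorem stay {E : Type} [TopologicalSpace E] {S : Set E} (hS : IsPreconnected S) {f : E → ℝ}
    (hf : ContinuousOn f S) {l r : ℝ} (hl : ∀ z ∈ S, f z ≠ l) (hr : ∀ z ∈ S, f z ≠ r) {z w : E}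
    (hz : z ∈ S) (hw : w ∈ S) (h : l < f z ∧ f z < r) : l < f w ∧ f w < r := by
  constructor
  · by_contra hcon
    obtain ⟨v, hv, hv'⟩ := hS.intermediate_value hw hz hf ⟨not_lt.1 hcon, h.1.le⟩
    exact hl v hv hv'
  · by_contra hcon
    obtain ⟨v, hv, hv'⟩ := hS.intermediate_value hz hw hf ⟨h.2.le, not_lt.1 hcon⟩
    exact hr v hv hv'

theorem convex_log {D : Set (ℝ × ℝ)} (hD : Convex ℝ D) (hDc : IsCompact D) {F : ℝ × ℝ → ℂ}
    (hF : ContinuousOn F D) (h0 : ∀ z ∈ D, F z ≠ 0) : HasLog F D := by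
  rcases D.eq_empty_or_nonempty with rfl | ⟨z0, hz0⟩
  · exact ⟨fun _ => 0, continuousOn_const, fun z hz => absurd hz (notMem_empty z)⟩
  have hmem : ∀ t ∈ Icc (0 : ℝ) 1, ∀ z ∈ D, t • z0 + (1 - t) • z ∈ D := fun t ht z hz =>
    hD hz0 hz ht.1 (by linarith [ht.2]) (by ring)
  have h := hasLog_homotopy (K := D) hDc (h := fun t z => F (t • z0 + (1 - t) • z)) ?_ ?_ ?_
  · simpa using h
  · refine hF.comp (f := fun p : ℝ × (ℝ × ℝ) => p.1 • z0 + (1 - p.1) • p.2) ?_ ?_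
    · fun_prop
    · rintro ⟨t, z⟩ ⟨ht, hz⟩
      exact hmem t ht z hz
  · intro t ht z hz
    exact h0 _ (hmem t ht z hz)
  · have e : (fun z : ℝ × ℝ => F ((1 : ℝ) • z0 + (1 - (1 : ℝ)) • z)) = fun _ => F z0 := by
      funext z
      simp
    show HasLog (fun z : ℝ × ℝ => F ((1 : ℝ) • z0 + (1 - (1 : ℝ)) • z)) D
    rw [e]
    exact hasLog_const (h0 z0 hz0) D

/-- the path continued by the rope -/
def rope (P : ℝ → ℂ) (bb : ℝ) (c : ℂ) (q : ℝ) : ℂ :=
  P (min q bb) + ((max (q - bb) 0 : ℝ) : ℂ) * (c - P bb)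

theorem rope_le {P : ℝ → ℂ} {bb : ℝ} {c : ℂ} {q : ℝ} (h : q ≤ bb) : rope P bb c q = P q := by
  unfold rope
  rw [min_eq_left h, max_eq_right (by linarith), Complex.ofReal_zero, zero_mul, add_zero]

theorem rope_ge {P : ℝ → ℂ} {bb : ℝ} {c : ℂ} {q : ℝ} (h : bb ≤ q) :
    rope P bb c q = P bb + ((q - bb : ℝ) : ℂ) * (c - P bb) := by
  unfold rope
  rw [min_eq_right h, max_eq_left (by linarith)]

theorem rope_end {P : ℝ → ℂ} {bb : ℝ} {c : ℂ} : rope P bb c (bb + 1) = c := by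
  rw [rope_ge (by linarith)]
  push_cast
  ring

theorem rope_cont {P : ℝ → ℂ} {bb a1 : ℝ} {c : ℂ} (hb : -a1 ≤ bb)
    (hc : ContinuousOn P (Icc (-a1) bb)) : ContinuousOn (rope P bb c) (Ici (-a1)) := by
  unfold rope
  refine ContinuousOn.add ?_ ?_
  · refine hc.comp (f := fun q : ℝ => min q bb) (by fun_prop) ?_
    intro q hq
    exact ⟨le_min hq hb, min_le_right _ _⟩
  · refine ContinuousOn.mul ?_ continuousOn_const
    exact (Complex.continuous_ofReal.comp (by fun_prop : Continuous fun q : ℝ => max (q - bb) 0)).continuousOn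

theorem rope_sub {P : ℝ → ℂ} {bb : ℝ} {c : ℂ} {q : ℝ} (h : bb ≤ q) :
    rope P bb c q - c = ((bb + 1 - q : ℝ) : ℂ) * (P bb - c) := by
  rw [rope_ge h]
  push_cast
  ring

structure TrapData (u : ℂ) (P : ℝ → ℂ) (a1 bb ρ c : ℝ) : Prop where
  ha : 0 < a1
  hb : 0 < bb
  cont : ContinuousOn P (Icc (-a1) bb)
  inj : InjOn P (Icc (-a1) bb)
  neg : ∀ p ∈ Icc (-a1) 0, (P p).im = 0 ∧ 0 ≤ (P p).re
  start : P (-a1) = (c : ℂ)
  zero : P 0 = 0
  sec : ∀ q ∈ Ioc 0 bb, 0 < (nn u (P q)).im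
  relt : ∀ q ∈ Icc 0 bb, (P q).re < c
  far : ∀ q ∈ Ico 0 bb, ρ < ‖P q - (c : ℂ)‖
  near : ‖P bb - (c : ℂ)‖ = ρ
  bre : 0 < (P bb).re

section

variable {u : ℂ} {P : ℝ → ℂ} {a1 bb ρ c : ℝ}

theorem TrapData.c_pos (h : TrapData u P a1 bb ρ c) : 0 < c := by
  have := h.relt 0 ⟨le_rfl, h.hb.le⟩
  rwa [h.zero, Complex.zero_re] at this

theorem TrapData.rho_pos (h : TrapData u P a1 bb ρ c) : 0 < ρ := by
  rw [← h.near, norm_pos_iff, sub_ne_zero]
  intro hcon
  have := h.relt bb ⟨h.hb.le, le_rfl⟩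
  rw [hcon, Complex.ofReal_re] at this
  exact lt_irrefl _ this

theorem TrapData.bim (hu : Dir u) (h : TrapData u P a1 bb ρ c) : 0 < (P bb).im :=
  (im_pos_of_re hu (h.sec bb ⟨h.hb, le_rfl⟩) h.bre).1

theorem TrapData.ne (hu : Dir u) (h : TrapData u P a1 bb ρ c) {p q : ℝ} (hp : -a1 ≤ p)
    (hpq : p < q) (hq : q ≤ bb + 1) (hne : ¬ (p = -a1 ∧ q = bb + 1)) :
    rope P bb c q - rope P bb c p ≠ 0 := by
  intro hcon
  rw [sub_eq_zero] at hcon
  have hρ := h.rho_pos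
  rcases le_or_gt q bb with h1 | h1
  · rw [rope_le h1, rope_le (hpq.le.trans h1)] at hcon
    have := h.inj ⟨hp.trans hpq.le, h1⟩ ⟨hp, hpq.le.trans h1⟩ hcon
    linarith
  · have h2 := rope_sub (P := P) (c := (c : ℂ)) h1.le
    rw [hcon] at h2
    rcases le_or_gt p bb with h3 | h3
    · rw [rope_le h3] at h2
      rcases lt_or_ge p 0 with h4 | h4
      · have h5 := congrArg Complex.im h2
        rw [Complex.sub_im, (h.neg p ⟨hp, h4.le⟩).1, Complex.ofReal_im, Complex.mul_im,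
          Complex.ofReal_re, Complex.ofReal_im, Complex.sub_im, Complex.ofReal_im] at h5
        have h6 : (bb + 1 - q) * (P bb).im = 0 := by linarith
        rcases mul_eq_zero.1 h6 with h7 | h7
        · rw [h7, Complex.ofReal_zero, zero_mul, sub_eq_zero, ← h.start] at h2
          have := h.inj ⟨hp, h3⟩ ⟨le_rfl, by linarith [h.ha, h.hb]⟩ h2
          exact hne ⟨this, by linarith⟩
        · exact absurd h7 (h.bim hu).ne'
      · have h5 := congrArg norm h2
        rw [norm_mul, h.near, Complex.norm_real, Real.norm_eq_abs,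
          abs_of_nonneg (by linarith)] at h5
        rcases h3.eq_or_lt with h6 | h6
        · rw [h6, h.near] at h5
          nlinarith
        · have := h.far p ⟨h4, h6⟩
          nlinarith
    · rw [rope_sub h3.le] at h2
      have h5 := congrArg norm h2
      rw [norm_mul, norm_mul, h.near, Complex.norm_real, Complex.norm_real, Real.norm_eq_abs,
        Real.norm_eq_abs, abs_of_nonneg (by linarith), abs_of_nonneg (by linarith)] at h5
      have := mul_right_cancel₀ hρ.ne' h5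
      linarith

/-- the region on which the logarithm is taken -/
def DD (a1 bb δ m : ℝ) : Set (ℝ × ℝ) :=
  {z | -a1 ≤ z.1 ∧ z.2 ≤ bb + 1 ∧ δ ≤ z.2 - z.1 ∧ z.2 - z.1 ≤ bb + 1 + a1 - m}

theorem DD_convex (a1 bb δ m : ℝ) : Convex ℝ (DD a1 bb δ m) := by
  rintro ⟨x1, x2⟩ ⟨h1, h2, h3, h4⟩ ⟨y1, y2⟩ ⟨k1, k2, k3, k4⟩ s t hs ht hst
  have ht' : t = 1 - s := by linarith
  subst ht'
  simp only [Prod.smul_mk, Prod.mk_add_mk, smul_eq_mul] at *
  refine ⟨?_, ?_, ?_, ?_⟩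
  · show -a1 ≤ s * x1 + (1 - s) * y1
    nlinarith
  · show s * x2 + (1 - s) * y2 ≤ bb + 1
    nlinarith
  · show δ ≤ s * x2 + (1 - s) * y2 - (s * x1 + (1 - s) * y1)
    nlinarith
  · show s * x2 + (1 - s) * y2 - (s * x1 + (1 - s) * y1) ≤ bb + 1 + a1 - m
    nlinarith

theorem DD_compact (a1 bb δ m : ℝ) (hδ : 0 < δ) : IsCompact (DD a1 bb δ m) := by
  have h1 : IsCompact (Icc (-a1) (bb + 1) ×ˢ Icc (-a1) (bb + 1)) := isCompact_Icc.prod isCompact_Icc
  refine h1.of_isClosed_subset ?_ ?_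
  · have e1 : IsClosed {z : ℝ × ℝ | -a1 ≤ z.1} := isClosed_le continuous_const continuous_fst
    have e2 : IsClosed {z : ℝ × ℝ | z.2 ≤ bb + 1} := isClosed_le continuous_snd continuous_const
    have e3 : IsClosed {z : ℝ × ℝ | δ ≤ z.2 - z.1} :=
      isClosed_le continuous_const (continuous_snd.sub continuous_fst)
    have e4 : IsClosed {z : ℝ × ℝ | z.2 - z.1 ≤ bb + 1 + a1 - m} :=
      isClosed_le (continuous_snd.sub continuous_fst) continuous_const
    exact e1.inter (e2.inter (e3.inter e4))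
  · rintro z ⟨k1, k2, k3, k4⟩
    exact ⟨⟨k1, by linarith⟩, ⟨by linarith, k2⟩⟩

theorem TrapData.log (hu : Dir u) (h : TrapData u P a1 bb ρ c) {δ m : ℝ} (hδ : 0 < δ)
    (hm : 0 < m) : ∃ g : ℝ × ℝ → ℂ, ContinuousOn g (DD a1 bb δ m) ∧
      ∀ z ∈ DD a1 bb δ m, rope P bb c z.2 - rope P bb c z.1 = Complex.exp (g z) := by
  have hr := rope_cont (P := P) (bb := bb) (a1 := a1) (c := (c : ℂ)) (by linarith [h.ha, h.hb])
    h.cont
  refine convex_log (DD_convex a1 bb δ m) (DD_compact a1 bb δ m hδ) ?_ ?_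
  · refine ContinuousOn.sub ?_ ?_
    · exact hr.comp (f := fun z : ℝ × ℝ => z.2) continuous_snd.continuousOn
        fun z hz => (by show -a1 ≤ z.2; linarith [hz.1, hz.2.2.1] : z.2 ∈ Ici (-a1))
    · exact hr.comp (f := fun z : ℝ × ℝ => z.1) continuous_fst.continuousOn fun z hz => hz.1
  · rintro z ⟨k1, k2, k3, k4⟩
    refine h.ne hu k1 (by linarith) k2 ?_
    rintro ⟨e1, e2⟩
    rw [e1, e2] at k4
    linarith

/-- the normalised argument -/
theorem TrapData.lift (hu : Dir u) (h : TrapData u P a1 bb ρ c) {δ m : ℝ} (hδ : 0 < δ)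
    (hm : 0 < m) (hδa : δ ≤ a1) (hmb : m ≤ bb + 1) :
    ∃ I : ℝ × ℝ → ℝ, ContinuousOn I (DD a1 bb δ m) ∧ I (-a1, 0) = Real.pi ∧
      ∀ z ∈ DD a1 bb δ m, ∃ r : ℝ, 0 < r ∧
        (rope P bb c z.2 - rope P bb c z.1).re = r * Real.cos (I z) ∧
        (rope P bb c z.2 - rope P bb c z.1).im = r * Real.sin (I z) := by
  obtain ⟨g, hg, hgF⟩ := h.log hu hδ hm
  have ha := h.ha
  have hb := h.hb
  have hmem : ((-a1, 0) : ℝ × ℝ) ∈ DD a1 bb δ m :=
    ⟨le_rfl, by show (0 : ℝ) ≤ bb + 1; linarith, by show δ ≤ 0 - -a1; linarith,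
      by show 0 - -a1 ≤ bb + 1 + a1 - m; linarith⟩
  have h1 := hgF _ hmem
  simp only at h1
  rw [rope_le hb.le, rope_le (by linarith), h.zero, h.start, zero_sub] at h1
  have h2 : -(c : ℂ) = Complex.exp (((Real.log c : ℝ) : ℂ) + Real.pi * Complex.I) := by
    rw [Complex.exp_add, Complex.exp_pi_mul_I, ← Complex.ofReal_exp, Real.exp_log h.c_pos]
    ring
  rw [h2, Complex.exp_eq_exp_iff_exists_int] at h1
  obtain ⟨n, hn⟩ := h1
  refine ⟨fun z => (g z).im + n * (2 * Real.pi), ?_, ?_, ?_⟩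
  · exact (Complex.continuous_im.comp_continuousOn hg).add continuousOn_const
  · have h3 := congrArg Complex.im hn
    simp at h3
    show (g (-a1, 0)).im + n * (2 * Real.pi) = Real.pi
    linarith
  · intro z hz
    refine ⟨Real.exp (g z).re, Real.exp_pos _, ?_, ?_⟩
    · rw [hgF z hz, Complex.exp_re, Real.cos_add_int_mul_two_pi]
    · rw [hgF z hz, Complex.exp_im, Real.sin_add_int_mul_two_pi]

end

/-! ### intervals -/

theorem lt_pi_of_sin {x : ℝ} (h2 : x < 2 * Real.pi) (h : 0 < Real.sin x) : x < Real.pi := by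
  by_contra hcon
  have h3 : 0 ≤ Real.sin (x - Real.pi) :=
    Real.sin_nonneg_of_nonneg_of_le_pi (by linarith) (by linarith)
  rw [Real.sin_sub_pi] at h3
  linarith

theorem pos_of_sin {x : ℝ} (h1 : -Real.pi < x) (h : 0 < Real.sin x) : 0 < x := by
  by_contra hcon
  have := Real.sin_nonpos_of_nonpos_of_neg_pi_le (not_lt.1 hcon) h1.le
  linarith

theorem gt_of_cos {x : ℝ} (h1 : 0 < x) (h : Real.cos x < 0) : Real.pi / 2 < x := by
  by_contra hcon
  have := Real.cos_nonneg_of_neg_pi_div_two_le_of_le (by linarith [Real.pi_pos]) (not_lt.1 hcon)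
  linarith

/-- the region `p ≤ 0 ≤ q` -/
def SS (a1 bb δ : ℝ) : Set (ℝ × ℝ) :=
  {z | -a1 ≤ z.1 ∧ z.1 ≤ 0 ∧ 0 ≤ z.2 ∧ z.2 ≤ bb ∧ δ ≤ z.2 - z.1}

theorem SS_convex (a1 bb δ : ℝ) : Convex ℝ (SS a1 bb δ) := by
  rintro ⟨x1, x2⟩ ⟨h1, h2, h3, h4, h5⟩ ⟨y1, y2⟩ ⟨k1, k2, k3, k4, k5⟩ s t hs ht hst
  have ht' : t = 1 - s := by linarith
  subst ht'
  simp only [Prod.smul_mk, Prod.mk_add_mk, smul_eq_mul] at *
  refine ⟨?_, ?_, ?_, ?_, ?_⟩
  · show -a1 ≤ s * x1 + (1 - s) * y1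
    nlinarith
  · show s * x1 + (1 - s) * y1 ≤ 0
    nlinarith
  · show 0 ≤ s * x2 + (1 - s) * y2
    nlinarith
  · show s * x2 + (1 - s) * y2 ≤ bb
    nlinarith
  · show δ ≤ s * x2 + (1 - s) * y2 - (s * x1 + (1 - s) * y1)
    nlinarith

/-- the argument relative to the normal vector stays in `(0, π)` -/
theorem normal_arg {P : ℝ → ℂ} {u : ℂ} {Q : Set (ℝ × ℝ)} (hQ : IsPreconnected Q)
    {I : ℝ × ℝ → ℝ} (hI : ContinuousOn I Q)
    (hP : ContinuousOn (fun z : ℝ × ℝ => P z.2) Q)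
    (hsec : ∀ z ∈ Q, 0 < (nn u (P z.2)).im)
    (hIF : ∀ z ∈ Q, ∃ r : ℝ, 0 < r ∧ (P z.2 - P z.1).re = r * Real.cos (I z) ∧
        (P z.2 - P z.1).im = r * Real.sin (I z))
    (hQ2 : ∀ z ∈ Q, 0 < ((P z.2 - P z.1) * conj (nn u (P z.2))).im) {z w : ℝ × ℝ} (hz : z ∈ Q)
    (hw : w ∈ Q) (h0 : 0 < I z ∧ I z < 2 * Real.pi) :
    (nn u (P w.2)).arg < I w ∧ I w < (nn u (P w.2)).arg + Real.pi := by
  have hs : ∀ v ∈ Q, 0 < Real.sin (I v - (nn u (P v.2)).arg) := by
    intro v hv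
    obtain ⟨r, hr, e1, e2⟩ := hIF v hv
    have h1 := hQ2 v hv
    have h2 := hsec v hv
    rw [im_mul_conj, e1, e2, ← Complex.norm_mul_cos_arg (nn u (P v.2))] at h1
    rw [Real.sin_sub]
    have h3 : (nn u (P v.2)).im = ‖nn u (P v.2)‖ * Real.sin (nn u (P v.2)).arg :=
      (Complex.norm_mul_sin_arg _).symm
    rw [h3] at h1
    have h4 : 0 < r * ‖nn u (P v.2)‖ := by
      refine mul_pos hr (norm_pos_iff.2 fun hcon => ?_)
      rw [hcon] at h2
      simp at h2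
    have h5 : 0 < r * ‖nn u (P v.2)‖ * (Real.sin (I v) * Real.cos (nn u (P v.2)).arg -
        Real.cos (I v) * Real.sin (nn u (P v.2)).arg) := by
      nlinarith
    exact (mul_pos_iff_of_pos_left h4).1 h5
  have hJ : ContinuousOn (fun v : ℝ × ℝ => I v - (nn u (P v.2)).arg) Q := by
    refine hI.sub ?_
    intro v hv
    have h1 : ContinuousAt Complex.arg (nn u (P v.2)) :=
      Complex.continuousAt_arg (Or.inr (hsec v hv).ne')
    have h2 : ContinuousWithinAt (fun v : ℝ × ℝ => nn u (P v.2)) Q v :=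
      (nn_cont u).continuousAt.comp_continuousWithinAt (f := fun v : ℝ × ℝ => P v.2) (hP v hv)
    exact ContinuousAt.comp_continuousWithinAt (g := Complex.arg) (f := fun v : ℝ × ℝ => nn u (P v.2)) h1 h2
  have hz1 : 0 < I z - (nn u (P z.2)).arg ∧ I z - (nn u (P z.2)).arg < Real.pi := by
    have h1 : 0 ≤ (nn u (P z.2)).arg := Complex.arg_nonneg_iff.2 (hsec z hz).le
    have h2 : (nn u (P z.2)).arg ≤ Real.pi := Complex.arg_le_pi _
    exact ⟨pos_of_sin (by linarith) (hs z hz), lt_pi_of_sin (by linarith) (hs z hz)⟩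
  have h3 := stay hQ hJ (l := 0) (r := Real.pi) (fun v hv hcon => ?_) (fun v hv hcon => ?_) hz hw hz1
  · constructor <;> linarith [h3.1, h3.2]
  · have := hs v hv
    rw [hcon, Real.sin_zero] at this
    exact lt_irrefl _ this
  · have := hs v hv
    rw [hcon, Real.sin_pi] at this
    exact lt_irrefl _ this

theorem trap {u : ℂ} (hu : Dir u) {P : ℝ → ℂ} {a1 bb ρ c : ℝ} (h : TrapData u P a1 bb ρ c)
    {Q : Set (ℝ × ℝ)} (hQc : IsCompact Q) (hQ : IsPreconnected Q)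
    (hQ1 : ∀ z ∈ Q, -a1 ≤ z.1 ∧ z.1 < z.2 ∧ 0 < z.2 ∧ z.2 ≤ bb)
    (hQ2 : ∀ z ∈ Q, 0 < ((P z.2 - P z.1) * conj (nn u (P z.2))).im) {p0 q0 : ℝ}
    (h1 : (p0, q0) ∈ Q) (hp0 : p0 ≤ 0) {bx : ℝ} (h2 : (bx, bb) ∈ Q) (hbx : 0 < bx) : False := by
  have ha := h.ha
  have hb := h.hb
  have hρ := h.rho_pos
  have hcp := h.c_pos
  have hpi := Real.pi_pos
  -- the gap
  obtain ⟨zm, hzm, hzmin⟩ := hQc.exists_isMinOn ⟨_, h1⟩
    (f := fun z : ℝ × ℝ => z.2 - z.1) (by fun_prop)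
  obtain ⟨δ, hδ, hδa, hδQ⟩ : ∃ δ : ℝ, 0 < δ ∧ δ ≤ a1 ∧ ∀ z ∈ Q, δ ≤ z.2 - z.1 :=
    ⟨min (zm.2 - zm.1) a1, lt_min (by linarith [(hQ1 _ hzm).2.1]) ha, min_le_right _ _,
      fun z hz => (min_le_left _ _).trans (hzmin hz)⟩
  obtain ⟨m, hmp, hm1, hma⟩ : ∃ m : ℝ, 0 < m ∧ m ≤ 1 ∧ m ≤ a1 :=
    ⟨min 1 a1, lt_min one_pos ha, min_le_left _ _, min_le_right _ _⟩
  obtain ⟨I, hI, hI0, hIF⟩ := h.lift hu hδ hmp hδa (by linarith)
  have hbx2 : bx < bb := (hQ1 _ h2).2.1
  have hδbx : δ ≤ bb - bx := hδQ _ h2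
  have mem : ∀ p q : ℝ, -a1 ≤ p → q ≤ bb + 1 → δ ≤ q - p → q - p ≤ bb + 1 + a1 - m →
      ((p, q) : ℝ × ℝ) ∈ DD a1 bb δ m := fun p q k1 k2 k3 k4 => ⟨k1, k2, k3, k4⟩
  -- the region p ≤ 0 ≤ q
  have hSD : SS a1 bb δ ⊆ DD a1 bb δ m := by
    rintro ⟨p, q⟩ ⟨k1, k2, k3, k4, k5⟩
    simp only at k1 k2 k3 k4 k5
    exact mem p q k1 (by linarith) k5 (by linarith)
  have s2 : ∀ z ∈ SS a1 bb δ, 0 < I z ∧ I z < 2 * Real.pi := by
    have hav : ∀ z ∈ SS a1 bb δ, Real.sin (I z) = 0 → Real.cos (I z) = 1 → False := by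
      rintro ⟨p, q⟩ hz hsin hcos
      obtain ⟨r, hr, e1, e2⟩ := hIF _ (hSD hz)
      obtain ⟨k1, k2, k3, k4, k5⟩ := hz
      simp only at k1 k2 k3 k4 k5
      simp only at e1 e2
      rw [rope_le k4, rope_le (by linarith)] at e1 e2
      rw [hcos, Complex.sub_re] at e1
      rw [hsin, Complex.sub_im] at e2
      obtain ⟨n1, n2⟩ := h.neg p ⟨k1, k2⟩
      rcases k3.eq_or_lt with h5 | h5
      · rw [← h5, h.zero, Complex.zero_re] at e1
        linarith
      · exact ray_C hu (by linarith) (by linarith) (h.sec q ⟨h5, k4⟩)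
    have hst : ((-a1, 0) : ℝ × ℝ) ∈ SS a1 bb δ :=
      ⟨le_rfl, by show -a1 ≤ (0 : ℝ); linarith, le_rfl, hb.le, by show δ ≤ 0 - -a1; linarith⟩
    intro z hz
    refine stay (SS_convex a1 bb δ).isPreconnected (hI.mono hSD) (l := 0) (r := 2 * Real.pi)
      (fun v hv hcon => ?_) (fun v hv hcon => ?_) hst hz ?_
    · exact hav v hv (by rw [hcon, Real.sin_zero]) (by rw [hcon, Real.cos_zero])
    · exact hav v hv (by rw [hcon, Real.sin_two_pi]) (by rw [hcon, Real.cos_two_pi])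
    · rw [hI0]
      constructor <;> linarith
  -- the end (0, bb + 1)
  have s3 : I (0, bb + 1) = 0 := by
    have hδb : δ ≤ bb := by linarith
    have hbb : ((0, bb) : ℝ × ℝ) ∈ SS a1 bb δ :=
      ⟨by show -a1 ≤ (0 : ℝ); linarith, le_rfl, hb.le, le_rfl, by show δ ≤ bb - 0; linarith⟩
    have g1 := s2 _ hbb
    have g2 : I (0, bb) < Real.pi / 2 := by
      obtain ⟨r, hr, e1, e2⟩ := hIF _ (hSD hbb)
      simp only at e1 e2
      rw [rope_le le_rfl, rope_le hb.le, h.zero, sub_zero] at e1 e2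
      have e3 : 0 < Real.cos (I (0, bb)) := by
        have := h.bre
        rw [e1] at this
        exact (mul_pos_iff_of_pos_left hr).1 this
      have e4 : 0 < Real.sin (I (0, bb)) := by
        have := h.bim hu
        rw [e2] at this
        exact (mul_pos_iff_of_pos_left hr).1 this
      have e5 := lt_pi_of_sin g1.2 e4
      by_contra hcon
      have := Real.cos_nonpos_of_pi_div_two_le_of_le (not_lt.1 hcon) (by linarith)
      linarith
    have hmp2 : ∀ q ∈ Icc bb (bb + 1), ((0, q) : ℝ × ℝ) ∈ DD a1 bb δ m := fun q hq =>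
      mem 0 q (by linarith) hq.2 (by linarith [hq.1]) (by linarith [hq.2])
    have hcont : ContinuousOn (fun q : ℝ => I (0, q)) (Icc bb (bb + 1)) :=
      hI.comp (f := fun q : ℝ => ((0, q) : ℝ × ℝ)) (by fun_prop) hmp2
    have hcos : ∀ q ∈ Icc bb (bb + 1), 0 < Real.cos (I (0, q)) := by
      intro q hq
      obtain ⟨r, hr, e1, e2⟩ := hIF _ (hmp2 q hq)
      simp only at e1
      rw [rope_le hb.le, h.zero, sub_zero] at e1
      have e3 := congrArg Complex.re (rope_sub (P := P) (c := (c : ℂ)) hq.1)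
      rw [Complex.sub_re, Complex.ofReal_re, Complex.mul_re, Complex.ofReal_re, Complex.ofReal_im,
        Complex.sub_re, Complex.ofReal_re] at e3
      have e4 : 0 < (rope P bb c q).re := by
        have h5 := h.bre
        have h6 := hq.1
        have h7 := hq.2
        nlinarith [mul_nonneg (sub_nonneg.2 h6) hcp.le, mul_nonneg (sub_nonneg.2 h7) h5.le]
      rw [e1] at e4
      exact (mul_pos_iff_of_pos_left hr).1 e4
    have g3 := stay isPreconnected_Icc hcont (l := -(Real.pi / 2)) (r := Real.pi / 2)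
      (fun q hq hcon => by
        have := hcos q hq
        rw [hcon, Real.cos_neg, Real.cos_pi_div_two] at this
        exact lt_irrefl _ this)
      (fun q hq hcon => by
        have := hcos q hq
        rw [hcon, Real.cos_pi_div_two] at this
        exact lt_irrefl _ this)
      (z := bb) (w := bb + 1) ⟨le_rfl, by linarith⟩ ⟨by linarith, le_rfl⟩
      ⟨by linarith [g1.1], g2⟩
    obtain ⟨r, hr, e1, e2⟩ := hIF _ (hmp2 (bb + 1) ⟨by linarith, le_rfl⟩)
    simp only at e2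
    rw [rope_end, rope_le hb.le, h.zero, sub_zero, Complex.ofReal_im] at e2
    have e3 : Real.sin (I (0, bb + 1)) = 0 := (mul_eq_zero.1 e2.symm).resolve_left hr.ne'
    exact (Real.sin_eq_zero_iff_of_lt_of_lt (by linarith [g3.1]) (by linarith [g3.2])).1 e3
  -- the constant difference
  have hG : ∀ p ∈ Icc 0 bx, ((p, bb + 1) : ℝ × ℝ) ∈ DD a1 bb δ m ∧
      ((-a1, p) : ℝ × ℝ) ∈ DD a1 bb δ m := fun p hp =>
    ⟨mem p (bb + 1) (by linarith [hp.1]) le_rfl (by linarith [hp.2]) (by linarith [hp.1]),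
      mem (-a1) p le_rfl (by linarith [hp.2]) (by linarith [hp.1]) (by linarith [hp.2])⟩
  have hGc : ContinuousOn (fun p : ℝ => I (p, bb + 1) - I (-a1, p)) (Icc 0 bx) := by
    refine ContinuousOn.sub ?_ ?_
    · exact hI.comp (f := fun p : ℝ => ((p, bb + 1) : ℝ × ℝ)) (by fun_prop) fun p hp => (hG p hp).1
    · exact hI.comp (f := fun p : ℝ => ((-a1, p) : ℝ × ℝ)) (by fun_prop) fun p hp => (hG p hp).2
  have hGcos : ∀ p ∈ Icc 0 bx, Real.cos (I (p, bb + 1) - I (-a1, p)) < 0 := by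
    intro p hp
    obtain ⟨r, hr, e1, e2⟩ := hIF _ (hG p hp).1
    obtain ⟨s, hs, e3, e4⟩ := hIF _ (hG p hp).2
    simp only at e1 e2 e3 e4
    have hpb : p ≤ bb := by linarith [hp.2]
    rw [rope_end, rope_le hpb] at e1 e2
    rw [rope_le hpb, rope_le (by linarith), h.start] at e3 e4
    rw [Complex.sub_re, Complex.ofReal_re] at e1 e3
    rw [Complex.sub_im, Complex.ofReal_im] at e2 e4
    rw [Real.cos_sub]
    have f1 : r * Real.cos (I (p, bb + 1)) = -(s * Real.cos (I (-a1, p))) := by linarith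
    have f2 : r * Real.sin (I (p, bb + 1)) = -(s * Real.sin (I (-a1, p))) := by linarith
    have f3 : r * (Real.cos (I (p, bb + 1)) * Real.cos (I (-a1, p)) +
        Real.sin (I (p, bb + 1)) * Real.sin (I (-a1, p))) = -s := by
      have f4 := Real.sin_sq_add_cos_sq (I (-a1, p))
      linear_combination Real.cos (I (-a1, p)) * f1 + Real.sin (I (-a1, p)) * f2 - s * f4
    by_contra hcon
    nlinarith [mul_nonneg hr.le (not_lt.1 hcon)]
  have hG0 : I (0, bb + 1) - I (-a1, 0) = -Real.pi := by rw [s3, hI0]; ring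
  have s4 := stay isPreconnected_Icc hGc (l := -(Real.pi + Real.pi / 2)) (r := -(Real.pi / 2))
    (fun p hp hcon => by
      have := hGcos p hp
      rw [hcon, Real.cos_neg, Real.cos_add, Real.cos_pi_div_two, Real.sin_pi] at this
      simp at this)
    (fun p hp hcon => by
      have := hGcos p hp
      rw [hcon, Real.cos_neg, Real.cos_pi_div_two] at this
      exact lt_irrefl _ this)
    (z := 0) (w := bx) ⟨le_rfl, hbx.le⟩ ⟨hbx.le, le_rfl⟩
    (by show _ < I (0, bb + 1) - I (-a1, 0) ∧ I (0, bb + 1) - I (-a1, 0) < _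
        rw [hG0]
        constructor <;> linarith)
  have s4' : I (bx, bb + 1) - I (-a1, bx) < -(Real.pi / 2) := s4.2
  -- the point bx
  have hxre : (P bb).re < (P bx).re := re_lt hu (h.sec bb ⟨hb, le_rfl⟩) h.bre (hQ2 _ h2)
  have hxim : 0 < (P bx).im :=
    (im_pos_of_re hu (h.sec bx ⟨hbx, hbx2.le⟩) (by linarith [h.bre])).1
  have s5 : I (-a1, bx) < Real.pi := by
    have hz : ((-a1, bx) : ℝ × ℝ) ∈ SS a1 bb δ :=
      ⟨le_rfl, by show -a1 ≤ (0 : ℝ); linarith, hbx.le, hbx2.le, by show δ ≤ bx - -a1; linarith⟩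
    obtain ⟨r, hr, e1, e2⟩ := hIF _ (hSD hz)
    simp only at e2
    rw [rope_le hbx2.le, rope_le (by linarith), h.start, Complex.sub_im, Complex.ofReal_im,
      sub_zero] at e2
    rw [e2] at hxim
    exact lt_pi_of_sin (s2 _ hz).2 ((mul_pos_iff_of_pos_left hr).1 hxim)
  -- along Q
  have hQD : Q ⊆ DD a1 bb δ m := by
    intro z hz
    obtain ⟨k1, k2, k3, k4⟩ := hQ1 z hz
    exact ⟨k1, by linarith, hδQ z hz, by linarith⟩
  have s6 := normal_arg (P := P) (u := u) hQ (hI.mono hQD)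
    (h.cont.comp continuousOn_snd fun z hz =>
      (⟨by linarith [(hQ1 z hz).1, (hQ1 z hz).2.1], (hQ1 z hz).2.2.2⟩ : z.2 ∈ Icc (-a1) bb))
    (fun z hz => h.sec z.2 ⟨(hQ1 z hz).2.2.1, (hQ1 z hz).2.2.2⟩)
    (fun z hz => by
      obtain ⟨r, hr, e1, e2⟩ := hIF z (hQD hz)
      have k1 := (hQ1 z hz).2.1
      have k2 := (hQ1 z hz).2.2.2
      rw [rope_le k2, rope_le (by linarith)] at e1 e2
      exact ⟨r, hr, e1, e2⟩) hQ2 h1 h2
    (s2 _ ⟨(hQ1 _ h1).1, hp0, (hQ1 _ h1).2.2.1.le, (hQ1 _ h1).2.2.2, hδQ _ h1⟩)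
  have harg : (nn u (P bb)).arg = Real.pi / 2 := by
    obtain ⟨g1, g2⟩ := im_pos_of_re hu (h.sec bb ⟨hb, le_rfl⟩) h.bre
    rw [Complex.arg_eq_pi_div_two_iff, g2]
    exact ⟨rfl, g1⟩
  simp only [harg] at s6
  -- along the rope
  have hmp2 : ∀ q ∈ Icc bb (bb + 1), ((bx, q) : ℝ × ℝ) ∈ DD a1 bb δ m := fun q hq =>
    mem bx q (by linarith) hq.2 (by linarith [hq.1]) (by linarith [hq.2])
  have hcont : ContinuousOn (fun q : ℝ => I (bx, q)) (Icc bb (bb + 1)) :=
    hI.comp (f := fun q : ℝ => ((bx, q) : ℝ × ℝ)) (by fun_prop) hmp2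
  have hav : ∀ q ∈ Icc bb (bb + 1), Real.cos (I (bx, q)) = 0 → Real.sin (I (bx, q)) = 1 → False := by
    intro q hq hcos hsin
    obtain ⟨r, hr, e1, e2⟩ := hIF _ (hmp2 q hq)
    simp only at e1 e2
    rw [rope_le hbx2.le, Complex.sub_re, hcos] at e1
    rw [rope_le hbx2.le, Complex.sub_im, hsin] at e2
    have e3 := rope_sub (P := P) (c := (c : ℂ)) hq.1
    have e4 := congrArg norm e3
    rw [norm_mul, h.near, Complex.norm_real, Real.norm_eq_abs,
      abs_of_nonneg (by linarith [hq.2])] at e4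
    have e5 : ‖P bx - (c : ℂ)‖ ≤ ‖rope P bb c q - c‖ := by
      apply le_norm_of_sq
      simp only [Complex.sub_re, Complex.sub_im, Complex.ofReal_re, Complex.ofReal_im]
      have e6 : (rope P bb c q).re = (P bx).re := by linarith
      have e7 : (rope P bb c q).im = (P bx).im + r := by linarith
      rw [e6, e7]
      nlinarith [mul_pos hxim hr]
    have e8 := h.far bx ⟨hbx.le, hbx2⟩
    rw [e4] at e5
    nlinarith [mul_nonneg (sub_nonneg.2 hq.1) hρ.le]
  have s7 := stay isPreconnected_Icc hcont (l := Real.pi / 2) (r := Real.pi / 2 + 2 * Real.pi)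
    (fun q hq hcon => hav q hq (by rw [hcon, Real.cos_pi_div_two])
      (by rw [hcon, Real.sin_pi_div_two]))
    (fun q hq hcon => hav q hq (by rw [hcon, Real.cos_add_two_pi, Real.cos_pi_div_two])
      (by rw [hcon, Real.sin_add_two_pi, Real.sin_pi_div_two]))
    (z := bb) (w := bb + 1) ⟨le_rfl, by linarith⟩ ⟨by linarith, le_rfl⟩
    ⟨s6.1, by linarith [s6.2]⟩
  linarith [s7.1]

end Pool.Agent.SPN
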