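import Pool.Agent.SPN.Fin
import Pool.Agent.SPN.SPTrap

/-! # SPN SPMAIN: two straight legs, the third leg on the reflex side (MP_613dde_gt; main part)

Normalised situation `SP`: branch point `0`, leg `j` = `[0, c]` on the first ray, leg `i` on the ray of `u`,
leg `2` starts in the open reflex sector. -/

set_option autoImplicit false

open Set ComplexConjugate

noncomputable section

namespace Pool.Agent.SPN

/-- boundary bumping: `O` open with `K ∩ O ⊆ D`, `D` closed, `z ∈ K ∩ D`, `K ⊄ D`: the component of `z` in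
`K ∩ D` is not contained in `O` -/
theorem gbump {E : Type} [TopologicalSpace E] [T2Space E] {K D O : Set E} (hKc : IsCompact K)
    (hK : IsPreconnected K) (hD : IsClosed D) (hO : IsOpen O) (hKO : K ∩ O ⊆ D) {z : E}
    (hz : z ∈ K) (hzD : z ∈ D) (hout : ∃ y ∈ K, y ∉ D) :
    ∃ e ∈ connectedComponentIn (K ∩ D) z, e ∉ O := by
  by_contra hcon
  push Not at hcon
  have hcomp : IsCompact (K ∩ D) := hKc.inter_right hD
  have hKO' : IsClosed (K \ O) := (hKc.diff hO).isClosed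
  obtain ⟨P, Q, hP, hQ, hPQ, hU, hzP, hEQ⟩ := split hcomp (z := z) ⟨hz, hzD⟩
    (F := (K ∩ D) ∩ (K \ O)) (hcomp.isClosed.inter hKO')
    inter_subset_left (fun w hw hw' => hw.2.2 (hcon w hw'))
  have hzP' : z ∈ P := hzP (mem_connectedComponentIn ⟨hz, hzD⟩)
  have hPO : P ⊆ O := by
    intro w hw
    by_contra hwO
    have hwK : w ∈ K ∩ D := hU ▸ Or.inl hw
    exact Set.disjoint_left.1 hPQ hw (hEQ ⟨hwK, hwK.1, hwO⟩)
  obtain ⟨y, hy, hyD⟩ := hout
  have h1 := isPreconnected_closed_iff.1 hK P (Q ∪ (K \ O)) hP.isClosed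
    (hQ.isClosed.union hKO') ?_ ⟨z, hz, hzP'⟩ ⟨y, hy, Or.inr ⟨hy, fun hyO => hyD (hKO ⟨hy, hyO⟩)⟩⟩
  · obtain ⟨w, _, hwP, hwQ⟩ := h1
    rcases hwQ with hwQ | hwQ
    · exact Set.disjoint_left.1 hPQ hwP hwQ
    · exact hwQ.2 (hPO hwP)
  · intro w hw
    by_cases hwO : w ∈ O
    · have : w ∈ P ∪ Q := hU ▸ ⟨hw, hKO ⟨hw, hwO⟩⟩
      rcases this with h | h
      · exact Or.inl h
      · exact Or.inr (Or.inl h)
    · exact Or.inr (Or.inr ⟨hw, hwO⟩)

/-- a component of `N` -/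
structure SCmp (N K : Set (W × W)) : Prop where
  conn : IsConnected K
  comp : IsCompact K
  sub : K ⊆ N
  sat : ∀ C : Set (W × W), IsPreconnected C → C ⊆ N → (C ∩ K).Nonempty → C ⊆ K

theorem sCmp_comp {N : Set (W × W)} (hN : IsCompact N) {z0 : W × W} (hz0 : z0 ∈ N) :
    SCmp N (connectedComponentIn N z0) where
  conn := isConnected_connectedComponentIn_iff.2 hz0
  comp := comp_compact hN hz0
  sub := connectedComponentIn_subset _ _
  sat := by
    rintro C hC hCN ⟨w, hwC, hwK⟩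
    rw [connectedComponentIn_eq hwK]
    exact hC.subset_connectedComponentIn hwC hCN

theorem SCmp.swap {N K : Set (W × W)} (h : SCmp N K) (hN : ∀ z ∈ N, z.swap ∈ N) :
    SCmp N (Prod.swap '' K) where
  conn := h.conn.image _ continuous_swap.continuousOn
  comp := h.comp.image continuous_swap
  sub := by
    rintro _ ⟨z, hz, rfl⟩
    exact hN z (h.sub hz)
  sat := by
    rintro C hC hCN ⟨w, hwC, ⟨v, hv, rfl⟩⟩ c hc
    have h1 := h.sat (Prod.swap '' C) (hC.image _ continuous_swap.continuousOn) (by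
      rintro _ ⟨z, hz, rfl⟩
      exact hN z (hCN hz)) ⟨v, ⟨v.swap, hwC, Prod.swap_swap v⟩, hv⟩
    exact ⟨c.swap, h1 ⟨c, hc, rfl⟩, Prod.swap_swap c⟩

theorem sp_cont_single (i : Fin 3) : Continuous (fun t : ℝ => (Pi.single i t : W)) := by
  refine continuous_pi fun j => ?_
  by_cases hj : j = i
  · subst hj
    simpa using continuous_id'
  · have h1 : (fun t : ℝ => (Pi.single i t : W) j) = fun _ => (0 : ℝ) := by
      funext t
      rw [Pi.single_eq_of_ne hj]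
    rw [h1]
    exact continuous_const

theorem sp_single_of_pos {v : W} (hv : v ∈ T) {i : Fin 3} (hi : 0 < v i) :
    v = Pi.single i (v i) := by
  funext j
  by_cases hj : j = i
  · subst hj
    rw [Pi.single_eq_same]
  · rw [Pi.single_eq_of_ne hj]
    rcases mul_eq_zero.1 (hv.2 j i hj) with h1 | h1
    · exact h1
    · linarith

/-- slide the first point along a leg -/
theorem SCmp.slide1 {N K : Set (W × W)} (h : SCmp N K) {g : Fin 3} {s t : ℝ} {w : W}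
    (hs : ((Pi.single g s : W), w) ∈ K)
    (hN : ∀ r ∈ uIcc s t, ((Pi.single g r : W), w) ∈ N) : ((Pi.single g t : W), w) ∈ K := by
  have hC : IsPreconnected ((fun r : ℝ => ((Pi.single g r : W), w)) '' uIcc s t) :=
    isPreconnected_uIcc.image _ ((sp_cont_single g).prodMk continuous_const).continuousOn
  refine h.sat _ hC ?_ ⟨_, ⟨s, left_mem_uIcc, rfl⟩, hs⟩ ⟨t, right_mem_uIcc, rfl⟩
  rintro _ ⟨r, hr, rfl⟩
  exact hN r hr

/-- slide the second point along a leg -/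
theorem SCmp.slide2 {N K : Set (W × W)} (h : SCmp N K) {g : Fin 3} {s t : ℝ} {w : W}
    (hs : (w, (Pi.single g s : W)) ∈ K)
    (hN : ∀ r ∈ uIcc s t, (w, (Pi.single g r : W)) ∈ N) : (w, (Pi.single g t : W)) ∈ K := by
  have hC : IsPreconnected ((fun r : ℝ => (w, (Pi.single g r : W))) '' uIcc s t) :=
    isPreconnected_uIcc.image _ (continuous_const.prodMk (sp_cont_single g)).continuousOn
  refine h.sat _ hC ?_ ⟨_, ⟨s, left_mem_uIcc, rfl⟩, hs⟩ ⟨t, right_mem_uIcc, rfl⟩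
  rintro _ ⟨r, hr, rfl⟩
  exact hN r hr

/-- the far pairs of the subtriod -/
def NR (Γ : W → ℂ) (a : W) (R : ℝ) : Set (W × W) :=
  {z | z.1 ∈ Sub a ∧ z.2 ∈ Sub a ∧ R ≤ ‖Γ z.1 - Γ z.2‖}

/-- the normalised triod -/
structure SP0 (Γ : W → ℂ) (a : W) (R : ℝ) (u : ℂ) (i j : Fin 3) (al cc : ℝ → ℝ) : Prop where
  dir : Dir u
  R0 : 0 < R
  ij : i ≠ j
  i2 : i ≠ 2
  j2 : j ≠ 2
  apos : ∀ g, 0 < a g
  ale : ∀ g, a g ≤ 1
  cont : ContinuousOn Γ T
  inj : InjOn Γ T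
  zero : Γ 0 = 0
  A : ∀ t ∈ Icc (0 : ℝ) 1, Γ (Pi.single i t) = (al t : ℂ) * u
  C : ∀ t ∈ Icc (0 : ℝ) 1, Γ (Pi.single j t) = (cc t : ℂ)
  Am : StrictMonoOn al (Icc 0 1)
  Cm : StrictMonoOn cc (Icc 0 1)
  B : ∃ ε > 0, ∀ t ∈ Ioo 0 ε, 0 < (nn u (Γ (Pi.single 2 t))).im

/-- the tips are at distance more than `R` from the branch point -/
structure SP (Γ : W → ℂ) (a : W) (R : ℝ) (u : ℂ) (i j : Fin 3) (al cc : ℝ → ℝ) : Prop
    extends SP0 Γ a R u i j al cc where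
  aR : R < al (a i)
  cR : R < cc (a j)

section

variable {Γ : W → ℂ} {a : W} {R : ℝ} {u : ℂ} {i j : Fin 3} {al cc : ℝ → ℝ}

theorem SP0.mirror (h : SP0 Γ a R u i j al cc) : SP0 (fun v => mir u (Γ v)) a R u j i cc al where
  dir := h.dir
  R0 := h.R0
  ij := h.ij.symm
  i2 := h.j2
  j2 := h.i2
  apos := h.apos
  ale := h.ale
  cont := (mir_cont u).comp_continuousOn h.cont
  inj := by
    intro v hv w hw hvw
    refine h.inj hv hw ?_
    have h1 := congrArg (mir u) hvw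
    simp only [mir_mir h.dir] at h1
    exact h1
  zero := by
    show mir u (Γ 0) = 0
    rw [h.zero]
    simp [mir]
  A := by
    intro t ht
    show mir u (Γ (Pi.single j t)) = _
    rw [h.C t ht, mir_C]
  C := by
    intro t ht
    show mir u (Γ (Pi.single i t)) = _
    rw [h.A t ht, mir_A h.dir]
  Am := h.Cm
  Cm := h.Am
  B := by
    obtain ⟨ε, hε, h1⟩ := h.B
    exact ⟨ε, hε, fun t ht => mir_sector h.dir (h1 t ht)⟩

theorem SP.mirror (h : SP Γ a R u i j al cc) : SP (fun v => mir u (Γ v)) a R u j i cc al where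
  toSP0 := h.toSP0.mirror
  aR := h.cR
  cR := h.aR

theorem NR_mirror (hu : Dir u) : NR (fun v => mir u (Γ v)) a R = NR Γ a R := by
  unfold NR
  ext z
  simp only [mem_ofPred_eq, mir_sub, mir_norm hu]

theorem SP0.cc0 (h : SP0 Γ a R u i j al cc) : cc 0 = 0 := by
  have h1 := h.C 0 ⟨le_rfl, zero_le_one⟩
  rw [Pi.single_zero, h.zero] at h1
  exact_mod_cast h1.symm

theorem SP0.al0 (h : SP0 Γ a R u i j al cc) : al 0 = 0 := h.mirror.cc0

theorem SP0.cc_nonneg (h : SP0 Γ a R u i j al cc) {t : ℝ} (ht : t ∈ Icc (0 : ℝ) 1) : 0 ≤ cc t := by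
  rw [← h.cc0]
  exact h.Cm.monotoneOn ⟨le_rfl, zero_le_one⟩ ht ht.1

theorem SP0.al_nonneg (h : SP0 Γ a R u i j al cc) {t : ℝ} (ht : t ∈ Icc (0 : ℝ) 1) : 0 ≤ al t :=
  h.mirror.cc_nonneg ht

theorem SP0.sub (h : SP0 Γ a R u i j al cc) {g : Fin 3} {t : ℝ} (ht : t ∈ Icc 0 (a g)) :
    (Pi.single g t : W) ∈ Sub a := by
  refine ⟨single_mem_T ⟨ht.1, ht.2.trans (h.ale g)⟩ g, fun k => ?_⟩
  by_cases hk : k = g
  · subst hk
    rw [Pi.single_eq_same]
    exact ht.2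
  · rw [Pi.single_eq_of_ne hk]
    exact (h.apos k).le

theorem SP0.icc (h : SP0 Γ a R u i j al cc) {g : Fin 3} {t : ℝ} (ht : t ∈ Icc 0 (a g)) :
    t ∈ Icc (0 : ℝ) 1 := ⟨ht.1, ht.2.trans (h.ale g)⟩

theorem SP0.a01 (h : SP0 Γ a R u i j al cc) (g : Fin 3) : a g ∈ Icc (0 : ℝ) 1 :=
  ⟨(h.apos g).le, h.ale g⟩

/-- while there is no contact with the tips the normal distance stays below `R` -/
theorem SP.merge (h : SP Γ a R u i j al cc) {K1 K2 : Set (W × W)} (h1 : SCmp (NR Γ a R) K1)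
    (hd : Disjoint K1 K2)
    (e1 : ((Pi.single j (a j) : W), (0 : W)) ∈ K1) (e2 : ((Pi.single i (a i) : W), (0 : W)) ∈ K2)
    {b : ℝ} (hb : b ∈ Icc 0 (a 2))
    (hnc : ∀ t ∈ Icc 0 b, R ≤ ‖Γ (Pi.single 2 t) - (cc (a j) : ℂ)‖ ∧
      R ≤ ‖Γ (Pi.single 2 t) - (al (a i) : ℂ) * u‖)
    (hy : 0 < (nn u (Γ (Pi.single 2 b))).im) : ‖nn u (Γ (Pi.single 2 b))‖ < R := by
  by_contra hcon
  push Not at hcon
  have hsub : ∀ t ∈ Icc 0 b, (Pi.single 2 t : W) ∈ Sub a := fun t ht =>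
    h.sub ⟨ht.1, ht.2.trans hb.2⟩
  have p1 : ((Pi.single j (a j) : W), (Pi.single 2 b : W)) ∈ K1 := by
    refine h1.slide2 (s := 0) (by rw [Pi.single_zero]; exact e1) ?_
    intro t ht
    rw [uIcc_of_le hb.1] at ht
    refine ⟨h.sub ⟨(h.apos j).le, le_rfl⟩, hsub t ht, ?_⟩
    show R ≤ ‖Γ (Pi.single j (a j)) - Γ (Pi.single 2 t)‖
    rw [h.C _ (h.a01 j), norm_sub_rev]
    exact (hnc t ht).1
  have p2 : ((Pi.single j 0 : W), (Pi.single 2 b : W)) ∈ K1 := by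
    refine h1.slide1 p1 ?_
    intro t ht
    rw [uIcc_of_ge (h.apos j).le] at ht
    refine ⟨h.sub ht, hsub b ⟨hb.1, le_rfl⟩, ?_⟩
    show R ≤ ‖Γ (Pi.single j t) - Γ (Pi.single 2 b)‖
    rw [h.C _ (h.icc ht), norm_sub_rev]
    exact hcon.trans (vi_C h.dir hy (h.cc_nonneg (h.icc ht)))
  have p3 : ((Pi.single i (a i) : W), (Pi.single 2 b : W)) ∈ K1 := by
    rw [Pi.single_zero, ← Pi.single_zero i] at p2
    refine h1.slide1 p2 ?_
    intro t ht
    rw [uIcc_of_le (h.apos i).le] at ht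
    refine ⟨h.sub ht, hsub b ⟨hb.1, le_rfl⟩, ?_⟩
    show R ≤ ‖Γ (Pi.single i t) - Γ (Pi.single 2 b)‖
    rw [h.A _ (h.icc ht), norm_sub_rev]
    exact hcon.trans (vi_A h.dir hy (h.al_nonneg (h.icc ht)))
  have p4 : ((Pi.single i (a i) : W), (Pi.single 2 0 : W)) ∈ K1 := by
    refine h1.slide2 p3 ?_
    intro t ht
    rw [uIcc_of_ge hb.1] at ht
    refine ⟨h.sub ⟨(h.apos i).le, le_rfl⟩, hsub t ht, ?_⟩
    show R ≤ ‖Γ (Pi.single i (a i)) - Γ (Pi.single 2 t)‖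
    rw [h.A _ (h.a01 i), norm_sub_rev]
    exact (hnc t ht).2
  rw [Pi.single_zero] at p4
  exact Set.disjoint_left.1 hd p4 e2

/-- the corridor -/
def VV (u : ℂ) (R c α : ℝ) : Set ℂ := {y | 0 < (nn u y).im ∧ ‖nn u y‖ < R ∧ y.re < c ∧ sc u y < α}

/-- the closed corridor -/
def VC (u : ℂ) (R c α : ℝ) : Set ℂ :=
  {y | ((0 ≤ y.re ∧ sc u y ≤ 0 ∧ 0 ≤ y.im) ∨ (y.re ≤ 0 ∧ sc u y ≤ 0 ∧ 0 ≤ y.im) ∨
    (y.re ≤ 0 ∧ 0 ≤ sc u y ∧ 0 ≤ y.re * u.im - y.im * u.re)) ∧ ‖nn u y‖ ≤ R ∧ y.re ≤ c ∧ sc u y ≤ α}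

theorem VV_open (u : ℂ) (R c α : ℝ) : IsOpen (VV u R c α) := by
  have c1 := Complex.continuous_re
  exact (isOpen_lt continuous_const (Complex.continuous_im.comp (nn_cont u))).inter
    ((isOpen_lt (nn_cont u).norm continuous_const).inter
    ((isOpen_lt c1 continuous_const).inter (isOpen_lt (sc_cont u) continuous_const)))

theorem VC_closed (u : ℂ) (R c α : ℝ) : IsClosed (VC u R c α) := by
  have c1 := Complex.continuous_re
  have c2 := Complex.continuous_im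
  have c3 := sc_cont u
  have c4 : Continuous fun y : ℂ => y.re * u.im - y.im * u.re :=
    (c1.mul continuous_const).sub (c2.mul continuous_const)
  have k := @continuous_const ℂ ℝ _ _ 0
  refine IsClosed.inter ?_ ((isClosed_le (nn_cont u).norm continuous_const).inter
    ((isClosed_le c1 continuous_const).inter (isClosed_le c3 continuous_const)))
  exact ((isClosed_le k c1).inter ((isClosed_le c3 k).inter (isClosed_le k c2))).union
    (((isClosed_le c1 k).inter ((isClosed_le c3 k).inter (isClosed_le k c2))).union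
    ((isClosed_le c1 k).inter ((isClosed_le k c3).inter (isClosed_le k c4))))

theorem VV_sub {u : ℂ} (hu : Dir u) {R c α : ℝ} : VV u R c α ⊆ VC u R c α := by
  rintro y ⟨h1, h2, h3, h4⟩
  refine ⟨?_, h2.le, h3.le, h4.le⟩
  rcases zone hu h1 with ⟨k1, k2, k3, _⟩ | ⟨k1, k2, k3, _⟩ | ⟨k1, k2, k3, _⟩
  · exact Or.inl ⟨k1.le, k2, k3.le⟩
  · exact Or.inr (Or.inl ⟨k1, k2, k3.le⟩)
  · exact Or.inr (Or.inr ⟨k1, k2.le, k3.le⟩)

/-- a point of the closed sector which is not in the open one lies on a ray -/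
theorem VC_ray {u : ℂ} (hu : Dir u) {R c α : ℝ} {y : ℂ} (h : y ∈ VC u R c α)
    (h0 : ¬ 0 < (nn u y).im) : (0 ≤ y.re ∧ y.re ≤ c ∧ y = (y.re : ℂ)) ∨
      (0 ≤ sc u y ∧ sc u y ≤ α ∧ y = (sc u y : ℂ) * u) := by
  have hur := hu.re
  have hui := hu.im
  have hun := hu.nsq
  obtain ⟨h1, _, h3, h4⟩ := h
  rw [nn_im] at h0
  rcases h1 with ⟨k1, k2, k3⟩ | ⟨k1, k2, k3⟩ | ⟨k1, k2, k3⟩
  · rw [max_eq_right k2] at h0
    have e : y.im = 0 := by linarith
    exact Or.inl ⟨k1, h3, Complex.ext (by simp) (by simp [e])⟩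
  · rw [max_eq_right k2] at h0
    have e : y.im = 0 := by linarith
    have e2 : y.re = 0 := by
      unfold sc at k2
      rw [e] at k2
      nlinarith
    exact Or.inl ⟨e2.ge, h3, Complex.ext (by simp) (by simp [e])⟩
  · rw [max_eq_left k2] at h0
    have e1 : y.im - sc u y * u.im = -((y.re * u.im - y.im * u.re) * u.re) := by
      unfold sc
      linear_combination (-y.im) * hun
    rw [e1] at h0
    have e2 : y.re * u.im - y.im * u.re = 0 := by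
      refine le_antisymm ?_ k3
      by_contra hcon
      nlinarith [mul_pos (not_le.1 hcon) (neg_pos.2 hur)]
    refine Or.inr ⟨k2, h4, Complex.ext ?_ ?_⟩
    · simp only [Complex.mul_re, Complex.ofReal_re, Complex.ofReal_im]
      unfold sc
      linear_combination (-y.re) * hun + u.im * e2
    · simp only [Complex.mul_im, Complex.ofReal_re, Complex.ofReal_im]
      unfold sc
      linear_combination (-y.im) * hun - u.re * e2

theorem SP.legc (h : SP Γ a R u i j al cc) (g : Fin 3) :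
    ContinuousOn (fun t : ℝ => Γ (Pi.single g t)) (Icc 0 1) :=
  h.cont.comp (sp_cont_single g).continuousOn fun _ ht => single_mem_T ht g

theorem SP.ccc (h : SP Γ a R u i j al cc) : ContinuousOn cc (Icc 0 1) := by
  refine (Complex.continuous_re.comp_continuousOn (h.legc j)).congr ?_
  intro t ht
  show cc t = (Γ (Pi.single j t)).re
  rw [h.C t ht, Complex.ofReal_re]

/-- the points of the segment are points of the leg -/
theorem SP.onC (h : SP Γ a R u i j al cc) {x : ℝ} (h0 : 0 ≤ x) (hx : x ≤ cc (a j)) :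
    ∃ s ∈ Icc 0 (a j), cc s = x := by
  have h1 := intermediate_value_Icc (h.apos j).le
    (h.ccc.mono fun t (ht : t ∈ Icc 0 (a j)) => h.icc ht)
  rw [h.cc0] at h1
  exact h1 ⟨h0, hx⟩

theorem SP.onA (h : SP Γ a R u i j al cc) {x : ℝ} (h0 : 0 ≤ x) (hx : x ≤ al (a i)) :
    ∃ s ∈ Icc 0 (a i), al s = x := h.mirror.onC h0 hx

/-- a point of the third leg is not on a ray near the branch point -/
theorem SP.notC (h : SP Γ a R u i j al cc) {b : ℝ} (hb : 0 < b) (hb1 : b ≤ 1) {x : ℝ} (h0 : 0 ≤ x)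
    (hx : x ≤ cc (a j)) : Γ (Pi.single 2 b) ≠ (x : ℂ) := by
  intro hcon
  obtain ⟨s, hs, rfl⟩ := h.onC h0 hx
  rw [← h.C s (h.icc hs)] at hcon
  have h1 := h.inj (single_mem_T ⟨hb.le, hb1⟩ 2) (single_mem_T (h.icc hs) j) hcon
  have h2 := congrFun h1 2
  rw [Pi.single_eq_same, Pi.single_eq_of_ne h.j2.symm] at h2
  exact hb.ne' h2

theorem SP.notA (h : SP Γ a R u i j al cc) {b : ℝ} (hb : 0 < b) (hb1 : b ≤ 1) {x : ℝ} (h0 : 0 ≤ x)
    (hx : x ≤ al (a i)) : Γ (Pi.single 2 b) ≠ (x : ℂ) * u := by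
  intro hcon
  refine h.mirror.notC hb hb1 h0 hx ?_
  show mir u (Γ (Pi.single 2 b)) = _
  rw [hcon, mir_A h.dir]

theorem SP.near0 (h : SP Γ a R u i j al cc) : ∃ ε > 0, ε ≤ 1 ∧ ∀ t ∈ Ioo 0 ε,
    Γ (Pi.single 2 t) ∈ VV u R (cc (a j)) (al (a i)) ∧ ‖Γ (Pi.single 2 t)‖ < R / 2 ∧
      R < ‖Γ (Pi.single 2 t) - (cc (a j) : ℂ)‖ ∧ R < ‖Γ (Pi.single 2 t) - (al (a i) : ℂ) * u‖ := by
  obtain ⟨ε1, hε1, hB⟩ := h.B
  have hV : IsOpen {y : ℂ | ‖nn u y‖ < R ∧ y.re < cc (a j) ∧ sc u y < al (a i) ∧ ‖y‖ < R / 2 ∧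
      R < ‖y - (cc (a j) : ℂ)‖ ∧ R < ‖y - (al (a i) : ℂ) * u‖} :=
    (isOpen_lt (nn_cont u).norm continuous_const).inter
      ((isOpen_lt Complex.continuous_re continuous_const).inter
      ((isOpen_lt (sc_cont u) continuous_const).inter
      ((isOpen_lt continuous_norm continuous_const).inter
      ((isOpen_lt continuous_const (continuous_id.sub continuous_const).norm).inter
      (isOpen_lt continuous_const (continuous_id.sub continuous_const).norm)))))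
  have h0 : Γ (Pi.single 2 0) ∈ {y : ℂ | ‖nn u y‖ < R ∧ y.re < cc (a j) ∧ sc u y < al (a i) ∧
      ‖y‖ < R / 2 ∧ R < ‖y - (cc (a j) : ℂ)‖ ∧ R < ‖y - (al (a i) : ℂ) * u‖} := by
    rw [Pi.single_zero, h.zero]
    have k1 := h.R0
    have k2 := h.aR
    have k3 := h.cR
    refine ⟨?_, ?_, ?_, ?_, ?_, ?_⟩
    · have : nn u 0 = 0 := by simp [nn, ft, sc]
      rw [this, norm_zero]
      exact k1
    · rw [Complex.zero_re]
      linarith
    · have : sc u 0 = 0 := by simp [sc]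
      rw [this]
      linarith
    · rw [norm_zero]
      linarith
    · rw [zero_sub, norm_neg, Complex.norm_real, Real.norm_eq_abs, abs_of_pos (by linarith)]
      exact k3
    · rw [zero_sub, norm_neg, norm_mul, dir_norm h.dir, mul_one, Complex.norm_real,
        Real.norm_eq_abs, abs_of_pos (by linarith)]
      exact k2
  have h1 := (h.legc 2 0 ⟨le_rfl, zero_le_one⟩).preimage_mem_nhdsWithin (hV.mem_nhds h0)
  rw [Metric.mem_nhdsWithin_iff] at h1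
  obtain ⟨ε2, hε2, h2⟩ := h1
  refine ⟨min (min ε1 ε2) 1, lt_min (lt_min hε1 hε2) one_pos, min_le_right _ _, ?_⟩
  intro t ht
  have t1 : t < ε1 := ht.2.trans_le ((min_le_left _ _).trans (min_le_left _ _))
  have t2 : t < ε2 := ht.2.trans_le ((min_le_left _ _).trans (min_le_right _ _))
  have t3 : t < 1 := ht.2.trans_le (min_le_right _ _)
  obtain ⟨k1, k2, k3, k4, k5, k6⟩ := h2 ⟨by
    rw [Metric.mem_ball, Real.dist_eq, sub_zero, abs_of_pos ht.1]
    exact t2, ht.1.le, t3.le⟩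
  exact ⟨⟨hB t ⟨ht.1, t1⟩, k1, k2, k3⟩, k4, k5, k6⟩

theorem SP.corridor (h : SP Γ a R u i j al cc) {K1 K2 : Set (W × W)} (h1 : SCmp (NR Γ a R) K1)
    (hd : Disjoint K1 K2)
    (e1 : ((Pi.single j (a j) : W), (0 : W)) ∈ K1) (e2 : ((Pi.single i (a i) : W), (0 : W)) ∈ K2)
    {b1 : ℝ} (hb1 : b1 ≤ a 2)
    (hnc : ∀ t ∈ Icc 0 b1, R ≤ ‖Γ (Pi.single 2 t) - (cc (a j) : ℂ)‖ ∧
      R ≤ ‖Γ (Pi.single 2 t) - (al (a i) : ℂ) * u‖) :
    ∀ b ∈ Ioc 0 b1, Γ (Pi.single 2 b) ∈ VV u R (cc (a j)) (al (a i)) := by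
  rcases lt_or_ge 0 b1 with hb0 | hb0
  swap
  · intro b hb
    exact absurd (hb.1.trans_le hb.2) (not_lt.2 hb0)
  have hsub : (fun t : ℝ => Γ (Pi.single 2 t)) '' Ioc 0 b1 ⊆ VV u R (cc (a j)) (al (a i)) := by
    refine IsPreconnected.subset_left_of_subset_union (v := (VC u R (cc (a j)) (al (a i)))ᶜ)
      (VV_open _ _ _ _) (VC_closed _ _ _ _).isOpen_compl ?_ ?_ ?_ ?_
    · rw [Set.disjoint_compl_right_iff_subset]
      exact VV_sub h.dir
    · rintro _ ⟨b, hb, rfl⟩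
      by_cases hV : Γ (Pi.single 2 b) ∈ VC u R (cc (a j)) (al (a i))
      swap
      · exact Or.inr hV
      left
      have hb1' : b ≤ 1 := hb.2.trans (hb1.trans (h.ale 2))
      have hpos : 0 < (nn u (Γ (Pi.single 2 b))).im := by
        by_contra hcon
        rcases VC_ray h.dir hV hcon with ⟨k1, k2, k3⟩ | ⟨k1, k2, k3⟩
        · exact h.notC hb.1 hb1' k1 k2 k3
        · exact h.notA hb.1 hb1' k1 k2 k3
      have hnc' : ∀ t ∈ Icc 0 b, R ≤ ‖Γ (Pi.single 2 t) - (cc (a j) : ℂ)‖ ∧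
          R ≤ ‖Γ (Pi.single 2 t) - (al (a i) : ℂ) * u‖ := fun t ht => hnc t ⟨ht.1, ht.2.trans hb.2⟩
      have hlt := h.merge h1 hd e1 e2 ⟨hb.1.le, hb.2.trans hb1⟩ hnc' hpos
      have hc := hnc' b ⟨hb.1.le, le_rfl⟩
      have hcpos : 0 < cc (a j) := h.R0.trans h.cR
      have hapos : 0 < al (a i) := h.R0.trans h.aR
      refine ⟨hpos, hlt, ?_, ?_⟩
      · refine lt_of_le_of_ne hV.2.2.1 fun hcon => ?_
        have k1 := (im_pos_of_re h.dir hpos (by rw [hcon]; exact hcpos)).2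
        have k2 : Γ (Pi.single 2 b) - (cc (a j) : ℂ) = nn u (Γ (Pi.single 2 b)) := by
          rw [k1]
          refine Complex.ext ?_ ?_
          · rw [Complex.sub_re, Complex.ofReal_re, hcon, sub_self]
          · rw [Complex.sub_im, Complex.ofReal_im, sub_zero]
        rw [k2] at hc
        linarith [hc.1]
      · refine lt_of_le_of_ne hV.2.2.2 fun hcon => ?_
        rcases zone h.dir hpos with ⟨_, k2, _, _⟩ | ⟨_, k2, _, _⟩ | ⟨k1, k2, _, _⟩
        · linarith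
        · linarith
        · have k3 : nn u (Γ (Pi.single 2 b)) = Γ (Pi.single 2 b) - (al (a i) : ℂ) * u := by
            unfold nn ft
            rw [max_eq_right k1, max_eq_left k2.le, hcon, Complex.ofReal_zero, zero_add]
          rw [← k3] at hc
          linarith [hc.2]
    · obtain ⟨ε, hε, hε1, hn⟩ := h.near0
      refine ⟨_, ⟨min b1 (ε / 2), ⟨lt_min hb0 (by linarith), min_le_left _ _⟩, rfl⟩, ?_⟩
      exact (hn _ ⟨lt_min hb0 (by linarith), (min_le_right _ _).trans_lt (by linarith)⟩).1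
    · exact isPreconnected_Ioc.image _ ((h.legc 2).mono fun t ht =>
        ⟨ht.1.le, ht.2.trans (hb1.trans (h.ale 2))⟩)
  intro b hb
  exact hsub ⟨b, hb, rfl⟩

/-- the first point near the tip of the first ray -/
theorem SP.first (h : SP Γ a R u i j al cc) {b1 : ℝ} (hb0 : 0 ≤ b1) (hb1 : b1 < a 2)
    (hnc : ∀ t ∈ Icc 0 b1, R ≤ ‖Γ (Pi.single 2 t) - (cc (a j) : ℂ)‖)
    (hV : ∀ b ∈ Ioc 0 b1, Γ (Pi.single 2 b) ∈ VV u R (cc (a j)) (al (a i)))
    (hcon : ∀ b2, b1 < b2 → ∃ t, b1 < t ∧ t ≤ b2 ∧ ‖Γ (Pi.single 2 t) - (cc (a j) : ℂ)‖ < R) :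
    ∃ bb ρ : ℝ, b1 < bb ∧ bb < a 2 ∧ ρ < R ∧
      (∀ b ∈ Ioc 0 bb, Γ (Pi.single 2 b) ∈ VV u R (cc (a j)) (al (a i))) ∧
      (∀ b ∈ Ico 0 bb, ρ < ‖Γ (Pi.single 2 b) - (cc (a j) : ℂ)‖) ∧
      ‖Γ (Pi.single 2 bb) - (cc (a j) : ℂ)‖ = ρ ∧ 0 < (Γ (Pi.single 2 bb)).re := by
  have hb11 : b1 < 1 := hb1.trans_le (h.ale 2)
  obtain ⟨b2, hb2, hb2a, hV2⟩ : ∃ b2, b1 < b2 ∧ b2 < a 2 ∧
      ∀ b ∈ Ioc 0 b2, Γ (Pi.single 2 b) ∈ VV u R (cc (a j)) (al (a i)) := by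
    rcases hb0.eq_or_lt with h0 | h0
    · obtain ⟨ε, hε, hε1, hn⟩ := h.near0
      refine ⟨min (ε / 2) (a 2 / 2), ?_, ?_, ?_⟩
      · rw [← h0]
        exact lt_min (by linarith) (by linarith [h.apos 2])
      · exact (min_le_right _ _).trans_lt (by linarith [h.apos 2])
      · intro b hb
        exact (hn b ⟨hb.1, (hb.2.trans (min_le_left _ _)).trans_lt (by linarith)⟩).1
    · have h1 := (h.legc 2 b1 ⟨hb0, hb11.le⟩).preimage_mem_nhdsWithin
        ((VV_open _ _ _ _).mem_nhds (hV b1 ⟨h0, le_rfl⟩))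
      rw [Metric.mem_nhdsWithin_iff] at h1
      obtain ⟨ε, hε, h2⟩ := h1
      refine ⟨min (b1 + ε / 2) ((b1 + a 2) / 2), ?_, ?_, ?_⟩
      · exact lt_min (by linarith) (by linarith)
      · exact (min_le_right _ _).trans_lt (by linarith)
      · intro b hb
        rcases le_or_gt b b1 with h3 | h3
        · exact hV b ⟨hb.1, h3⟩
        · refine h2 ⟨?_, hb.1.le, ?_⟩
          · rw [Metric.mem_ball, Real.dist_eq, abs_of_pos (by linarith)]
            linarith [hb.2.trans (min_le_left _ _)]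
          · have h4 := hb.2.trans (min_le_right _ _)
            have h5 := h.ale 2
            linarith
  obtain ⟨b', hb', hb'2, hlt⟩ := hcon b2 hb2
  have hb'1 : b' ≤ 1 := (hb'2.trans hb2a.le).trans (h.ale 2)
  have hb'0 : 0 < b' := hb0.trans_lt hb'
  have hc : ContinuousOn (fun b : ℝ => ‖Γ (Pi.single 2 b) - (cc (a j) : ℂ)‖) (Icc 0 b') :=
    (((h.legc 2).mono (Icc_subset_Icc_right hb'1)).sub continuousOn_const).norm
  set ρ := ‖Γ (Pi.single 2 b') - (cc (a j) : ℂ)‖ with hρ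
  have hS : IsCompact (Icc 0 b' ∩ (fun b : ℝ => ‖Γ (Pi.single 2 b) - (cc (a j) : ℂ)‖) ⁻¹' Iic ρ) :=
    isCompact_Icc.of_isClosed_subset (hc.preimage_isClosed_of_isClosed isClosed_Icc isClosed_Iic)
      inter_subset_left
  obtain ⟨bb, ⟨⟨hbb0, hbb'⟩, hbbρ⟩, hleast⟩ := hS.exists_isLeast
    ⟨b', ⟨hb'0.le, le_rfl⟩, mem_preimage.2 (mem_Iic.2 le_rfl)⟩
  replace hbbρ : ‖Γ (Pi.single 2 bb) - (cc (a j) : ℂ)‖ ≤ ρ := mem_Iic.1 (mem_preimage.1 hbbρ)
  have hfar : ∀ b ∈ Ico 0 bb, ρ < ‖Γ (Pi.single 2 b) - (cc (a j) : ℂ)‖ := by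
    intro b hb
    by_contra hcon
    have := hleast ⟨⟨hb.1, hb.2.le.trans hbb'⟩, mem_preimage.2 (mem_Iic.2 (not_lt.1 hcon))⟩
    exact absurd this (not_le.2 hb.2)
  have hbb1 : b1 < bb := by
    by_contra hcon
    have := hnc bb ⟨hbb0, not_lt.1 hcon⟩
    linarith
  have hbbp : 0 < bb := hb0.trans_lt hbb1
  have heq : ‖Γ (Pi.single 2 bb) - (cc (a j) : ℂ)‖ = ρ := by
    have h0 : ρ ≤ ‖Γ (Pi.single 2 0) - (cc (a j) : ℂ)‖ := (hfar 0 ⟨le_rfl, hbbp⟩).le
    obtain ⟨b, hb, hbe⟩ := intermediate_value_Icc' hbb0 (hc.mono (Icc_subset_Icc_right hbb'))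
      ⟨hbbρ, h0⟩
    rcases hb.2.eq_or_lt with h3 | h3
    · rw [← h3]
      exact hbe
    · have := hfar b ⟨hb.1, h3⟩
      simp only at hbe
      linarith
  refine ⟨bb, ρ, hbb1, (hbb'.trans hb'2).trans_lt hb2a, hlt, fun b hb =>
    hV2 b ⟨hb.1, hb.2.trans (hbb'.trans hb'2)⟩, hfar, heq, ?_⟩
  refine re_pos h.cR.le h.R0 (by rw [heq]; exact hlt.le) ?_
  rw [← h.zero]
  intro hcon2
  have := h.inj (single_mem_T ⟨hbb0, hbb'.trans hb'1⟩ 2) zero_mem_T hcon2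
  have h2 := congrFun this 2
  rw [Pi.single_eq_same] at h2
  exact hbbp.ne' h2

/-- the path down the first ray and up the third leg -/
def PP (Γ : W → ℂ) (j : Fin 3) (p : ℝ) : ℂ :=
  Γ (Pi.single j (max (-p) 0) + Pi.single 2 (max p 0))

theorem PP_neg {p : ℝ} (hp : p ≤ 0) : PP Γ j p = Γ (Pi.single j (-p)) := by
  unfold PP
  rw [max_eq_left (by linarith), max_eq_right hp, Pi.single_zero, add_zero]

theorem PP_pos {p : ℝ} (hp : 0 ≤ p) : PP Γ j p = Γ (Pi.single 2 p) := by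
  unfold PP
  rw [max_eq_right (by linarith), max_eq_left hp, Pi.single_zero, zero_add]

theorem SP.PP_cont (h : SP Γ a R u i j al cc) : ContinuousOn (PP Γ j) (Icc (-1) 1) := by
  unfold PP
  refine h.cont.comp (f := fun p : ℝ => (Pi.single j (max (-p) 0) + Pi.single 2 (max p 0) : W)) ?_ ?_
  · refine (Continuous.add ?_ ?_).continuousOn
    · exact (sp_cont_single j).comp (by fun_prop)
    · exact (sp_cont_single 2).comp (by fun_prop)
  · intro p hp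
    rcases le_total p 0 with h0 | h0
    · show (Pi.single j (max (-p) 0) + Pi.single 2 (max p 0) : W) ∈ T
      rw [max_eq_left (by linarith), max_eq_right h0, Pi.single_zero, add_zero]
      exact single_mem_T ⟨by linarith, by linarith [hp.1]⟩ j
    · show (Pi.single j (max (-p) 0) + Pi.single 2 (max p 0) : W) ∈ T
      rw [max_eq_right (by linarith), max_eq_left h0, Pi.single_zero, zero_add]
      exact single_mem_T ⟨h0, hp.2⟩ 2

theorem SP.PP_inj (h : SP Γ a R u i j al cc) : InjOn (PP Γ j) (Icc (-1) 1) := by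
  intro p hp q hq hpq
  rcases le_total p 0 with h0 | h0 <;> rcases le_total q 0 with k0 | k0
  · rw [PP_neg h0, PP_neg k0] at hpq
    have h1 := congrFun (h.inj (single_mem_T ⟨by linarith, by linarith [hp.1]⟩ j)
      (single_mem_T ⟨by linarith, by linarith [hq.1]⟩ j) hpq) j
    rw [Pi.single_eq_same, Pi.single_eq_same] at h1
    linarith
  · rw [PP_neg h0, PP_pos k0] at hpq
    have h1 := h.inj (single_mem_T ⟨by linarith, by linarith [hp.1]⟩ j)
      (single_mem_T ⟨k0, hq.2⟩ 2) hpq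
    have h2 := congrFun h1 j
    have h3 := congrFun h1 2
    rw [Pi.single_eq_same, Pi.single_eq_of_ne h.j2] at h2
    rw [Pi.single_eq_same, Pi.single_eq_of_ne h.j2.symm] at h3
    linarith
  · rw [PP_pos h0, PP_neg k0] at hpq
    have h1 := h.inj (single_mem_T ⟨h0, hp.2⟩ 2)
      (single_mem_T ⟨by linarith, by linarith [hq.1]⟩ j) hpq
    have h2 := congrFun h1 j
    have h3 := congrFun h1 2
    rw [Pi.single_eq_same, Pi.single_eq_of_ne h.j2] at h2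
    rw [Pi.single_eq_same, Pi.single_eq_of_ne h.j2.symm] at h3
    linarith
  · rw [PP_pos h0, PP_pos k0] at hpq
    have h1 := congrFun (h.inj (single_mem_T ⟨h0, hp.2⟩ 2) (single_mem_T ⟨k0, hq.2⟩ 2) hpq) 2
    rw [Pi.single_eq_same, Pi.single_eq_same] at h1
    exact h1

theorem SP.trapData (h : SP Γ a R u i j al cc) {bb ρ : ℝ} (hb : 0 < bb) (hb1 : bb < a 2)
    (hV : ∀ b ∈ Ioc 0 bb, Γ (Pi.single 2 b) ∈ VV u R (cc (a j)) (al (a i)))
    (hfar : ∀ b ∈ Ico 0 bb, ρ < ‖Γ (Pi.single 2 b) - (cc (a j) : ℂ)‖)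
    (heq : ‖Γ (Pi.single 2 bb) - (cc (a j) : ℂ)‖ = ρ) (hre : 0 < (Γ (Pi.single 2 bb)).re) :
    TrapData u (PP Γ j) (a j) bb ρ (cc (a j)) where
  ha := h.apos j
  hb := hb
  cont := h.PP_cont.mono (Icc_subset_Icc (by linarith [h.ale j]) (by linarith [h.ale 2]))
  inj := h.PP_inj.mono (Icc_subset_Icc (by linarith [h.ale j]) (by linarith [h.ale 2]))
  neg := by
    intro p hp
    have hp' : -p ∈ Icc (0 : ℝ) 1 := ⟨by linarith [hp.2], by linarith [hp.1, h.ale j]⟩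
    rw [PP_neg hp.2, h.C _ hp', Complex.ofReal_im, Complex.ofReal_re]
    exact ⟨rfl, h.cc_nonneg hp'⟩
  start := by
    rw [PP_neg (by linarith [h.apos j]), neg_neg, h.C _ (h.a01 j)]
  zero := by
    rw [PP_pos le_rfl, Pi.single_zero, h.zero]
  sec := by
    intro q hq
    rw [PP_pos hq.1.le]
    exact (hV q hq).1
  relt := by
    intro q hq
    rw [PP_pos hq.1]
    rcases hq.1.eq_or_lt with h0 | h0
    · rw [← h0, Pi.single_zero, h.zero, Complex.zero_re]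
      exact h.R0.trans h.cR
    · exact (hV q ⟨h0, hq.2⟩).2.2.1
  far := by
    intro q hq
    rw [PP_pos hq.1]
    exact hfar q hq
  near := by
    rw [PP_pos hb.le]
    exact heq
  bre := by
    rw [PP_pos hb.le]
    exact hre

theorem fin3_cases : ∀ i j g : Fin 3, i ≠ j → i ≠ 2 → j ≠ 2 → g = i ∨ g = j ∨ g = 2 := by decide

/-- no far pair has sign zero -/
theorem SP.sign_ne (h : SP Γ a R u i j al cc) {bb : ℝ}
    (hV : ∀ b ∈ Ioc 0 bb, Γ (Pi.single 2 b) ∈ VV u R (cc (a j)) (al (a i))) {x : W} (hx : x ∈ T)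
    {q : ℝ} (hq : q ∈ Ioc 0 bb) (hxq : x 2 < q) (hd : R ≤ ‖Γ x - Γ (Pi.single 2 q)‖) :
    ((Γ (Pi.single 2 q) - Γ x) * conj (nn u (Γ (Pi.single 2 q)))).im ≠ 0 := by
  intro hcon
  have hy := hV q hq
  rw [norm_sub_rev] at hd
  obtain ⟨g, hg⟩ := exists_single hx
  rcases fin3_cases i j g h.ij h.i2 h.j2 with rfl | rfl | rfl
  · rw [hg, h.A _ (hx.1 g)] at hd hcon
    have := leaf_ray h.dir hy.1 (Or.inr ⟨al (x g), h.al_nonneg (hx.1 g), rfl⟩) hcon
    linarith [hy.2.1]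
  · rw [hg, h.C _ (hx.1 g)] at hd hcon
    have := leaf_ray h.dir hy.1 (Or.inl ⟨cc (x g), h.cc_nonneg (hx.1 g), rfl⟩) hcon
    linarith [hy.2.1]
  · rcases (hx.1 2).1.eq_or_lt with h0 | h0
    · rw [hg, ← h0, Pi.single_zero, h.zero] at hd hcon
      have := leaf_ray h.dir hy.1 (Or.inl ⟨0, le_rfl, Complex.ofReal_zero.symm⟩) hcon
      linarith [hy.2.1]
    · have hx' := hV (x 2) ⟨h0, hxq.le.trans hq.2⟩
      rw [hg] at hd hcon
      have := leaf_sector h.dir hy.1 hx'.1 hcon hy.2.1 hx'.2.1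
      linarith

/-- collapse of the second ray -/
theorem SP.collapse (h : SP Γ a R u i j al cc) {x : W} (hx : x ∈ T) {y : ℂ}
    (hy : 0 < (nn u y).im) (hs : 0 < ((y - Γ x) * conj (nn u y)).im) :
    0 < ((y - PP Γ j (x 2 - x j)) * conj (nn u y)).im := by
  obtain ⟨g, hg⟩ := exists_single hx
  rcases fin3_cases i j g h.ij h.i2 h.j2 with rfl | rfl | rfl
  · have h1 : x 2 = 0 := by rw [hg, Pi.single_eq_of_ne h.i2.symm]
    have h2 : x j = 0 := by rw [hg, Pi.single_eq_of_ne h.ij.symm]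
    rw [h1, h2, sub_self, PP_pos le_rfl, Pi.single_zero, h.zero, sub_zero]
    rw [hg, h.A _ (hx.1 g)] at hs
    have h3 := im_u h.dir hy
    have h4 := h.al_nonneg (hx.1 g)
    rw [im_mul_conj] at hs h3 ⊢
    simp only [Complex.sub_re, Complex.sub_im, Complex.mul_re, Complex.mul_im, Complex.ofReal_re,
      Complex.ofReal_im] at hs
    nlinarith [mul_nonneg h4 h3.le]
  · have h1 : x 2 = 0 := by rw [hg, Pi.single_eq_of_ne h.j2.symm]
    rw [h1, zero_sub, PP_neg (by linarith [(hx.1 g).1]), neg_neg, ← hg]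
    exact hs
  · have h1 : x j = 0 := by rw [hg, Pi.single_eq_of_ne h.j2]
    rw [h1, sub_zero, PP_pos (hx.1 2).1, ← hg]
    exact hs

/-- the point at a low level lies on the first ray in `K1` -/
theorem SP.low (h : SP Γ a R u i j al cc) {K1 K2 : Set (W × W)} (h1 : SCmp (NR Γ a R) K1)
    (hd : Disjoint K1 K2)
    (e2 : ((Pi.single i (a i) : W), (0 : W)) ∈ K2) {δ : ℝ} (hδ : 0 < δ) (hδa : δ ≤ a 2)
    (hn : ∀ t ∈ Ioc 0 δ, ‖Γ (Pi.single 2 t)‖ < R / 2 ∧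
      R < ‖Γ (Pi.single 2 t) - (al (a i) : ℂ) * u‖) {e : W × W} (he : e ∈ K1) (heδ : e.2 2 = δ)
    (hlt : e.1 2 < δ) : ∃ t ∈ Icc 0 (a j), e.1 = Pi.single j t ∧
      (Γ (Pi.single 2 δ)).re < cc t ∧ 0 < cc t := by
  obtain ⟨hx, hy, hdist⟩ := h1.sub he
  have hR0 := h.R0
  have hye : e.2 = Pi.single 2 δ := by
    rw [← heδ]
    exact sp_single_of_pos hy.1 (by rw [heδ]; exact hδ)
  rw [hye] at hdist
  have hδn := (hn δ ⟨hδ, le_rfl⟩).1
  obtain ⟨g, hg⟩ := exists_single hx.1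
  have hxg : e.1 g ∈ Icc 0 (a g) := ⟨(hx.1.1 g).1, hx.2 g⟩
  rcases fin3_cases i j g h.ij h.i2 h.j2 with rfl | rfl | rfl
  · exfalso
    -- on the second ray: in the other component
    have k1 : sc u (Γ (Pi.single 2 δ)) ≤ al (e.1 g) := by
      rw [hg, h.A _ (hx.1.1 g)] at hdist
      have q1 := sc_le_norm h.dir (Γ (Pi.single 2 δ))
      have q2 : ‖(al (e.1 g) : ℂ) * u - Γ (Pi.single 2 δ)‖ ≤
          ‖(al (e.1 g) : ℂ) * u‖ + ‖Γ (Pi.single 2 δ)‖ := norm_sub_le _ _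
      rw [norm_mul, dir_norm h.dir, mul_one, Complex.norm_real, Real.norm_eq_abs,
        abs_of_nonneg (h.al_nonneg (hx.1.1 g))] at q2
      linarith
    have p1 : ((Pi.single g (e.1 g) : W), (Pi.single 2 δ : W)) ∈ K1 := by
      rw [← hg, ← hye]
      exact he
    have p2 : ((Pi.single g (a g) : W), (Pi.single 2 δ : W)) ∈ K1 := by
      refine h1.slide1 p1 ?_
      intro t ht
      rw [uIcc_of_le hxg.2] at ht
      have ht' : t ∈ Icc 0 (a g) := ⟨hxg.1.trans ht.1, ht.2⟩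
      refine ⟨h.sub ht', h.sub ⟨hδ.le, hδa⟩, ?_⟩
      show R ≤ ‖Γ (Pi.single g t) - Γ (Pi.single 2 δ)‖
      rw [h.A _ (h.icc ht'), norm_sub_rev]
      rw [hg, h.A _ (hx.1.1 g), norm_sub_rev] at hdist
      exact hdist.trans (mono_A h.dir k1 (h.Am.monotoneOn (h.icc hxg) (h.icc ht') ht.1))
    have p3 : ((Pi.single g (a g) : W), (Pi.single 2 0 : W)) ∈ K1 := by
      refine h1.slide2 p2 ?_
      intro t ht
      rw [uIcc_of_ge hδ.le] at ht
      refine ⟨h.sub ⟨(h.apos g).le, le_rfl⟩, h.sub ⟨ht.1, ht.2.trans hδa⟩, ?_⟩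
      show R ≤ ‖Γ (Pi.single g (a g)) - Γ (Pi.single 2 t)‖
      rw [h.A _ (h.a01 g), norm_sub_rev]
      rcases ht.1.eq_or_lt with h0 | h0
      · rw [← h0, Pi.single_zero, h.zero, zero_sub, norm_neg, norm_mul, dir_norm h.dir, mul_one,
          Complex.norm_real, Real.norm_eq_abs, abs_of_nonneg (h.al_nonneg (h.a01 g))]
        exact h.aR.le
      · exact (hn t ⟨h0, ht.2⟩).2.le
    rw [Pi.single_zero] at p3
    exact Set.disjoint_left.1 hd p3 e2
  · have k1 : R - ‖Γ (Pi.single 2 δ)‖ ≤ cc (e.1 g) := by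
      rw [hg, h.C _ (hx.1.1 g)] at hdist
      have q2 : ‖(cc (e.1 g) : ℂ) - Γ (Pi.single 2 δ)‖ ≤
          ‖(cc (e.1 g) : ℂ)‖ + ‖Γ (Pi.single 2 δ)‖ := norm_sub_le _ _
      rw [Complex.norm_real, Real.norm_eq_abs, abs_of_nonneg (h.cc_nonneg (hx.1.1 g))] at q2
      linarith
    have k2 := Complex.re_le_norm (Γ (Pi.single 2 δ))
    exact ⟨e.1 g, hxg, hg, by linarith, by linarith⟩
  · exfalso
    rw [hg] at hdist
    have q2 : ‖Γ (Pi.single 2 (e.1 2)) - Γ (Pi.single 2 δ)‖ ≤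
        ‖Γ (Pi.single 2 (e.1 2))‖ + ‖Γ (Pi.single 2 δ)‖ := norm_sub_le _ _
    have q3 : ‖Γ (Pi.single 2 (e.1 2))‖ < R / 2 := by
      rcases hxg.1.eq_or_lt with h0 | h0
      · rw [← h0, Pi.single_zero, h.zero, norm_zero]
        linarith
      · exact (hn _ ⟨h0, hlt.le⟩).1
    linarith

theorem SP.half (h : SP Γ a R u i j al cc) {K1 K2 : Set (W × W)} (h1 : SCmp (NR Γ a R) K1)
    (hd : Disjoint K1 K2)
    (e1 : ((Pi.single j (a j) : W), (0 : W)) ∈ K1) (e2 : ((Pi.single i (a i) : W), (0 : W)) ∈ K2)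
    {b1 : ℝ} (hb0 : 0 ≤ b1) (hb1 : b1 < a 2)
    (hnc : ∀ t ∈ Icc 0 b1, R ≤ ‖Γ (Pi.single 2 t) - (cc (a j) : ℂ)‖ ∧
      R ≤ ‖Γ (Pi.single 2 t) - (al (a i) : ℂ) * u‖)
    (hcon : ∀ b2, b1 < b2 → ∃ t, b1 < t ∧ t ≤ b2 ∧ ‖Γ (Pi.single 2 t) - (cc (a j) : ℂ)‖ < R)
    {zt : W × W} (hzt : zt ∈ K1) (hztt : zt.2 2 = a 2) : False := by
  obtain ⟨bb, ρ, hbb1, hbba, hρR, hV, hfar, heq, hre⟩ := h.first hb0 hb1 (fun t ht => (hnc t ht).1)
    (h.corridor h1 hd e1 e2 hb1.le hnc) hcon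
  have hbb : 0 < bb := hb0.trans_lt hbb1
  have hR0 := h.R0
  obtain ⟨ε, hε, hε1, hn⟩ := h.near0
  obtain ⟨δ, hδ, hδε, hδb⟩ : ∃ δ : ℝ, 0 < δ ∧ δ < ε ∧ δ ≤ bb :=
    ⟨min (ε / 2) bb, lt_min (by linarith) hbb, (min_le_left _ _).trans_lt (by linarith),
      min_le_right _ _⟩
  have c1 : Continuous fun w : W × W => w.1 2 := (continuous_apply 2).comp continuous_fst
  have c2 : Continuous fun w : W × W => w.2 2 := (continuous_apply 2).comp continuous_snd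
  have hkey : ∀ z ∈ K1, δ ≤ z.2 2 → z.1 2 ≤ z.2 2 → z.1 2 < z.2 2 := by
    intro z hz hz1 hz2
    refine lt_of_le_of_ne hz2 fun heq => ?_
    obtain ⟨hx, hy, hdist⟩ := h1.sub hz
    have := eq_of_coord hx.1 hy.1 heq (by rw [heq]; linarith)
    rw [this, sub_self, norm_zero] at hdist
    linarith
  -- down to the level δ
  obtain ⟨e, heL, heO⟩ := gbump (K := K1) (D := {z : W × W | δ ≤ z.2 2 ∧ z.1 2 ≤ z.2 2})
    (O := {z : W × W | δ < z.2 2 ∧ z.1 2 < z.2 2}) h1.comp h1.conn.isPreconnected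
    ((isClosed_le continuous_const c2).inter (isClosed_le c1 c2))
    ((isOpen_lt continuous_const c2).inter (isOpen_lt c1 c2))
    (fun z hz => ⟨hz.2.1.le, hz.2.2.le⟩) hzt
    ⟨by rw [hztt]; linarith, by rw [hztt]; exact (h1.sub hzt).1.2 2⟩
    ⟨_, e1, fun hcon => by
      have := hcon.1
      simp only [Pi.zero_apply] at this
      linarith⟩
  set L := connectedComponentIn (K1 ∩ {z : W × W | δ ≤ z.2 2 ∧ z.1 2 ≤ z.2 2}) zt with hL
  have hztD : zt ∈ K1 ∩ {z : W × W | δ ≤ z.2 2 ∧ z.1 2 ≤ z.2 2} :=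
    ⟨hzt, by rw [hztt]; linarith, by rw [hztt]; exact (h1.sub hzt).1.2 2⟩
  have hLs : L ⊆ K1 ∩ {z : W × W | δ ≤ z.2 2 ∧ z.1 2 ≤ z.2 2} := connectedComponentIn_subset _ _
  have hLc : IsCompact L := comp_compact (h1.comp.inter_right
    ((isClosed_le continuous_const c2).inter (isClosed_le c1 c2))) hztD
  have hLp : IsPreconnected L := isPreconnected_connectedComponentIn
  have heK := (hLs heL).1
  have heδ : e.2 2 = δ := by
    obtain ⟨k1, k2, k3⟩ := hLs heL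
    refine le_antisymm ?_ k2
    by_contra hcon
    exact heO ⟨not_le.1 hcon, hkey e k1 k2 k3⟩
  have hlt : e.1 2 < δ := by
    obtain ⟨k1, k2, k3⟩ := hLs heL
    rw [← heδ]
    exact hkey e k1 k2 k3
  -- up to the level bb
  obtain ⟨f, hfM, hfO⟩ := gbump (K := L) (D := {z : W × W | z.2 2 ≤ bb})
    (O := {z : W × W | z.2 2 < bb}) hLc hLp (isClosed_le c2 continuous_const)
    (isOpen_lt c2 continuous_const) (fun z hz => show z.2 2 ≤ bb from le_of_lt hz.2) heL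
    (by show e.2 2 ≤ bb; rw [heδ]; exact hδb)
    ⟨zt, mem_connectedComponentIn hztD, by show ¬ zt.2 2 ≤ bb; rw [hztt]; linarith⟩
  set M := connectedComponentIn (L ∩ {z : W × W | z.2 2 ≤ bb}) e with hM
  have heD : e ∈ L ∩ {z : W × W | z.2 2 ≤ bb} := ⟨heL, by show e.2 2 ≤ bb; rw [heδ]; exact hδb⟩
  have hMs : M ⊆ L ∩ {z : W × W | z.2 2 ≤ bb} := connectedComponentIn_subset _ _
  have hMc : IsCompact M := comp_compact (hLc.inter_right (isClosed_le c2 continuous_const)) heD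
  have hMp : IsPreconnected M := isPreconnected_connectedComponentIn
  have heM : e ∈ M := mem_connectedComponentIn heD
  have hfb : f.2 2 = bb := le_antisymm (hMs hfM).2 (not_lt.1 hfO)
  have hMf : ∀ z ∈ M, z ∈ K1 ∧ δ ≤ z.2 2 ∧ z.1 2 < z.2 2 ∧ z.2 2 ≤ bb := by
    intro z hz
    obtain ⟨k1, k2⟩ := hMs hz
    obtain ⟨k3, k4, k5⟩ := hLs k1
    exact ⟨k3, k4, hkey z k3 k4 k5, k2⟩
  have hM2 : ∀ z ∈ M, z.2 = Pi.single 2 (z.2 2) := by
    intro z hz
    obtain ⟨k1, k2, _, _⟩ := hMf z hz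
    exact sp_single_of_pos (h1.sub k1).2.1.1 (by linarith)
  -- the sign
  have hcont : ContinuousOn (fun z : W × W =>
      ((Γ z.2 - Γ z.1) * conj (nn u (Γ z.2))).im) M := by
    have g1 : ContinuousOn (fun z : W × W => Γ z.1) M :=
      h.cont.comp continuousOn_fst fun z hz => (h1.sub (hMf z hz).1).1.1
    have g2 : ContinuousOn (fun z : W × W => Γ z.2) M :=
      h.cont.comp continuousOn_snd fun z hz => (h1.sub (hMf z hz).1).2.1.1
    refine Complex.continuous_im.comp_continuousOn ((g2.sub g1).mul ?_)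
    exact Complex.continuous_conj.comp_continuousOn ((nn_cont u).comp_continuousOn g2)
  have hsne : ∀ z ∈ M, ((Γ z.2 - Γ z.1) * conj (nn u (Γ z.2))).im ≠ 0 := by
    intro z hz
    obtain ⟨k1, k2, k3, k4⟩ := hMf z hz
    obtain ⟨hx, hy, hdist⟩ := h1.sub k1
    rw [hM2 z hz] at hdist ⊢
    exact h.sign_ne hV hx.1 ⟨by linarith, k4⟩ k3 hdist
  obtain ⟨te, hte, hee, hre1, hre2⟩ := h.low h1 hd e2 hδ (hδb.trans hbba.le)
    (fun t ht => ⟨(hn t ⟨ht.1, ht.2.trans_lt hδε⟩).2.1, (hn t ⟨ht.1, ht.2.trans_lt hδε⟩).2.2.2⟩)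
    heK heδ hlt
  have he2 : e.2 = Pi.single 2 δ := by
    rw [← heδ]
    exact hM2 e heM
  have hse : 0 < ((Γ e.2 - Γ e.1) * conj (nn u (Γ e.2))).im := by
    rw [he2, hee, h.C te (h.icc hte)]
    exact im_C h.dir (hV δ ⟨hδ, hδb⟩).1 hre2 hre1
  have hspos : ∀ z ∈ M, 0 < ((Γ z.2 - Γ z.1) * conj (nn u (Γ z.2))).im := by
    intro z hz
    by_contra hcon
    obtain ⟨w, hw, hw0⟩ := hMp.intermediate_value hz heM hcont ⟨not_lt.1 hcon, hse.le⟩
    exact hsne w hw hw0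
  -- the point at the level bb
  obtain ⟨fK, fδ, flt, fle⟩ := hMf f hfM
  obtain ⟨fx, fy, fdist⟩ := h1.sub fK
  have hsf := hspos f hfM
  have hf2 := hM2 f hfM
  rw [hfb] at hf2
  rw [hf2] at hsf fdist
  have hyV := hV bb ⟨hbb, le_rfl⟩
  have hrelt := re_lt h.dir hyV.1 hre hsf
  have hfpos : 0 < f.1 2 := by
    obtain ⟨g, hg⟩ := exists_single fx.1
    have hxg : f.1 g ∈ Icc 0 (a g) := ⟨(fx.1.1 g).1, fx.2 g⟩
    rcases fin3_cases i j g h.ij h.i2 h.j2 with rfl | rfl | rfl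
    · exfalso
      rw [hg, h.A _ (fx.1.1 g), Complex.mul_re, Complex.ofReal_re, Complex.ofReal_im, zero_mul,
        sub_zero] at hrelt
      nlinarith [mul_nonneg (h.al_nonneg (fx.1.1 g)) (neg_nonneg.2 h.dir.re.le)]
    · exfalso
      rw [hg, h.C _ (fx.1.1 g), Complex.ofReal_re] at hrelt
      rw [hg, h.C _ (fx.1.1 g), norm_sub_rev] at fdist
      have := mono_C hrelt.le (h.Cm.monotoneOn (h.icc hxg) (h.a01 g) hxg.2)
      rw [heq] at this
      linarith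
    · rcases hxg.1.eq_or_lt with h0 | h0
      · exfalso
        rw [hg, ← h0, Pi.single_zero, h.zero, Complex.zero_re] at hrelt
        linarith
      · exact h0
  have hfj : f.1 j = 0 := by
    rw [sp_single_of_pos fx.1 hfpos, Pi.single_eq_of_ne h.j2]
  -- the image in the plane
  have cj : Continuous fun w : W × W => w.1 j := (continuous_apply j).comp continuous_fst
  have hφ : Continuous fun w : W × W => ((w.1 2 - w.1 j, w.2 2) : ℝ × ℝ) :=
    (c1.sub cj).prodMk c2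
  refine trap h.dir (h.trapData hbb hbba hV hfar heq hre) (hMc.image hφ)
    (hMp.image _ hφ.continuousOn) ?_ ?_ (p0 := -te) (q0 := δ) ⟨e, heM, ?_⟩ (by linarith [hte.1])
    (bx := f.1 2) ⟨f, hfM, ?_⟩ hfpos
  · rintro _ ⟨z, hz, rfl⟩
    obtain ⟨k1, k2, k3, k4⟩ := hMf z hz
    obtain ⟨hx, hy, hdist⟩ := h1.sub k1
    refine ⟨?_, ?_, ?_, ?_⟩
    · show -a j ≤ z.1 2 - z.1 j
      linarith [(hx.1.1 2).1, hx.2 j]
    · show z.1 2 - z.1 j < z.2 2
      linarith [(hx.1.1 j).1]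
    · show 0 < z.2 2
      linarith
    · exact k4
  · rintro _ ⟨z, hz, rfl⟩
    obtain ⟨k1, k2, k3, k4⟩ := hMf z hz
    obtain ⟨hx, hy, hdist⟩ := h1.sub k1
    have hs := hspos z hz
    rw [hM2 z hz] at hs
    show 0 < ((PP Γ j (z.2 2) - PP Γ j (z.1 2 - z.1 j)) * conj (nn u (PP Γ j (z.2 2)))).im
    rw [PP_pos (by linarith)]
    exact h.collapse hx.1 (hV (z.2 2) ⟨by linarith, k4⟩).1 hs
  · show (e.1 2 - e.1 j, e.2 2) = (-te, δ)
    rw [heδ, hee, Pi.single_eq_same, Pi.single_eq_of_ne h.j2.symm, zero_sub]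
  · show (f.1 2 - f.1 j, f.2 2) = (f.1 2, bb)
    rw [hfb, hfj, sub_zero]

/-- a component which reaches the tip of the third leg contains a pair `(tip, 0)` of a straight leg -/
theorem SP0.bottom (h : SP0 Γ a R u i j al cc) {K : Set (W × W)} (hK : SCmp (NR Γ a R) K)
    {zt : W × W} (hzt : zt ∈ K) (hztt : zt.2 2 = a 2) (hout : ∃ y ∈ K, y.2 i = a i) :
    ∃ g, (g = i ∨ g = j) ∧ ((Pi.single g (a g) : W), (0 : W)) ∈ K := by
  have hR0 := h.R0
  have c1 : Continuous fun w : W × W => w.1 2 := (continuous_apply 2).comp continuous_fst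
  have c2 : ∀ g : Fin 3, Continuous fun w : W × W => w.2 g := fun g =>
    (continuous_apply g).comp continuous_snd
  have hoff : ∀ z ∈ K, 0 < z.2 2 → z.2 i ≤ 0 ∧ z.2 j ≤ 0 := by
    intro z hz h0
    have h1 := sp_single_of_pos (h.sub (g := 2) ⟨(h.apos 2).le, le_rfl⟩).1 (i := 2)
      (by rw [Pi.single_eq_same]; exact h.apos 2)
    have h2 := sp_single_of_pos (hK.sub hz).2.1.1 h0
    rw [h2, Pi.single_eq_of_ne h.i2, Pi.single_eq_of_ne h.j2]
    exact ⟨le_rfl, le_rfl⟩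
  obtain ⟨e, heL, heO⟩ := gbump (K := K) (D := {z : W × W | z.2 i ≤ 0 ∧ z.2 j ≤ 0 ∧ z.1 2 ≤ z.2 2})
    (O := {z : W × W | z.1 2 < z.2 2}) hK.comp hK.conn.isPreconnected
    ((isClosed_le (c2 i) continuous_const).inter ((isClosed_le (c2 j) continuous_const).inter
      (isClosed_le c1 (c2 2))))
    (isOpen_lt c1 (c2 2))
    (fun z hz => by
      have k1 : z.1 2 < z.2 2 := hz.2
      obtain ⟨k2, k3⟩ := hoff z hz.1 (lt_of_le_of_lt ((hK.sub hz.1).1.1.1 2).1 k1)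
      exact ⟨k2, k3, k1.le⟩) hzt
    ⟨(hoff zt hzt (by rw [hztt]; exact h.apos 2)).1, (hoff zt hzt (by rw [hztt]; exact h.apos 2)).2,
      by rw [hztt]; exact (hK.sub hzt).1.2 2⟩
    (by
      obtain ⟨y, hy, hyi⟩ := hout
      refine ⟨y, hy, fun hcon => ?_⟩
      have := hcon.1
      rw [hyi] at this
      exact absurd (h.apos i) (not_lt.2 this))
  obtain ⟨heK, k1, k2, k3⟩ := connectedComponentIn_subset _ _ heL
  obtain ⟨hx, hy, hdist⟩ := hK.sub heK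
  have k4 : e.1 2 = e.2 2 := le_antisymm k3 (not_lt.1 heO)
  have hne : e.1 ≠ e.2 := by
    intro heq
    rw [heq, sub_self, norm_zero] at hdist
    linarith
  have k5 : e.1 2 = 0 := by
    rcases (hx.1.1 2).1.eq_or_lt with h0 | h0
    · exact h0.symm
    · exact absurd (eq_of_coord hx.1 hy.1 k4 h0) hne
  have he2 : e.2 = 0 := by
    funext g
    rcases fin3_cases i j g h.ij h.i2 h.j2 with rfl | rfl | rfl
    · exact le_antisymm k1 (hy.1.1 g).1
    · exact le_antisymm k2 (hy.1.1 g).1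
    · rw [← k4, k5]
      rfl
  obtain ⟨g, hg⟩ := exists_single hx.1
  have hxg : e.1 g ∈ Icc 0 (a g) := ⟨(hx.1.1 g).1, hx.2 g⟩
  have p1 : ((Pi.single g (e.1 g) : W), (0 : W)) ∈ K := by
    rw [← hg, ← he2]
    exact heK
  rw [he2, h.zero, sub_zero] at hdist
  rcases fin3_cases i j g h.ij h.i2 h.j2 with rfl | rfl | rfl
  · refine ⟨g, Or.inl rfl, hK.slide1 p1 fun t ht => ?_⟩
    rw [uIcc_of_le hxg.2] at ht
    have ht' : t ∈ Icc 0 (a g) := ⟨hxg.1.trans ht.1, ht.2⟩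
    refine ⟨h.sub ht', (Pi.single_zero (M := fun _ : Fin 3 => ℝ) g) ▸ h.sub ⟨le_rfl, (h.apos g).le⟩, ?_⟩
    show R ≤ ‖Γ (Pi.single g t) - Γ 0‖
    rw [hg, h.A _ (hx.1.1 g), norm_mul, dir_norm h.dir, mul_one, Complex.norm_real,
      Real.norm_eq_abs, abs_of_nonneg (h.al_nonneg (hx.1.1 g))] at hdist
    rw [h.zero, sub_zero, h.A _ (h.icc ht'), norm_mul, dir_norm h.dir, mul_one, Complex.norm_real,
      Real.norm_eq_abs, abs_of_nonneg (h.al_nonneg (h.icc ht'))]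
    exact hdist.trans (h.Am.monotoneOn (h.icc hxg) (h.icc ht') ht.1)
  · refine ⟨g, Or.inr rfl, hK.slide1 p1 fun t ht => ?_⟩
    rw [uIcc_of_le hxg.2] at ht
    have ht' : t ∈ Icc 0 (a g) := ⟨hxg.1.trans ht.1, ht.2⟩
    refine ⟨h.sub ht', (Pi.single_zero (M := fun _ : Fin 3 => ℝ) g) ▸ h.sub ⟨le_rfl, (h.apos g).le⟩, ?_⟩
    show R ≤ ‖Γ (Pi.single g t) - Γ 0‖
    rw [hg, h.C _ (hx.1.1 g), Complex.norm_real,
      Real.norm_eq_abs, abs_of_nonneg (h.cc_nonneg (hx.1.1 g))] at hdist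
    rw [h.zero, sub_zero, h.C _ (h.icc ht'), Complex.norm_real,
      Real.norm_eq_abs, abs_of_nonneg (h.cc_nonneg (h.icc ht'))]
    exact hdist.trans (h.Cm.monotoneOn (h.icc hxg) (h.icc ht') ht.1)
  · exfalso
    rw [hg, k5, Pi.single_zero, h.zero, norm_zero] at hdist
    linarith

/-- without contacts the pairs with first point the tip of the second ray are in `K2` -/
theorem SP.noContact (h : SP Γ a R u i j al cc) {K : Set (W × W)} (hK : SCmp (NR Γ a R) K)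
    (hnc : ∀ t ∈ Icc 0 (a 2), R ≤ ‖Γ (Pi.single 2 t) - (al (a i) : ℂ) * u‖) {z : W × W}
    (hz : z ∈ K) (hzi : z.1 i = a i) : ((Pi.single i (a i) : W), (0 : W)) ∈ K := by
  obtain ⟨hx, hy, hdist⟩ := hK.sub hz
  have hxe : z.1 = Pi.single i (a i) := by
    rw [← hzi]
    exact sp_single_of_pos hx.1 (by rw [hzi]; exact h.apos i)
  obtain ⟨g, hg⟩ := exists_single hy.1
  have hyg : z.2 g ∈ Icc 0 (a g) := ⟨(hy.1.1 g).1, hy.2 g⟩
  have p1 : ((Pi.single i (a i) : W), (Pi.single g (z.2 g) : W)) ∈ K := by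
    rw [← hxe, ← hg]
    exact hz
  have p2 : ((Pi.single i (a i) : W), (Pi.single g 0 : W)) ∈ K := by
    refine hK.slide2 p1 fun t ht => ?_
    rw [uIcc_of_ge hyg.1] at ht
    have ht' : t ∈ Icc 0 (a g) := ⟨ht.1, ht.2.trans hyg.2⟩
    refine ⟨h.sub ⟨(h.apos i).le, le_rfl⟩, h.sub ht', ?_⟩
    show R ≤ ‖Γ (Pi.single i (a i)) - Γ (Pi.single g t)‖
    rw [h.A _ (h.a01 i)]
    rcases fin3_cases i j g h.ij h.i2 h.j2 with rfl | rfl | rfl
    · rw [hxe, hg, h.A _ (h.a01 g), h.A _ (hy.1.1 g), ← sub_mul, norm_mul, dir_norm h.dir, mul_one,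
        ← Complex.ofReal_sub, Complex.norm_real, Real.norm_eq_abs,
        abs_of_nonneg (sub_nonneg.2 (h.Am.monotoneOn (h.icc hyg) (h.a01 g) hyg.2))] at hdist
      rw [h.A _ (h.icc ht'), ← sub_mul, norm_mul, dir_norm h.dir, mul_one,
        ← Complex.ofReal_sub, Complex.norm_real, Real.norm_eq_abs,
        abs_of_nonneg (sub_nonneg.2 (h.Am.monotoneOn (h.icc ht') (h.a01 g) ht'.2))]
      have := h.Am.monotoneOn (h.icc ht') (h.icc hyg) ht.2
      linarith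
    · rw [h.C _ (h.icc ht')]
      have k1 : ((al (a i) : ℂ) * u).re ≤ 0 := by
        rw [Complex.mul_re, Complex.ofReal_re, Complex.ofReal_im, zero_mul, sub_zero]
        exact mul_nonpos_of_nonneg_of_nonpos (h.al_nonneg (h.a01 i)) h.dir.re.le
      have k2 := mono_C (y := (al (a i) : ℂ) * u) k1 (h.cc_nonneg (h.icc ht'))
      rw [Complex.ofReal_zero, sub_zero, norm_mul, dir_norm h.dir, mul_one, Complex.norm_real,
        Real.norm_eq_abs, abs_of_nonneg (h.al_nonneg (h.a01 i))] at k2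
      exact h.aR.le.trans k2
    · rw [norm_sub_rev]
      exact hnc t ht'
  rw [Pi.single_zero] at p2
  exact p2

theorem SP.final (h : SP Γ a R u i j al cc) {K1 K2 : Set (W × W)} (h1 : SCmp (NR Γ a R) K1)
    (h2 : SCmp (NR Γ a R) K2) (hd : Disjoint K1 K2)
    (e1 : ((Pi.single j (a j) : W), (0 : W)) ∈ K1) (e2 : ((Pi.single i (a i) : W), (0 : W)) ∈ K2)
    (t1 : ∃ z ∈ K1, z.2 2 = a 2) (t2 : ∃ z ∈ K2, z.2 2 = a 2) (t3 : ∃ z ∈ K1, z.1 i = a i) :
    False := by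
  set f1 : ℝ → ℝ := fun t => ‖Γ (Pi.single 2 t) - (cc (a j) : ℂ)‖ with hf1
  set f2 : ℝ → ℝ := fun t => ‖Γ (Pi.single 2 t) - (al (a i) : ℂ) * u‖ with hf2
  have hsubI : Icc 0 (a 2) ⊆ Icc (0 : ℝ) 1 := Icc_subset_Icc_right (h.ale 2)
  have c1 : ContinuousOn f1 (Icc 0 (a 2)) := (((h.legc 2).mono hsubI).sub continuousOn_const).norm
  have c2 : ContinuousOn f2 (Icc 0 (a 2)) := (((h.legc 2).mono hsubI).sub continuousOn_const).norm
  have cm : ContinuousOn (fun t => min (f1 t) (f2 t)) (Icc 0 (a 2)) :=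
    ContinuousOn.inf c1 c2
  by_cases hS : ∀ t ∈ Icc 0 (a 2), R ≤ min (f1 t) (f2 t)
  · obtain ⟨z, hz, hzi⟩ := t3
    have := h.noContact h1 (fun t ht => (hS t ht).trans (min_le_right _ _)) hz hzi
    exact Set.disjoint_left.1 hd this e2
  push Not at hS
  -- the first contact
  set S : Set ℝ := {t | t ∈ Icc 0 (a 2) ∧ min (f1 t) (f2 t) < R} with hSd
  have hSne : S.Nonempty := hS
  have hSb : BddBelow S := ⟨0, fun t ht => ht.1.1⟩
  set b1 := sInf S with hb1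
  have hb0 : 0 ≤ b1 := le_csInf hSne fun t ht => ht.1.1
  have hbelow : ∀ t ∈ Ico 0 b1, R ≤ min (f1 t) (f2 t) := by
    intro t ht
    by_contra hcon
    obtain ⟨s, hs⟩ := hSne
    have h3 : b1 ≤ t := csInf_le hSb ⟨⟨ht.1, ht.2.le.trans ((csInf_le hSb hs).trans hs.1.2)⟩,
      not_le.1 hcon⟩
    exact absurd ht.2 (not_lt.2 h3)
  have hb1a : b1 ≤ a 2 := by
    obtain ⟨s, hs⟩ := hSne
    exact (csInf_le hSb hs).trans hs.1.2
  have hf10 : R < f1 0 := by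
    rw [hf1]
    simp only
    rw [Pi.single_zero, h.zero, zero_sub, norm_neg, Complex.norm_real, Real.norm_eq_abs,
      abs_of_nonneg (h.cc_nonneg (h.a01 j))]
    exact h.cR
  have hf20 : R < f2 0 := by
    rw [hf2]
    simp only
    rw [Pi.single_zero, h.zero, zero_sub, norm_neg, norm_mul, dir_norm h.dir, mul_one,
      Complex.norm_real, Real.norm_eq_abs, abs_of_nonneg (h.al_nonneg (h.a01 i))]
    exact h.aR
  have hb1S : R ≤ min (f1 b1) (f2 b1) := by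
    by_contra hcon
    have hcon := not_le.1 hcon
    have hpos : 0 < b1 := by
      rcases hb0.eq_or_lt with h0 | h0
      · rw [← h0] at hcon
        exact absurd (lt_min hf10 hf20) (not_lt.2 hcon.le)
      · exact h0
    have h3 := (cm b1 ⟨hb0, hb1a⟩).preimage_mem_nhdsWithin (isOpen_Iio.mem_nhds hcon)
    rw [Metric.mem_nhdsWithin_iff] at h3
    obtain ⟨ε, hε, h4⟩ := h3
    have h5 : max (b1 - ε / 2) 0 < b1 := max_lt (by linarith) hpos
    have h6 : max (b1 - ε / 2) 0 ∈ (fun t => min (f1 t) (f2 t)) ⁻¹' Iio R := by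
      refine h4 ⟨?_, le_max_right _ _, h5.le.trans hb1a⟩
      rw [Metric.mem_ball, Real.dist_eq, abs_of_neg (by linarith)]
      linarith [le_max_left (b1 - ε / 2) 0]
    have h7 := hbelow _ ⟨le_max_right _ _, h5⟩
    exact absurd (mem_Iio.1 (mem_preimage.1 h6)) (not_lt.2 h7)
  have hnc : ∀ t ∈ Icc 0 b1, R ≤ f1 t ∧ R ≤ f2 t := by
    intro t ht
    have h3 : R ≤ min (f1 t) (f2 t) := by
      rcases ht.2.eq_or_lt with h4 | h4
      · rw [h4]
        exact hb1S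
      · exact hbelow t ⟨ht.1, h4⟩
    exact ⟨h3.trans (min_le_left _ _), h3.trans (min_le_right _ _)⟩
  have hnear : ∀ b2, b1 < b2 → ∃ t, b1 < t ∧ t ≤ b2 ∧ t ≤ a 2 ∧ min (f1 t) (f2 t) < R := by
    intro b2 hb2
    obtain ⟨s, hs, hs2⟩ := exists_lt_of_csInf_lt hSne hb2
    refine ⟨s, lt_of_le_of_ne (csInf_le hSb hs) fun heq => ?_, hs2.le, hs.1.2, hs.2⟩
    rw [← heq] at hs
    exact absurd hs.2 (not_lt.2 hb1S)
  have hb1lt : b1 < a 2 := by
    obtain ⟨t, ht1, _, ht3, _⟩ := hnear (b1 + 1) (by linarith)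
    exact ht1.trans_le ht3
  by_cases hcase : ∀ b2, b1 < b2 → ∃ t, b1 < t ∧ t ≤ b2 ∧ f1 t < R
  · obtain ⟨z, hz, hz2⟩ := t1
    exact h.half h1 hd e1 e2 hb0 hb1lt hnc hcase hz hz2
  · push Not at hcase
    obtain ⟨b3, hb3, hb3'⟩ := hcase
    have hcase2 : ∀ b2, b1 < b2 → ∃ t, b1 < t ∧ t ≤ b2 ∧ f2 t < R := by
      intro b2 hb2
      obtain ⟨t, ht1, ht2, ht3, ht4⟩ := hnear (min b2 b3) (lt_min hb2 hb3)
      refine ⟨t, ht1, ht2.trans (min_le_left _ _), ?_⟩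
      have h5 := hb3' t ht1 (ht2.trans (min_le_right _ _))
      rcases min_lt_iff.1 ht4 with h6 | h6
      · exact absurd h6 (not_lt.2 h5)
      · exact h6
    obtain ⟨z, hz, hz2⟩ := t2
    have hmir1 : ∀ t, ‖mir u (Γ (Pi.single 2 t)) - (al (a i) : ℂ)‖ = f2 t := by
      intro t
      rw [← mir_A h.dir (al (a i)), mir_sub, mir_norm h.dir]
    have hmir2 : ∀ t, ‖mir u (Γ (Pi.single 2 t)) - (cc (a j) : ℂ) * u‖ = f1 t := by
      intro t
      rw [← mir_C, mir_sub, mir_norm h.dir]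
    refine h.mirror.half (by rw [NR_mirror h.dir]; exact h2) hd.symm e2 e1 hb0 hb1lt ?_ ?_ hz hz2
    · intro t ht
      rw [hmir1, hmir2]
      exact ⟨(hnc t ht).2, (hnc t ht).1⟩
    · intro b2 hb2
      obtain ⟨t, ht1, ht2, ht3⟩ := hcase2 b2 hb2
      refine ⟨t, ht1, ht2, ?_⟩
      rw [hmir1]
      exact ht3

theorem SP0.main (h : SP0 Γ a R u i j al cc) (hgi : R ≠ al (a i)) (hgj : R ≠ cc (a j))
    {K : Set (W × W)} (hK : SCmp (NR Γ a R) K)
    (t1 : ∀ g, ∃ z ∈ K, z.1 g = a g) (t2 : ∀ g, ∃ z ∈ K, z.2 g = a g) : ∃ z ∈ K, z.swap ∈ K := by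
  by_contra hcon
  push Not at hcon
  have hsw : ∀ z ∈ NR Γ a R, z.swap ∈ NR Γ a R := by
    rintro z ⟨k1, k2, k3⟩
    exact ⟨k2, k1, by rw [norm_sub_rev] at k3; exact k3⟩
  have hK' := hK.swap hsw
  have hd : Disjoint K (Prod.swap '' K) := by
    rw [Set.disjoint_left]
    rintro z hz ⟨w, hw, rfl⟩
    exact hcon w hw hz
  have s2 : ∀ g, ∃ z ∈ Prod.swap '' K, z.2 g = a g := by
    intro g
    obtain ⟨z, hz, hz2⟩ := t1 g
    exact ⟨z.swap, ⟨z, hz, rfl⟩, hz2⟩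
  have s1 : ∀ g, ∃ z ∈ Prod.swap '' K, z.1 g = a g := by
    intro g
    obtain ⟨z, hz, hz2⟩ := t2 g
    exact ⟨z.swap, ⟨z, hz, rfl⟩, hz2⟩
  have full : ∀ K1 K2 : Set (W × W), SCmp (NR Γ a R) K1 → SCmp (NR Γ a R) K2 →
      ((Pi.single j (a j) : W), (0 : W)) ∈ K1 → ((Pi.single i (a i) : W), (0 : W)) ∈ K2 →
      SP Γ a R u i j al cc := by
    intro K1 K2 h1 h2 e1 e2
    refine ⟨h, lt_of_le_of_ne ?_ hgi, lt_of_le_of_ne ?_ hgj⟩
    · have k1 : R ≤ ‖Γ (Pi.single i (a i)) - Γ 0‖ := (h2.sub e2).2.2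
      rw [h.zero, sub_zero, h.A _ (h.a01 i), norm_mul, dir_norm h.dir, mul_one, Complex.norm_real,
        Real.norm_eq_abs, abs_of_nonneg (h.al_nonneg (h.a01 i))] at k1
      exact k1
    · have k1 : R ≤ ‖Γ (Pi.single j (a j)) - Γ 0‖ := (h1.sub e1).2.2
      rw [h.zero, sub_zero, h.C _ (h.a01 j), Complex.norm_real,
        Real.norm_eq_abs, abs_of_nonneg (h.cc_nonneg (h.a01 j))] at k1
      exact k1
  obtain ⟨z, hz, hz2⟩ := t2 2
  obtain ⟨g, hg, hgK⟩ := h.bottom hK hz hz2 (t2 i)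
  obtain ⟨z', hz', hz2'⟩ := s2 2
  obtain ⟨g', hg', hgK'⟩ := h.bottom hK' hz' hz2' (s2 i)
  rcases hg with rfl | rfl <;> rcases hg' with rfl | rfl
  · exact Set.disjoint_left.1 hd hgK hgK'
  · exact (full _ _ hK' hK hgK' hgK).final hK' hK hd.symm hgK' hgK (s2 2) (t2 2) (s1 g)
  · exact (full _ _ hK hK' hgK hgK').final hK hK' hd hgK hgK' (t2 2) (s2 2) (t1 g')
  · exact Set.disjoint_left.1 hd hgK hgK'

end

end Pool.Agent.SPN
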