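import Pool.Agent.SPN.SPMain

/-! # SPN SPNORM: two straight legs, general position of the frame (MP_613dde_gt) -/

set_option autoImplicit false

open Set ComplexConjugate

noncomputable section

namespace Pool.Agent.SPN

variable {X : Set ℂ} {γ : Fin 3 → ℝ → ℂ}

theorem conj_unit {ω : ℂ} (hω : ‖ω‖ = 1) : ω * conj ω = 1 := by
  rw [Complex.mul_conj, Complex.normSq_eq_norm_sq, hω]
  simp

/-- the distance from the branch point is strictly increasing along a straight leg -/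
theorem leg_mono (h : Triod X γ) {g : Fin 3} {ω : ℂ}
    (hs : ∀ t ∈ Icc (0 : ℝ) 1, γ g t - γ 0 0 = (‖γ g t - γ 0 0‖ : ℂ) * ω) :
    StrictMonoOn (fun t => ‖γ g t - γ 0 0‖) (Icc 0 1) := by
  refine ContinuousOn.strictMonoOn_of_injOn_Icc zero_le_one ?_ ?_ ?_
  · show ‖γ g 0 - γ 0 0‖ ≤ ‖γ g 1 - γ 0 0‖
    rw [h.base g 0, sub_self, norm_zero]
    exact norm_nonneg _
  · exact ((h.cont g).sub continuousOn_const).norm
  · intro s hs' t ht heq
    simp only at heq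
    have h1 : γ g s = γ g t := by
      have h2 := hs s hs'
      have h3 := hs t ht
      rw [heq] at h2
      rw [← h3] at h2
      exact sub_left_inj.1 h2
    rcases h.inj g g s hs' t ht h1 with ⟨_, h2⟩ | ⟨h2, h3⟩
    · exact h2
    · rw [h2, h3]

theorem frame (h : Triod X γ) {i j : Fin 3} (hij : i ≠ j) (hi2 : i ≠ 2) (hj2 : j ≠ 2) {ω u : ℂ}
    (hω : ‖ω‖ = 1) (hu : Dir u)
    (hsi : ∀ t ∈ Icc (0 : ℝ) 1, γ i t - γ 0 0 = (‖γ i t - γ 0 0‖ : ℂ) * (u * ω))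
    (hsj : ∀ t ∈ Icc (0 : ℝ) 1, γ j t - γ 0 0 = (‖γ j t - γ 0 0‖ : ℂ) * ω)
    (hB : ∃ ε > 0, ∀ t ∈ Ioo 0 ε, 0 < (nn u ((γ 2 t - γ 0 0) * conj ω)).im) {a : W}
    (ha : ∀ g, 0 < a g) (ha1 : ∀ g, a g ≤ 1) {R : ℝ} (hR : 0 < R) :
    SP0 (fun v => (Gam γ v - γ 0 0) * conj ω) a R u i j (fun t => ‖γ i t - γ 0 0‖)
      (fun t => ‖γ j t - γ 0 0‖) where
  dir := hu
  R0 := hR
  ij := hij
  i2 := hi2
  j2 := hj2
  apos := ha
  ale := ha1
  cont := ((gam_cont h).sub continuousOn_const).mul continuousOn_const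
  inj := by
    intro v hv w hw hvw
    have hω0 : conj ω ≠ 0 := by
      intro h0
      have := conj_unit hω
      rw [h0, mul_zero] at this
      exact zero_ne_one this
    exact gam_inj h hv hw (sub_left_inj.1 (mul_right_cancel₀ hω0 hvw))
  zero := by
    show (Gam γ 0 - γ 0 0) * conj ω = 0
    rw [← Pi.single_zero (M := fun _ : Fin 3 => ℝ) 0, gam_single h, sub_self, zero_mul]
  A := by
    intro t ht
    show (Gam γ (Pi.single i t) - γ 0 0) * conj ω = _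
    rw [gam_single h, hsi t ht]
    have := conj_unit hω
    simp only [norm_mul, Complex.norm_real, norm_norm, dir_norm hu, hω, mul_one]
    linear_combination ((‖γ i t - γ 0 0‖ : ℂ) * u) * this
  C := by
    intro t ht
    show (Gam γ (Pi.single j t) - γ 0 0) * conj ω = _
    rw [gam_single h, hsj t ht]
    have := conj_unit hω
    simp only [norm_mul, Complex.norm_real, norm_norm, hω, mul_one]
    linear_combination (‖γ j t - γ 0 0‖ : ℂ) * this
  Am := leg_mono h hsi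
  Cm := leg_mono h hsj
  B := by
    obtain ⟨ε, hε, h1⟩ := hB
    refine ⟨ε, hε, fun t ht => ?_⟩
    show 0 < (nn u ((Gam γ (Pi.single 2 t) - γ 0 0) * conj ω)).im
    rw [gam_single h]
    exact h1 t ht

theorem sp_le (h : Triod X γ) {i j : Fin 3} (hij : i ≠ j) (hi2 : i ≠ 2) (hj2 : j ≠ 2) {ω u : ℂ}
    (hω : ‖ω‖ = 1) (hu : Dir u)
    (hsi : ∀ t ∈ Icc (0 : ℝ) 1, γ i t - γ 0 0 = (‖γ i t - γ 0 0‖ : ℂ) * (u * ω))
    (hsj : ∀ t ∈ Icc (0 : ℝ) 1, γ j t - γ 0 0 = (‖γ j t - γ 0 0‖ : ℂ) * ω)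
    (hB : ∃ ε > 0, ∀ t ∈ Ioo 0 ε, 0 < (nn u ((γ 2 t - γ 0 0) * conj ω)).im) {R : ℝ}
    (hR : R < spn X) : R ≤ sspn X := by
  by_cases hR0 : R ≤ 0
  · exact hR0.trans (le_csSup (spn_facts h).2.1 (spn_facts h).2.2.2.1)
  push Not at hR0
  have hne : (spanVals X).Nonempty := ⟨0, (spn_facts h).2.2.2.2.1 (spn_facts h).2.2.2.1⟩
  obtain ⟨r, ⟨Z, hZc, hZ, hZX, hp, hr⟩, hRr⟩ := exists_lt_of_lt_csSup hne hR
  obtain ⟨Z', hZ'c, hZ', hZ'T, hG, hp', -⟩ := pull h hZc hZ hZX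
  have hdist : ∀ z ∈ Z', r ≤ ‖Gam γ z.1 - Gam γ z.2‖ := by
    intro z hz
    rw [hr]
    refine csInf_le ⟨0, ?_⟩ ⟨(Gam γ z.1, Gam γ z.2), ?_, ?_⟩
    · rintro _ ⟨w, -, rfl⟩
      exact dist_nonneg
    · rw [← hG]
      exact ⟨z, hz, rfl⟩
    · exact dist_eq_norm _ _
  have hnd : ∀ z ∈ Z', z.1 ≠ z.2 := by
    intro z hz heq
    have := hdist z hz
    rw [heq, sub_self, norm_zero] at this
    linarith
  obtain ⟨a, ha, haS, ha1, ha2⟩ := tips hZ'c hZ' hZ'T hnd (hp' hp)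
  have hale : ∀ g, a g ≤ 1 := by
    intro g
    obtain ⟨z, hz, hzg⟩ := ha1 g
    rw [← hzg]
    exact ((hZ'T z hz).1.1 g).2
  -- a generic value
  obtain ⟨R', ⟨hR'1, hR'2⟩, hR'3⟩ : ∃ R' ∈ Ioo R r,
      R' ∉ ({‖γ i (a i) - γ 0 0‖, ‖γ j (a j) - γ 0 0‖} : Set ℝ) :=
    ((Set.Ioo_infinite hRr).sdiff (Set.toFinite _)).nonempty
  simp only [mem_insert_iff, mem_singleton_iff, not_or] at hR'3
  have hR'0 : 0 < R' := hR0.trans hR'1
  have hSP := frame h hij hi2 hj2 hω hu hsi hsj hB ha hale hR'0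
  have hNeq : NR (fun v => (Gam γ v - γ 0 0) * conj ω) a R' = NR (Gam γ) a R' := by
    unfold NR
    ext z
    simp only [mem_ofPred_eq]
    rw [← sub_mul, norm_mul, RCLike.norm_conj, hω, mul_one, sub_sub_sub_cancel_right]
  have hNN : NR (Gam γ) a R' ⊆ NN (Gam γ) R' := fun z hz => ⟨hz.1.1, hz.2.1.1, hz.2.2⟩
  have hNc : IsCompact (NR (Gam γ) a R') := by
    have h1 : NR (Gam γ) a R' = (Sub a ×ˢ Sub a) ∩ NN (Gam γ) R' := by
      ext z
      constructor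
      · intro hz
        exact ⟨⟨hz.1, hz.2.1⟩, hNN hz⟩
      · rintro ⟨⟨h1, h2⟩, h3⟩
        exact ⟨h1, h2, h3.2.2⟩
    rw [h1]
    exact ((Sub_compact a).prod (Sub_compact a)).inter (NN_compact (gam_cont h) R')
  have hZ'N : Z' ⊆ NR (Gam γ) a R' := fun z hz =>
    ⟨(haS z hz).1, (haS z hz).2, hR'2.le.trans (hdist z hz)⟩
  obtain ⟨z0, hz0⟩ := hZ'.nonempty
  have hz0N := hZ'N hz0
  have hK := sCmp_comp hNc hz0N
  have hsub : Z' ⊆ connectedComponentIn (NR (Gam γ) a R') z0 :=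
    hZ'.isPreconnected.subset_connectedComponentIn hz0 hZ'N
  rw [← hNeq] at hK
  obtain ⟨z, hz, hzs⟩ := hSP.main hR'3.1 hR'3.2 hK
    (fun g => by
      obtain ⟨z, hz, hzg⟩ := ha1 g
      rw [hNeq]
      exact ⟨z, hsub hz, hzg⟩)
    (fun g => by
      obtain ⟨z, hz, hzg⟩ := ha2 g
      rw [hNeq]
      exact ⟨z, hsub hz, hzg⟩)
  rw [hNeq] at hz hzs
  have hmono : connectedComponentIn (NR (Gam γ) a R') z0 ⊆
      connectedComponentIn (NN (Gam γ) R') z0 := connectedComponentIn_mono z0 hNN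
  exact hR'1.le.trans (surj h hR'0 (hNN hz0N) ⟨z, hmono hz, hmono hzs⟩)

/-! ### the sector condition -/

/-- a point outside the open reflex sector is a nonnegative combination -/
theorem cone_of {u : ℂ} (hu : Dir u) (hui : u.im < 0) {y : ℂ} (hy : ¬ 0 < (nn u y).im) :
    0 ≤ y.im / u.im ∧ 0 ≤ y.re - y.im / u.im * u.re := by
  have hur := hu.re
  have hun := hu.nsq
  rw [nn_im] at hy
  have h1 : y.im ≤ 0 := by
    nlinarith [mul_nonneg (le_max_right (sc u y) 0) (neg_nonneg.2 hui.le)]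
  have h2 : 0 ≤ y.im / u.im := div_nonneg_of_nonpos h1 hui.le
  refine ⟨h2, ?_⟩
  have hne : u.im ≠ 0 := hui.ne
  have h3 : y.re - y.im / u.im * u.re = (y.re * u.im - y.im * u.re) / u.im := by
    field_simp
  rw [h3]
  refine div_nonneg_of_nonpos ?_ hui.le
  rcases le_or_gt 0 y.re with h4 | h4
  · nlinarith [mul_nonneg h4 (neg_nonneg.2 hui.le), mul_nonneg_of_nonpos_of_nonpos h1 hur.le]
  · have h5 : 0 < sc u y := by
      unfold sc
      nlinarith [mul_pos_of_neg_of_neg h4 hur, mul_nonneg_of_nonpos_of_nonpos h1 hui.le]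
    rw [max_eq_left h5.le] at hy
    have e1 : y.im - sc u y * u.im = -((y.re * u.im - y.im * u.re) * u.re) := by
      unfold sc
      linear_combination (-y.im) * hun
    rw [e1] at hy
    by_contra hcon
    nlinarith [mul_pos (not_le.1 hcon) (neg_pos.2 hur)]

/-- a small nonnegative combination lies in the triangle -/
theorem hull_of {o p q ω u : ℂ} {lp lq lam mu : ℝ} (hlp : 0 < lp) (hlq : 0 < lq)
    (hp : p - o = (lp : ℂ) * ω) (hq : q - o = (lq : ℂ) * (u * ω)) (h1 : 0 ≤ lam) (h2 : 0 ≤ mu)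
    (h3 : lam / lp + mu / lq ≤ 1) :
    o + ((lam : ℂ) + (mu : ℂ) * u) * ω ∈ convexHull ℝ {o, p, q} := by
  have hx : ∀ x ∈ ({o, p, q} : Set ℂ), x ∈ convexHull ℝ {o, p, q} := fun x hx =>
    subset_convexHull ℝ _ hx
  have h4 := Convex.sum_mem (convex_convexHull ℝ ({o, p, q} : Set ℂ)) (t := Finset.univ)
    (w := ![1 - lam / lp - mu / lq, lam / lp, mu / lq]) (z := ![o, p, q]) ?_ ?_ ?_
  · rw [Fin.sum_univ_three] at h4
    simp only [Matrix.cons_val_zero, Matrix.cons_val_one, Matrix.cons_val_two, Matrix.head_cons,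
      Matrix.tail_cons] at h4
    convert h4 using 1
    have e1 : p = o + (lp : ℂ) * ω := by rw [← hp]; ring
    have e2 : q = o + (lq : ℂ) * (u * ω) := by rw [← hq]; ring
    have e3 : (lp : ℂ) ≠ 0 := Complex.ofReal_ne_zero.2 hlp.ne'
    have e4 : (lq : ℂ) ≠ 0 := Complex.ofReal_ne_zero.2 hlq.ne'
    simp only [Complex.real_smul]
    push_cast
    rw [e1, e2]
    field_simp
    ring
  · intro i _
    fin_cases i
    · show 0 ≤ 1 - lam / lp - mu / lq
      linarith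
    · show 0 ≤ lam / lp
      positivity
    · show 0 ≤ mu / lq
      positivity
  · rw [Fin.sum_univ_three]
    show 1 - lam / lp - mu / lq + lam / lp + mu / lq = 1
    ring
  · intro i _
    fin_cases i
    · exact hx _ (by simp)
    · exact hx _ (by simp)
    · exact hx _ (by simp)

/-- the third leg starts in the open reflex sector -/
theorem hullB (h : Triod X γ) {ω u p q : ℂ} {lp lq : ℝ} (hω : ‖ω‖ = 1) (hu : Dir u)
    (hui : u.im < 0) (hlp : 0 < lp) (hlq : 0 < lq) (hp : p - γ 0 0 = (lp : ℂ) * ω)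
    (hq : q - γ 0 0 = (lq : ℂ) * (u * ω))
    (h2 : ∃ ε > 0, ∀ t ∈ Ioo 0 ε, γ 2 t ∉ convexHull ℝ {γ 0 0, p, q}) :
    ∃ ε > 0, ∀ t ∈ Ioo 0 ε, 0 < (nn u ((γ 2 t - γ 0 0) * conj ω)).im := by
  obtain ⟨ε1, hε1, h3⟩ := h2
  have hF : Continuous fun y : ℂ => (y.re - y.im / u.im * u.re) / lp + y.im / u.im / lq := by
    have c1 := Complex.continuous_re
    have c2 := Complex.continuous_im
    exact ((c1.sub ((c2.div_const _).mul continuous_const)).div_const _).add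
      ((c2.div_const _).div_const _)
  have hV : IsOpen {y : ℂ | (y.re - y.im / u.im * u.re) / lp + y.im / u.im / lq < 1} :=
    isOpen_lt hF continuous_const
  have hc : ContinuousWithinAt (fun t => (γ 2 t - γ 0 0) * conj ω) (Icc 0 1) 0 :=
    (((h.cont 2).sub continuousOn_const).mul continuousOn_const) 0 ⟨le_rfl, zero_le_one⟩
  have h4 := hc.preimage_mem_nhdsWithin (hV.mem_nhds (by
    show (((γ 2 0 - γ 0 0) * conj ω).re - ((γ 2 0 - γ 0 0) * conj ω).im / u.im * u.re) / lp +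
      ((γ 2 0 - γ 0 0) * conj ω).im / u.im / lq < 1
    rw [h.base 2 0, sub_self, zero_mul]
    simp))
  rw [Metric.mem_nhdsWithin_iff] at h4
  obtain ⟨ε2, hε2, h5⟩ := h4
  refine ⟨min (min ε1 ε2) 1, lt_min (lt_min hε1 hε2) one_pos, fun t ht => ?_⟩
  have t1 : t < ε1 := ht.2.trans_le ((min_le_left _ _).trans (min_le_left _ _))
  have t2 : t < ε2 := ht.2.trans_le ((min_le_left _ _).trans (min_le_right _ _))
  have t3 : t < 1 := ht.2.trans_le (min_le_right _ _)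
  have h6 := h5 ⟨by
    rw [Metric.mem_ball, Real.dist_eq, sub_zero, abs_of_pos ht.1]
    exact t2, ht.1.le, t3.le⟩
  set y := (γ 2 t - γ 0 0) * conj ω with hy
  replace h6 : (y.re - y.im / u.im * u.re) / lp + y.im / u.im / lq < 1 := h6
  by_contra hcon
  obtain ⟨k1, k2⟩ := cone_of hu hui hcon
  refine h3 t ⟨ht.1, t1⟩ ?_
  have h7 := hull_of hlp hlq hp hq k2 k1 h6.le
  have hne : u.im ≠ 0 := hui.ne
  have e1 : ((y.re - y.im / u.im * u.re : ℝ) : ℂ) + ((y.im / u.im : ℝ) : ℂ) * u = y := by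
    refine Complex.ext ?_ ?_
    · simp only [Complex.add_re, Complex.mul_re, Complex.ofReal_re, Complex.ofReal_im]
      ring
    · simp only [Complex.add_im, Complex.mul_im, Complex.ofReal_re, Complex.ofReal_im]
      field_simp
      ring
  rw [e1] at h7
  have e2 : γ 0 0 + y * ω = γ 2 t := by
    have := conj_unit hω
    rw [hy]
    linear_combination (γ 2 t - γ 0 0) * this
  rwa [e2] at h7

/-- the direction of a straight leg -/
theorem leg_dir (h : Triod X γ) {g : Fin 3} (hs : γ g '' Icc 0 1 = segment ℝ (γ 0 0) (γ g 1)) :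
    ∃ ω : ℂ, ∃ l : ℝ, 0 < l ∧ ‖ω‖ = 1 ∧ γ g 1 - γ 0 0 = (l : ℂ) * ω ∧
      (∀ t ∈ Icc (0 : ℝ) 1, γ g t - γ 0 0 = (‖γ g t - γ 0 0‖ : ℂ) * ω) ∧
      ∀ s : ℝ, 0 ≤ s → s ≤ l → ∃ t ∈ Icc (0 : ℝ) 1, γ g t = γ 0 0 + (s : ℂ) * ω := by
  set l := ‖γ g 1 - γ 0 0‖ with hl
  have hlpos : 0 < l := by
    rw [hl, norm_pos_iff, sub_ne_zero, ← h.base g 0]
    intro hcon
    rcases h.inj g g 1 ⟨zero_le_one, le_rfl⟩ 0 ⟨le_rfl, zero_le_one⟩ hcon with ⟨_, h1⟩ | ⟨h1, _⟩
    · exact one_ne_zero h1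
    · exact one_ne_zero h1
  have hl0 : (l : ℂ) ≠ 0 := Complex.ofReal_ne_zero.2 hlpos.ne'
  set ω : ℂ := (γ g 1 - γ 0 0) / (l : ℂ) with hω
  have hω1 : ‖ω‖ = 1 := by
    rw [hω, norm_div, ← hl, Complex.norm_real, Real.norm_eq_abs, abs_of_pos hlpos,
      div_self hlpos.ne']
  have h1 : γ g 1 - γ 0 0 = (l : ℂ) * ω := by
    rw [hω]
    field_simp
  refine ⟨ω, l, hlpos, hω1, h1, ?_, ?_⟩
  · intro t ht
    have h2 : γ g t ∈ segment ℝ (γ 0 0) (γ g 1) := by
      rw [← hs]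
      exact ⟨t, ht, rfl⟩
    rw [segment_eq_image] at h2
    obtain ⟨s, hs', hs2⟩ := h2
    simp only [Complex.real_smul] at hs2
    have h3 : γ g t - γ 0 0 = ((s * l : ℝ) : ℂ) * ω := by
      have h4 : γ g t - γ 0 0 = (s : ℂ) * (γ g 1 - γ 0 0) := by
        rw [← hs2]
        push_cast
        ring
      rw [h4, h1]
      push_cast
      ring
    have h5 : ‖γ g t - γ 0 0‖ = s * l := by
      rw [h3, norm_mul, hω1, mul_one, Complex.norm_real, Real.norm_eq_abs,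
        abs_of_nonneg (mul_nonneg hs'.1 hlpos.le)]
    rw [h5]
    exact h3
  · intro s hs0 hsl
    have h2 : γ 0 0 + (s : ℂ) * ω ∈ segment ℝ (γ 0 0) (γ g 1) := by
      rw [segment_eq_image]
      refine ⟨s / l, ⟨by positivity, (div_le_one hlpos).2 hsl⟩, ?_⟩
      simp only [Complex.real_smul]
      have h3 : γ g 1 = γ 0 0 + (l : ℂ) * ω := by rw [← h1]; ring
      rw [h3]
      push_cast
      field_simp
      ring
    rw [← hs] at h2
    exact h2

theorem nn_neg_one (y : ℂ) : (nn (-1) y).im = y.im := by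
  rw [nn_im]
  simp

theorem dir_of {v : ℂ} (hv : ‖v‖ = 1) (h1 : v.re < 0) (h2 : v.im ≤ 0) : Dir v := by
  refine ⟨?_, h1, h2⟩
  have := nsq_eq v
  rw [hv] at this
  linarith

/-- the third leg starts on one side of two collinear legs -/
theorem side (h : Triod X γ) {ω : ℂ} {l0 l1 : ℝ} (hω : ‖ω‖ = 1) (hl0 : 0 < l0) (hl1 : 0 < l1)
    (h0 : ∀ s : ℝ, 0 ≤ s → s ≤ l0 → ∃ t ∈ Icc (0 : ℝ) 1, γ 0 t = γ 0 0 + (s : ℂ) * ω)
    (h1 : ∀ s : ℝ, 0 ≤ s → s ≤ l1 → ∃ t ∈ Icc (0 : ℝ) 1, γ 1 t = γ 0 0 + (s : ℂ) * (-ω)) :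
    ∃ ε > 0, (∀ t ∈ Ioo 0 ε, 0 < ((γ 2 t - γ 0 0) * conj ω).im) ∨
      (∀ t ∈ Ioo 0 ε, ((γ 2 t - γ 0 0) * conj ω).im < 0) := by
  have hc : ContinuousOn (fun t => (γ 2 t - γ 0 0) * conj ω) (Icc 0 1) :=
    ((h.cont 2).sub continuousOn_const).mul continuousOn_const
  have hV : IsOpen {y : ℂ | ‖y‖ < min l0 l1} := isOpen_lt continuous_norm continuous_const
  have h4 := (hc 0 ⟨le_rfl, zero_le_one⟩).preimage_mem_nhdsWithin (hV.mem_nhds (by
    show ‖(γ 2 0 - γ 0 0) * conj ω‖ < min l0 l1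
    rw [h.base 2 0, sub_self, zero_mul, norm_zero]
    exact lt_min hl0 hl1))
  rw [Metric.mem_nhdsWithin_iff] at h4
  obtain ⟨ε2, hε2, h5⟩ := h4
  have hε : 0 < min ε2 1 := lt_min hε2 one_pos
  have hne : ∀ t ∈ Ioo 0 (min ε2 1), ((γ 2 t - γ 0 0) * conj ω).im ≠ 0 := by
    intro t ht hcon
    have t2 : t < ε2 := ht.2.trans_le (min_le_left _ _)
    have t3 : t < 1 := ht.2.trans_le (min_le_right _ _)
    have h6 : ‖(γ 2 t - γ 0 0) * conj ω‖ < min l0 l1 := h5 ⟨by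
      rw [Metric.mem_ball, Real.dist_eq, sub_zero, abs_of_pos ht.1]
      exact t2, ht.1.le, t3.le⟩
    set s := ((γ 2 t - γ 0 0) * conj ω).re with hs
    have e1 : (γ 2 t - γ 0 0) * conj ω = (s : ℂ) := by
      refine Complex.ext ?_ ?_
      · rw [Complex.ofReal_re]
      · rw [Complex.ofReal_im, hcon]
    have e2 : γ 2 t = γ 0 0 + (s : ℂ) * ω := by
      have := conj_unit hω
      rw [← e1]
      linear_combination (-(γ 2 t - γ 0 0)) * this
    rw [e1, Complex.norm_real, Real.norm_eq_abs] at h6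
    have ht' : t ∈ Icc (0 : ℝ) 1 := ⟨ht.1.le, t3.le⟩
    rcases le_or_gt 0 s with h7 | h7
    · rw [abs_of_nonneg h7] at h6
      obtain ⟨t', ht1, ht2⟩ := h0 s h7 (h6.le.trans (min_le_left _ _))
      rcases h.inj 2 0 t ht' t' ht1 (by rw [ht2, e2]) with ⟨h8, _⟩ | ⟨h8, _⟩
      · exact absurd h8 (by decide)
      · exact ht.1.ne' h8
    · rw [abs_of_neg h7] at h6
      obtain ⟨t', ht1, ht2⟩ := h1 (-s) (by linarith) (h6.le.trans (min_le_right _ _))
      rcases h.inj 2 1 t ht' t' ht1 (by rw [ht2, e2]; push_cast; ring) with ⟨h8, _⟩ | ⟨h8, _⟩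
      · exact absurd h8 (by decide)
      · exact ht.1.ne' h8
  have hc2 : ContinuousOn (fun t => ((γ 2 t - γ 0 0) * conj ω).im) (Ioo 0 (min ε2 1)) :=
    (Complex.continuous_im.comp_continuousOn hc).mono fun t ht =>
      ⟨ht.1.le, ht.2.le.trans (min_le_right _ _)⟩
  have hmid : min ε2 1 / 2 ∈ Ioo 0 (min ε2 1) := ⟨by linarith, by linarith⟩
  refine ⟨min ε2 1, hε, ?_⟩
  rcases lt_or_gt_of_ne (hne _ hmid) with h7 | h7
  · right
    intro t ht
    by_contra hcon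
    obtain ⟨s, hs, hs'⟩ := isPreconnected_Ioo.intermediate_value hmid ht hc2 ⟨h7.le, not_lt.1 hcon⟩
    exact hne s hs hs'
  · left
    intro t ht
    by_contra hcon
    obtain ⟨s, hs, hs'⟩ := isPreconnected_Ioo.intermediate_value ht hmid hc2 ⟨not_lt.1 hcon, h7.le⟩
    exact hne s hs hs'

theorem straight_le (h : Triod X γ) (h0 : γ 0 '' Icc 0 1 = segment ℝ (γ 0 0) (γ 0 1))
    (h1 : γ 1 '' Icc 0 1 = segment ℝ (γ 0 0) (γ 1 1))
    (hang : ((γ 1 1 - γ 0 0) * conj (γ 0 1 - γ 0 0)).re < 0)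
    (h2 : ∃ ε > 0, ∀ t ∈ Ioo 0 ε, γ 2 t ∉ convexHull ℝ {γ 0 0, γ 0 1, γ 1 1}) {R : ℝ}
    (hR : R < spn X) : R ≤ sspn X := by
  obtain ⟨ω0, l0, hl0, hω0, hp0, hs0, ht0⟩ := leg_dir h h0
  obtain ⟨ω1, l1, hl1, hω1, hp1, hs1, ht1⟩ := leg_dir h h1
  have c0 := conj_unit hω0
  have c1 := conj_unit hω1
  set v := ω1 * conj ω0 with hv
  have hvn : ‖v‖ = 1 := by rw [hv, norm_mul, RCLike.norm_conj, hω0, hω1, mul_one]
  have hvc : ω0 * conj ω1 = conj v := by
    rw [hv, map_mul, Complex.conj_conj]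
    ring
  have hvre : v.re < 0 := by
    rw [hp0, hp1] at hang
    have e : (l1 : ℂ) * ω1 * conj ((l0 : ℂ) * ω0) = ((l1 * l0 : ℝ) : ℂ) * v := by
      rw [map_mul, Complex.conj_ofReal, hv]
      push_cast
      ring
    rw [e, Complex.mul_re, Complex.ofReal_re, Complex.ofReal_im, zero_mul, sub_zero] at hang
    by_contra hcon
    nlinarith [mul_nonneg (mul_pos hl1 hl0).le (not_lt.1 hcon)]
  have hv0 : v * ω0 = ω1 := by
    rw [hv]
    linear_combination ω1 * c0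
  have hv1 : conj v * ω1 = ω0 := by
    rw [← hvc]
    linear_combination ω0 * c1
  rcases lt_trichotomy v.im 0 with h3 | h3 | h3
  · have hD := dir_of hvn hvre h3.le
    refine sp_le h (i := 1) (j := 0) (by decide) (by decide) (by decide) hω0 hD ?_ hs0 ?_ hR
    · intro t ht
      rw [hv0]
      exact hs1 t ht
    · exact hullB h hω0 hD h3 hl0 hl1 hp0 (by rw [hv0]; exact hp1) h2
  · have hv2 : v = -1 := by
      have h4 := nsq_eq v
      rw [hvn, h3] at h4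
      have h5 : (v.re + 1) * (v.re - 1) = 0 := by linarith
      refine Complex.ext ?_ ?_
      · rcases mul_eq_zero.1 h5 with h6 | h6
        · rw [Complex.neg_re, Complex.one_re]
          linarith
        · linarith
      · rw [Complex.neg_im, Complex.one_im, neg_zero, h3]
    have hw : ω1 = -ω0 := by
      rw [← hv0, hv2]
      ring
    have hD : Dir (-1) := dir_of (by simp) (by simp) (by simp)
    obtain ⟨ε, hε, h4⟩ := side h hω0 hl0 hl1 ht0 (by rw [← hw]; exact ht1)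
    rcases h4 with h4 | h4
    · refine sp_le h (i := 1) (j := 0) (by decide) (by decide) (by decide) hω0 hD ?_ hs0 ?_ hR
      · intro t ht
        rw [← hv2, hv0]
        exact hs1 t ht
      · refine ⟨ε, hε, fun t ht => ?_⟩
        rw [nn_neg_one]
        exact h4 t ht
    · refine sp_le h (i := 0) (j := 1) (by decide) (by decide) (by decide) hω1 hD ?_ hs1 ?_ hR
      · intro t ht
        have : (-1 : ℂ) * ω1 = ω0 := by rw [hw]; ring
        rw [this]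
        exact hs0 t ht
      · refine ⟨ε, hε, fun t ht => ?_⟩
        rw [nn_neg_one, hw, map_neg, mul_neg, Complex.neg_im]
        linarith [h4 t ht]
  · have hcr : (conj v).re < 0 := by rw [Complex.conj_re]; exact hvre
    have hci : (conj v).im < 0 := by rw [Complex.conj_im]; linarith
    have hcn : ‖conj v‖ = 1 := by rw [RCLike.norm_conj]; exact hvn
    have hD := dir_of hcn hcr hci.le
    refine sp_le h (i := 0) (j := 1) (by decide) (by decide) (by decide) hω1 hD ?_ hs1 ?_ hR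
    · intro t ht
      rw [hv1]
      exact hs0 t ht
    · refine hullB h hω1 hD hci hl1 hl0 hp1 (by rw [hv1]; exact hp0) ?_
      obtain ⟨ε, hε, h4⟩ := h2
      refine ⟨ε, hε, fun t ht => ?_⟩
      have := h4 t ht
      rwa [Set.pair_comm (γ 0 1) (γ 1 1)] at this

theorem straight_pair (h : Triod X γ) (h0 : γ 0 '' Icc 0 1 = segment ℝ (γ 0 0) (γ 0 1))
    (h1 : γ 1 '' Icc 0 1 = segment ℝ (γ 0 0) (γ 1 1))
    (hang : ((γ 1 1 - γ 0 0) * conj (γ 0 1 - γ 0 0)).re < 0)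
    (h2 : ∃ ε > 0, ∀ t ∈ Ioo 0 ε, γ 2 t ∉ convexHull ℝ {γ 0 0, γ 0 1, γ 1 1}) :
    sspn X = spn X := by
  obtain ⟨hb, -, -, h3, hsub, -⟩ := spn_facts h
  refine le_antisymm (csSup_le_csSup hb ⟨0, h3⟩ hsub) ?_
  exact le_of_forall_lt_imp_le_of_dense fun R hR => straight_le h h0 h1 hang h2 hR

end Pool.Agent.SPN
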