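import Mathlib

/-! # SPN SPREG: the reflex side of two straight legs (MP_613dde_gt; Mathlib only)

Two rays from `0`: `C = {t}` and `A = {t u}`, `t ≥ 0`, `‖u‖ = 1`, `Re u < 0`, `Im u ≤ 0`.  The open reflex
sector counterclockwise from `C` to `A` is `{y | 0 < Im (nn u y)}`, where `nn u y = y - ft u y` and `ft u y` is
the point of `A ∪ C` nearest to `y`.

* `vi_C`, `vi_A`: the points of the two rays are at distance at least `‖nn u y‖` from `y`.
* `leaf`: if `y` and `x` are on the same normal ray (`Im ((y - x) * conj (nn u y)) = 0`) then they are near.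
* `im_C`, `im_A`: the sign of `Im ((y - x) * conj (nn u y))` for `x` on the rays. -/

set_option autoImplicit false

open Set ComplexConjugate

noncomputable section

namespace Pool.Agent.SPN

/-- the admissible directions of the second ray -/
structure Dir (u : ℂ) : Prop where
  nsq : u.re * u.re + u.im * u.im = 1
  re : u.re < 0
  im : u.im ≤ 0

/-- coordinate along the second ray -/
def sc (u y : ℂ) : ℝ := y.re * u.re + y.im * u.im

/-- the foot -/
def ft (u y : ℂ) : ℂ := ((max y.re 0 : ℝ) : ℂ) + ((max (sc u y) 0 : ℝ) : ℂ) * u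

/-- the normal vector -/
def nn (u y : ℂ) : ℂ := y - ft u y

theorem sc_cont (u : ℂ) : Continuous (sc u) := by
  unfold sc
  exact (Complex.continuous_re.mul continuous_const).add (Complex.continuous_im.mul continuous_const)

theorem nn_cont (u : ℂ) : Continuous (nn u) := by
  unfold nn ft
  refine continuous_id.sub (Continuous.add ?_ (Continuous.mul ?_ continuous_const))
  · exact Complex.continuous_ofReal.comp (Complex.continuous_re.max continuous_const)
  · exact Complex.continuous_ofReal.comp ((sc_cont u).max continuous_const)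

theorem nn_re (u y : ℂ) : (nn u y).re = y.re - max y.re 0 - max (sc u y) 0 * u.re := by
  simp only [nn, ft, Complex.sub_re, Complex.add_re, Complex.mul_re, Complex.ofReal_re,
    Complex.ofReal_im, zero_mul]
  ring

theorem nn_im (u y : ℂ) : (nn u y).im = y.im - max (sc u y) 0 * u.im := by
  simp only [nn, ft, Complex.sub_im, Complex.add_im, Complex.mul_im, Complex.ofReal_re,
    Complex.ofReal_im, zero_mul, zero_add, add_zero]

/-- the three zones -/
inductive Zone (u y : ℂ) : Prop
  | C (h1 : 0 < y.re) (h2 : sc u y ≤ 0) (h3 : 0 < y.im) (h4 : nn u y = ⟨0, y.im⟩)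
  | O (h1 : y.re ≤ 0) (h2 : sc u y ≤ 0) (h3 : 0 < y.im) (h4 : nn u y = y)
  | A (h1 : y.re ≤ 0) (h2 : 0 < sc u y) (h3 : 0 < y.re * u.im - y.im * u.re)
      (h4 : nn u y = ⟨(y.re * u.im - y.im * u.re) * u.im, -((y.re * u.im - y.im * u.re) * u.re)⟩)

theorem zone {u : ℂ} (hu : Dir u) {y : ℂ} (hy : 0 < (nn u y).im) : Zone u y := by
  obtain ⟨n1, n2, n3⟩ := hu
  have hi := nn_im u y
  have hr := nn_re u y
  rcases le_or_gt y.re 0 with h1 | h1
  · rcases le_or_gt (sc u y) 0 with h2 | h2
    · rw [max_eq_right h2] at hi hr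
      rw [max_eq_right h1] at hr
      refine Zone.O h1 h2 (by rw [hi] at hy; linarith) (Complex.ext ?_ ?_)
      · rw [hr]; ring
      · rw [hi]; ring
    · rw [max_eq_left h2.le] at hi hr
      rw [max_eq_right h1] at hr
      have e1 : (nn u y).im = -((y.re * u.im - y.im * u.re) * u.re) := by
        rw [hi]
        unfold sc
        linear_combination (-y.im) * n1
      have e2 : (nn u y).re = (y.re * u.im - y.im * u.re) * u.im := by
        rw [hr]
        unfold sc
        linear_combination (-y.re) * n1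
      refine Zone.A h1 h2 ?_ (Complex.ext e2 e1)
      rw [e1] at hy
      by_contra hcon
      push Not at hcon
      nlinarith [mul_nonneg_of_nonpos_of_nonpos hcon n2.le]
  · rcases le_or_gt (sc u y) 0 with h2 | h2
    · rw [max_eq_right h2] at hi hr
      rw [max_eq_left h1.le] at hr
      refine Zone.C h1 h2 (by rw [hi] at hy; linarith) (Complex.ext ?_ ?_)
      · rw [hr]; ring
      · rw [hi]; ring
    · exfalso
      rw [max_eq_left h2.le] at hi
      rw [hi] at hy
      have e1 : y.im - sc u y * u.im = u.re * (y.im * u.re - y.re * u.im) := by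
        unfold sc
        linear_combination (-y.im) * n1
      rw [e1] at hy
      have h3 : y.im * u.re - y.re * u.im < 0 := by
        by_contra hcon
        push Not at hcon
        nlinarith [mul_nonneg hcon (neg_nonneg.2 n2.le)]
      have h4 : y.re * u.im ≤ 0 := mul_nonpos_of_nonneg_of_nonpos h1.le n3
      have h5 : 0 < y.im := by
        by_contra hcon
        push Not at hcon
        nlinarith [mul_nonneg_of_nonpos_of_nonpos hcon n2.le]
      unfold sc at h2
      nlinarith [mul_neg_of_pos_of_neg h1 n2, mul_nonpos_of_nonneg_of_nonpos h5.le n3]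

theorem nn_re_le {u : ℂ} (hu : Dir u) {y : ℂ} (hy : 0 < (nn u y).im) : (nn u y).re ≤ 0 := by
  rcases zone hu hy with ⟨h1, h2, h3, h4⟩ | ⟨h1, h2, h3, h4⟩ | ⟨h1, h2, h3, h4⟩
  · rw [h4]
  · rw [h4]; exact h1
  · rw [h4]
    exact mul_nonpos_of_nonneg_of_nonpos h3.le hu.im

/-- a point of the first ray is not in the open sector -/
theorem ray_C {u : ℂ} (hu : Dir u) {y : ℂ} (h1 : y.im = 0) (h2 : 0 ≤ y.re) : ¬ 0 < (nn u y).im := by
  intro hy
  rcases zone hu hy with ⟨_, _, h3, _⟩ | ⟨_, _, h3, _⟩ | ⟨h3, h4, _, _⟩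
  · linarith
  · linarith
  · have h5 : y.re = 0 := le_antisymm h3 h2
    unfold sc at h4
    rw [h1, h5] at h4
    simp at h4

theorem nsq_eq (z : ℂ) : ‖z‖ ^ 2 = z.re * z.re + z.im * z.im := by
  rw [← Complex.normSq_eq_norm_sq, Complex.normSq_apply]

theorem le_norm_of_sq {z w : ℂ} (h : z.re * z.re + z.im * z.im ≤ w.re * w.re + w.im * w.im) :
    ‖z‖ ≤ ‖w‖ := by
  rw [← nsq_eq, ← nsq_eq] at h
  exact le_of_sq_le_sq h (norm_nonneg _)

theorem vi_C {u : ℂ} (hu : Dir u) {y : ℂ} (hy : 0 < (nn u y).im) {t : ℝ} (ht : 0 ≤ t) :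
    ‖nn u y‖ ≤ ‖y - (t : ℂ)‖ := by
  have hui := hu.im
  have hun := hu.nsq
  apply le_norm_of_sq
  rw [Complex.sub_re, Complex.sub_im, Complex.ofReal_re, Complex.ofReal_im]
  rcases zone hu hy with ⟨h1, h2, h3, h4⟩ | ⟨h1, h2, h3, h4⟩ | ⟨h1, h2, h3, h4⟩
  · rw [h4]
    simp only
    nlinarith [mul_self_nonneg (y.re - t)]
  · rw [h4]
    nlinarith [mul_nonneg ht (neg_nonneg.2 h1), mul_self_nonneg t]
  · rw [h4]
    simp only
    set h := y.re * u.im - y.im * u.re with hh
    have e1 : h * u.im * (h * u.im) + -(h * u.re) * -(h * u.re) = h * h := by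
      linear_combination (h * h) * hun
    rw [e1]
    have e2 : (y.re - t) * (y.re - t) + (y.im - 0) * (y.im - 0) =
        (h - t * u.im) * (h - t * u.im) +
          ((y.re - t) * u.re + y.im * u.im) * ((y.re - t) * u.re + y.im * u.im) := by
      rw [hh]
      linear_combination (-((y.re - t) * (y.re - t) + y.im * y.im)) * hun
    rw [e2]
    have h5 : h ≤ h - t * u.im := by nlinarith
    nlinarith [mul_self_nonneg ((y.re - t) * u.re + y.im * u.im)]

theorem vi_A {u : ℂ} (hu : Dir u) {y : ℂ} (hy : 0 < (nn u y).im) {t : ℝ} (ht : 0 ≤ t) :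
    ‖nn u y‖ ≤ ‖y - (t : ℂ) * u‖ := by
  have hui := hu.im
  have hun := hu.nsq
  apply le_norm_of_sq
  rw [Complex.sub_re, Complex.sub_im, Complex.mul_re, Complex.mul_im, Complex.ofReal_re,
    Complex.ofReal_im]
  rcases zone hu hy with ⟨h1, h2, h3, h4⟩ | ⟨h1, h2, h3, h4⟩ | ⟨h1, h2, h3, h4⟩
  · rw [h4]
    simp only
    have h5 : y.im ≤ y.im - (t * u.im + 0 * u.re) := by nlinarith
    nlinarith [mul_self_nonneg (y.re - (t * u.re - 0 * u.im))]
  · rw [h4]
    unfold sc at h2
    have e : (y.re - (t * u.re - 0 * u.im)) * (y.re - (t * u.re - 0 * u.im)) +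
        (y.im - (t * u.im + 0 * u.re)) * (y.im - (t * u.im + 0 * u.re)) =
        y.re * y.re + y.im * y.im - 2 * t * (y.re * u.re + y.im * u.im) + t * t := by
      linear_combination (t * t) * hun
    rw [e]
    nlinarith [mul_nonneg ht (neg_nonneg.2 h2), mul_self_nonneg t]
  · rw [h4]
    simp only
    set h := y.re * u.im - y.im * u.re with hh
    have e1 : h * u.im * (h * u.im) + -(h * u.re) * -(h * u.re) = h * h := by
      linear_combination (h * h) * hun
    rw [e1]
    have e : (y.re - (t * u.re - 0 * u.im)) * (y.re - (t * u.re - 0 * u.im)) +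
        (y.im - (t * u.im + 0 * u.re)) * (y.im - (t * u.im + 0 * u.re)) =
        h * h + (y.re * u.re + y.im * u.im - t) * (y.re * u.re + y.im * u.im - t) := by
      rw [hh]
      linear_combination (t * t - y.re * y.re - y.im * y.im) * hun
    rw [e]
    nlinarith [mul_self_nonneg (y.re * u.re + y.im * u.im - t)]

theorem im_mul_conj (w v : ℂ) : (w * conj v).im = w.im * v.re - w.re * v.im := by
  rw [Complex.mul_im, Complex.conj_re, Complex.conj_im]
  ring

theorem im_C {u : ℂ} (hu : Dir u) {y : ℂ} (hy : 0 < (nn u y).im) {t : ℝ} (ht : 0 < t)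
    (hty : y.re < t) : 0 < ((y - (t : ℂ)) * conj (nn u y)).im := by
  have hur := hu.re
  rw [im_mul_conj, Complex.sub_re, Complex.sub_im, Complex.ofReal_re, Complex.ofReal_im]
  rcases zone hu hy with ⟨h1, h2, h3, h4⟩ | ⟨h1, h2, h3, h4⟩ | ⟨h1, h2, h3, h4⟩
  · rw [h4]
    simp only
    nlinarith [mul_pos (sub_pos.2 hty) h3]
  · rw [h4]
    nlinarith [mul_pos ht h3]
  · rw [h4]
    simp only
    set h := y.re * u.im - y.im * u.re with hh
    have e : (y.im - 0) * (h * u.im) - (y.re - t) * -(h * u.re) = h * (sc u y - t * u.re) := by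
      unfold sc
      ring
    rw [e]
    refine mul_pos h3 ?_
    nlinarith [mul_pos ht (neg_pos.2 hur)]

theorem im_A {u : ℂ} (hu : Dir u) {y : ℂ} (hy : 0 < (nn u y).im) {t : ℝ} (ht : 0 < t)
    (hty : sc u y < t) : ((y - (t : ℂ) * u) * conj (nn u y)).im < 0 := by
  have hur := hu.re
  have hui := hu.im
  have hun := hu.nsq
  rw [im_mul_conj, Complex.sub_re, Complex.sub_im, Complex.mul_re, Complex.mul_im,
    Complex.ofReal_re, Complex.ofReal_im]
  rcases zone hu hy with ⟨h1, h2, h3, h4⟩ | ⟨h1, h2, h3, h4⟩ | ⟨h1, h2, h3, h4⟩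
  · rw [h4]
    simp only
    have e : (y.im - (t * u.im + 0 * u.re)) * 0 - (y.re - (t * u.re - 0 * u.im)) * y.im =
        -((y.re - t * u.re) * y.im) := by ring
    rw [e]
    have h5 : 0 < y.re - t * u.re := by nlinarith [mul_pos ht (neg_pos.2 hur)]
    nlinarith [mul_pos h5 h3]
  · rw [h4]
    have e : (y.im - (t * u.im + 0 * u.re)) * y.re - (y.re - (t * u.re - 0 * u.im)) * y.im =
        -(t * (u.im * y.re - u.re * y.im)) := by ring
    rw [e]
    have h5 : 0 < u.im * y.re - u.re * y.im := by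
      nlinarith [mul_nonneg_of_nonpos_of_nonpos hui h1, mul_pos (neg_pos.2 hur) h3]
    nlinarith [mul_pos ht h5]
  · rw [h4]
    simp only
    set h := y.re * u.im - y.im * u.re with hh
    have e : (y.im - (t * u.im + 0 * u.re)) * (h * u.im) -
        (y.re - (t * u.re - 0 * u.im)) * -(h * u.re) = h * (sc u y - t) := by
      unfold sc
      linear_combination (-(h * t)) * hun
    rw [e]
    nlinarith [mul_pos h3 (sub_pos.2 hty)]

theorem im_u {u : ℂ} (hu : Dir u) {y : ℂ} (hy : 0 < (nn u y).im) :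
    0 < (u * conj (nn u y)).im := by
  have hur := hu.re
  have hui := hu.im
  have hun := hu.nsq
  rw [im_mul_conj]
  rcases zone hu hy with ⟨h1, h2, h3, h4⟩ | ⟨h1, h2, h3, h4⟩ | ⟨h1, h2, h3, h4⟩
  · rw [h4]
    simp only
    nlinarith [mul_pos (neg_pos.2 hur) h3]
  · rw [h4]
    nlinarith [mul_nonneg_of_nonpos_of_nonpos hui h1, mul_pos (neg_pos.2 hur) h3]
  · rw [h4]
    simp only
    set h := y.re * u.im - y.im * u.re with hh
    have e : u.im * (h * u.im) - u.re * -(h * u.re) = h := by
      linear_combination h * hun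
    rw [e]
    exact h3

/-- on a common normal line the position is a multiple of the normal vector -/
theorem par {w v : ℂ} (hv : 0 < v.im) (h : (w * conj v).im = 0) :
    ∃ s : ℝ, w = (s : ℂ) * v := by
  refine ⟨w.im / v.im, ?_⟩
  rw [im_mul_conj] at h
  refine Complex.ext ?_ ?_
  · rw [Complex.mul_re, Complex.ofReal_re, Complex.ofReal_im, zero_mul, sub_zero,
      div_mul_eq_mul_div, eq_div_iff hv.ne']
    linarith
  · rw [Complex.mul_im, Complex.ofReal_re, Complex.ofReal_im, zero_mul, add_zero,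
      div_mul_cancel₀ _ hv.ne']

/-- a point of the rays on the normal line is the foot -/
theorem leaf_ray {u : ℂ} (hu : Dir u) {y : ℂ} (hy : 0 < (nn u y).im) {x : ℂ}
    (hx : (∃ t : ℝ, 0 ≤ t ∧ x = (t : ℂ)) ∨ ∃ t : ℝ, 0 ≤ t ∧ x = (t : ℂ) * u)
    (h : ((y - x) * conj (nn u y)).im = 0) : ‖y - x‖ ≤ ‖nn u y‖ := by
  have hur := hu.re
  have hui := hu.im
  have hun := hu.nsq
  by_contra hcon
  rcases hx with ⟨t, ht, rfl⟩ | ⟨t, ht, rfl⟩
  · rcases zone hu hy with ⟨h1, h2, h3, h4⟩ | ⟨h1, h2, h3, h4⟩ | ⟨h1, h2, h3, h4⟩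
    · rcases lt_trichotomy t y.re with h5 | h5 | h5
      · rw [im_mul_conj, h4] at h
        simp only [Complex.sub_re, Complex.sub_im, Complex.ofReal_re, Complex.ofReal_im] at h
        nlinarith [mul_pos (sub_pos.2 h5) h3]
      · apply hcon
        apply le_norm_of_sq
        rw [h4]
        simp only [Complex.sub_re, Complex.sub_im, Complex.ofReal_re, Complex.ofReal_im]
        rw [h5]
        simp
      · exact absurd h (im_C hu hy (lt_trans h1 h5) h5).ne'
    · rcases ht.eq_or_lt with h5 | h5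
      · apply hcon
        rw [← h5, h4]
        simp
      · exact absurd h (im_C hu hy h5 (lt_of_le_of_lt h1 h5)).ne'
    · rcases ht.eq_or_lt with h5 | h5
      · rw [im_mul_conj, h4, ← h5] at h
        simp only [Complex.ofReal_zero, sub_zero] at h
        set hh := y.re * u.im - y.im * u.re with hhe
        have e : y.im * (hh * u.im) - y.re * -(hh * u.re) = hh * sc u y := by
          unfold sc
          ring
        rw [e] at h
        nlinarith [mul_pos h3 h2]
      · exact absurd h (im_C hu hy h5 (lt_of_le_of_lt h1 h5)).ne'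
  · rcases zone hu hy with ⟨h1, h2, h3, h4⟩ | ⟨h1, h2, h3, h4⟩ | ⟨h1, h2, h3, h4⟩
    · rcases ht.eq_or_lt with h5 | h5
      · rw [im_mul_conj, h4, ← h5] at h
        simp only [Complex.ofReal_zero, zero_mul, sub_zero] at h
        nlinarith [mul_pos h1 h3]
      · exact absurd h (im_A hu hy h5 (lt_of_le_of_lt h2 h5)).ne
    · rcases ht.eq_or_lt with h5 | h5
      · apply hcon
        rw [← h5, h4]
        simp
      · exact absurd h (im_A hu hy h5 (lt_of_le_of_lt h2 h5)).ne
    · rcases lt_trichotomy t (sc u y) with h5 | h5 | h5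
      · rw [im_mul_conj, h4] at h
        simp only [Complex.sub_re, Complex.sub_im, Complex.mul_re, Complex.mul_im,
          Complex.ofReal_re, Complex.ofReal_im] at h
        set hh := y.re * u.im - y.im * u.re with hhe
        have e : (y.im - (t * u.im + 0 * u.re)) * (hh * u.im) -
            (y.re - (t * u.re - 0 * u.im)) * -(hh * u.re) = hh * (sc u y - t) := by
          unfold sc
          linear_combination (-(hh * t)) * hun
        rw [e] at h
        nlinarith [mul_pos h3 (sub_pos.2 h5)]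
      · apply hcon
        apply le_norm_of_sq
        rw [h4, h5]
        simp only [Complex.sub_re, Complex.sub_im, Complex.mul_re, Complex.mul_im,
          Complex.ofReal_re, Complex.ofReal_im]
        unfold sc
        apply le_of_eq
        linear_combination ((y.re * u.re + y.im * u.im) * (y.re * u.re + y.im * u.im) -
          (y.re * u.im - y.im * u.re) * (y.re * u.im - y.im * u.re) -
          (y.re * y.re + y.im * y.im)) * hun
      · exact absurd h (im_A hu hy (lt_trans h2 h5) h5).ne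

/-- coordinates of a point on the normal line, sector case -/
private theorem leaf_key {u : ℂ} (hu : Dir u) {y x : ℂ} (hy : 0 < (nn u y).im)
    (hx : 0 < (nn u x).im) {s : ℝ} (hxe : x = y - (s : ℂ) * nn u y) :
    0 < 1 - s ∧ nn u x = ((1 - s : ℝ) : ℂ) * nn u y := by
  have hur := hu.re
  have hui := hu.im
  have hun := hu.nsq
  rcases zone hu hy with ⟨h1, h2, h3, h4⟩ | ⟨h1, h2, h3, h4⟩ | ⟨h1, h2, h3, h4⟩
  · have e1 : x.re = y.re := by
      rw [hxe, h4]
      simp [Complex.mul_re]
    have e2 : x.im = (1 - s) * y.im := by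
      rw [hxe, h4]
      simp only [Complex.sub_im, Complex.mul_im, Complex.ofReal_re, Complex.ofReal_im]
      ring
    rcases zone hu hx with ⟨_, _, g3, g4⟩ | ⟨g1, _, _, _⟩ | ⟨g1, _, _, _⟩
    · refine ⟨?_, ?_⟩
      · by_contra hk
        rw [e2] at g3
        nlinarith [mul_nonneg (neg_nonneg.2 (not_lt.1 hk)) h3.le]
      · rw [g4, h4, e2]
        refine Complex.ext ?_ ?_
        · simp [Complex.mul_re]
        · simp [Complex.mul_im]
    · linarith
    · linarith
  · have e1 : x.re = (1 - s) * y.re := by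
      rw [hxe, h4]
      simp only [Complex.sub_re, Complex.mul_re, Complex.ofReal_re, Complex.ofReal_im]
      ring
    have e2 : x.im = (1 - s) * y.im := by
      rw [hxe, h4]
      simp only [Complex.sub_im, Complex.mul_im, Complex.ofReal_re, Complex.ofReal_im]
      ring
    have e5 : sc u x = (1 - s) * sc u y := by
      unfold sc
      rw [e1, e2]
      ring
    have hk : 0 < 1 - s := by
      by_contra hk
      have hk := not_lt.1 hk
      have e3 : x.im ≤ 0 := by
        rw [e2]
        exact mul_nonpos_of_nonpos_of_nonneg hk h3.le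
      rcases zone hu hx with ⟨_, _, g3, _⟩ | ⟨_, _, g3, _⟩ | ⟨g1, g2, g3, _⟩
      · linarith
      · linarith
      · have e4 : 0 ≤ x.re := by
          rw [e1]
          exact mul_nonneg_of_nonpos_of_nonpos hk h1
        have e5 : x.re = 0 := le_antisymm g1 e4
        rw [e5] at g3
        nlinarith [mul_nonneg_of_nonpos_of_nonpos e3 hur.le]
    refine ⟨hk, ?_⟩
    have e6 : nn u x = x := by
      rcases zone hu hx with ⟨g1, _, _, _⟩ | ⟨_, _, _, g4⟩ | ⟨_, g2, _, _⟩
      · rw [e1] at g1
        nlinarith [mul_nonneg hk.le (neg_nonneg.2 h1)]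
      · exact g4
      · rw [e5] at g2
        nlinarith [mul_nonneg hk.le (neg_nonneg.2 h2)]
    rw [e6, hxe, h4]
    push_cast
    ring
  · set hh := y.re * u.im - y.im * u.re with hhe
    have e1 : x.re = y.re - s * (hh * u.im) := by
      rw [hxe, h4]
      simp only [Complex.sub_re, Complex.mul_re, Complex.ofReal_re, Complex.ofReal_im]
      ring
    have e2 : x.im = y.im + s * (hh * u.re) := by
      rw [hxe, h4]
      simp only [Complex.sub_im, Complex.mul_im, Complex.ofReal_re, Complex.ofReal_im]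
      ring
    have e3 : sc u x = sc u y := by
      unfold sc
      rw [e1, e2]
      ring
    have e4 : x.re * u.im - x.im * u.re = (1 - s) * hh := by
      rw [e1, e2, hhe]
      linear_combination (-(s * (y.re * u.im - y.im * u.re))) * hun
    rcases zone hu hx with ⟨_, g2, _, _⟩ | ⟨_, g2, _, _⟩ | ⟨_, _, g3, g4⟩
    · linarith
    · linarith
    · refine ⟨?_, ?_⟩
      · by_contra hk
        rw [e4] at g3
        nlinarith [mul_nonneg (neg_nonneg.2 (not_lt.1 hk)) h3.le]
      · rw [g4, h4, e4]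
        refine Complex.ext ?_ ?_
        · simp only [Complex.mul_re, Complex.ofReal_re, Complex.ofReal_im]
          ring
        · simp only [Complex.mul_im, Complex.ofReal_re, Complex.ofReal_im]
          ring

/-- two points of the sector on a common normal line -/
theorem leaf_sector {u : ℂ} (hu : Dir u) {y x : ℂ} (hy : 0 < (nn u y).im) (hx : 0 < (nn u x).im)
    (h : ((y - x) * conj (nn u y)).im = 0) {R : ℝ} (hyR : ‖nn u y‖ < R) (hxR : ‖nn u x‖ < R) :
    ‖y - x‖ < R := by
  obtain ⟨s, hs⟩ := par hy h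
  obtain ⟨hk, hk2⟩ := leaf_key hu hy hx (s := s) (by rw [← hs]; ring)
  rw [hs, norm_mul, Complex.norm_real, Real.norm_eq_abs]
  have h5 : ‖nn u x‖ = (1 - s) * ‖nn u y‖ := by
    rw [hk2, norm_mul, Complex.norm_real, Real.norm_eq_abs, abs_of_pos hk]
  rw [h5] at hxR
  have h6 : 0 ≤ ‖nn u y‖ := norm_nonneg _
  rcases abs_cases s with ⟨h7, _⟩ | ⟨h7, _⟩
  · rw [h7]; nlinarith
  · rw [h7]; nlinarith

/-- close to a far point of the first ray: in front -/
theorem re_pos {y : ℂ} {c R : ℝ} (hR : R ≤ c) (hR0 : 0 < R) (h : ‖y - (c : ℂ)‖ ≤ R) (hy : y ≠ 0) :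
    0 < y.re := by
  by_contra hcon
  push Not at hcon
  have h1 : ‖y - (c : ℂ)‖ ^ 2 ≤ R ^ 2 := pow_le_pow_left₀ (norm_nonneg _) h 2
  rw [nsq_eq, Complex.sub_re, Complex.sub_im, Complex.ofReal_re, Complex.ofReal_im] at h1
  have h2 : 0 < y.re * y.re + y.im * y.im := by
    rw [← nsq_eq]
    positivity
  nlinarith [mul_nonneg (neg_nonneg.2 hcon) (hR0.le.trans hR)]

/-- the mirror exchanging the two rays -/
def mir (u z : ℂ) : ℂ := u * conj z

theorem mir_cont (u : ℂ) : Continuous (mir u) := continuous_const.mul Complex.continuous_conj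

theorem mir_sub (u z w : ℂ) : mir u z - mir u w = mir u (z - w) := by
  unfold mir
  rw [map_sub]
  ring

theorem dir_norm {u : ℂ} (hu : Dir u) : ‖u‖ = 1 := by
  have h := nsq_eq u
  rw [hu.nsq] at h
  nlinarith [norm_nonneg u]

theorem mir_norm {u : ℂ} (hu : Dir u) (z : ℂ) : ‖mir u z‖ = ‖z‖ := by
  unfold mir
  rw [norm_mul, dir_norm hu, one_mul, RCLike.norm_conj]

theorem mir_mir {u : ℂ} (hu : Dir u) (z : ℂ) : mir u (mir u z) = z := by
  have hun := hu.nsq
  unfold mir
  refine Complex.ext ?_ ?_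
  · simp only [Complex.mul_re, Complex.mul_im, Complex.conj_re, Complex.conj_im]
    linear_combination z.re * hun
  · simp only [Complex.mul_re, Complex.mul_im, Complex.conj_re, Complex.conj_im]
    linear_combination z.im * hun

theorem mir_C (u : ℂ) (t : ℝ) : mir u (t : ℂ) = (t : ℂ) * u := by
  unfold mir
  rw [Complex.conj_ofReal, mul_comm]

theorem mir_A {u : ℂ} (hu : Dir u) (t : ℝ) : mir u ((t : ℂ) * u) = (t : ℂ) := by
  rw [← mir_C, mir_mir hu]

theorem mir_re (u z : ℂ) : (mir u z).re = sc u z := by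
  unfold mir sc
  simp only [Complex.mul_re, Complex.conj_re, Complex.conj_im]
  ring

theorem mir_sc {u : ℂ} (hu : Dir u) (z : ℂ) : sc u (mir u z) = z.re := by
  have hun := hu.nsq
  unfold mir sc
  simp only [Complex.mul_re, Complex.mul_im, Complex.conj_re, Complex.conj_im]
  linear_combination z.re * hun

theorem mir_nn {u : ℂ} (hu : Dir u) (y : ℂ) : nn u (mir u y) = mir u (nn u y) := by
  unfold nn
  rw [← mir_sub]
  congr 1
  unfold ft
  rw [mir_re, mir_sc hu]
  unfold mir
  rw [map_add, map_mul, Complex.conj_ofReal, Complex.conj_ofReal]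
  have h1 : u * conj u = 1 := by
    rw [Complex.mul_conj, Complex.normSq_apply, hu.nsq]
    simp
  linear_combination (-((max y.re 0 : ℝ) : ℂ) * 0 - ((max (sc u y) 0 : ℝ) : ℂ)) * h1

theorem mir_sector {u : ℂ} (hu : Dir u) {y : ℂ} (hy : 0 < (nn u y).im) :
    0 < (nn u (mir u y)).im := by
  rw [mir_nn hu]
  exact im_u hu hy

/-- in front of the foot zone of the first ray the sign is the sign of the real part -/
theorem re_lt {u : ℂ} (hu : Dir u) {y x : ℂ} (hy : 0 < (nn u y).im) (hre : 0 < y.re)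
    (h : 0 < ((y - x) * conj (nn u y)).im) : y.re < x.re := by
  rcases zone hu hy with ⟨_, _, h3, h4⟩ | ⟨h1, _, _, _⟩ | ⟨h1, _, _, _⟩
  · rw [im_mul_conj, h4] at h
    simp only [Complex.sub_re] at h
    by_contra hcon
    nlinarith [mul_nonneg (sub_nonneg.2 (not_lt.1 hcon)) h3.le]
  · linarith
  · linarith

theorem im_pos_of_re {u : ℂ} (hu : Dir u) {y : ℂ} (hy : 0 < (nn u y).im) (hre : 0 < y.re) :
    0 < y.im ∧ nn u y = ⟨0, y.im⟩ := by
  rcases zone hu hy with ⟨_, _, h3, h4⟩ | ⟨h1, _, _, _⟩ | ⟨h1, _, _, _⟩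
  · exact ⟨h3, h4⟩
  · linarith
  · linarith

theorem mono_A {u : ℂ} (hu : Dir u) {y : ℂ} {s t : ℝ} (h1 : sc u y ≤ t) (h2 : t ≤ s) :
    ‖y - (t : ℂ) * u‖ ≤ ‖y - (s : ℂ) * u‖ := by
  have hun := hu.nsq
  apply le_norm_of_sq
  simp only [Complex.sub_re, Complex.sub_im, Complex.mul_re, Complex.mul_im,
    Complex.ofReal_re, Complex.ofReal_im]
  unfold sc at h1
  have e : ∀ r : ℝ, (y.re - (r * u.re - 0 * u.im)) * (y.re - (r * u.re - 0 * u.im)) +
      (y.im - (r * u.im + 0 * u.re)) * (y.im - (r * u.im + 0 * u.re)) =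
      y.re * y.re + y.im * y.im - 2 * r * (y.re * u.re + y.im * u.im) + r * r := by
    intro r
    linear_combination (r * r) * hun
  rw [e, e]
  nlinarith [mul_nonneg (sub_nonneg.2 h2) (sub_nonneg.2 h1),
    mul_nonneg (sub_nonneg.2 h2) (sub_nonneg.2 (h1.trans h2))]

theorem mono_C {y : ℂ} {s t : ℝ} (h1 : y.re ≤ t) (h2 : t ≤ s) :
    ‖y - (t : ℂ)‖ ≤ ‖y - (s : ℂ)‖ := by
  apply le_norm_of_sq
  simp only [Complex.sub_re, Complex.sub_im, Complex.ofReal_re, Complex.ofReal_im]
  nlinarith [mul_nonneg (sub_nonneg.2 h2) (sub_nonneg.2 h1),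
    mul_nonneg (sub_nonneg.2 h2) (sub_nonneg.2 (h1.trans h2))]

theorem sc_le_norm {u : ℂ} (hu : Dir u) (y : ℂ) : sc u y ≤ ‖y‖ := by
  rw [← mir_re, ← mir_norm hu y]
  exact Complex.re_le_norm _

end Pool.Agent.SPN
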