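import Mathlib

/-! # SPN SQUARE: two continua crossing a square meet (MP_613dde_gt; Mathlib only)

`sq_cross`: `A, B` compact connected subsets of the square `|Re| ≤ 1, |Im| ≤ 1`; `A` contains points with
`Re = -1` and `Re = 1`, `B` contains points with `Im = -1` and `Im = 1`.  Then `A ∩ B ≠ ∅`.

Proof.  Suppose `A ∩ B = ∅`, `|z - b| ≥ ρ > 0` for `z ∈ A`, `b ∈ B`.  `pL, pR ∈ A`, `qB, qT ∈ B`.
For `b ∈ B`: `Re (pR - b) ≥ 0`, `Re (b - pL) ≥ 0`, both nonzero, so the principal arguments lie in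
`[-π/2, π/2]` and depend continuously on `b`; put `ε b = arg (pR - b) - arg (b - pL) - π`.
`G n` = set of `b ∈ B` for which there is `a : ℂ → ℝ`, continuous on `A`, with `z - b = |z - b| exp (i a z)`
on `A` and `a pR - a pL = ε b + 2 π n`.
(1) If `b, b' ∈ B`, `|b - b'| < ρ/4`, `b ∈ G n` then `b' ∈ G n`: the ratio `(z-b')/(z-b) = 1 + (b-b')/(z-b)` has
positive real part and `|arg| < π/4`; `a' z = a z + arg ratio z`.  Then
`a' pR - a' pL = ε b + 2πn + arg ratio pR - arg ratio pL`, and `arg (pR-b') - arg (pR-b) = arg (ratio pR)` since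
both sides agree modulo `2π` and differ by less than `2π`; the same for `b - pL`.
So `G n` is relatively open and closed in `B`; `B` connected.
(2) `qB ∈ G 0`: `Im (z - qB) ≥ 0`; `a z = arg (-i (z - qB)) + π/2 ∈ [0, π]`.
(3) `qT ∈ G 1`: `Im (z - qT) ≤ 0`; `a z = arg (i (z - qT)) - π/2 ∈ [-π, 0]`.
(4) `G 0 ∩ G 1 = ∅`: two continuous arguments of the same function on the connected set `A` differ by a
constant. -/

set_option autoImplicit false

open Set

noncomputable section

namespace Pool.Agent.SPN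

/-- `a` is a continuous argument of `z - b` on `A` with increment `d` from `pL` to `pR` -/
def ArgOn (A : Set ℂ) (pL pR b : ℂ) (d : ℝ) : Prop :=
  ∃ a : ℂ → ℝ, ContinuousOn a A ∧
    (∀ z ∈ A, z - b = ((‖z - b‖ : ℝ) : ℂ) * Complex.exp ((a z : ℂ) * Complex.I)) ∧
    a pR - a pL = d

private lemma sq_arg_mul {u r : ℂ} (hu : u ≠ 0) (hu0 : 0 ≤ u.re) (hr : 0 < r.re) :
    (u * r).arg = u.arg + r.arg := by
  have hr0 : r ≠ 0 := by
    intro h; rw [h] at hr; simp at hr
  rw [Complex.arg_mul_eq_add_arg_iff hu hr0]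
  have h1 := abs_le.1 (Complex.abs_arg_le_pi_div_two_iff.2 hu0)
  have h2 := abs_lt.1 (Complex.abs_arg_lt_pi_div_two_iff.2 (Or.inl hr))
  constructor <;> linarith [h1.1, h1.2, h2.1, h2.2]

private lemma sq_ratio {z b b' : ℂ} {ρ : ℝ} (hρ : 0 < ρ) (hd : ρ ≤ ‖z - b‖)
    (hbb : ‖b - b'‖ < ρ / 4) : 0 < ((z - b') / (z - b)).re := by
  have hz : z - b ≠ 0 := by
    intro h; rw [h, norm_zero] at hd; linarith
  have h1 : (z - b') / (z - b) = 1 + (b - b') / (z - b) := by
    field_simp
    ring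
  have h2 : ‖(b - b') / (z - b)‖ < 1 / 2 := by
    rw [norm_div, div_lt_iff₀ (norm_pos_iff.2 hz)]
    linarith
  have h3 := abs_le.1 (Complex.abs_re_le_norm ((b - b') / (z - b)))
  rw [h1, Complex.add_re, Complex.one_re]
  linarith [h3.1]

theorem argOn_unique {A : Set ℂ} (hA : IsConnected A) {pL pR b : ℂ} (hL : pL ∈ A) (hR : pR ∈ A)
    (hb : b ∉ A) {d d' : ℝ} (h : ArgOn A pL pR b d) (h' : ArgOn A pL pR b d') : d = d' := by
  obtain ⟨a, ha, ha1, ha2⟩ := h
  obtain ⟨a', ha', ha1', ha2'⟩ := h'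
  have hint : ∀ z ∈ A, ∃ n : ℤ, a z - a' z = n * (2 * Real.pi) := by
    intro z hz
    have hzb : z - b ≠ 0 := by
      intro h0
      rw [sub_eq_zero] at h0
      exact hb (h0 ▸ hz)
    have hn : ((‖z - b‖ : ℝ) : ℂ) ≠ 0 := by
      exact_mod_cast (norm_pos_iff.2 hzb).ne'
    have h1 := (ha1 z hz).symm.trans (ha1' z hz)
    have h2 := mul_left_cancel₀ hn h1
    rw [Complex.exp_eq_exp_iff_exists_int] at h2
    obtain ⟨n, hn2⟩ := h2
    refine ⟨n, ?_⟩
    have h3 := congrArg Complex.im hn2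
    simp at h3
    linarith
  have hc : ContinuousOn (fun z => (a z - a' z) / (2 * Real.pi)) A :=
    (ha.sub ha').div_const _
  have hpi := Real.pi_pos
  have hoc := ((isPreconnected_iff_ordConnected).1 (hA.isPreconnected.image _ hc))
  have hval : ∀ z ∈ A, ∃ n : ℤ, (a z - a' z) / (2 * Real.pi) = n := by
    intro z hz
    obtain ⟨n, hn⟩ := hint z hz
    exact ⟨n, by rw [hn]; field_simp⟩
  have hlt : ∀ z ∈ A, ∀ w ∈ A, (a z - a' z) / (2 * Real.pi) ≤ (a w - a' w) / (2 * Real.pi) →
      (a z - a' z) / (2 * Real.pi) = (a w - a' w) / (2 * Real.pi) := by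
    intro z hz w hw hle
    by_contra hne
    have hlt := lt_of_le_of_ne hle hne
    obtain ⟨n, hn⟩ := hval z hz
    obtain ⟨m, hm⟩ := hval w hw
    rw [hn, hm] at hlt
    have hnm : n + 1 ≤ m := by
      have : n < m := by exact_mod_cast hlt
      omega
    have hnm' : (n : ℝ) + 1 ≤ m := by exact_mod_cast hnm
    have hmem := hoc.out (mem_image_of_mem _ hz) (mem_image_of_mem _ hw)
      (show (n : ℝ) + 1 / 2 ∈ Icc _ _ from ⟨by simp only [hn]; linarith, by
        simp only [hm]; linarith⟩)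
    obtain ⟨u, hu, hu2⟩ := hmem
    obtain ⟨k, hk⟩ := hval u hu
    simp only at hu2
    rw [hk] at hu2
    have h5 : (2 * k : ℝ) = 2 * n + 1 := by linarith
    have h6 : 2 * k = 2 * n + 1 := by exact_mod_cast h5
    omega
  have heq : (a pL - a' pL) / (2 * Real.pi) = (a pR - a' pR) / (2 * Real.pi) := by
    rcases le_total ((a pL - a' pL) / (2 * Real.pi)) ((a pR - a' pR) / (2 * Real.pi)) with h | h
    · exact hlt _ hL _ hR h
    · exact (hlt _ hR _ hL h).symm
  have h7 : a pL - a' pL = a pR - a' pR := by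
    have h8 : (2 * Real.pi) ≠ 0 := by positivity
    rwa [div_left_inj' h8] at heq
  linarith

theorem argOn_step {A : Set ℂ} {pL pR b b' : ℂ} (hL : pL ∈ A) (hR : pR ∈ A) {ρ : ℝ} (hρ : 0 < ρ)
    (hd : ∀ z ∈ A, ρ ≤ ‖z - b‖) (hd' : ∀ z ∈ A, ρ ≤ ‖z - b'‖) (hbb : ‖b - b'‖ < ρ / 4)
    (hR0 : 0 ≤ (pR - b).re) (hR0' : 0 ≤ (pR - b').re) (hL0 : 0 ≤ (b - pL).re)
    (hL0' : 0 ≤ (b' - pL).re) {n : ℤ}
    (h : ArgOn A pL pR b (Complex.arg (pR - b) - Complex.arg (b - pL) - Real.pi +
      2 * Real.pi * n)) :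
    ArgOn A pL pR b' (Complex.arg (pR - b') - Complex.arg (b' - pL) - Real.pi +
      2 * Real.pi * n) := by
  obtain ⟨a, ha, ha1, ha2⟩ := h
  have hz : ∀ z ∈ A, z - b ≠ 0 := fun z hz h => by
    have := hd z hz
    rw [h, norm_zero] at this
    linarith
  have hre : ∀ z ∈ A, 0 < ((z - b') / (z - b)).re := fun z hz => sq_ratio hρ (hd z hz) hbb
  refine ⟨fun z => a z + Complex.arg ((z - b') / (z - b)), ?_, ?_, ?_⟩
  · refine ha.add ?_
    intro z hzA
    have h1 : ContinuousAt Complex.arg ((z - b') / (z - b)) :=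
      Complex.continuousAt_arg (Or.inl (hre z hzA))
    have h2 : ContinuousAt (fun z : ℂ => (z - b') / (z - b)) z :=
      (continuousAt_id.sub continuousAt_const).div (continuousAt_id.sub continuousAt_const)
        (hz z hzA)
    exact (ContinuousAt.comp (f := fun z : ℂ => (z - b') / (z - b)) h1 h2).continuousWithinAt
  · intro z hzA
    have h1 := ha1 z hzA
    have h2 := Complex.norm_mul_exp_arg_mul_I ((z - b') / (z - b))
    have h3 : z - b' = (z - b) * ((z - b') / (z - b)) := by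
      field_simp [hz z hzA]
    have h4 : ‖z - b'‖ = ‖z - b‖ * ‖(z - b') / (z - b)‖ := by
      rw [← norm_mul, ← h3]
    rw [h4]
    push_cast
    rw [add_mul, Complex.exp_add]
    calc z - b' = (z - b) * ((z - b') / (z - b)) := h3
      _ = (((‖z - b‖ : ℝ) : ℂ) * Complex.exp ((a z : ℂ) * Complex.I)) *
          (((‖(z - b') / (z - b)‖ : ℝ) : ℂ) *
            Complex.exp (((Complex.arg ((z - b') / (z - b)) : ℝ) : ℂ) * Complex.I)) := by
          rw [← h1, h2]
      _ = _ := by ring
  · have e1 : Complex.arg (pR - b') = Complex.arg (pR - b) +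
        Complex.arg ((pR - b') / (pR - b)) := by
      rw [← sq_arg_mul (hz pR hR) hR0 (hre pR hR)]
      congr 1
      field_simp [hz pR hR]
    have hbL : b - pL ≠ 0 := by
      intro h
      apply hz pL hL
      rw [← neg_sub, h, neg_zero]
    have e0 : (pL - b') / (pL - b) = (b' - pL) / (b - pL) := by
      rw [← neg_sub b' pL, ← neg_sub b pL, neg_div_neg_eq]
    have e2 : Complex.arg (b' - pL) = Complex.arg (b - pL) +
        Complex.arg ((pL - b') / (pL - b)) := by
      have hr := hre pL hL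
      rw [e0] at hr ⊢
      rw [← sq_arg_mul hbL hL0 hr]
      congr 1
      field_simp [hbL]
    simp only
    rw [e1, e2]
    linarith

theorem argOn_bot {A : Set ℂ} {pL pR b : ℂ} (hL : pL ∈ A) (hR : pR ∈ A) (hb : b ∉ A)
    (hA : ∀ z ∈ A, 0 ≤ (z - b).im) (hR0 : 0 ≤ (pR - b).re) (hL0 : 0 ≤ (b - pL).re) :
    ArgOn A pL pR b (Complex.arg (pR - b) - Complex.arg (b - pL) - Real.pi +
      2 * Real.pi * ((0 : ℤ) : ℝ)) := by
  have hpi := Real.pi_pos
  have hz : ∀ z ∈ A, z - b ≠ 0 := fun z hz h => by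
    rw [sub_eq_zero] at h
    exact hb (h ▸ hz)
  have hI : ∀ w : ℂ, (-Complex.I * w).re = w.im ∧ (-Complex.I * w).im = -w.re := by
    intro w; constructor <;> simp
  have hslit : ∀ z ∈ A, -Complex.I * (z - b) ∈ Complex.slitPlane := by
    intro z hzA
    rcases (hA z hzA).lt_or_eq with h | h
    · left; rw [(hI _).1]; exact h
    · right
      rw [(hI _).2]
      intro h0
      apply hz z hzA
      apply Complex.ext
      · rw [Complex.zero_re]; linarith
      · rw [Complex.zero_im]; exact h.symm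
  have hJ : ∀ w : ℂ, w = (-Complex.I * w) * Complex.I := by
    intro w
    have := Complex.I_mul_I
    linear_combination w * this
  have haI : Complex.arg (-Complex.I) = -(Real.pi / 2) := Complex.arg_neg_I
  refine ⟨fun z => Complex.arg (-Complex.I * (z - b)) + Real.pi / 2, ?_, ?_, ?_⟩
  · refine ContinuousOn.add ?_ continuousOn_const
    intro z hzA
    have h1 : ContinuousAt Complex.arg (-Complex.I * (z - b)) :=
      Complex.continuousAt_arg (hslit z hzA)
    have h2 : ContinuousAt (fun z : ℂ => -Complex.I * (z - b)) z :=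
      continuousAt_const.mul (continuousAt_id.sub continuousAt_const)
    exact (ContinuousAt.comp (f := fun z : ℂ => -Complex.I * (z - b)) h1 h2).continuousWithinAt
  · intro z hzA
    have h2 := Complex.norm_mul_exp_arg_mul_I (-Complex.I * (z - b))
    have hn : ‖-Complex.I * (z - b)‖ = ‖z - b‖ := by
      rw [norm_mul, norm_neg, Complex.norm_I, one_mul]
    rw [hn] at h2
    push_cast
    rw [add_mul, Complex.exp_add, ← mul_assoc, h2, Complex.exp_pi_div_two_mul_I]
    exact hJ _
  · simp only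
    have hR1 : pR - b ≠ 0 := hz pR hR
    have hRi : 0 ≤ (pR - b).im := hA pR hR
    have hR2 : Complex.arg (-Complex.I * (pR - b)) = -(Real.pi / 2) + Complex.arg (pR - b) := by
      have h1 := (Complex.arg_mul_eq_add_arg_iff (neg_ne_zero.2 Complex.I_ne_zero) hR1).2 (by
        rw [haI]
        have h3 := Complex.arg_nonneg_iff.2 hRi
        have h4 := abs_le.1 (Complex.abs_arg_le_pi_div_two_iff.2 hR0)
        constructor <;> linarith [h4.1, h4.2])
      rw [h1, haI]
    have hv : b - pL ≠ 0 := by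
      intro h
      apply hz pL hL
      rw [← neg_sub, h, neg_zero]
    have hvi : (b - pL).im ≤ 0 := by
      have := hA pL hL
      simp only [Complex.sub_im] at this ⊢
      linarith
    have hL2 : Complex.arg (-Complex.I * (pL - b)) = Real.pi / 2 + Complex.arg (b - pL) := by
      have e : -Complex.I * (pL - b) = Complex.I * (b - pL) := by ring
      rw [e]
      have h1 := (Complex.arg_mul_eq_add_arg_iff Complex.I_ne_zero hv).2 (by
        rw [Complex.arg_I]
        have h4 := abs_le.1 (Complex.abs_arg_le_pi_div_two_iff.2 hL0)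
        constructor <;> linarith [h4.1, h4.2])
      rw [h1, Complex.arg_I]
    rw [hR2, hL2]
    push_cast
    ring

theorem argOn_top {A : Set ℂ} {pL pR b : ℂ} (hL : pL ∈ A) (hR : pR ∈ A) (hb : b ∉ A)
    (hA : ∀ z ∈ A, (z - b).im ≤ 0) (hR0 : 0 ≤ (pR - b).re) (hL0 : 0 ≤ (b - pL).re) :
    ArgOn A pL pR b (Complex.arg (pR - b) - Complex.arg (b - pL) - Real.pi +
      2 * Real.pi * ((1 : ℤ) : ℝ)) := by
  have hpi := Real.pi_pos
  have hz : ∀ z ∈ A, z - b ≠ 0 := fun z hz h => by
    rw [sub_eq_zero] at h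
    exact hb (h ▸ hz)
  have hI : ∀ w : ℂ, (Complex.I * w).re = -w.im ∧ (Complex.I * w).im = w.re := by
    intro w; constructor <;> simp
  have hslit : ∀ z ∈ A, Complex.I * (z - b) ∈ Complex.slitPlane := by
    intro z hzA
    rcases (hA z hzA).lt_or_eq with h | h
    · left; rw [(hI _).1]; linarith
    · right
      rw [(hI _).2]
      intro h0
      apply hz z hzA
      apply Complex.ext
      · rw [Complex.zero_re]; exact h0
      · rw [Complex.zero_im]; exact h
  have hJ : ∀ w : ℂ, w = (Complex.I * w) * (-Complex.I) := by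
    intro w
    have := Complex.I_mul_I
    linear_combination w * this
  have haI : Complex.arg (-Complex.I) = -(Real.pi / 2) := Complex.arg_neg_I
  refine ⟨fun z => Complex.arg (Complex.I * (z - b)) - Real.pi / 2, ?_, ?_, ?_⟩
  · refine ContinuousOn.sub ?_ continuousOn_const
    intro z hzA
    have h1 : ContinuousAt Complex.arg (Complex.I * (z - b)) :=
      Complex.continuousAt_arg (hslit z hzA)
    have h2 : ContinuousAt (fun z : ℂ => Complex.I * (z - b)) z :=
      continuousAt_const.mul (continuousAt_id.sub continuousAt_const)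
    exact (ContinuousAt.comp (f := fun z : ℂ => Complex.I * (z - b)) h1 h2).continuousWithinAt
  · intro z hzA
    have h2 := Complex.norm_mul_exp_arg_mul_I (Complex.I * (z - b))
    have hn : ‖Complex.I * (z - b)‖ = ‖z - b‖ := by
      rw [norm_mul, Complex.norm_I, one_mul]
    rw [hn] at h2
    have h3 : Complex.exp (((Complex.arg (Complex.I * (z - b)) - Real.pi / 2 : ℝ) : ℂ) *
        Complex.I) = Complex.exp ((Complex.arg (Complex.I * (z - b)) : ℂ) * Complex.I) *
        (-Complex.I) := by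
      have e : (((Complex.arg (Complex.I * (z - b)) - Real.pi / 2 : ℝ) : ℂ) * Complex.I) =
          (Complex.arg (Complex.I * (z - b)) : ℂ) * Complex.I +
          (-(Real.pi / 2 * Complex.I)) := by
        push_cast; ring
      rw [e, Complex.exp_add, Complex.exp_neg, Complex.exp_pi_div_two_mul_I, Complex.inv_I]
    rw [h3, ← mul_assoc, h2]
    exact hJ _
  · simp only
    have hR1 : pR - b ≠ 0 := hz pR hR
    have hRi : (pR - b).im ≤ 0 := hA pR hR
    have hR2 : Complex.arg (Complex.I * (pR - b)) = Real.pi / 2 + Complex.arg (pR - b) := by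
      have h1 := (Complex.arg_mul_eq_add_arg_iff Complex.I_ne_zero hR1).2 (by
        rw [Complex.arg_I]
        have h4 := abs_le.1 (Complex.abs_arg_le_pi_div_two_iff.2 hR0)
        constructor <;> linarith [h4.1, h4.2])
      rw [h1, Complex.arg_I]
    have hv : b - pL ≠ 0 := by
      intro h
      apply hz pL hL
      rw [← neg_sub, h, neg_zero]
    have hvi : 0 ≤ (b - pL).im := by
      have := hA pL hL
      simp only [Complex.sub_im] at this ⊢
      linarith
    have hL2 : Complex.arg (Complex.I * (pL - b)) = -(Real.pi / 2) + Complex.arg (b - pL) := by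
      have e : Complex.I * (pL - b) = -Complex.I * (b - pL) := by ring
      rw [e]
      have h1 := (Complex.arg_mul_eq_add_arg_iff (neg_ne_zero.2 Complex.I_ne_zero) hv).2 (by
        rw [haI]
        have h3 := Complex.arg_nonneg_iff.2 hvi
        have h4 := abs_le.1 (Complex.abs_arg_le_pi_div_two_iff.2 hL0)
        constructor <;> linarith [h4.1, h4.2])
      rw [h1, haI]
    rw [hR2, hL2]
    push_cast
    ring

theorem sq_cross {A B : Set ℂ} (hAc : IsCompact A) (hA : IsConnected A) (hBc : IsCompact B)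
    (hB : IsConnected B) (hAs : ∀ z ∈ A, |z.re| ≤ 1 ∧ |z.im| ≤ 1)
    (hBs : ∀ z ∈ B, |z.re| ≤ 1 ∧ |z.im| ≤ 1) (hL : ∃ z ∈ A, z.re = -1) (hR : ∃ z ∈ A, z.re = 1)
    (hD : ∃ z ∈ B, z.im = -1) (hT : ∃ z ∈ B, z.im = 1) : (A ∩ B).Nonempty := by
  by_contra hne
  rw [not_nonempty_iff_eq_empty] at hne
  have hdis : Disjoint A B := disjoint_iff_inter_eq_empty.2 hne
  obtain ⟨r, hr, hrd⟩ := Metric.exists_pos_forall_lt_edist hAc hBc.isClosed hdis
  obtain ⟨pL, hL, hL1⟩ := hL
  obtain ⟨pR, hR, hR1⟩ := hR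
  obtain ⟨qB, hD, hD1⟩ := hD
  obtain ⟨qT, hT, hT1⟩ := hT
  have hr' : (0 : ℝ) < r := by exact_mod_cast hr
  have hd : ∀ b ∈ B, ∀ z ∈ A, (r : ℝ) ≤ ‖z - b‖ := by
    intro b hb z hz
    have h1 := hrd z hz b hb
    rw [edist_dist, ← ENNReal.ofReal_coe_nnreal, ENNReal.ofReal_lt_ofReal_iff_of_nonneg
      r.coe_nonneg] at h1
    rw [dist_eq_norm] at h1
    exact h1.le
  have hbA : ∀ b ∈ B, b ∉ A := fun b hb hbA => by
    have : b ∈ A ∩ B := ⟨hbA, hb⟩
    rw [hne] at this
    exact this
  have hRb : ∀ b ∈ B, 0 ≤ (pR - b).re := by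
    intro b hb
    have := (abs_le.1 (hBs b hb).1).2
    rw [Complex.sub_re, hR1]
    linarith
  have hLb : ∀ b ∈ B, 0 ≤ (b - pL).re := by
    intro b hb
    have := (abs_le.1 (hBs b hb).1).1
    rw [Complex.sub_re, hL1]
    linarith
  let P : ℂ → Prop := fun b => ArgOn A pL pR b (Complex.arg (pR - b) - Complex.arg (b - pL) -
    Real.pi + 2 * Real.pi * ((0 : ℤ) : ℝ))
  have hstep : ∀ b ∈ B, ∀ b' ∈ B, ‖b - b'‖ < r / 4 → P b → P b' := by
    intro b hb b' hb' hbb h
    exact argOn_step hL hR hr' (hd b hb) (hd b' hb') hbb (hRb b hb) (hRb b' hb') (hLb b hb)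
      (hLb b' hb') h
  haveI : PreconnectedSpace B := Subtype.preconnectedSpace hB.isPreconnected
  have hclopen : IsClopen {b : B | P b} := by
    constructor
    · rw [← isOpen_compl_iff, Metric.isOpen_iff]
      intro b hb
      refine ⟨r / 4, by positivity, fun b' hb' hP => hb ?_⟩
      rw [Metric.mem_ball, Subtype.dist_eq, dist_eq_norm] at hb'
      exact hstep b' b'.2 b b.2 hb' hP
    · rw [Metric.isOpen_iff]
      intro b hb
      refine ⟨r / 4, by positivity, fun b' hb' => ?_⟩
      rw [Metric.mem_ball, Subtype.dist_eq, dist_eq_norm, norm_sub_rev] at hb'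
      exact hstep b b.2 b' b'.2 hb' hb
  have h0 : P qB := by
    refine argOn_bot hL hR (hbA qB hD) (fun z hz => ?_) (hRb qB hD) (hLb qB hD)
    have := (abs_le.1 (hAs z hz).2).1
    rw [Complex.sub_im, hD1]
    linarith
  have huniv := hclopen.eq_univ ⟨⟨qB, hD⟩, h0⟩
  have h1 : P qT := by
    have : (⟨qT, hT⟩ : B) ∈ {b : B | P b} := by rw [huniv]; exact mem_univ _
    exact this
  have h2 := argOn_top hL hR (hbA qT hT) (fun z hz => by
    have := (abs_le.1 (hAs z hz).2).2
    rw [Complex.sub_im, hT1]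
    linarith) (hRb qT hT) (hLb qT hT)
  have h3 := argOn_unique hA hL hR (hbA qT hT) h1 h2
  have hpi := Real.pi_pos
  push_cast at h3
  linarith

end Pool.Agent.SPN
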